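import Mathlib

set_option autoImplicit false

/-!
# MP_8ee7fe_ag (Zariski's multiplicity question), project Zr: definitions

`Wd c k`: the loop `c` (period `2π`, values in `ℂ ∖ 0`) has winding number `k`.
-/

noncomputable section

namespace Zr

open Filter Topology Set

/-- the loop `c` (of period `2π`, in `ℂ ∖ 0`) has winding number `k` -/
def Wd (c : ℝ → ℂ) (k : ℤ) : Prop :=
  ∃ φ : ℝ → ℂ, Continuous φ ∧ (∀ θ, Complex.exp (φ θ) = c θ) ∧
    ∀ θ, φ (θ + 2 * Real.pi) = φ θ + 2 * Real.pi * Complex.I * k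

/-- the point of the unit circle with argument `θ` -/
def cis (θ : ℝ) : ℂ := Complex.exp (θ * Complex.I)

variable {E : Type*} [NormedAddCommGroup E] [NormedSpace ℂ E]

/-- `φ`, `ψ` are inverse homeomorphisms between a neighbourhood of `ψ '' B` and the open set `B`, the zero set of `f`
corresponds to the zero set of `g`; `f`, `g` are holomorphic and their regular zeros are dense in their zeros -/
structure Pair (f g : E → ℂ) (φ ψ : E → E) (B : Set E) : Prop where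
  isOpen : IsOpen B
  g_an : ∀ y ∈ B, AnalyticAt ℂ g y
  f_an : ∀ y ∈ B, AnalyticAt ℂ f (ψ y)
  ψ_cont : ∀ y ∈ B, ContinuousAt ψ y
  φ_cont : ∀ y ∈ B, ContinuousAt φ (ψ y)
  φψ : ∀ y ∈ B, φ (ψ y) = y
  ψφ : ∀ y ∈ B, ∀ᶠ x in 𝓝 (ψ y), ψ (φ x) = x
  zs : ∀ y ∈ B, (f (ψ y) = 0 ↔ g y = 0)
  g_red : ∀ y ∈ B, g y = 0 → y ∈ closure {q | g q = 0 ∧ fderiv ℂ g q ≠ 0}
  f_red : ∀ y ∈ B, f (ψ y) = 0 → ψ y ∈ closure {q | f q = 0 ∧ fderiv ℂ f q ≠ 0}

/-- `P` is the leading form of `f` at `0`, of degree `k` -/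
structure Lead (f : E → ℂ) (k : ℕ) (P : E → ℂ) : Prop where
  diff : Differentiable ℂ P
  hom : ∀ (c : ℂ) (x : E), P (c • x) = c ^ k * P x
  ne : ∃ x, P x ≠ 0
  approx : ∃ C : ℝ, 0 < C ∧ ∃ r : ℝ, 0 < r ∧ ∀ x, ‖x‖ < r → ‖f x - P x‖ ≤ C * ‖x‖ ^ (k + 1)

end Zr
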