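import Pool.Agent.helper60.Zr.Defs

set_option autoImplicit false

/-!
# Zr, module M1: winding numbers of loops (written by helper60)
-/

noncomputable section

namespace Zr

open Filter Topology Set

theorem exists_log {X : Type*} [TopologicalSpace X] [SimplyConnectedSpace X] [LocallyPathConnectedSpace X]
    {F : X → ℂ} (hF : Continuous F) (h0 : ∀ x, F x ≠ 0) :
    ∃ L : X → ℂ, Continuous L ∧ ∀ x, Complex.exp (L x) = F x := by
  obtain ⟨x0⟩ : Nonempty X := inferInstance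
  rcases Complex.isCoveringMapOn_exp.existsUnique_continuousMap_lifts
    ⟨F, hF⟩ (a₀ := x0) (e₀ := Complex.log (F x0)) (Complex.exp_log (h0 x0))
    (fun x ↦ h0 x) with ⟨f, ⟨-, hf⟩, -⟩
  refine ⟨f, map_continuous f, fun x => ?_⟩
  exact congr($hf x)

/-- a continuous function with values in `2πiℤ` is constant -/
theorem M1_const {X : Type*} [TopologicalSpace X] [PreconnectedSpace X] [Nonempty X] {D : X → ℂ} (hD : Continuous D)
    (h : ∀ x, Complex.exp (D x) = 1) : ∃ k : ℤ, ∀ x, D x = 2 * Real.pi * Complex.I * k := by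
  have h' : ∀ x, ∃ n : ℤ, D x = n * (2 * Real.pi * Complex.I) := fun x => Complex.exp_eq_one_iff.1 (h x)
  choose n hn using h'
  have hpi : (2 * Real.pi : ℝ) ≠ 0 := by positivity
  have h1 : ∀ x, (n x : ℝ) = (D x).im / (2 * Real.pi) := by
    intro x
    rw [hn x]
    simp
  have h2 : Continuous n := by
    rw [Int.isClosedEmbedding_coe_real.isEmbedding.continuous_iff]
    have : ((fun m : ℤ => (m : ℝ)) ∘ n) = fun x => (D x).im / (2 * Real.pi) := by
      funext x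
      exact h1 x
    have h3 : Continuous fun x => (D x).im / (2 * Real.pi) := by
      fun_prop
    rw [← this] at h3
    exact h3
  obtain ⟨x0⟩ : Nonempty X := inferInstance
  refine ⟨n x0, fun x => ?_⟩
  rw [hn x, PreconnectedSpace.constant inferInstance h2 (x := x) (y := x0)]
  ring

theorem cis_cont : Continuous cis := by
  unfold cis
  fun_prop

theorem cis_per (θ : ℝ) : cis (θ + 2 * Real.pi) = cis θ := by
  unfold cis
  have : ((θ + 2 * Real.pi : ℝ) : ℂ) * Complex.I = (θ : ℂ) * Complex.I + 2 * Real.pi * Complex.I := by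
    push_cast
    ring
  rw [this]
  exact Complex.exp_periodic _

theorem cis_add (θ s : ℝ) : cis (θ + s) = cis θ * cis s := by
  unfold cis
  rw [← Complex.exp_add]
  congr 1
  push_cast
  ring

theorem cis_norm (θ : ℝ) : ‖cis θ‖ = 1 := by
  unfold cis
  exact Complex.norm_exp_ofReal_mul_I θ

theorem exists_cis {w : ℂ} (hw : ‖w‖ = 1) : ∃ θ : ℝ, cis θ = w := by
  refine ⟨w.arg, ?_⟩
  unfold cis
  have := Complex.norm_mul_exp_arg_mul_I w
  rw [hw] at this
  simpa using this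

theorem Wd.cont {c : ℝ → ℂ} {k : ℤ} (h : Wd c k) : Continuous c := by
  obtain ⟨φ, h1, h2, h3⟩ := h
  have : c = fun θ => Complex.exp (φ θ) := by
    funext θ
    exact (h2 θ).symm
  rw [this]
  exact Complex.continuous_exp.comp h1

theorem Wd.ne {c : ℝ → ℂ} {k : ℤ} (h : Wd c k) (θ : ℝ) : c θ ≠ 0 := by
  obtain ⟨φ, h1, h2, h3⟩ := h
  rw [← h2 θ]
  exact Complex.exp_ne_zero _

theorem Wd.per {c : ℝ → ℂ} {k : ℤ} (h : Wd c k) (θ : ℝ) : c (θ + 2 * Real.pi) = c θ := by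
  obtain ⟨φ, h1, h2, h3⟩ := h
  rw [← h2 θ, ← h2 (θ + 2 * Real.pi), h3 θ, Complex.exp_add]
  have : Complex.exp (2 * Real.pi * Complex.I * k) = 1 := by
    rw [Complex.exp_eq_one_iff]
    exact ⟨k, by ring⟩
  rw [this, mul_one]

theorem Wd.ex {c : ℝ → ℂ} (hc : Continuous c) (h0 : ∀ θ, c θ ≠ 0) (hp : ∀ θ, c (θ + 2 * Real.pi) = c θ) :
    ∃ k : ℤ, Wd c k := by
  obtain ⟨L, hL, hL'⟩ := exists_log hc h0
  obtain ⟨k, hk⟩ := M1_const (D := fun θ : ℝ => L (θ + 2 * Real.pi) - L θ) (by fun_prop) (by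
    intro θ
    rw [Complex.exp_sub, hL', hL', hp, div_self (h0 θ)])
  refine ⟨k, L, hL, hL', fun θ => ?_⟩
  rw [← hk θ]
  ring

theorem Wd.uniq {c : ℝ → ℂ} {k k' : ℤ} (h : Wd c k) (h' : Wd c k') : k = k' := by
  have h0 := h.ne
  obtain ⟨φ, h1, h2, h3⟩ := h
  obtain ⟨φ', h1', h2', h3'⟩ := h'
  obtain ⟨j, hj⟩ := M1_const (D := fun θ : ℝ => φ θ - φ' θ) (by fun_prop) (by
    intro θ
    rw [Complex.exp_sub, h2, h2', div_self (h0 θ)])
  have a := hj 0
  have b := hj (0 + 2 * Real.pi)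
  simp only [h3, h3'] at b
  have hc : (2 * Real.pi * Complex.I : ℂ) * k = 2 * Real.pi * Complex.I * k' := by
    linear_combination b - a
  have hne : (2 * Real.pi * Complex.I : ℂ) ≠ 0 := Complex.two_pi_I_ne_zero
  have := mul_left_cancel₀ hne hc
  exact_mod_cast this

theorem Wd.htpy {H : ℝ → ℝ → ℂ} (hH : ContinuousOn (fun p : ℝ × ℝ => H p.1 p.2) (univ ×ˢ Icc (0:ℝ) 1))
    (h0 : ∀ t ∈ Icc (0:ℝ) 1, ∀ θ, H θ t ≠ 0) (hp : ∀ t ∈ Icc (0:ℝ) 1, ∀ θ, H (θ + 2 * Real.pi) t = H θ t)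
    {k : ℤ} (h : Wd (fun θ => H θ 0) k) : Wd (fun θ => H θ 1) k := by
  have hmem : ∀ t : ℝ, ((projIcc (0:ℝ) 1 zero_le_one t : Icc (0:ℝ) 1) : ℝ) ∈ Icc (0:ℝ) 1 := fun t => Subtype.coe_prop _
  have hF : Continuous (fun p : ℝ × ℝ => H p.1 (projIcc (0:ℝ) 1 zero_le_one p.2 : Icc (0:ℝ) 1)) := by
    have hg : Continuous (fun p : ℝ × ℝ => (p.1, ((projIcc (0:ℝ) 1 zero_le_one p.2 : Icc (0:ℝ) 1) : ℝ))) := by
      refine continuous_fst.prodMk ?_
      exact continuous_subtype_val.comp (continuous_projIcc.comp continuous_snd)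
    exact hH.comp_continuous hg (fun p => ⟨mem_univ _, hmem _⟩)
  obtain ⟨L, hL, hL'⟩ := exists_log hF (fun p => h0 _ (hmem _) _)
  obtain ⟨k1, hk1⟩ := M1_const (D := fun p : ℝ × ℝ => L (p.1 + 2 * Real.pi, p.2) - L p) (by fun_prop) (by
    intro p
    rw [Complex.exp_sub, hL', hL']
    rw [hp _ (hmem _), div_self (h0 _ (hmem _) _)])
  have key : ∀ t ∈ Icc (0:ℝ) 1, Wd (fun θ => H θ t) k1 := by
    intro t ht
    refine ⟨fun θ => L (θ, t), by fun_prop, fun θ => ?_, fun θ => ?_⟩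
    · rw [hL']
      simp only
      rw [projIcc_of_mem zero_le_one ht]
    · have := hk1 (θ, t)
      simp only at this
      rw [← this]
      ring
  have h1 := key 0 (by simp)
  rw [h.uniq h1]
  exact key 1 (by simp)

theorem Wd.mul {c c' : ℝ → ℂ} {k k' : ℤ} (h : Wd c k) (h' : Wd c' k') : Wd (fun θ => c θ * c' θ) (k + k') := by
  obtain ⟨φ, h1, h2, h3⟩ := h
  obtain ⟨φ', h1', h2', h3'⟩ := h'
  refine ⟨fun θ => φ θ + φ' θ, by fun_prop, fun θ => ?_, fun θ => ?_⟩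
  · rw [Complex.exp_add, h2, h2']
  · simp only [h3, h3']
    push_cast
    ring

theorem Wd.inv {c : ℝ → ℂ} {k : ℤ} (h : Wd c k) : Wd (fun θ => (c θ)⁻¹) (-k) := by
  obtain ⟨φ, h1, h2, h3⟩ := h
  refine ⟨fun θ => - φ θ, by fun_prop, fun θ => ?_, fun θ => ?_⟩
  · rw [Complex.exp_neg, h2]
  · simp only [h3]
    push_cast
    ring

theorem Wd.zpow {c : ℝ → ℂ} {k : ℤ} (h : Wd c k) (j : ℤ) : Wd (fun θ => c θ ^ j) (j * k) := by
  obtain ⟨φ, h1, h2, h3⟩ := h
  refine ⟨fun θ => j * φ θ, by fun_prop, fun θ => ?_, fun θ => ?_⟩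
  · rw [Complex.exp_int_mul, h2]
  · simp only [h3]
    push_cast
    ring

theorem Wd.const {a : ℂ} (ha : a ≠ 0) : Wd (fun _ => a) 0 := by
  refine ⟨fun _ => Complex.log a, by fun_prop, fun θ => Complex.exp_log ha, fun θ => ?_⟩
  simp

theorem Wd.cis : Wd Zr.cis 1 := by
  refine ⟨fun θ => θ * Complex.I, by fun_prop, fun θ => rfl, fun θ => ?_⟩
  push_cast
  ring

theorem Wd.cis_sub {a : ℂ} (ha : ‖a‖ < 1) : Wd (fun θ => Zr.cis θ - a) 1 := by
  have hc := cis_cont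
  have := Wd.htpy (H := fun θ t => Zr.cis θ - t * a) (k := 1) (by fun_prop) (by
    intro t ht θ h
    have h1 : ‖Zr.cis θ‖ = ‖(t : ℂ) * a‖ := by
      rw [sub_eq_zero.1 h]
    rw [cis_norm, norm_mul, Complex.norm_real, Real.norm_eq_abs, abs_of_nonneg ht.1] at h1
    have : t * ‖a‖ ≤ 1 * ‖a‖ := mul_le_mul_of_nonneg_right ht.2 (norm_nonneg _)
    linarith) (by
    intro t ht θ
    rw [cis_per]) (by
    have := Wd.cis
    simpa using this)
  simpa using this

/-- Rouché -/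
theorem Wd.close {c c' : ℝ → ℂ} {k : ℤ} (h : Wd c k) (hc' : Continuous c')
    (hp' : ∀ θ, c' (θ + 2 * Real.pi) = c' θ) (h1 : ∀ θ, ‖c' θ - c θ‖ < ‖c θ‖) : Wd c' k := by
  have hc := h.cont
  have := Wd.htpy (H := fun θ t => c θ + t * (c' θ - c θ)) (k := k) (by fun_prop) (by
    intro t ht θ h
    have h2 : ‖c θ‖ = ‖(t : ℂ) * (c' θ - c θ)‖ := by
      rw [← norm_neg (c θ)]
      congr 1
      linear_combination -h
    rw [norm_mul, Complex.norm_real, Real.norm_eq_abs, abs_of_nonneg ht.1] at h2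
    have h3 : t * ‖c' θ - c θ‖ ≤ 1 * ‖c' θ - c θ‖ := mul_le_mul_of_nonneg_right ht.2 (norm_nonneg _)
    have := h1 θ
    linarith) (by
    intro t ht θ
    rw [hp', h.per]) (by simpa using h)
  simpa using this

theorem Wd.disc {F : ℂ → ℂ} (hF : ContinuousOn F (Metric.closedBall 0 1))
    (h0 : ∀ w ∈ Metric.closedBall (0:ℂ) 1, F w ≠ 0) : Wd (fun θ => F (Zr.cis θ)) 0 := by
  have hc := cis_cont
  have hm : ∀ t ∈ Icc (0:ℝ) 1, ∀ θ : ℝ, (t : ℂ) * Zr.cis θ ∈ Metric.closedBall (0:ℂ) 1 := by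
    intro t ht θ
    rw [mem_closedBall_zero_iff, norm_mul, cis_norm, Complex.norm_real, Real.norm_eq_abs, abs_of_nonneg ht.1,
      mul_one]
    exact ht.2
  have := Wd.htpy (H := fun θ t => F (t * Zr.cis θ)) (k := 0) (by
      refine ContinuousOn.comp (g := F) (f := fun p : ℝ × ℝ => (p.2 : ℂ) * Zr.cis p.1) hF (by fun_prop) ?_
      intro p hp
      exact hm _ hp.2 _) (by
    intro t ht θ
    exact h0 _ (hm t ht θ)) (by
    intro t ht θ
    rw [cis_per]) (by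
    have h1 := Wd.const (h0 0 (by simp))
    simpa using h1)
  simpa using this

/-- reversed orientation -/
theorem Wd.rev {c : ℝ → ℂ} {k : ℤ} (h : Wd c k) : Wd (fun θ => c (-θ)) (-k) := by
  obtain ⟨φ, h1, h2, h3⟩ := h
  refine ⟨fun θ => φ (-θ), by fun_prop, fun θ => h2 _, fun θ => ?_⟩
  have := h3 (-(θ + 2 * Real.pi))
  have e : -(θ + 2 * Real.pi) + 2 * Real.pi = -θ := by ring
  rw [e] at this
  simp only
  rw [this]
  push_cast
  ring

theorem M1_iter {L : ℝ → ℂ} {a : ℂ} (h : ∀ x, L (x + 2 * Real.pi) = L x + a) (j : ℤ) (x : ℝ) :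
    L (x + 2 * Real.pi * j) = L x + j * a := by
  induction j using Int.induction_on generalizing x with
  | zero => simp
  | succ i hi =>
    have e : x + 2 * Real.pi * ((i : ℤ) + 1 : ℤ) = (x + 2 * Real.pi * (i : ℤ)) + 2 * Real.pi := by
      push_cast
      ring
    rw [e, h, hi]
    push_cast
    ring
  | pred i hi =>
    have e : x + 2 * Real.pi * ((-(i : ℤ) - 1 : ℤ)) + 2 * Real.pi = x + 2 * Real.pi * (-(i : ℤ) : ℤ) := by
      push_cast
      ring
    have := h (x + 2 * Real.pi * ((-(i : ℤ) - 1 : ℤ)))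
    rw [e, hi] at this
    have h2 : L (x + 2 * Real.pi * ((-(i : ℤ) - 1 : ℤ))) = L x + ((-(i : ℤ) : ℤ) : ℂ) * a - a := by
      rw [this]
      ring
    rw [h2]
    push_cast
    ring

theorem Wd.torus {T : ℝ → ℝ → ℂ} (hT : Continuous (fun p : ℝ × ℝ => T p.1 p.2)) (h0 : ∀ θ s, T θ s ≠ 0)
    (hp1 : ∀ θ s, T (θ + 2 * Real.pi) s = T θ s) (hp2 : ∀ θ s, T θ (s + 2 * Real.pi) = T θ s) {p q : ℤ}
    (h1 : Wd (fun θ => T θ 0) p) (h2 : Wd (fun s => T 0 s) q) (j l : ℤ) :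
    Wd (fun θ => T (j * θ) (l * θ)) (j * p + l * q) := by
  obtain ⟨L, hL, hL'⟩ := exists_log hT (fun x => h0 x.1 x.2)
  obtain ⟨p', hp'⟩ := M1_const (D := fun x : ℝ × ℝ => L (x.1 + 2 * Real.pi, x.2) - L x) (by fun_prop) (by
    intro x
    rw [Complex.exp_sub, hL', hL', hp1, div_self (h0 _ _)])
  obtain ⟨q', hq'⟩ := M1_const (D := fun x : ℝ × ℝ => L (x.1, x.2 + 2 * Real.pi) - L x) (by fun_prop) (by
    intro x
    rw [Complex.exp_sub, hL', hL', hp2, div_self (h0 _ _)])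
  have e1 : p = p' := h1.uniq ⟨fun θ => L (θ, 0), by fun_prop, fun θ => hL' _, fun θ => by
    have := hp' (θ, 0)
    simp only at this ⊢
    rw [← this]
    ring⟩
  have e2 : q = q' := h2.uniq ⟨fun s => L (0, s), by fun_prop, fun s => hL' _, fun s => by
    have := hq' (0, s)
    simp only at this ⊢
    rw [← this]
    ring⟩
  subst e1 e2
  refine ⟨fun θ => L (j * θ, l * θ), by fun_prop, fun θ => hL' _, fun θ => ?_⟩
  have a1 : ∀ s x : ℝ, L (x + 2 * Real.pi, s) = L (x, s) + 2 * Real.pi * Complex.I * p := by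
    intro s x
    rw [← hp' (x, s)]
    ring
  have a2 : ∀ x s : ℝ, L (x, s + 2 * Real.pi) = L (x, s) + 2 * Real.pi * Complex.I * q := by
    intro x s
    rw [← hq' (x, s)]
    ring
  have b1 := M1_iter (L := fun x => L (x, l * θ + 2 * Real.pi * l)) (a1 _) j (j * θ)
  have b2 := M1_iter (L := fun s => L (j * θ, s)) (a2 _) l (l * θ)
  have c1 : (j : ℝ) * (θ + 2 * Real.pi) = j * θ + 2 * Real.pi * j := by ring
  have c2 : (l : ℝ) * (θ + 2 * Real.pi) = l * θ + 2 * Real.pi * l := by ring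
  show L (j * (θ + 2 * Real.pi), l * (θ + 2 * Real.pi)) = L (j * θ, l * θ) + _
  rw [c1, c2, b1, b2]
  push_cast
  ring

end Zr
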