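import Pool.Agent.helper60.Zr.M1

set_option autoImplicit false

/-!
# Zr, module M6: the leading form

`exists_lead`: `HasFPowerSeriesAt f p 0`, `P x = p k (x, .., x)` for the least `k` with `P ≠ 0` (if all diagonals vanish, `f = 0` near `0`);
`HasFPowerSeriesAt.isBigO_sub_partialSum_pow`.
`lead_order`: if `j ≤ k`: the diagonals `p i (x, .., x)` vanish for `i < k` (compare `f (z x)` with `P (z x)`), so `p'` with `p' i = 0` for `i < k`, `p' i = p i`
otherwise, is also a power series of `f` (`HasFPowerSeriesOnBall`, same sums), and `HasFPowerSeriesOnBall.iteratedFDeriv_eq_sum` (or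
`HasFPowerSeriesAt.iteratedFDeriv...`) gives `iteratedFDeriv i f 0 = 0` for `i < k`. Conversely if `j > k` and `iteratedFDeriv k f 0 = 0`, then
`p k (x, .., x) = (k!)⁻¹ iteratedFDeriv k f 0 (x, .., x) = 0` for all `x` (`HasFPowerSeriesOnBall.factorial_smul`), but `p k (x, .., x) = P x` (uniqueness: `f (z x) = z ^ k P x
+ O(z ^ (k + 1))`).
`kappa`: `v` maximises `‖P‖` on the closed unit ball (compact), `‖v‖ = 1`, `M = ‖P v‖ > 0`. For `‖u‖ ≤ κ`, `4 k κ < 1`: put `q τ = P (v + τ • u')`, `‖u'‖ = 1 / k`,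
`‖τ‖ < 1`: `‖q τ‖ ≤ (1 + 1 / k) ^ k M ≤ e M`, so `q - q 0` maps the unit disc to the ball of radius `4 M` and by the Schwarz lemma
(`Complex.dist_le_div_mul_dist_of_mapsTo_ball` or similar) `‖P (v + u) - P v‖ ≤ 4 M k ‖u‖ < M`: `‖P (v + u)‖ ≥ (1 - 4 k κ) M`. Then `x = z • (v + u)`,
`‖P x‖ = ‖z‖ ^ k ‖P (v + u)‖` beats the error term `C ‖x‖ ^ (k + 1)` for small `z`.
`lead_wd`: `Wd.close` with `P ((r cis θ) • v) = r ^ k cis θ ^ k P v`.
-/

noncomputable section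

namespace Zr

open Filter Topology Set

variable {E : Type*} [NormedAddCommGroup E] [NormedSpace ℂ E] [FiniteDimensional ℂ E]

/-- the leading form is the limit of `f (z x) / z ^ k` -/
theorem M6_lim {f : E → ℂ} {k : ℕ} {P : E → ℂ} (h : Lead f k P) (x : E) :
    Tendsto (fun z : ℂ => f (z • x) / z ^ k) (𝓝[≠] 0) (𝓝 (P x)) := by
  obtain ⟨C, hC, r, hr, hap⟩ := h.approx
  rw [tendsto_iff_norm_sub_tendsto_zero]
  have h1 : Tendsto (fun z : ℂ => C * (‖z‖ * ‖x‖ ^ (k + 1))) (𝓝[≠] 0) (𝓝 0) := by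
    have : Tendsto (fun z : ℂ => C * (‖z‖ * ‖x‖ ^ (k + 1))) (𝓝 0) (𝓝 (C * (‖(0 : ℂ)‖ * ‖x‖ ^ (k + 1)))) := by
      apply Continuous.tendsto
      fun_prop
    rw [norm_zero, zero_mul, mul_zero] at this
    exact this.mono_left nhdsWithin_le_nhds
  have h2 : ∀ᶠ z : ℂ in 𝓝[≠] 0, ‖z • x‖ < r := by
    have : Tendsto (fun z : ℂ => ‖z • x‖) (𝓝 0) (𝓝 ‖(0 : ℂ) • x‖) := by
      apply Continuous.tendsto
      fun_prop
    rw [zero_smul, norm_zero] at this
    exact (this.mono_left nhdsWithin_le_nhds).eventually (gt_mem_nhds hr)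
  refine squeeze_zero' (Eventually.of_forall fun z => norm_nonneg _) ?_ h1
  filter_upwards [h2, self_mem_nhdsWithin] with z hz hz0
  have hz0' : z ≠ 0 := hz0
  have hzk : z ^ k ≠ 0 := pow_ne_zero _ hz0'
  have e1 : f (z • x) / z ^ k - P x = (f (z • x) - P (z • x)) / z ^ k := by
    rw [h.hom, sub_div, mul_div_cancel_left₀ _ hzk]
  rw [e1, norm_div, norm_pow, div_le_iff₀ (pow_pos (norm_pos_iff.2 hz0') k)]
  refine (hap _ hz).trans (le_of_eq ?_)
  rw [norm_smul]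
  ring

theorem M6_ev {f : E → ℂ} {k : ℕ} {P : E → ℂ} (h : Lead f k P) : ¬ ∀ᶠ x in 𝓝 (0 : E), f x = 0 := by
  intro h0
  obtain ⟨x, hx⟩ := h.ne
  have h1 : Tendsto (fun z : ℂ => z • x) (𝓝[≠] 0) (𝓝 0) := by
    have : Tendsto (fun z : ℂ => z • x) (𝓝 0) (𝓝 ((0 : ℂ) • x)) := by
      apply Continuous.tendsto
      fun_prop
    rw [zero_smul] at this
    exact this.mono_left nhdsWithin_le_nhds
  have h2 : (fun z : ℂ => f (z • x) / z ^ k) =ᶠ[𝓝[≠] 0] fun _ => 0 := by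
    filter_upwards [h1.eventually h0] with z hz
    rw [hz, zero_div]
  exact hx (tendsto_nhds_unique ((M6_lim h x).congr' h2) tendsto_const_nhds)

theorem M6_le {f : E → ℂ} {k m : ℕ} {P Q : E → ℂ} (h : Lead f k P) (h' : Lead f m Q) (hkm : k ≤ m) :
    k = m ∧ P = Q := by
  have h1 : ∀ x, P x = 0 ^ (m - k) * Q x := by
    intro x
    have e1 : Tendsto (fun z : ℂ => z ^ (m - k)) (𝓝[≠] 0) (𝓝 (0 ^ (m - k))) := by
      have : Tendsto (fun z : ℂ => z ^ (m - k)) (𝓝 0) (𝓝 (0 ^ (m - k))) := by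
        apply Continuous.tendsto
        fun_prop
      exact this.mono_left nhdsWithin_le_nhds
    have e2 := e1.mul (M6_lim h' x)
    refine tendsto_nhds_unique (M6_lim h x) (e2.congr' ?_)
    filter_upwards [self_mem_nhdsWithin] with z hz0
    have hz0' : z ≠ 0 := hz0
    have e3 : z ^ m = z ^ (m - k) * z ^ k := by
      rw [← pow_add]
      congr 1
      omega
    rw [e3]
    field_simp
  have h2 : k = m := by
    by_contra hne
    obtain ⟨x, hx⟩ := h.ne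
    rw [h1 x, zero_pow (by omega), zero_mul] at hx
    exact hx rfl
  refine ⟨h2, ?_⟩
  funext x
  rw [h1 x, h2, Nat.sub_self, pow_zero, one_mul]

theorem M6_uniq {f : E → ℂ} {k m : ℕ} {P Q : E → ℂ} (h : Lead f k P) (h' : Lead f m Q) :
    k = m ∧ P = Q := by
  rcases le_total k m with hkm | hkm
  · exact M6_le h h' hkm
  · obtain ⟨h1, h2⟩ := M6_le h' h hkm
    exact ⟨h1.symm, h2.symm⟩

theorem M6_exists {f : E → ℂ} {p : FormalMultilinearSeries ℂ E ℂ} (hp : HasFPowerSeriesAt f p 0)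
    (h : ¬ ∀ᶠ x in 𝓝 (0 : E), f x = 0) :
    ∃ k : ℕ, Lead f k (fun x => p k (fun _ => x)) ∧ ∀ i < k, ∀ x, p i (fun _ => x) = 0 := by
  classical
  have h1 : ∃ k : ℕ, ∃ x, p k (fun _ => x) ≠ 0 := by
    by_contra hcon
    push Not at hcon
    apply h
    have := hp.eventually_hasSum
    filter_upwards [this] with x hx
    simp only [hcon, zero_add] at hx
    exact hx.unique hasSum_zero
  refine ⟨Nat.find h1, ⟨?_, ?_, Nat.find_spec h1, ?_⟩, ?_⟩
  · have : ContDiff ℂ 1 (fun x : E => p (Nat.find h1) (fun _ => x)) := by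
      refine (p (Nat.find h1)).contDiff.comp ?_
      exact contDiff_pi.2 fun _ => contDiff_id
    exact this.differentiable (by norm_num)
  · intro c x
    have := (p (Nat.find h1)).map_smul_univ (fun _ => c) (fun _ => x)
    simpa using this
  · have hO := hp.isBigO_sub_partialSum_pow (Nat.find h1 + 1)
    obtain ⟨C, hC, hC'⟩ := hO.exists_pos
    rw [Asymptotics.IsBigOWith] at hC'
    obtain ⟨r, hr, hr'⟩ := Metric.eventually_nhds_iff_ball.1 hC'
    refine ⟨C, hC, r, hr, fun x hx => ?_⟩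
    have h2 := hr' x (by rwa [mem_ball_zero_iff])
    have h3 : p.partialSum (Nat.find h1 + 1) x = p (Nat.find h1) (fun _ => x) := by
      unfold FormalMultilinearSeries.partialSum
      rw [Finset.sum_range_succ, Finset.sum_eq_zero, zero_add]
      intro i hi
      by_contra hne
      exact Nat.find_min h1 (Finset.mem_range.1 hi) ⟨x, hne⟩
    rw [h3, zero_add, norm_pow, norm_norm] at h2
    exact h2
  · intro i hi x
    by_contra hne
    exact Nat.find_min h1 hi ⟨x, hne⟩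

theorem exists_lead {f : E → ℂ} (hf : AnalyticAt ℂ f 0) (h : ¬ ∀ᶠ x in 𝓝 (0 : E), f x = 0) :
    ∃ (k : ℕ) (P : E → ℂ), Lead f k P := by
  obtain ⟨p, hp⟩ := hf
  obtain ⟨k, hk, -⟩ := M6_exists hp h
  exact ⟨k, _, hk⟩

theorem lead_order {f : E → ℂ} (hf : AnalyticAt ℂ f 0) {k : ℕ} {P : E → ℂ} (h : Lead f k P) (j : ℕ) :
    (∀ i < j, iteratedFDeriv ℂ i f 0 = 0) ↔ j ≤ k := by
  classical
  obtain ⟨p, r, hp⟩ := hf
  obtain ⟨m, hm, hm'⟩ := M6_exists hp.hasFPowerSeriesAt (M6_ev h)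
  obtain ⟨rfl, hP⟩ := M6_uniq h hm
  constructor
  · intro h1
    by_contra hcon
    obtain ⟨x, hx⟩ := h.ne
    have h2 := h1 k (by omega)
    have h3 := hp.factorial_smul x k
    rw [h2] at h3
    apply hx
    rw [hP]
    have h4 : (Nat.factorial k) • (p k fun _ => x) = 0 := by
      rw [h3]
      simp
    rcases smul_eq_zero.1 h4 with h5 | h5
    · exact absurd h5 (Nat.factorial_ne_zero k)
    · exact h5
  · intro hjk i hi
    let p' : FormalMultilinearSeries ℂ E ℂ := fun i => if i < k then 0 else p i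
    have hp' : HasFPowerSeriesOnBall f p' 0 r := by
      refine ⟨hp.r_le.trans (FormalMultilinearSeries.radius_le_of_le fun n => ?_), hp.r_pos, ?_⟩
      · show ‖(if n < k then 0 else p n)‖ ≤ ‖p n‖
        split_ifs
        · simp
        · exact le_rfl
      · intro y hy
        have h1 := hp.hasSum hy
        have h2 : (fun n => p' n fun _ => y) = fun n => p n fun _ => y := by
          funext n
          show (if n < k then 0 else p n) (fun _ => y) = p n fun _ => y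
          split_ifs with hn
          · rw [hm' n hn y]
            rfl
          · rfl
        rw [h2]
        exact h1
    ext v
    rw [hp'.iteratedFDeriv_eq_sum_of_completeSpace v]
    have h3 : p' i = 0 := if_pos (by omega)
    rw [h3]
    simp

theorem M6_bound {k : ℕ} {P : E → ℂ} (hd : Continuous P) (hom : ∀ (c : ℂ) (x : E), P (c • x) = c ^ k * P x)
    (hne : ∃ x, P x ≠ 0) (hk : 1 ≤ k) :
    ∃ v : E, ‖v‖ = 1 ∧ P v ≠ 0 ∧ ∀ x, ‖P x‖ ≤ ‖P v‖ * ‖x‖ ^ k := by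
  haveI : ProperSpace E := FiniteDimensional.proper ℂ E
  have h0 : P 0 = 0 := by
    have := hom 0 0
    rwa [zero_smul, zero_pow (by omega), zero_mul] at this
  obtain ⟨x, hx⟩ := hne
  have hx0 : x ≠ 0 := by
    rintro rfl
    exact hx h0
  obtain ⟨v, hv, hmax⟩ := (isCompact_closedBall (0 : E) 1).exists_isMaxOn ⟨0, by simp⟩
    hd.norm.continuousOn
  have hmax' : ∀ y : E, ‖y‖ ≤ 1 → ‖P y‖ ≤ ‖P v‖ := by
    intro y hy
    exact hmax (by rwa [mem_closedBall_zero_iff])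
  have hall : ∀ y, ‖P y‖ ≤ ‖P v‖ * ‖y‖ ^ k := by
    intro y
    rcases eq_or_ne y 0 with rfl | hy
    · rw [h0, norm_zero]
      positivity
    · have hy' : 0 < ‖y‖ := norm_pos_iff.2 hy
      have h1 := hmax' ((((‖y‖⁻¹ : ℝ) : ℂ)) • y) (by
        rw [norm_smul, Complex.norm_real, norm_inv, norm_norm, inv_mul_cancel₀ hy'.ne'])
      rw [hom, norm_mul, norm_pow, Complex.norm_real, norm_inv, norm_norm, inv_pow,
        inv_mul_le_iff₀ (by positivity)] at h1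
      linarith [mul_comm (‖y‖ ^ k) ‖P v‖]
  have hv0 : 0 < ‖P v‖ := by
    have h1 := hall x
    by_contra hcon
    have h2 : ‖P v‖ = 0 := le_antisymm (not_lt.1 hcon) (norm_nonneg _)
    rw [h2, zero_mul] at h1
    exact hx (norm_le_zero_iff.1 h1)
  refine ⟨v, ?_, norm_pos_iff.1 hv0, hall⟩
  have hv1 : ‖v‖ ≤ 1 := by rwa [mem_closedBall_zero_iff] at hv
  by_contra hcon
  have hlt : ‖v‖ < 1 := lt_of_le_of_ne hv1 hcon
  have h1 := hall v
  have h2 : ‖v‖ ^ k < 1 := pow_lt_one₀ (norm_nonneg _) hlt (by omega)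
  nlinarith

theorem M6_schwarz {k : ℕ} {P : E → ℂ} (hd : Differentiable ℂ P) (hk : 1 ≤ k) {v : E} (hv : ‖v‖ = 1)
    (hv0 : P v ≠ 0) (hb : ∀ x, ‖P x‖ ≤ ‖P v‖ * ‖x‖ ^ k) {u : E} (hu : 4 * k * ‖u‖ < 1) :
    (1 - 4 * k * ‖u‖) * ‖P v‖ ≤ ‖P (v + u)‖ := by
  have hM : 0 < ‖P v‖ := norm_pos_iff.2 hv0
  rcases eq_or_ne u 0 with rfl | hu0
  · simp
  have hu' : 0 < ‖u‖ := norm_pos_iff.2 hu0
  have hk' : (0 : ℝ) < k := by exact_mod_cast hk
  set a : ℝ := k * ‖u‖ with ha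
  have ha0 : 0 < a := by positivity
  have ha1 : a < 1 := by nlinarith
  let u' : E := ((a⁻¹ : ℝ) : ℂ) • u
  have hu'n : ‖u'‖ = 1 / k := by
    show ‖((a⁻¹ : ℝ) : ℂ) • u‖ = 1 / k
    rw [norm_smul, Complex.norm_real, norm_inv, Real.norm_eq_abs, abs_of_pos ha0, ha]
    field_simp
  have hau : (a : ℂ) • u' = u := by
    show (a : ℂ) • (((a⁻¹ : ℝ) : ℂ) • u) = u
    rw [smul_smul, ← Complex.ofReal_mul, mul_inv_cancel₀ ha0.ne', Complex.ofReal_one, one_smul]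
  let q : ℂ → ℂ := fun τ => P (v + τ • u')
  have hq : Differentiable ℂ q := by
    refine hd.comp ?_
    fun_prop
  have hexp : ((1 : ℝ) + 1 / k) ^ k ≤ 3 := by
    have h1 : (1 : ℝ) + 1 / k ≤ Real.exp (1 / k) := by
      have := Real.add_one_le_exp (1 / (k : ℝ))
      linarith
    have h2 : ((1 : ℝ) + 1 / k) ^ k ≤ Real.exp (1 / k) ^ k := pow_le_pow_left₀ (by positivity) h1 k
    rw [← Real.exp_nat_mul, mul_one_div, div_self hk'.ne'] at h2
    have h3 := Real.exp_one_lt_d9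
    linarith
  have hq3 : ∀ τ ∈ Metric.ball (0 : ℂ) 1, ‖q τ‖ ≤ 3 * ‖P v‖ := by
    intro τ hτ
    rw [mem_ball_zero_iff] at hτ
    have h1 : ‖v + τ • u'‖ ≤ 1 + 1 / k := by
      refine (norm_add_le _ _).trans ?_
      rw [norm_smul, hv, hu'n]
      have : ‖τ‖ * (1 / (k : ℝ)) ≤ 1 * (1 / k) := mul_le_mul_of_nonneg_right hτ.le (by positivity)
      linarith
    calc ‖q τ‖ ≤ ‖P v‖ * ‖v + τ • u'‖ ^ k := hb _
      _ ≤ ‖P v‖ * (1 + 1 / k) ^ k := by gcongr
      _ ≤ ‖P v‖ * 3 := by gcongr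
      _ = 3 * ‖P v‖ := by ring
  have hq0 : q 0 = P v := by
    show P (v + (0 : ℂ) • u') = P v
    rw [zero_smul, add_zero]
  have hmaps : MapsTo q (Metric.ball (0 : ℂ) 1) (Metric.closedBall (q 0) (4 * ‖P v‖)) := by
    intro τ hτ
    rw [Metric.mem_closedBall, dist_eq_norm]
    refine (norm_sub_le _ _).trans ?_
    rw [hq0]
    linarith [hq3 τ hτ]
  have hmem : (a : ℂ) ∈ Metric.ball (0 : ℂ) 1 := by
    rw [mem_ball_zero_iff, Complex.norm_real, Real.norm_eq_abs, abs_of_pos ha0]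
    exact ha1
  have hs := Complex.dist_le_div_mul_dist_of_mapsTo_ball hq.differentiableOn hmaps hmem
  rw [dist_eq_norm, dist_zero_right, Complex.norm_real, Real.norm_eq_abs, abs_of_pos ha0, div_one,
    hq0] at hs
  have hqa : q a = P (v + u) := by
    show P (v + (a : ℂ) • u') = P (v + u)
    rw [hau]
  rw [hqa] at hs
  have h5 : ‖P v‖ - ‖P (v + u)‖ ≤ ‖P (v + u) - P v‖ := by
    rw [norm_sub_rev]
    exact norm_sub_norm_le _ _
  rw [ha] at hs
  nlinarith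

theorem kappa {f : E → ℂ} {k : ℕ} {P : E → ℂ} (h : Lead f k P) (hk : 1 ≤ k) : ∃ v : E, ‖v‖ = 1 ∧ P v ≠ 0 ∧
    ∀ κ : ℝ, 0 < κ → 4 * k * κ < 1 → ∃ r0 : ℝ, 0 < r0 ∧ ∀ (z : ℂ) (x : E), 0 < ‖z‖ → ‖z‖ < r0 →
      ‖x - z • v‖ ≤ κ * ‖z‖ → f x ≠ 0 := by
  obtain ⟨v, hv, hv0, hb⟩ := M6_bound h.diff.continuous h.hom h.ne hk
  refine ⟨v, hv, hv0, ?_⟩
  intro κ hκ hκ4
  obtain ⟨C, hC, r, hr, hap⟩ := h.approx
  have hM : 0 < ‖P v‖ := norm_pos_iff.2 hv0
  have hm0 : 0 < (1 - 4 * k * κ) * ‖P v‖ := mul_pos (by linarith) hM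
  have hk' : (0 : ℝ) < k := by exact_mod_cast hk
  have hD : 0 < C * (1 + κ) ^ (k + 1) := by positivity
  refine ⟨min (r / (1 + κ)) ((1 - 4 * k * κ) * ‖P v‖ / (C * (1 + κ) ^ (k + 1))), by positivity, ?_⟩
  intro z x hz hz' hx hfx
  have hz1 : ‖z‖ * (1 + κ) < r := by
    rw [← lt_div_iff₀ (by positivity)]
    exact hz'.trans_le (min_le_left _ _)
  have hz2 : ‖z‖ * (C * (1 + κ) ^ (k + 1)) < (1 - 4 * k * κ) * ‖P v‖ := by
    rw [← lt_div_iff₀ hD]
    exact hz'.trans_le (min_le_right _ _)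
  have hz0 : z ≠ 0 := norm_pos_iff.1 hz
  have hxn : ‖x‖ ≤ ‖z‖ * (1 + κ) := by
    have h1 : ‖x‖ ≤ ‖x - z • v‖ + ‖z • v‖ := by
      have := norm_add_le (x - z • v) (z • v)
      rwa [sub_add_cancel] at this
    rw [norm_smul, hv] at h1
    linarith
  have hxu : x = z • (v + (z⁻¹ • x - v)) := by
    rw [add_sub_cancel, smul_smul, mul_inv_cancel₀ hz0, one_smul]
  have hu : ‖z⁻¹ • x - v‖ ≤ κ := by
    have e1 : z⁻¹ • x - v = z⁻¹ • (x - z • v) := by
      rw [smul_sub, smul_smul, inv_mul_cancel₀ hz0, one_smul]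
    rw [e1, norm_smul, norm_inv, inv_mul_le_iff₀ hz]
    linarith [mul_comm κ ‖z‖]
  have h1 := M6_schwarz h.diff hk hv hv0 hb (u := z⁻¹ • x - v) (by nlinarith)
  have h2 : (1 - 4 * k * κ) * ‖P v‖ ≤ (1 - 4 * k * ‖z⁻¹ • x - v‖) * ‖P v‖ := by
    refine mul_le_mul_of_nonneg_right ?_ hM.le
    nlinarith
  have h3 : ‖P x‖ = ‖z‖ ^ k * ‖P (v + (z⁻¹ • x - v))‖ := by
    conv_lhs => rw [hxu]
    rw [h.hom, norm_mul, norm_pow]
  have h4 := hap x (lt_of_le_of_lt hxn hz1)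
  rw [hfx, zero_sub, norm_neg] at h4
  have h5 : C * ‖x‖ ^ (k + 1) ≤ C * (‖z‖ * (1 + κ)) ^ (k + 1) := by gcongr
  have h6 : C * (‖z‖ * (1 + κ)) ^ (k + 1) = ‖z‖ ^ k * (‖z‖ * (C * (1 + κ) ^ (k + 1))) := by
    rw [mul_pow]
    ring
  have h7 : 0 < ‖z‖ ^ k := by positivity
  have h8 : ‖z‖ ^ k * ((1 - 4 * k * κ) * ‖P v‖) ≤ ‖P x‖ := by
    rw [h3]
    exact mul_le_mul_of_nonneg_left (h2.trans h1) h7.le
  have h9 : ‖z‖ ^ k * (‖z‖ * (C * (1 + κ) ^ (k + 1))) < ‖z‖ ^ k * ((1 - 4 * k * κ) * ‖P v‖) :=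
    mul_lt_mul_of_pos_left hz2 h7
  linarith

theorem lead_wd {f : E → ℂ} (hf : AnalyticAt ℂ f 0) {k : ℕ} {P : E → ℂ} (h : Lead f k P) {v : E} (hv : P v ≠ 0) :
    ∀ᶠ r : ℝ in 𝓝[>] 0, Wd (fun θ => f ((r * cis θ) • v)) k := by
  obtain ⟨C, hC, r1, hr1, hap⟩ := h.approx
  obtain ⟨r2, hr2, han⟩ := Metric.eventually_nhds_iff_ball.1 hf.eventually_analyticAt
  have hM : 0 < ‖P v‖ := norm_pos_iff.2 hv
  have e1 : ∀ᶠ r : ℝ in 𝓝[>] 0, r * ‖v‖ < min r1 r2 := by
    have : Tendsto (fun r : ℝ => r * ‖v‖) (𝓝 0) (𝓝 (0 * ‖v‖)) := by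
      apply Continuous.tendsto
      fun_prop
    rw [zero_mul] at this
    exact (this.mono_left nhdsWithin_le_nhds).eventually (gt_mem_nhds (lt_min hr1 hr2))
  have e2 : ∀ᶠ r : ℝ in 𝓝[>] 0, r * (C * ‖v‖ ^ (k + 1)) < ‖P v‖ := by
    have : Tendsto (fun r : ℝ => r * (C * ‖v‖ ^ (k + 1))) (𝓝 0) (𝓝 (0 * (C * ‖v‖ ^ (k + 1)))) := by
      apply Continuous.tendsto
      fun_prop
    rw [zero_mul] at this
    exact (this.mono_left nhdsWithin_le_nhds).eventually (gt_mem_nhds hM)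
  filter_upwards [e1, e2, self_mem_nhdsWithin] with r h1 h2 hr
  have hr0 : 0 < r := hr
  have hnorm : ∀ θ, ‖((r : ℂ) * cis θ) • v‖ = r * ‖v‖ := by
    intro θ
    rw [norm_smul, norm_mul, cis_norm, Complex.norm_real, Real.norm_eq_abs, abs_of_pos hr0, mul_one]
  have hc : Wd (fun θ => ((r : ℂ) * cis θ) ^ k * P v) k := by
    have hne : ((r : ℂ) ^ k * P v) ≠ 0 :=
      mul_ne_zero (pow_ne_zero _ (by exact_mod_cast hr0.ne')) hv
    have a1 := (Wd.cis.zpow (k : ℤ)).mul (Wd.const hne)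
    rw [mul_one, add_zero] at a1
    convert a1 using 2 with θ
    rw [zpow_natCast]
    ring
  refine hc.close ?_ ?_ ?_
  · rw [continuous_iff_continuousAt]
    intro θ
    have a1 : ContinuousAt f (((r : ℂ) * cis θ) • v) := by
      refine (han _ ?_).continuousAt
      rw [mem_ball_zero_iff, hnorm]
      exact h1.trans_le (min_le_right _ _)
    have a2 : ContinuousAt (fun θ : ℝ => ((r : ℂ) * cis θ) • v) θ := by
      have := cis_cont
      fun_prop
    exact ContinuousAt.comp (g := f) a1 a2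
  · intro θ
    show f (((r : ℂ) * cis (θ + 2 * Real.pi)) • v) = f (((r : ℂ) * cis θ) • v)
    rw [cis_per]
  · intro θ
    have a1 := hap (((r : ℂ) * cis θ) • v) (by
      rw [hnorm]
      exact h1.trans_le (min_le_left _ _))
    rw [hnorm, h.hom] at a1
    have a2 : ‖((r : ℂ) * cis θ) ^ k * P v‖ = r ^ k * ‖P v‖ := by
      rw [norm_mul, norm_pow, norm_mul, cis_norm, Complex.norm_real, Real.norm_eq_abs,
        abs_of_pos hr0, mul_one]
    rw [a2]
    refine lt_of_le_of_lt a1 ?_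
    have a3 : C * (r * ‖v‖) ^ (k + 1) = r ^ k * (r * (C * ‖v‖ ^ (k + 1))) := by
      rw [mul_pow]
      ring
    rw [a3]
    exact mul_lt_mul_of_pos_left h2 (by positivity)

end Zr
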