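import Pool.Agent.helper60.Zr.M3
import Pool.Agent.helper60.Zr.M6

set_option autoImplicit false

/-!
# Zr, module M10: the multiplicity is upper semicontinuous in a continuous family

Proof of `semicont`. Let `v` with `P v ≠ 0` (`h.ne`). For small `r`: `F s` has winding number `k` on `θ ↦ (r cis θ) • v` (`lead_wd`) and the
closed disc `z • v`, `|z| ≤ r`, is in `U`. The circle is compact, `|F s| ≥ μ > 0` on it, so for `t` near `s` `|F t - F s| < μ` on it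
(continuity of `F` on `[0,1] × U`, compactness) and `Wd.close` gives winding number `k` for `F t`. Put `h z = F t ((z * r) • v)`, analytic for
`|z| ≤ 1`, nonvanishing for `|z| = 1`. `Lead (F t) k' P'` gives `|h z| ≤ C |z| ^ k'` near `0` (`P' (z • x) = z ^ k' P' x`), so
`h z = z ^ k' * u z` with `u` analytic at `0` (`natCast_le_analyticOrderAt` or by the order of `h` at `0`; `u z = h z / z ^ k'` elsewhere), `u`
analytic for `|z| ≤ 1`, nonvanishing for `|z| = 1`. By `wd_zeros` `u` has a winding number `N ≥ 0` on the unit circle; `Wd.mul`, `Wd.zpow`, `Wd.cis`,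
`Wd.uniq`: `k = k' + N ≥ k'`.
-/

noncomputable section

namespace Zr

open Filter Topology Set

variable {E : Type*} [NormedAddCommGroup E] [NormedSpace ℂ E] [FiniteDimensional ℂ E]

/-- an analytic function which is `O(|z|^k')` is divisible by `z^k'` -/
theorem M10_div {h : ℂ → ℂ} (ha : AnalyticAt ℂ h 0) {n : ℕ} {C : ℝ}
    (hb : ∀ᶠ z in 𝓝 (0:ℂ), ‖h z‖ ≤ C * ‖z‖ ^ n) :
    ∃ g : ℂ → ℂ, AnalyticAt ℂ g 0 ∧ ∀ᶠ z in 𝓝 (0:ℂ), h z = z ^ n * g z := by
  have key : (n : ℕ∞) ≤ analyticOrderAt h 0 := by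
    by_contra hlt
    rw [not_le] at hlt
    have hfin : analyticOrderAt h 0 ≠ ⊤ := ne_top_of_lt hlt
    obtain ⟨m, hm⟩ := ENat.ne_top_iff_exists.1 hfin
    rw [← hm] at hlt
    have hmn : m < n := by exact_mod_cast hlt
    obtain ⟨g, hg, hg0, hgz⟩ := (ha.analyticOrderAt_eq_natCast).1 hm.symm
    have h1 : ∀ᶠ z in 𝓝[≠] (0:ℂ), ‖g z‖ ≤ C * ‖z‖ ^ (n - m) := by
      filter_upwards [hb.filter_mono nhdsWithin_le_nhds, hgz.filter_mono nhdsWithin_le_nhds,
        self_mem_nhdsWithin] with z hz1 hz2 hz3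
      have hz : (0:ℝ) < ‖z‖ := norm_pos_iff.2 hz3
      rw [hz2, sub_zero, smul_eq_mul, norm_mul, norm_pow] at hz1
      have e : ‖z‖ ^ n = ‖z‖ ^ m * ‖z‖ ^ (n - m) := by
        rw [← pow_add, Nat.add_sub_of_le hmn.le]
      rw [e] at hz1
      have hp : (0:ℝ) < ‖z‖ ^ m := pow_pos hz m
      have : ‖z‖ ^ m * ‖g z‖ ≤ ‖z‖ ^ m * (C * ‖z‖ ^ (n - m)) := by
        calc _ ≤ _ := hz1
          _ = _ := by ring
      exact le_of_mul_le_mul_left this hp
    have h2 : Tendsto (fun z : ℂ => ‖g z‖) (𝓝[≠] (0:ℂ)) (𝓝 ‖g 0‖) :=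
      (hg.continuousAt.norm).tendsto.mono_left nhdsWithin_le_nhds
    have h3 : Tendsto (fun z : ℂ => C * ‖z‖ ^ (n - m)) (𝓝[≠] (0:ℂ)) (𝓝 (C * ‖(0:ℂ)‖ ^ (n - m))) := by
      have : Continuous fun z : ℂ => C * ‖z‖ ^ (n - m) := by fun_prop
      exact (this.tendsto 0).mono_left nhdsWithin_le_nhds
    have h4 := le_of_tendsto_of_tendsto h2 h3 h1
    have h5 : n - m ≠ 0 := by omega
    rw [norm_zero, zero_pow h5, mul_zero] at h4
    exact hg0 (norm_le_zero_iff.1 h4)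
  obtain ⟨g, hg, hgz⟩ := (natCast_le_analyticOrderAt ha).1 key
  refine ⟨g, hg, ?_⟩
  filter_upwards [hgz] with z hz
  rw [hz, sub_zero, smul_eq_mul]

theorem M10_core {h : ℂ → ℂ} (ha : ∀ z : ℂ, ‖z‖ ≤ 1 → AnalyticAt ℂ h z) {k : ℤ} (hw : Wd (fun θ => h (cis θ)) k)
    {n : ℕ} {C : ℝ} (hb : ∀ᶠ z in 𝓝 (0:ℂ), ‖h z‖ ≤ C * ‖z‖ ^ n) : (n : ℤ) ≤ k := by
  obtain ⟨g, hg, hgz⟩ := M10_div (ha 0 (by simp)) hb
  let u : ℂ → ℂ := fun z => if z = 0 then g 0 else h z / z ^ n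
  have hu0 : u =ᶠ[𝓝 0] g := by
    filter_upwards [hgz] with z hz
    by_cases h0 : z = 0
    · simp [u, h0]
    · simp only [u, h0, if_false]
      rw [hz]
      field_simp
  have hua : ∀ z : ℂ, ‖z‖ ≤ 1 → AnalyticAt ℂ u z := by
    intro z hz
    by_cases h0 : z = 0
    · rw [h0]
      exact hg.congr hu0.symm
    · have h1 : AnalyticAt ℂ (fun w : ℂ => h w / w ^ n) z :=
        (ha z hz).div (by fun_prop) (pow_ne_zero _ h0)
      refine h1.congr ?_
      filter_upwards [isOpen_ne.mem_nhds h0] with w hw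
      have hw' : w ≠ 0 := hw
      simp [u, hw']
  have hne : ∀ z : ℂ, ‖z‖ = 1 → h z ≠ 0 := by
    intro z hz
    obtain ⟨θ, rfl⟩ := exists_cis hz
    exact hw.ne θ
  have hz1 : ∀ z : ℂ, ‖z‖ = 1 → z ≠ 0 := by
    intro z hz h0
    rw [h0, norm_zero] at hz
    norm_num at hz
  have hune : ∀ z : ℂ, ‖z‖ = 1 → u z ≠ 0 := by
    intro z hz
    simp only [u, hz1 z hz, if_false]
    exact div_ne_zero (hne z hz) (pow_ne_zero _ (hz1 z hz))
  obtain ⟨Z, m, -, -, -, -, -, hwd⟩ := wd_zeros hua hune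
  have h2 := (Wd.cis.zpow (n : ℤ)).mul hwd
  have h3 : (fun θ => cis θ ^ (n : ℤ) * u (cis θ)) = fun θ => h (cis θ) := by
    funext θ
    have hc : cis θ ≠ 0 := hz1 _ (cis_norm θ)
    simp only [u, hc, if_false]
    rw [zpow_natCast]
    field_simp
  rw [h3] at h2
  have h4 := hw.uniq h2
  have h5 : (0:ℤ) ≤ ∑ w ∈ Z, (m w : ℤ) := Finset.sum_nonneg fun w _ => by positivity
  rw [h4]
  linarith

theorem semicont {F : ℝ → E → ℂ} {U : Set E} (hU : IsOpen U) (h0 : (0 : E) ∈ U)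
    (hF : ContinuousOn (fun p : ℝ × E => F p.1 p.2) (Icc (0:ℝ) 1 ×ˢ U))
    (ha : ∀ t ∈ Icc (0:ℝ) 1, AnalyticOnNhd ℂ (F t) U) {s : ℝ} (hs : s ∈ Icc (0:ℝ) 1) {k : ℕ} {P : E → ℂ}
    (h : Lead (F s) k P) : ∃ η : ℝ, 0 < η ∧ ∀ t ∈ Icc (0:ℝ) 1, |t - s| < η → ∀ (k' : ℕ) (P' : E → ℂ),
      Lead (F t) k' P' → k' ≤ k := by
  obtain ⟨v, hv⟩ := h.ne
  obtain ⟨δ, hδ, hball⟩ := Metric.isOpen_iff.1 hU 0 h0
  -- choice of the radius
  have ev1 := lead_wd (ha s hs 0 h0) h hv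
  have ev2 : ∀ᶠ r : ℝ in 𝓝[>] 0, r * ‖v‖ < δ := by
    have hc : Continuous fun r : ℝ => r * ‖v‖ := by fun_prop
    have := (hc.tendsto 0)
    rw [zero_mul] at this
    exact (this.eventually (gt_mem_nhds hδ)).filter_mono nhdsWithin_le_nhds
  obtain ⟨r, ⟨hwd, hrv⟩, hr⟩ := ((ev1.and ev2).and self_mem_nhdsWithin).exists
  have hr : 0 < r := hr
  have hmem : ∀ z : ℂ, ‖z‖ ≤ 1 → (z * r) • v ∈ U := by
    intro z hz
    apply hball
    rw [mem_ball_zero_iff, norm_smul, norm_mul, Complex.norm_real, Real.norm_eq_abs, abs_of_pos hr]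
    have : ‖z‖ * r * ‖v‖ ≤ 1 * r * ‖v‖ := by gcongr
    linarith
  let K : Set E := (fun z : ℂ => (z * r) • v) '' Metric.sphere (0:ℂ) 1
  have hKc : IsCompact K := (isCompact_sphere _ _).image (by fun_prop)
  have hKU : K ⊆ U := by
    rintro _ ⟨z, hz, rfl⟩
    exact hmem z (by rw [mem_sphere_zero_iff_norm] at hz; exact hz.le)
  have hcK : ∀ θ : ℝ, (r * cis θ) • v ∈ K := by
    intro θ
    refine ⟨cis θ, by rw [mem_sphere_zero_iff_norm]; exact cis_norm θ, ?_⟩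
    simp only
    rw [mul_comm]
  have hKθ : ∀ x ∈ K, ∃ θ : ℝ, (r * cis θ) • v = x := by
    rintro _ ⟨z, hz, rfl⟩
    rw [mem_sphere_zero_iff_norm] at hz
    obtain ⟨θ, rfl⟩ := exists_cis hz
    exact ⟨θ, by simp only; rw [mul_comm]⟩
  -- lower bound on the circle
  obtain ⟨μ, hμ, hμK⟩ : ∃ μ : ℝ, 0 < μ ∧ ∀ x ∈ K, μ ≤ ‖F s x‖ := by
    have hcont : ContinuousOn (fun x => ‖F s x‖) K := ((ha s hs).continuousOn.mono hKU).norm
    have hpos : ∀ x ∈ K, 0 < ‖F s x‖ := by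
      intro x hx
      obtain ⟨θ, rfl⟩ := hKθ x hx
      exact norm_pos_iff.2 (hwd.ne θ)
    obtain ⟨μ, hμ, hh⟩ := hKc.exists_forall_le' hcont (a := 0) hpos
    exact ⟨μ, hμ, hh⟩
  -- uniform continuity
  have hprod : IsCompact (Icc (0:ℝ) 1 ×ˢ K) := isCompact_Icc.prod hKc
  have huc := hprod.uniformContinuousOn_of_continuous (hF.mono (prod_mono_right hKU))
  obtain ⟨η, hη, hclose⟩ := Metric.uniformContinuousOn_iff.1 huc μ hμ
  refine ⟨η, hη, fun t ht hts k' P' hP' => ?_⟩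
  have hcl : ∀ x ∈ K, ‖F t x - F s x‖ < μ := by
    intro x hx
    have := hclose (t, x) ⟨ht, hx⟩ (s, x) ⟨hs, hx⟩ (by
      rw [Prod.dist_eq, dist_self, Real.dist_eq]
      simpa using hts)
    rwa [dist_eq_norm] at this
  have hwt : Wd (fun θ => F t ((r * cis θ) • v)) k := by
    refine hwd.close ?_ ?_ ?_
    · have h1 : ContinuousOn (F t) U := (ha t ht).continuousOn
      have hc := cis_cont
      exact h1.comp_continuous (by fun_prop) fun θ => hKU (hcK θ)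
    · intro θ
      rw [cis_per]
    · intro θ
      exact (hcl _ (hcK θ)).trans_le (hμK _ (hcK θ))
  -- the function of one variable
  have hcore := M10_core (h := fun z : ℂ => F t ((z * r) • v)) (k := k) (n := k') (C := r ^ k' * ‖P' v‖ + (r * ‖v‖) ^ (k' + 1) * hP'.approx.choose)
    (by
      intro z hz
      have h1 : AnalyticAt ℂ (F t) ((z * r) • v) := ha t ht _ (hmem z hz)
      have h2 : AnalyticAt ℂ (fun z : ℂ => (z * r) • v) z := by fun_prop
      exact AnalyticAt.fun_comp (f := fun z : ℂ => (z * r) • v) h1 h2) (by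
      have e : (fun θ => F t ((cis θ * r) • v)) = fun θ => F t ((r * cis θ) • v) := by
        funext θ
        rw [mul_comm]
      show Wd (fun θ => F t ((cis θ * r) • v)) k
      rw [e]
      exact hwt) (by
      obtain ⟨hC, r1, hr1, happ⟩ := hP'.approx.choose_spec
      set C := hP'.approx.choose with hCdef
      have hev : ∀ᶠ z : ℂ in 𝓝 0, ‖z‖ < 1 ∧ ‖(z * r) • v‖ < r1 := by
        have hc1 : Continuous fun z : ℂ => ‖z‖ := by fun_prop
        have hc2 : Continuous fun z : ℂ => ‖(z * r) • v‖ := by fun_prop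
        have a1 := hc1.tendsto 0
        have a2 := hc2.tendsto 0
        rw [norm_zero] at a1
        rw [zero_mul, zero_smul, norm_zero] at a2
        exact (a1.eventually (gt_mem_nhds one_pos)).and (a2.eventually (gt_mem_nhds hr1))
      filter_upwards [hev] with z hz
      obtain ⟨hz1, hz2⟩ := hz
      have b1 := happ _ hz2
      have b2 : P' ((z * r) • v) = (z * r) ^ k' * P' v := hP'.hom _ _
      have b3 : ‖F t ((z * r) • v)‖ ≤ ‖P' ((z * r) • v)‖ + C * ‖(z * r) • v‖ ^ (k' + 1) := by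
        have := norm_sub_norm_le (F t ((z * r) • v)) (P' ((z * r) • v))
        linarith
      have b4 : ‖P' ((z * r) • v)‖ = ‖z‖ ^ k' * (r ^ k' * ‖P' v‖) := by
        rw [b2, norm_mul, norm_pow, norm_mul, Complex.norm_real, Real.norm_eq_abs, abs_of_pos hr, mul_pow]
        ring
      have b5 : ‖(z * r) • v‖ ^ (k' + 1) ≤ ‖z‖ ^ k' * (r * ‖v‖) ^ (k' + 1) := by
        rw [norm_smul, norm_mul, Complex.norm_real, Real.norm_eq_abs, abs_of_pos hr, mul_assoc, mul_pow]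
        have : ‖z‖ ^ (k' + 1) ≤ ‖z‖ ^ k' := pow_le_pow_of_le_one (norm_nonneg _) hz1.le (Nat.le_succ _)
        gcongr
      calc ‖F t ((z * r) • v)‖ ≤ ‖P' ((z * r) • v)‖ + C * ‖(z * r) • v‖ ^ (k' + 1) := b3
        _ ≤ ‖z‖ ^ k' * (r ^ k' * ‖P' v‖) + C * (‖z‖ ^ k' * (r * ‖v‖) ^ (k' + 1)) := by
          rw [b4]
          gcongr
        _ = _ := by ring)
  exact_mod_cast hcore

end Zr
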