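import Pool.Agent.helper60.Zr.M9
import Pool.Agent.helper60.Zr.M10

set_option autoImplicit false

/-!
# Zr, module M11: families

`loc`: for `s` let `k`, `P` be the leading form of `F s` (`exists_lead`; `F s` is not identically zero near `0`, because it is reduced and `0` is
a zero: regular zeros would have derivative zero), `δ > 0` with `8 Λ δ k < 1`; for `t` near `s`: `k' ≤ k` (`semicont`), so `8 Λ δ k' < 1` and `alm_lin_eq`
gives `k = k'`. So the multiplicity `t ↦ k t` (chosen by `exists_lead`) is locally constant on `[0,1]`, which is preconnected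
(`isPreconnected_Icc`, `IsPreconnected.constant_of_mapsTo` or a sup argument), so constant. `lead_order` turns it into derivatives.
-/

noncomputable section

namespace Zr

open Filter Topology Set

variable {E : Type*} [NormedAddCommGroup E] [NormedSpace ℂ E] [FiniteDimensional ℂ E]

theorem red_lead {f : E → ℂ} (hf : Red f) : ∃ (k : ℕ) (P : E → ℂ), 1 ≤ k ∧ Lead f k P := by
  obtain ⟨ha, h0, hr⟩ := hf
  have hne : ¬ ∀ᶠ x in 𝓝 (0 : E), f x = 0 := by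
    intro hz
    have h1 : (0 : E) ∈ closure {q | f q = 0 ∧ fderiv ℂ f q ≠ 0} := hr.self_of_nhds h0
    have h2 : ∀ᶠ x in 𝓝 (0 : E), fderiv ℂ f x = 0 := by
      filter_upwards [hz.eventually_nhds] with x hx
      have h3 : f =ᶠ[𝓝 x] fun _ => (0 : ℂ) := hx
      rw [h3.fderiv_eq]
      simp
    rw [mem_closure_iff_frequently] at h1
    obtain ⟨q, hq1, hq2⟩ := (h1.and_eventually h2).exists
    exact hq1.2 hq2
  obtain ⟨k, P, hL⟩ := exists_lead ha hne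
  refine ⟨k, P, ?_, hL⟩
  rcases Nat.eq_zero_or_pos k with hk | hk
  · exfalso
    subst hk
    obtain ⟨x, hx⟩ := hL.ne
    have h1 := hL.hom 0 x
    rw [zero_smul, pow_zero, one_mul] at h1
    obtain ⟨C, -, r, hr0, hC⟩ := hL.approx
    have h2 := hC 0 (by simpa using hr0)
    rw [h0, h1] at h2
    simp only [zero_sub, norm_neg, norm_zero, zero_add, pow_one, mul_zero] at h2
    exact hx (norm_le_zero_iff.1 h2)
  · exact hk

theorem family {F : ℝ → E → ℂ} {U : Set E} (hU : IsOpen U) (h0 : (0 : E) ∈ U)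
    (hF : ContinuousOn (fun p : ℝ × E => F p.1 p.2) (Icc (0:ℝ) 1 ×ˢ U))
    (ha : ∀ t ∈ Icc (0:ℝ) 1, AnalyticOnNhd ℂ (F t) U) (hr : ∀ t ∈ Icc (0:ℝ) 1, Red (F t)) {Λ : ℝ} (hΛ : 1 ≤ Λ)
    (h : ∀ s ∈ Icc (0:ℝ) 1, ∀ δ : ℝ, 0 < δ → ∃ η : ℝ, 0 < η ∧ ∀ t ∈ Icc (0:ℝ) 1, |t - s| < η →
      ∃ (φ ψ : E → E) (V W : Set E), Equ (F s) (F t) φ ψ V W ∧ AlmLin φ Λ δ) {s t : ℝ} (hs : s ∈ Icc (0:ℝ) 1)
    (ht : t ∈ Icc (0:ℝ) 1) (k : ℕ) :
    (∀ j < k, iteratedFDeriv ℂ j (F s) 0 = 0) ↔ (∀ j < k, iteratedFDeriv ℂ j (F t) 0 = 0) := by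
  have hex : ∀ t : ℝ, ∃ K : ℕ, t ∈ Icc (0:ℝ) 1 → ∃ P : E → ℂ, Lead (F t) K P := by
    intro t
    by_cases htt : t ∈ Icc (0:ℝ) 1
    · obtain ⟨K, P, -, hL⟩ := red_lead (hr t htt)
      exact ⟨K, fun _ => ⟨P, hL⟩⟩
    · exact ⟨0, fun h' => absurd h' htt⟩
  choose K hK using hex
  -- the multiplicity is locally constant
  have hloc : ∀ s ∈ Icc (0:ℝ) 1, ∃ η : ℝ, 0 < η ∧ ∀ t ∈ Icc (0:ℝ) 1, |t - s| < η → K t = K s := by
    intro s hs
    obtain ⟨P, hL⟩ := hK s hs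
    obtain ⟨η1, hη1, h1⟩ := semicont hU h0 hF ha hs hL
    have hΛ0 : 0 < Λ := by linarith
    have hδ : 0 < 1 / (8 * Λ * ((K s : ℝ) + 1)) := by positivity
    obtain ⟨η2, hη2, h2⟩ := h s hs _ hδ
    refine ⟨min η1 η2, lt_min hη1 hη2, ?_⟩
    intro t ht hts
    obtain ⟨P', hL'⟩ := hK t ht
    have h3 : K t ≤ K s := h1 t ht (lt_of_lt_of_le hts (min_le_left _ _)) (K t) P' hL'
    obtain ⟨φ, ψ, V, W, hE, hA⟩ := h2 t ht (lt_of_lt_of_le hts (min_le_right _ _))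
    have h4 : 8 * Λ * (1 / (8 * Λ * ((K s : ℝ) + 1))) * K s < 1 := by
      have h5 : 8 * Λ * (1 / (8 * Λ * ((K s : ℝ) + 1))) * K s = K s / ((K s : ℝ) + 1) := by
        field_simp
      rw [h5, div_lt_one (by positivity)]
      linarith
    have h6 : 8 * Λ * (1 / (8 * Λ * ((K s : ℝ) + 1))) * K t < 1 := by
      refine lt_of_le_of_lt ?_ h4
      apply mul_le_mul_of_nonneg_left
      · exact_mod_cast h3
      · positivity
    exact (alm_lin_eq (hr s hs) (hr t ht) hE hL hL' hΛ hδ.le h4 h6 hA).symm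
  have hcont : ContinuousOn K (Icc (0:ℝ) 1) := by
    intro s hs
    obtain ⟨η, hη, h1⟩ := hloc s hs
    have h2 : ∀ᶠ t in 𝓝[Icc (0:ℝ) 1] s, K s = K t := by
      have h3 : ∀ᶠ t in 𝓝[Icc (0:ℝ) 1] s, |t - s| < η := by
        have h4 : Metric.ball s η ∈ 𝓝 s := Metric.ball_mem_nhds s hη
        have h5 : ∀ᶠ t in 𝓝 s, |t - s| < η := by
          filter_upwards [h4] with t ht
          rwa [Metric.mem_ball, Real.dist_eq] at ht
        exact h5.filter_mono nhdsWithin_le_nhds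
      filter_upwards [h3, self_mem_nhdsWithin] with t ht htt
      exact (h1 t htt ht).symm
    exact tendsto_const_nhds.congr' h2
  have hKK : K s = K t := isPreconnected_Icc.constant hcont hs ht
  obtain ⟨P, hL⟩ := hK s hs
  obtain ⟨P', hL'⟩ := hK t ht
  rw [lead_order (ha s hs 0 h0) hL k, lead_order (ha t ht 0 h0) hL' k, hKK]

/-- conically continuous trivialisations -/
theorem conical {F : ℝ → E → ℂ} {U : Set E} (hU : IsOpen U) (h0 : (0 : E) ∈ U)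
    (hF : ContinuousOn (fun p : ℝ × E => F p.1 p.2) (Icc (0:ℝ) 1 ×ˢ U))
    (ha : ∀ t ∈ Icc (0:ℝ) 1, AnalyticOnNhd ℂ (F t) U) (hr : ∀ t ∈ Icc (0:ℝ) 1, Red (F t))
    {φ ψ : ℝ → E → E} {V W : ℝ → Set E} (h : ∀ t ∈ Icc (0:ℝ) 1, Equ (F 0) (F t) (φ t) (ψ t) (V t) (W t))
    (hc : ∀ s ∈ Icc (0:ℝ) 1, ∀ δ : ℝ, 0 < δ → ∃ η : ℝ, 0 < η ∧ ∀ t ∈ Icc (0:ℝ) 1, |t - s| < η →
      ∀ᶠ x in 𝓝 (0 : E), ‖φ t (ψ s x) - x‖ ≤ δ * ‖x‖) {s t : ℝ} (hs : s ∈ Icc (0:ℝ) 1)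
    (ht : t ∈ Icc (0:ℝ) 1) (k : ℕ) :
    (∀ j < k, iteratedFDeriv ℂ j (F s) 0 = 0) ↔ (∀ j < k, iteratedFDeriv ℂ j (F t) 0 = 0) := by
  refine family hU h0 hF ha hr (le_refl (1 : ℝ)) ?_ hs ht k
  intro s hs δ hδ
  obtain ⟨η, hη, h1⟩ := hc s hs (δ / 3) (by positivity)
  refine ⟨η, hη, ?_⟩
  intro t ht hts
  have hE := h s hs
  have hE' := h t ht
  have hz : ∀ {u : ℝ}, u ∈ Icc (0:ℝ) 1 → ψ u 0 = 0 := by
    intro u hu
    have h2 := (h u hu).li (mem_of_mem_nhds (h u hu).hV)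
    rwa [(h u hu).z0] at h2
  have hnb : ∀ {u v : ℝ}, u ∈ Icc (0:ℝ) 1 → v ∈ Icc (0:ℝ) 1 → W u ∩ ψ u ⁻¹' V v ∈ 𝓝 (0 : E) := by
    intro u v hu hv
    have h3 : ContinuousAt (ψ u) 0 := (h u hu).cψ.continuousAt (h u hu).hW
    have h4 : V v ∈ 𝓝 (ψ u 0) := by
      rw [hz hu]
      exact (h v hv).hV
    exact inter_mem (h u hu).hW (h3 h4)
  refine ⟨fun x => φ t (ψ s x), fun y => φ s (ψ t y), W s ∩ ψ s ⁻¹' V t, W t ∩ ψ t ⁻¹' V s, ?_, ?_⟩
  · refine ⟨hnb hs ht, hnb ht hs, ?_, ?_, ?_, ?_, ?_, ?_, ?_, ?_⟩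
    · intro x hx
      refine ⟨hE'.mφ hx.2, ?_⟩
      show ψ t (φ t (ψ s x)) ∈ V s
      rw [hE'.li hx.2]
      exact hE.mψ hx.1
    · intro y hy
      refine ⟨hE.mφ hy.2, ?_⟩
      show ψ s (φ s (ψ t y)) ∈ V t
      rw [hE.li hy.2]
      exact hE'.mψ hy.1
    · intro x hx
      show φ s (ψ t (φ t (ψ s x))) = x
      rw [hE'.li hx.2]
      exact hE.ri hx.1
    · intro y hy
      show φ t (ψ s (φ s (ψ t y))) = y
      rw [hE.li hy.2]
      exact hE'.ri hy.1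
    · exact hE'.cφ.comp (hE.cψ.mono inter_subset_left) (fun x hx => hx.2)
    · exact hE.cφ.comp (hE'.cψ.mono inter_subset_left) (fun x hx => hx.2)
    · show φ t (ψ s 0) = 0
      rw [hz hs]
      exact hE'.z0
    · intro z hz'
      show F s z = 0 ↔ F t (φ t (ψ s z)) = 0
      rw [← hE'.zs _ hz'.2, hE.zs _ (hE.mψ hz'.1), hE.ri hz'.1]
  · intro ε hε
    have h5 := h1 t ht hts
    rw [Metric.eventually_nhds_iff] at h5
    obtain ⟨ρ, hρ, h6⟩ := h5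
    refine ⟨min (ε / 2) (ρ / 4), 1, lt_min (by positivity) (by positivity), ?_, one_pos,
      LinearEquiv.refl ℝ E, ?_, ?_⟩
    · exact lt_of_le_of_lt (min_le_left _ _) (by linarith)
    · intro x
      simp
    · intro x hx
      have h7 : ‖x‖ ≤ 3 * min (ε / 2) (ρ / 4) := by
        refine hx.trans (le_of_eq ?_)
        norm_num
      have h8 : ‖x‖ < ρ := by
        have h9 := min_le_right (ε / 2) (ρ / 4)
        linarith
      have h10 := h6 (y := x) (by rwa [dist_zero_right])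
      show ‖φ t (ψ s x) - (LinearEquiv.refl ℝ E) x‖ ≤ δ * 1 * min (ε / 2) (ρ / 4)
      rw [LinearEquiv.refl_apply]
      refine h10.trans ?_
      calc δ / 3 * ‖x‖ ≤ δ / 3 * (3 * min (ε / 2) (ρ / 4)) :=
            mul_le_mul_of_nonneg_left h7 (by positivity)
        _ = _ := by ring

end Zr
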