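import Pool.Agent.helper60.Zr.M9

set_option autoImplicit false

/-!
# Zr, module M12a: a cone around a complex line

`avoid`: `f 0 = 0`, so `v ≠ 0`. Choose closed balls `closedBall 0 RV ⊆ V`, `closedBall 0 RW ⊆ W` and by continuity of `φ` at `0` a number `ε0` such that
`‖x‖ ≤ (‖v‖ + κ) * ε0` implies `x ∈ closedBall 0 RV`, `‖φ x‖ < RW / 4`, and `ε0 < RW / 4`, `ε0 < r0` (`r0` from `Cone`). Let `x0 = (r * cis θ) • v`. There is a point `x1` with
`‖x1 - x0‖ = κ * r` (`x1 = x0 + (κ * r / ‖v‖) • v`), so `d ≤ ‖φ x1 - β‖ < RW / 2` and the ball of radius `d` around `β` is in `closedBall 0 RW ⊆ W`. On this ball the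
continuous function `y ↦ ‖ψ y - x0‖` never takes the value `κ * r` (if it does, `x = ψ y` has `φ x = y` and `‖y - β‖ < d ≤ ‖φ x - β‖`), at `y = φ x0` it is `0`
(`h.li`), and the ball is preconnected (convex): so `‖ψ y - x0‖ < κ * r` on the ball (`IsPreconnected.intermediate_value`), `f (ψ y) ≠ 0` by `Cone` with `z = r * cis θ`, and
`g y ≠ 0` by `h.zs` at `ψ y` (`φ (ψ y) = y`).
-/

noncomputable section

namespace Zr

open Filter Topology Set

variable {E : Type*} [NormedAddCommGroup E] [NormedSpace ℂ E]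

/-- near `0`, `f` has no zeros in the punctured cone of opening `κ` around the complex line through `v` -/
def Cone (f : E → ℂ) (v : E) (κ : ℝ) : Prop :=
  ∃ r0 : ℝ, 0 < r0 ∧ ∀ (z : ℂ) (x : E), 0 < ‖z‖ → ‖z‖ < r0 → ‖x - z • v‖ ≤ κ * ‖z‖ → f x ≠ 0

/-- for arbitrarily small `r` the image of the circle `r cis θ v` is near an ellipse `cis θ a + cis (-θ) b`, and the images of the spheres of radius
`κ r` around the points of the circle are not nearer to the points of the ellipse -/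
def EllScale (φ : E → E) (v : E) (κ c : ℝ) : Prop :=
  ∀ ε : ℝ, 0 < ε → ∃ r : ℝ, 0 < r ∧ r < ε ∧ ∃ (a b : E) (d : ℝ), 0 < ‖a‖ + ‖b‖ ∧ ‖a‖ + ‖b‖ < ε ∧ c * (‖a‖ + ‖b‖) ≤ d ∧
    ∀ θ : ℝ, ‖φ ((r * cis θ) • v) - (cis θ • a + cis (-θ) • b)‖ < d ∧
      ∀ x, ‖x - (r * cis θ) • v‖ = κ * r → d ≤ ‖φ x - (cis θ • a + cis (-θ) • b)‖

/-- the same with a circle of a complex line (with one of its two orientations) instead of an ellipse -/
def CircScale (φ : E → E) (v : E) (κ c : ℝ) : Prop :=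
  ∀ ε : ℝ, 0 < ε → ∃ r : ℝ, 0 < r ∧ r < ε ∧ ∃ (a : E) (d e : ℝ), (e = 1 ∨ e = -1) ∧ 0 < ‖a‖ ∧ ‖a‖ < ε ∧ c * ‖a‖ ≤ d ∧
    ∀ θ : ℝ, ‖φ ((r * cis θ) • v) - cis (e * θ) • a‖ < d ∧
      ∀ x, ‖x - (r * cis θ) • v‖ = κ * r → d ≤ ‖φ x - cis (e * θ) • a‖

theorem avoid {f g : E → ℂ} {φ ψ : E → E} {V W : Set E} (h : Equ f g φ ψ V W) (h0 : f 0 = 0) {v : E} {κ : ℝ}
    (hκ : 0 < κ) (hc : Cone f v κ) : ∃ ε0 : ℝ, 0 < ε0 ∧ ∀ (r θ d : ℝ) (β : E), 0 < r → r < ε0 → ‖β‖ < ε0 →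
      ‖φ ((r * cis θ) • v) - β‖ < d → (∀ x, ‖x - (r * cis θ) • v‖ = κ * r → d ≤ ‖φ x - β‖) →
      ∀ y, ‖y - β‖ < d → g y ≠ 0 := by
  obtain ⟨r0, hr0, hcone⟩ := hc
  -- `v ≠ 0`
  have hv : v ≠ 0 := by
    intro hv0
    refine hcone ((r0 / 2 : ℝ) : ℂ) 0 ?_ ?_ ?_ h0
    · rw [Complex.norm_real, Real.norm_eq_abs, abs_of_pos (by positivity)]
      positivity
    · rw [Complex.norm_real, Real.norm_eq_abs, abs_of_pos (by positivity)]
      linarith
    · rw [hv0, smul_zero, sub_zero, norm_zero]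
      positivity
  have hvn : 0 < ‖v‖ := norm_pos_iff.2 hv
  obtain ⟨RW, hRW, hbW⟩ := Metric.mem_nhds_iff.1 h.hW
  have hcont : ContinuousAt φ 0 := h.cφ.continuousAt h.hV
  have hev : ∀ᶠ x in 𝓝 (0:E), x ∈ V ∧ ‖φ x‖ < RW / 4 := by
    have h1 : ∀ᶠ x in 𝓝 (0:E), φ x ∈ Metric.ball (0:E) (RW / 4) := by
      refine hcont.preimage_mem_nhds ?_
      rw [h.z0]
      exact Metric.ball_mem_nhds _ (by positivity)
    filter_upwards [h.hV, h1] with x hx1 hx2
    exact ⟨hx1, by simpa using hx2⟩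
  obtain ⟨δ, hδ, hbδ⟩ := Metric.eventually_nhds_iff.1 hev
  have hsum : 0 < ‖v‖ + κ := by positivity
  refine ⟨min (δ / (‖v‖ + κ)) (min (RW / 4) r0), by positivity, ?_⟩
  intro r θ d β hr hrε hβ hd hsph y hy
  have hr1 : r < δ / (‖v‖ + κ) := lt_of_lt_of_le hrε (min_le_left _ _)
  have hr2 : r < r0 := lt_of_lt_of_le hrε ((min_le_right _ _).trans (min_le_right _ _))
  have hβ1 : ‖β‖ < RW / 4 := lt_of_lt_of_le hβ ((min_le_right _ _).trans (min_le_left _ _))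
  have hr3 : r * (‖v‖ + κ) < δ := (lt_div_iff₀ hsum).1 hr1
  set x0 : E := ((r * cis θ : ℂ)) • v with hx0
  have hz : ‖((r * cis θ : ℂ))‖ = r := by
    rw [norm_mul, cis_norm, mul_one, Complex.norm_real, Real.norm_eq_abs, abs_of_pos hr]
  have hx0n : ‖x0‖ = r * ‖v‖ := by
    rw [hx0, norm_smul, hz]
  have hx0m : x0 ∈ V := by
    refine (hbδ ?_).1
    rw [dist_zero_right, hx0n]
    nlinarith
  -- a point of the sphere
  obtain ⟨x1, hx1, hx1n⟩ : ∃ x1 : E, ‖x1 - x0‖ = κ * r ∧ ‖x1‖ < δ := by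
    have h1 : ‖((κ * r / ‖v‖ : ℝ) : ℂ) • v‖ = κ * r := by
      rw [norm_smul, Complex.norm_real, Real.norm_eq_abs, abs_of_pos (by positivity)]
      field_simp
    refine ⟨x0 + ((κ * r / ‖v‖ : ℝ) : ℂ) • v, ?_, ?_⟩
    · rw [add_sub_cancel_left, h1]
    · refine lt_of_le_of_lt (norm_add_le _ _) ?_
      rw [h1, hx0n]
      linarith
  have hdW : d < RW / 2 := by
    have h1 := hsph x1 hx1
    have h2 : ‖φ x1‖ < RW / 4 := (hbδ (by rwa [dist_zero_right])).2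
    have h3 := norm_sub_le (φ x1) β
    linarith
  have hball : ∀ y : E, ‖y - β‖ < d → y ∈ W := by
    intro y hy
    refine hbW ?_
    rw [mem_ball_zero_iff]
    have h1 : y = (y - β) + β := by abel
    rw [h1]
    have := norm_add_le (y - β) β
    linarith
  have hS : IsPreconnected (Metric.ball β d) := (convex_ball β d).isPreconnected
  have hF : ContinuousOn (fun y => ‖ψ y - x0‖) (Metric.ball β d) := by
    have h1 : ContinuousOn ψ (Metric.ball β d) := h.cψ.mono (fun y hy => hball y (by rwa [mem_ball_iff_norm] at hy))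
    exact (h1.sub continuousOn_const).norm
  have hlt : ‖ψ y - x0‖ < κ * r := by
    by_contra hcon
    push Not at hcon
    have ha : φ x0 ∈ Metric.ball β d := by rwa [mem_ball_iff_norm]
    have hb : y ∈ Metric.ball β d := by rwa [mem_ball_iff_norm]
    have h1 := hS.intermediate_value ha hb hF
    have h2 : κ * r ∈ Icc (‖ψ (φ x0) - x0‖) (‖ψ y - x0‖) := by
      refine ⟨?_, hcon⟩
      rw [h.li hx0m, sub_self, norm_zero]
      positivity
    obtain ⟨y', hy', hy'2⟩ := h1 h2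
    rw [mem_ball_iff_norm] at hy'
    have h3 := hsph (ψ y') hy'2
    rw [h.ri (hball y' hy')] at h3
    linarith
  have hyW := hball y hy
  intro hg
  have h1 := (h.zs _ (h.mψ hyW)).2 (by rwa [h.ri hyW])
  refine hcone (r * cis θ) (ψ y) ?_ ?_ ?_ h1
  · rw [hz]
    exact hr
  · rw [hz]
    exact hr2
  · rw [hz]
    exact hlt.le

end Zr
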