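import Pool.Agent.helper60.Zr.M10
import Pool.Agent.helper60.Zr.M12a

set_option autoImplicit false

/-!
# Zr, module M12b: a complex line with a zero free cone is transverse

`cone_lead`: `v ≠ 0` (`f 0 = 0`). `1 ≤ k` (`Lead.one_le`, M9). `torus_avoid` (M8) for `f`, `u = ‖v‖⁻¹ • v`, `c = κ / ‖v‖`: if `‖y - s • u‖ < c * s` then with the real
number `z = s / ‖v‖` `‖y - z • v‖ < κ * z`, so `f y ≠ 0` for small `s` (`Cone`). So `f` has winding number `k` on `θ ↦ (s cis θ) • u` for small `s`. If `P v = 0` then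
`P (z • u) = 0` and `‖f (z • u)‖ ≤ C ‖z‖ ^ (k + 1)` near `0` (`Lead.approx`), so by `M10_core` (M10, applied to `z ↦ f ((z * s) • u)`) the winding number is `≥ k + 1`:
contradiction.
-/

noncomputable section

namespace Zr

open Filter Topology Set

variable {E : Type*} [NormedAddCommGroup E] [NormedSpace ℂ E] [FiniteDimensional ℂ E]

theorem cone_lead {f : E → ℂ} (hf : AnalyticAt ℂ f 0) (h0 : f 0 = 0) {k : ℕ} {P : E → ℂ} (h : Lead f k P) {v : E} {κ : ℝ}
    (hκ : 0 < κ) (hc : Cone f v κ) : P v ≠ 0 := by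
  intro hPv
  obtain ⟨r0, hr0, hcone⟩ := hc
  -- `v ≠ 0`
  have hv : v ≠ 0 := by
    intro hv
    have hn : ‖((r0 / 2 : ℝ) : ℂ)‖ = r0 / 2 := by
      rw [Complex.norm_real, Real.norm_eq_abs, abs_of_pos (half_pos hr0)]
    refine hcone ((r0 / 2 : ℝ) : ℂ) 0 (by rw [hn]; exact half_pos hr0) (by rw [hn]; linarith) ?_ h0
    rw [hv, smul_zero, sub_zero, norm_zero]
    positivity
  have hnv : 0 < ‖v‖ := norm_pos_iff.2 hv
  have hk : 1 ≤ k := h.one_le h0
  obtain ⟨u, hu⟩ : ∃ u : E, u = ((‖v‖⁻¹ : ℝ) : ℂ) • v := ⟨_, rfl⟩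
  have hun : ‖u‖ = 1 := by
    rw [hu, norm_smul, Complex.norm_real, Real.norm_eq_abs, abs_of_pos (inv_pos.2 hnv), inv_mul_cancel₀ hnv.ne']
  have hPu : P u = 0 := by
    rw [hu, h.hom, hPv, mul_zero]
  obtain ⟨s0, hs0, htor⟩ := torus_avoid hf h hk (c := κ / ‖v‖) (by positivity)
  obtain ⟨δ, hδ, hball⟩ := Metric.eventually_nhds_iff_ball.1 hf.eventually_analyticAt
  obtain ⟨s, hs, hs1, hs2, hs3⟩ : ∃ s : ℝ, 0 < s ∧ s < s0 ∧ s < r0 * ‖v‖ ∧ s < δ := by
    have hm : 0 < min s0 (min (r0 * ‖v‖) δ) := lt_min hs0 (lt_min (by positivity) hδ)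
    refine ⟨min s0 (min (r0 * ‖v‖) δ) / 2, half_pos hm, ?_, ?_, ?_⟩
    · exact (half_lt_self hm).trans_le (min_le_left _ _)
    · exact (half_lt_self hm).trans_le ((min_le_right _ _).trans (min_le_left _ _))
    · exact (half_lt_self hm).trans_le ((min_le_right _ _).trans (min_le_right _ _))
  have hwd := (htor s u hs hs1 hun.le (by
    intro y hy
    have hz : ‖((s / ‖v‖ : ℝ) : ℂ)‖ = s / ‖v‖ := by
      rw [Complex.norm_real, Real.norm_eq_abs, abs_of_pos (by positivity)]
    have hsu : s • u = ((s / ‖v‖ : ℝ) : ℂ) • v := by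
      rw [hu, ← Complex.coe_smul, smul_smul]
      congr 1
      push_cast
      ring
    refine hcone ((s / ‖v‖ : ℝ) : ℂ) y (by rw [hz]; positivity) ?_ ?_
    · rw [hz, div_lt_iff₀ hnv]
      exact hs2
    · rw [hz, ← hsu]
      have : κ / ‖v‖ * s = κ * (s / ‖v‖) := by ring
      rw [← this]
      exact hy.le)).2
  obtain ⟨C, hC, r1, hr1, happ⟩ := h.approx
  have hnz : ∀ z : ℂ, ‖(z * s) • u‖ = ‖z‖ * s := by
    intro z
    rw [norm_smul, hun, mul_one, norm_mul, Complex.norm_real, Real.norm_eq_abs, abs_of_pos hs]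
  have hcore := M10_core (h := fun z : ℂ => f ((z * s) • u)) (k := k) (n := k + 1) (C := C * s ^ (k + 1)) (by
      intro z hz
      have h1 : AnalyticAt ℂ f ((z * s) • u) := by
        apply hball
        rw [mem_ball_zero_iff, hnz]
        have : ‖z‖ * s ≤ 1 * s := mul_le_mul_of_nonneg_right hz hs.le
        linarith
      have h2 : AnalyticAt ℂ (fun z : ℂ => (z * s) • u) z := by fun_prop
      exact AnalyticAt.fun_comp (f := fun z : ℂ => (z * s) • u) h1 h2) (by
      have e : (fun θ => f ((cis θ * s) • u)) = fun θ => f ((s * cis θ) • u) := by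
        funext θ
        rw [mul_comm]
      show Wd (fun θ => f ((cis θ * s) • u)) k
      rw [e]
      exact hwd) (by
      have hc1 : Continuous fun z : ℂ => ‖z‖ * s := by fun_prop
      have a1 := hc1.tendsto 0
      rw [norm_zero, zero_mul] at a1
      filter_upwards [a1.eventually (gt_mem_nhds hr1)] with z hz
      have b1 := happ ((z * s) • u) (by rw [hnz]; exact hz)
      rw [h.hom, hPu, mul_zero, sub_zero, hnz] at b1
      calc ‖f ((z * s) • u)‖ ≤ C * (‖z‖ * s) ^ (k + 1) := b1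
        _ = _ := by rw [mul_pow]; ring)
  push_cast at hcore
  linarith

end Zr
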