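import Pool.Agent.helper60.Zr.M8

set_option autoImplicit false

/-!
# Zr, module M12c: circles of complex lines

`core_eq`: fix `ε` so small that for `0 < r < ε` the disc `w ↦ w • (r • v)`, `‖w‖ ≤ 1`, is in `B'`, `f` has winding number `k` on `θ ↦ (r cis θ) • v` (`lead_wd`), and all
points in question (`φ ((r cis θ) • v)`, `cis (e θ) • a`, the segments between them) are in a ball around `0` contained in `B`, and `torus_avoid` (for `g`, `c`, `s = ‖a‖`,
`u = ‖a‖⁻¹ • a`) gives winding number `m` for `g` on `θ ↦ cis θ • a`. So `g` has winding number `m` or `-m` on `θ ↦ cis (e * θ) • a` (`Wd.rev` if `e = -1`) and on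
`θ ↦ φ ((r cis θ) • v)` (`Wd.htpy` along the segments, which are in the `d`-balls where `g ≠ 0`). `disc_le` for the pair `h'` (the roles of `f`, `g` and of `φ`, `ψ` exchanged),
`x = 0` and the disc `w ↦ 0 + w • (r • v)`: `|± m| ≤ k`.
-/

noncomputable section

namespace Zr

open Filter Topology Set

variable {E : Type*} [NormedAddCommGroup E] [NormedSpace ℂ E] [FiniteDimensional ℂ E]

theorem M12c_per {e : ℝ} (he : e = 1 ∨ e = -1) (θ : ℝ) : cis (e * (θ + 2 * Real.pi)) = cis (e * θ) := by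
  rcases he with rfl | rfl
  · rw [one_mul, one_mul, cis_per]
  · have := cis_per (-1 * (θ + 2 * Real.pi))
    rw [← this]
    congr 1
    ring

theorem core_eq {f g : E → ℂ} {φ ψ : E → E} {B B' : Set E} (h : Pair f g φ ψ B) (h' : Pair g f ψ φ B') (hB : (0 : E) ∈ B)
    (hB' : (0 : E) ∈ B') (hψ : ψ 0 = 0) (hφ : φ 0 = 0) {k m : ℕ} {P Q : E → ℂ} (hf : Lead f k P) (hg : Lead g m Q)
    (hm : 1 ≤ m) {v : E} (hv : P v ≠ 0) {c : ℝ} (hc : 0 < c) : ∃ ε : ℝ, 0 < ε ∧ ∀ (r d e : ℝ) (a : E), 0 < r → r < ε →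
      (e = 1 ∨ e = -1) → 0 < ‖a‖ → ‖a‖ < ε → c * ‖a‖ ≤ d → (∀ θ : ℝ, ‖φ ((r * cis θ) • v) - cis (e * θ) • a‖ < d) →
      (∀ (θ : ℝ) (y : E), ‖y - cis (e * θ) • a‖ < d → g y ≠ 0) → m ≤ k := by
  have hgan : AnalyticAt ℂ g 0 := h.g_an 0 hB
  have hfan : AnalyticAt ℂ f 0 := h'.g_an 0 hB'
  obtain ⟨s0, hs0, hta⟩ := torus_avoid hgan hg hm hc
  obtain ⟨r1, hr1, hlw⟩ := mem_nhdsGT_iff_exists_Ioo_subset.1 (lead_wd hfan hf hv)
  have hr1' : 0 < r1 := hr1
  obtain ⟨R0, hR0, hR0B⟩ := Metric.isOpen_iff.1 h.isOpen 0 hB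
  have hφ0 : ContinuousAt φ 0 := h'.ψ_cont 0 hB'
  have hsm : ∀ᶠ x in 𝓝 (0:E), x ∈ B' ∧ φ x ∈ Metric.ball (0:E) R0 := by
    refine Filter.Eventually.and (h'.isOpen.mem_nhds hB') ?_
    have : Metric.ball (0:E) R0 ∈ 𝓝 (φ 0) := by
      rw [hφ]
      exact Metric.ball_mem_nhds 0 hR0
    exact hφ0 this
  obtain ⟨δ, hδ, hδ'⟩ := Metric.eventually_nhds_iff_ball.1 hsm
  have hpos : 0 < δ / (‖v‖ + 1) := div_pos hδ (by positivity)
  refine ⟨min (min s0 r1) (min R0 (δ / (‖v‖ + 1))), lt_min (lt_min hs0 hr1') (lt_min hR0 hpos), ?_⟩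
  intro r d e a hr hre he ha hae hcd hφa hga
  have hrr1 : r < r1 := lt_of_lt_of_le hre (le_trans (min_le_left _ _) (min_le_right _ _))
  have hrδ : r < δ / (‖v‖ + 1) := lt_of_lt_of_le hre (le_trans (min_le_right _ _) (min_le_right _ _))
  have has0 : ‖a‖ < s0 := lt_of_lt_of_le hae (le_trans (min_le_left _ _) (min_le_left _ _))
  have haR : ‖a‖ < R0 := lt_of_lt_of_le hae (le_trans (min_le_right _ _) (min_le_left _ _))
  have hlead : Wd (fun θ => f ((r * cis θ) • v)) k := hlw ⟨hr, hrr1⟩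
  -- the disc of radius `r` is in `B'`
  have hball : ∀ w : ℂ, ‖w‖ ≤ 1 → (r * w) • v ∈ Metric.ball (0:E) δ := by
    intro w hw
    rw [mem_ball_zero_iff, norm_smul, norm_mul, Complex.norm_real, Real.norm_eq_abs, abs_of_pos hr]
    have h1 : r * (‖v‖ + 1) < δ := by
      rwa [lt_div_iff₀ (by positivity)] at hrδ
    calc r * ‖w‖ * ‖v‖ ≤ r * 1 * ‖v‖ := by gcongr
      _ ≤ r * (‖v‖ + 1) := by nlinarith
      _ < δ := h1
  have hB'' : ∀ w : ℂ, ‖w‖ ≤ 1 → (r * w) • v ∈ B' := fun w hw => (hδ' _ (hball w hw)).1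
  have hφR : ∀ θ, φ ((r * cis θ) • v) ∈ Metric.ball (0:E) R0 := fun θ => (hδ' _ (hball _ (cis_norm θ).le)).2
  -- the circle of `a`
  have hga0 : Wd (fun θ => g (cis θ • a)) m := by
    have hsu : ‖a‖ • (‖a‖⁻¹ • a) = a := by
      rw [smul_smul, mul_inv_cancel₀ ha.ne', one_smul]
    have hu : ‖(‖a‖⁻¹ • a)‖ ≤ 1 := by
      rw [norm_smul, norm_inv, norm_norm, inv_mul_cancel₀ ha.ne']
    have h1 := (hta ‖a‖ (‖a‖⁻¹ • a) ha has0 hu (by
      intro y hy
      rw [hsu] at hy
      refine hga 0 y ?_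
      have h2 : cis (e * 0) • a = a := by
        rw [mul_zero]
        unfold cis
        simp
      rw [h2]
      exact lt_of_lt_of_le hy hcd)).2
    have h2 : (fun θ => g ((‖a‖ * cis θ) • (‖a‖⁻¹ • a))) = fun θ => g (cis θ • a) := by
      funext θ
      rw [mul_comm, mul_smul, Complex.coe_smul, hsu]
    rwa [h2] at h1
  obtain ⟨K, hK, hKm⟩ : ∃ K : ℤ, Wd (fun θ => g (cis (e * θ) • a)) K ∧ |K| = m := by
    rcases he with rfl | rfl
    · refine ⟨m, ?_, by simp⟩
      simpa only [one_mul] using hga0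
    · refine ⟨-m, ?_, by simp⟩
      simpa only [neg_one_mul] using hga0.rev
  have hd : 0 < d := lt_of_lt_of_le (mul_pos hc ha) hcd
  have hβR : ∀ θ, cis (e * θ) • a ∈ Metric.ball (0:E) R0 := by
    intro θ
    rw [mem_ball_zero_iff, norm_smul, cis_norm, one_mul]
    exact haR
  -- the homotopy along the segments
  have hhom : Wd (fun θ => g (φ ((r * cis θ) • v))) K := by
    have hseg : ∀ θ, ∀ t ∈ Icc (0:ℝ) 1,
        cis (e * θ) • a + t • (φ ((r * cis θ) • v) - cis (e * θ) • a) ∈ Metric.ball (0:E) R0 := by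
      intro θ t ht
      have := (convex_ball (0:E) R0) (hβR θ) (hφR θ) (sub_nonneg.2 ht.2) ht.1 (by ring)
      have h2 : (1 - t) • cis (e * θ) • a + t • φ ((r * cis θ) • v)
          = cis (e * θ) • a + t • (φ ((r * cis θ) • v) - cis (e * θ) • a) := by
        rw [sub_smul, one_smul, smul_sub]
        abel
      rwa [h2] at this
    have hH := Wd.htpy (H := fun θ t => g (cis (e * θ) • a + t • (φ ((r * cis θ) • v) - cis (e * θ) • a))) (k := K) ?_ ?_ ?_ ?_
    · simpa only [one_smul, add_sub_cancel] using hH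
    · rintro ⟨θ, t⟩ ⟨-, ht⟩
      refine ContinuousAt.continuousWithinAt ?_
      have h1 : ContinuousAt (fun p : ℝ × ℝ => cis (e * p.1) • a) (θ, t) := by
        have h2 := cis_cont
        have : Continuous (fun p : ℝ × ℝ => cis (e * p.1) • a) := by fun_prop
        exact this.continuousAt
      have h3 : ContinuousAt (fun p : ℝ × ℝ => (r * cis p.1) • v) (θ, t) := by
        have h2 := cis_cont
        have : Continuous (fun p : ℝ × ℝ => (r * cis p.1) • v) := by fun_prop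
        exact this.continuousAt
      have h4 : ContinuousAt (fun p : ℝ × ℝ => φ ((r * cis p.1) • v)) (θ, t) :=
        ContinuousAt.comp (f := fun p : ℝ × ℝ => (r * cis p.1) • v) (g := φ)
          (h'.ψ_cont _ (hB'' _ (cis_norm θ).le)) h3
      have h5 : ContinuousAt (fun p : ℝ × ℝ => cis (e * p.1) • a + p.2 • (φ ((r * cis p.1) • v) - cis (e * p.1) • a))
          (θ, t) := h1.add (continuousAt_snd.smul (h4.sub h1))
      exact ContinuousAt.comp
        (f := fun p : ℝ × ℝ => cis (e * p.1) • a + p.2 • (φ ((r * cis p.1) • v) - cis (e * p.1) • a)) (g := g)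
        (h.g_an _ (hR0B (hseg θ t ht))).continuousAt h5
    · intro t ht θ
      refine hga θ _ ?_
      rw [add_sub_cancel_left, norm_smul, Real.norm_eq_abs, abs_of_nonneg ht.1]
      calc t * ‖φ ((r * cis θ) • v) - cis (e * θ) • a‖ ≤ 1 * ‖φ ((r * cis θ) • v) - cis (e * θ) • a‖ := by
            gcongr
            exact ht.2
        _ < d := by
            rw [one_mul]
            exact hφa θ
    · intro t ht θ
      simp only [M12c_per he, cis_per]
    · simpa only [zero_smul, add_zero] using hK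
  have hrv : ∀ w : ℂ, (0:E) + w • ((r:ℂ) • v) = (r * w) • v := by
    intro w
    rw [zero_add, smul_smul, mul_comm]
  have hfin := disc_le h' (x := 0) (v := (r:ℂ) • v) (N := k) (K := K)
    (fun w hw => by rw [hrv]; exact hB'' w hw)
    (fun w hw => by
      obtain ⟨θ, rfl⟩ := exists_cis hw
      rw [hrv]
      exact hlead.ne θ)
    (by simpa only [hrv] using hlead) (by simpa only [hrv] using hhom)
  rw [hKm] at hfin
  exact_mod_cast hfin

end Zr
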