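import Pool.Agent.helper60.Zr.M11
import Pool.Agent.helper60.Zr.M12a
import Pool.Agent.helper60.Zr.M12b
import Pool.Agent.helper60.Zr.M12c

set_option autoImplicit false

/-!
# Zr, module M13: one complex line

`one_line_le`: `Equ.pair` (M9), `cone_lead`, `avoid`, `core` (M8; take `ε` smaller than the `ε0` of `avoid`).
`one_line_eq`: `k ≤ m` by `one_line_le` (ellipses `(a, 0)` resp. `(0, a)`), `m ≤ k` by `core_eq` at one small scale.
`family_line`: the multiplicity (`red_lead`, M11) is locally constant on `[0,1]` by `one_line_eq`, as in `family` (M11); `lead_order` (M6).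
`near_id`: `a = r • v`, `d = κ * r / 2`, `e = 1`, `c = κ / (2 * ‖v‖)`.
-/

noncomputable section

namespace Zr

open Filter Topology Set

variable {E : Type*} [NormedAddCommGroup E] [NormedSpace ℂ E]

theorem near_id {φ : E → E} {v : E} {κ : ℝ} (hv : v ≠ 0) (hκ : 0 < κ)
    (h : ∀ ε : ℝ, 0 < ε → ∃ r : ℝ, 0 < r ∧ r < ε ∧ ∀ (θ : ℝ) (x : E), ‖x - (r * cis θ) • v‖ ≤ κ * r →
      ‖φ x - x‖ < κ * r / 2) : CircScale φ v κ (κ / (2 * ‖v‖)) := by
  have hvn : 0 < ‖v‖ := norm_pos_iff.2 hv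
  intro ε hε
  obtain ⟨r, hr, hrε, H⟩ := h (min ε (ε / ‖v‖)) (lt_min hε (by positivity))
  have h1 : r < ε := lt_of_lt_of_le hrε (min_le_left _ _)
  have h2 : r < ε / ‖v‖ := lt_of_lt_of_le hrε (min_le_right _ _)
  rw [lt_div_iff₀ hvn] at h2
  have hn : ‖(r : ℂ) • v‖ = r * ‖v‖ := by
    rw [norm_smul, Complex.norm_real, Real.norm_eq_abs, abs_of_pos hr]
  refine ⟨r, hr, h1, (r : ℂ) • v, κ * r / 2, 1, Or.inl rfl, ?_, ?_, ?_, ?_⟩
  · rw [hn]
    positivity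
  · rw [hn]
    exact h2
  · rw [hn]
    apply le_of_eq
    field_simp
  · intro θ
    have e1 : cis (1 * θ) • ((r : ℂ) • v) = ((r : ℂ) * cis θ) • v := by
      rw [one_mul, smul_smul, mul_comm]
    rw [e1]
    refine ⟨?_, ?_⟩
    · apply H θ
      rw [sub_self, norm_zero]
      positivity
    · intro x hx
      have h3 := H θ x hx.le
      have h4 : ‖x - ((r : ℂ) * cis θ) • v‖ ≤ ‖φ x - ((r : ℂ) * cis θ) • v‖ + ‖φ x - x‖ := by
        have h5 : x - ((r : ℂ) * cis θ) • v = (φ x - ((r : ℂ) * cis θ) • v) - (φ x - x) := by abel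
        rw [h5]
        exact norm_sub_le _ _
      rw [hx] at h4
      linarith

variable [FiniteDimensional ℂ E]

theorem one_line_le {f g : E → ℂ} {φ ψ : E → E} {V W : Set E} (hf : Red f) (hg : Red g) (h : Equ f g φ ψ V W) {k m : ℕ}
    {P Q : E → ℂ} (hk : Lead f k P) (hm : Lead g m Q) {v : E} {κ c : ℝ} (hκ : 0 < κ) (hcone : Cone f v κ) (hc : 0 < c)
    (H : EllScale φ v κ c) : k ≤ m := by
  obtain ⟨B, hB0, hB⟩ := h.pair hf hg
  have hPv : P v ≠ 0 := cone_lead hf.1 hf.2.1 hk hκ hcone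
  obtain ⟨ε0, hε0, hav⟩ := avoid h hf.2.1 hκ hcone
  refine core hB hB0 h.ψ0 hk hm (hm.one_le hg.2.1) hPv hc ?_
  intro ε hε
  obtain ⟨r, hr, hrε, a, b, d, h1, h2, h3, h4⟩ := H (min ε ε0) (lt_min hε hε0)
  refine ⟨r, hr, lt_of_lt_of_le hrε (min_le_left _ _), a, b, d, h1, lt_of_lt_of_le h2 (min_le_left _ _), h3,
    fun θ => (h4 θ).1, ?_⟩
  intro θ y hy
  refine hav r θ d _ hr (lt_of_lt_of_le hrε (min_le_right _ _)) ?_ (h4 θ).1 (h4 θ).2 y hy
  refine lt_of_le_of_lt (norm_add_le _ _) ?_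
  rw [norm_smul, norm_smul, cis_norm, cis_norm, one_mul, one_mul]
  exact lt_of_lt_of_le h2 (min_le_right _ _)

theorem one_line_eq {f g : E → ℂ} {φ ψ : E → E} {V W : Set E} (hf : Red f) (hg : Red g) (h : Equ f g φ ψ V W) {k m : ℕ}
    {P Q : E → ℂ} (hk : Lead f k P) (hm : Lead g m Q) {v : E} {κ c : ℝ} (hκ : 0 < κ) (hcone : Cone f v κ) (hc : 0 < c)
    (H : CircScale φ v κ c) : k = m := by
  refine le_antisymm ?_ ?_
  · refine one_line_le hf hg h hk hm hκ hcone hc ?_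
    intro ε hε
    obtain ⟨r, hr, hrε, a, d, e, he, h1, h2, h3, h4⟩ := H ε hε
    rcases he with he | he
    · subst he
      refine ⟨r, hr, hrε, a, 0, d, ?_, ?_, ?_, ?_⟩
      · rw [norm_zero, add_zero]
        exact h1
      · rw [norm_zero, add_zero]
        exact h2
      · rw [norm_zero, add_zero]
        exact h3
      · intro θ
        have h5 := h4 θ
        rw [one_mul] at h5
        rw [smul_zero, add_zero]
        exact h5
    · subst he
      refine ⟨r, hr, hrε, 0, a, d, ?_, ?_, ?_, ?_⟩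
      · rw [norm_zero, zero_add]
        exact h1
      · rw [norm_zero, zero_add]
        exact h2
      · rw [norm_zero, zero_add]
        exact h3
      · intro θ
        have h5 := h4 θ
        have e1 : (-1 : ℝ) * θ = -θ := by ring
        rw [e1] at h5
        rw [smul_zero, zero_add]
        exact h5
  · obtain ⟨B, hB0, hB⟩ := h.pair hf hg
    obtain ⟨B', hB'0, hB'⟩ := h.symm.pair hg hf
    have hPv : P v ≠ 0 := cone_lead hf.1 hf.2.1 hk hκ hcone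
    obtain ⟨ε1, hε1, hcore⟩ := core_eq hB hB' hB0 hB'0 h.ψ0 h.z0 hk hm (hm.one_le hg.2.1) hPv hc
    obtain ⟨ε0, hε0, hav⟩ := avoid h hf.2.1 hκ hcone
    obtain ⟨r, hr, hrε, a, d, e, he, h1, h2, h3, h4⟩ := H (min ε1 ε0) (lt_min hε1 hε0)
    refine hcore r d e a hr (lt_of_lt_of_le hrε (min_le_left _ _)) he h1 (lt_of_lt_of_le h2 (min_le_left _ _)) h3
      (fun θ => (h4 θ).1) ?_
    intro θ y hy
    refine hav r θ d _ hr (lt_of_lt_of_le hrε (min_le_right _ _)) ?_ (h4 θ).1 (h4 θ).2 y hy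
    rw [norm_smul, cis_norm, one_mul]
    exact lt_of_lt_of_le h2 (min_le_right _ _)

theorem family_line {F : ℝ → E → ℂ} (hr : ∀ t ∈ Icc (0:ℝ) 1, Red (F t))
    (h : ∀ s ∈ Icc (0:ℝ) 1, ∃ (v : E) (κ η : ℝ), 0 < κ ∧ 0 < η ∧ Cone (F s) v κ ∧ ∀ t ∈ Icc (0:ℝ) 1, |t - s| < η →
      ∃ (φ ψ : E → E) (V W : Set E) (c : ℝ), Equ (F s) (F t) φ ψ V W ∧ 0 < c ∧ CircScale φ v κ c) {s t : ℝ}
    (hs : s ∈ Icc (0:ℝ) 1) (ht : t ∈ Icc (0:ℝ) 1) (k : ℕ) :
    (∀ j < k, iteratedFDeriv ℂ j (F s) 0 = 0) ↔ (∀ j < k, iteratedFDeriv ℂ j (F t) 0 = 0) := by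
  have hex : ∀ t : ℝ, ∃ K : ℕ, t ∈ Icc (0:ℝ) 1 → ∃ P : E → ℂ, Lead (F t) K P := by
    intro t
    by_cases htt : t ∈ Icc (0:ℝ) 1
    · obtain ⟨K, P, -, hL⟩ := red_lead (hr t htt)
      exact ⟨K, fun _ => ⟨P, hL⟩⟩
    · exact ⟨0, fun h' => absurd h' htt⟩
  choose K hK using hex
  have hcont : ContinuousOn K (Icc (0:ℝ) 1) := by
    intro s hs
    obtain ⟨v, κ, η, hκ, hη, hcone, h1⟩ := h s hs
    obtain ⟨P, hL⟩ := hK s hs
    have h2 : ∀ᶠ t in 𝓝[Icc (0:ℝ) 1] s, K s = K t := by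
      have h3 : ∀ᶠ t in 𝓝[Icc (0:ℝ) 1] s, |t - s| < η := by
        have h4 : Metric.ball s η ∈ 𝓝 s := Metric.ball_mem_nhds s hη
        have h5 : ∀ᶠ t in 𝓝 s, |t - s| < η := by
          filter_upwards [h4] with t ht
          rwa [Metric.mem_ball, Real.dist_eq] at ht
        exact h5.filter_mono nhdsWithin_le_nhds
      filter_upwards [h3, self_mem_nhdsWithin] with t ht htt
      obtain ⟨φ, ψ, V, W, c, hE, hc, H⟩ := h1 t htt ht
      obtain ⟨P', hL'⟩ := hK t htt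
      exact one_line_eq (hr s hs) (hr t htt) hE hL hL' hκ hcone hc H
    exact tendsto_const_nhds.congr' h2
  have hKK : K s = K t := isPreconnected_Icc.constant hcont hs ht
  obtain ⟨P, hL⟩ := hK s hs
  obtain ⟨P', hL'⟩ := hK t ht
  rw [lead_order (hr s hs).1 hL k, lead_order (hr t ht).1 hL' k, hKK]

end Zr
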