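import Pool.Agent.helper60.Zr.M1

set_option autoImplicit false

/-!
# Zr, module M14: loops in a punctured disc

`punctured`: `K (x, s) = H (exp (log R - exp x + i s))` is continuous and nonvanishing on `ℝ × ℝ` and `2π`-periodic in `s`, so `K = exp L` (`exists_log`) and
`L (x, s + 2π) - L (x, s) = 2π i G'` with a constant integer `G'` (`M1_const`); `G' = G` by `Wd.uniq` for `x = log (log R - log ρ)`. If `φ` is the lift of `μ`
(`exp (φ θ) = μ θ`, `(φ θ).re < log R`) then `H (μ θ) = K (x θ, s θ)` with `x θ = log (log R - (φ θ).re)`, `s θ = (φ θ).im`, and `L (x θ, s θ)` is a lift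
of `H (μ θ)`; it increases by `2π i j G` (`M1_iter`).
-/

noncomputable section

namespace Zr

open Filter Topology Set

theorem punctured {H : ℂ → ℂ} {R : ℝ} (hH : ∀ w : ℂ, 0 < ‖w‖ → ‖w‖ < R → ContinuousAt H w)
    (h0 : ∀ w : ℂ, 0 < ‖w‖ → ‖w‖ < R → H w ≠ 0) {μ : ℝ → ℂ} {j G : ℤ} {ρ : ℝ} (hρ : 0 < ρ) (hρR : ρ < R) (hμ : Wd μ j)
    (hμR : ∀ θ, ‖μ θ‖ < R) (hG : Wd (fun θ => H (ρ * cis θ)) G) : Wd (fun θ => H (μ θ)) (j * G) := by
  have hR : 0 < R := hρ.trans hρR
  -- the polar coordinates
  set e : ℝ × ℝ → ℂ := fun p => Complex.exp (((Real.log R - Real.exp p.1 : ℝ) : ℂ) + (p.2 : ℂ) * Complex.I) with he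
  have hec : Continuous e := by
    rw [he]
    fun_prop
  have hen : ∀ p, ‖e p‖ = Real.exp (Real.log R - Real.exp p.1) := by
    intro p
    rw [he]
    simp only [Complex.norm_exp]
    congr 1
    rw [Complex.add_re, Complex.ofReal_re, Complex.mul_I_re, Complex.ofReal_im]
    ring
  have he0 : ∀ p, 0 < ‖e p‖ := fun p => by
    rw [hen]
    exact Real.exp_pos _
  have heR : ∀ p, ‖e p‖ < R := fun p => by
    rw [hen]
    calc Real.exp (Real.log R - Real.exp p.1) < Real.exp (Real.log R) :=
          Real.exp_lt_exp.2 (by linarith [Real.exp_pos p.1])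
      _ = R := Real.exp_log hR
  have hK : Continuous fun p => H (e p) := by
    rw [continuous_iff_continuousAt]
    intro p
    exact ContinuousAt.comp (hH (e p) (he0 p) (heR p)) hec.continuousAt
  obtain ⟨L, hL, hL'⟩ := exists_log hK (fun p => h0 _ (he0 p) (heR p))
  have hper : ∀ x s : ℝ, e (x, s + 2 * Real.pi) = e (x, s) := by
    intro x s
    rw [he]
    simp only
    have : (((Real.log R - Real.exp x : ℝ) : ℂ) + ((s + 2 * Real.pi : ℝ) : ℂ) * Complex.I) =
        (((Real.log R - Real.exp x : ℝ) : ℂ) + (s : ℂ) * Complex.I) + 2 * Real.pi * Complex.I := by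
      push_cast
      ring
    rw [this]
    exact Complex.exp_periodic _
  obtain ⟨G', hG'⟩ := M1_const (D := fun p : ℝ × ℝ => L (p.1, p.2 + 2 * Real.pi) - L p) (by fun_prop) (by
    intro p
    rw [Complex.exp_sub, hL', hL', hper, div_self (h0 _ (he0 p) (heR p))])
  have hstep : ∀ x s : ℝ, L (x, s + 2 * Real.pi) = L (x, s) + 2 * Real.pi * Complex.I * G' := by
    intro x s
    rw [← hG' (x, s)]
    ring
  -- `G' = G`
  have hGG : G = G' := by
    refine hG.uniq ⟨fun θ => L (Real.log (Real.log R - Real.log ρ), θ), by fun_prop, fun θ => ?_, fun θ => hstep _ θ⟩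
    rw [hL']
    congr 1
    rw [he]
    simp only
    have hpos : 0 < Real.log R - Real.log ρ := by
      have := Real.log_lt_log hρ hρR
      linarith
    rw [Real.exp_log hpos, Complex.exp_add]
    unfold cis
    congr 1
    have : Real.log R - (Real.log R - Real.log ρ) = Real.log ρ := by ring
    rw [this, ← Complex.ofReal_exp, Real.exp_log hρ]
  subst hGG
  obtain ⟨φ, h1, h2, h3⟩ := hμ
  have hre : ∀ θ, (φ θ).re < Real.log R := by
    intro θ
    have h4 := hμR θ
    rw [← h2 θ, Complex.norm_exp] at h4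
    exact (Real.lt_log_iff_exp_lt hR).2 h4
  refine ⟨fun θ => L (Real.log (Real.log R - (φ θ).re), (φ θ).im), ?_, fun θ => ?_, fun θ => ?_⟩
  · refine hL.comp ?_
    refine Continuous.prodMk ?_ (Complex.continuous_im.comp h1)
    refine Continuous.log (by fun_prop) (fun θ => ?_)
    have := hre θ
    linarith
  · rw [hL']
    congr 1
    rw [he, ← h2 θ]
    simp only
    have hpos : 0 < Real.log R - (φ θ).re := by
      have := hre θ
      linarith
    rw [Real.exp_log hpos]
    congr 1
    have : Real.log R - (Real.log R - (φ θ).re) = (φ θ).re := by ring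
    rw [this]
    exact Complex.re_add_im (φ θ)
  · have e1 : (φ (θ + 2 * Real.pi)).re = (φ θ).re := by
      rw [h3 θ]
      simp
    have e2 : (φ (θ + 2 * Real.pi)).im = (φ θ).im + 2 * Real.pi * j := by
      rw [h3 θ]
      simp
    simp only [e1, e2]
    have := M1_iter (L := fun s => L (Real.log (Real.log R - (φ θ).re), s)) (hstep _) j (φ θ).im
    rw [this]
    push_cast
    ring

end Zr
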