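import Pool.Agent.helper60.Zr.M9
import Pool.Agent.helper60.Zr.M10
import Pool.Agent.helper60.Zr.M14

set_option autoImplicit false

/-!
# Zr, module M15: a complex line whose image is near a complex line

`line_le`. Let `B`, `B'` be the sets of `Equ.pair` for `(f, g, φ, ψ)` and for `(g, f, ψ, φ)` (`h.symm.pair hg hf`). Choose `R > 0`: `R ≤ r0` (`HornFree`), and a ball `closedBall 0 R1 ⊆ B`
with `R * ‖a‖ ≤ R1 / 2`; so `w • a ∈ B` for `‖w‖ < R`. Choose `r` (from `H`) so small that `f` has winding number `k` on `θ ↦ (r cis θ) • v` (`lead_wd`), the disc `w • (r • v)`,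
`‖w‖ ≤ 1`, is in `B'`, `ψ (φ x) = x` on the circle, and `‖φ x‖ < R1 / 2`, `‖l (φ x)‖ < R` on the circle (continuity of `φ` at `0`). Put `γ θ = φ ((r cis θ) • v)`, `μ θ = l (γ θ)`,
`x_t = γ θ + t • (μ θ • a - γ θ)`, `t ∈ [0,1]`. Then `l x_t = μ θ` (`l a = 1`) and `‖x_t - μ θ • a‖ = (1 - t) ‖γ θ - μ θ • a‖ ≤ η ‖μ θ‖`, so `g x_t ≠ 0`, and `‖x_t‖ ≤ R1`, `x_t ∈ B`, `f (ψ x_t) ≠ 0`
(`Pair.zs`). `j` = winding number of `μ` (`Wd.ex`); `G`, `q` = winding numbers of `g`, `f ∘ ψ` on `θ ↦ (ρ cis θ) • a` for a small `ρ < R` (`HornFree` with `x = w • a`: `g (w • a) ≠ 0` for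
`0 < ‖w‖ < R`, since `η ≥ 0`). `Wd.htpy` and `punctured`: `g ∘ γ` has winding number `j G`, `f ∘ ψ ∘ γ` has `j q`, and the latter is `f` on the circle, so `k = j q` and `j ≠ 0` (`k ≥ 1`,
`Lead.one_le`). `m ≤ G` by `M10_core` (for `z ↦ g ((z * ρ) • a)`, `‖g x‖ ≤ C ‖x‖ ^ m` from `Lead`). `disc_le` for the pair `(g, f, ψ, φ, B')`, `x = 0` and the vector `r • v`: `|j G| ≤ k`.
So `m ≤ G ≤ |j| G ≤ k`.
-/

noncomputable section

namespace Zr

open Filter Topology Set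

variable {E : Type*} [NormedAddCommGroup E] [NormedSpace ℂ E]

/-- near `0`, `g` has no zeros in the punctured horn `‖x - l x • a‖ ≤ η ‖l x‖` around the complex line through `a` (`l a = 1`) -/
def HornFree (g : E → ℂ) (a : E) (l : E →L[ℂ] ℂ) (η : ℝ → ℝ) : Prop :=
  ∃ r0 : ℝ, 0 < r0 ∧ ∀ x : E, 0 < ‖l x‖ → ‖l x‖ < r0 → ‖x - l x • a‖ ≤ η ‖l x‖ → g x ≠ 0

variable [FiniteDimensional ℂ E]

omit [FiniteDimensional ℂ E] in
theorem M15_bound {g : E → ℂ} {m : ℕ} {Q : E → ℂ} (hm : Lead g m Q) (b : E) :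
    ∃ C : ℝ, ∀ᶠ z : ℂ in 𝓝 0, ‖g (z • b)‖ ≤ C * ‖z‖ ^ m := by
  obtain ⟨C, hC, r, hr, hap⟩ := hm.approx
  refine ⟨‖Q b‖ + C * ‖b‖ ^ (m + 1), ?_⟩
  have h1 : ∀ᶠ z : ℂ in 𝓝 0, ‖z‖ < min 1 (r / (‖b‖ + 1)) := by
    have : Tendsto (fun z : ℂ => ‖z‖) (𝓝 0) (𝓝 0) := by
      have := (continuous_norm (E := ℂ)).tendsto 0
      simpa using this
    exact this.eventually (gt_mem_nhds (by positivity))
  filter_upwards [h1] with z hz
  have hz1 : ‖z‖ < 1 := lt_of_lt_of_le hz (min_le_left _ _)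
  have hz2 : ‖z‖ < r / (‖b‖ + 1) := lt_of_lt_of_le hz (min_le_right _ _)
  have hb : 0 < ‖b‖ + 1 := by positivity
  have h2 : ‖z • b‖ < r := by
    rw [norm_smul]
    rw [lt_div_iff₀ hb] at hz2
    nlinarith [norm_nonneg z]
  have h3 := hap _ h2
  rw [hm.hom, norm_smul] at h3
  have h4 : ‖g (z • b)‖ ≤ ‖z ^ m * Q b‖ + C * (‖z‖ * ‖b‖) ^ (m + 1) := by
    have e : g (z • b) = z ^ m * Q b + (g (z • b) - z ^ m * Q b) := by ring
    calc ‖g (z • b)‖ = ‖z ^ m * Q b + (g (z • b) - z ^ m * Q b)‖ := by rw [← e]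
      _ ≤ ‖z ^ m * Q b‖ + ‖g (z • b) - z ^ m * Q b‖ := norm_add_le _ _
      _ ≤ _ := by linarith
  refine h4.trans ?_
  rw [norm_mul, norm_pow, mul_pow, pow_succ ‖z‖]
  have h5 : ‖z‖ ^ m * ‖z‖ ≤ ‖z‖ ^ m * 1 := mul_le_mul_of_nonneg_left hz1.le (by positivity)
  have h6 : C * ((‖z‖ ^ m * ‖z‖) * ‖b‖ ^ (m + 1)) ≤ C * ((‖z‖ ^ m * 1) * ‖b‖ ^ (m + 1)) :=
    mul_le_mul_of_nonneg_left (mul_le_mul_of_nonneg_right h5 (by positivity)) hC.le
  nlinarith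

theorem line_le {f g : E → ℂ} {φ ψ : E → E} {V W : Set E} (hf : Red f) (hg : Red g) (h : Equ f g φ ψ V W) {k m : ℕ}
    {P Q : E → ℂ} (hk : Lead f k P) (hm : Lead g m Q) {v a : E} {l : E →L[ℂ] ℂ} {η : ℝ → ℝ} (hv : P v ≠ 0)
    (hla : l a = 1) (hη : ∀ t, 0 ≤ η t) (hfree : HornFree g a l η)
    (H : ∀ ε : ℝ, 0 < ε → ∃ r : ℝ, 0 < r ∧ r < ε ∧ ∀ θ : ℝ, l (φ ((r * cis θ) • v)) ≠ 0 ∧
      ‖φ ((r * cis θ) • v) - l (φ ((r * cis θ) • v)) • a‖ ≤ η ‖l (φ ((r * cis θ) • v))‖) : m ≤ k := by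
  have hcis := cis_cont
  obtain ⟨B, h0B, hB⟩ := h.pair hf hg
  obtain ⟨B', h0B', hB'⟩ := h.symm.pair hg hf
  obtain ⟨r0, hr0, hfr⟩ := hfree
  obtain ⟨R2, hR2, hbB⟩ := Metric.isOpen_iff.1 hB.isOpen 0 h0B
  -- the radius `R`
  obtain ⟨R, hR, hRr0, hRa⟩ : ∃ R : ℝ, 0 < R ∧ R ≤ r0 ∧ R * ‖a‖ < R2 / 2 := by
    have ha1 : 0 < ‖a‖ + 1 := by positivity
    refine ⟨min r0 (R2 / 2 / (‖a‖ + 1)), by positivity, min_le_left _ _, ?_⟩
    have h1 : min r0 (R2 / 2 / (‖a‖ + 1)) ≤ R2 / 2 / (‖a‖ + 1) := min_le_right _ _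
    have h2 : 0 < R2 / 2 / (‖a‖ + 1) := by positivity
    have h3 : R2 / 2 / (‖a‖ + 1) * (‖a‖ + 1) = R2 / 2 := div_mul_cancel₀ _ ha1.ne'
    have h4 : min r0 (R2 / 2 / (‖a‖ + 1)) * ‖a‖ ≤ R2 / 2 / (‖a‖ + 1) * ‖a‖ :=
      mul_le_mul_of_nonneg_right h1 (norm_nonneg _)
    nlinarith
  have hwB : ∀ w : ℂ, ‖w‖ < R → w • a ∈ B := by
    intro w hw
    refine hbB ?_
    rw [mem_ball_zero_iff, norm_smul]
    have : ‖w‖ * ‖a‖ ≤ R * ‖a‖ := mul_le_mul_of_nonneg_right hw.le (norm_nonneg _)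
    linarith
  have hgw : ∀ w : ℂ, 0 < ‖w‖ → ‖w‖ < R → g (w • a) ≠ 0 := by
    intro w hw0 hwR
    have e1 : l (w • a) = w := by rw [map_smul, hla, smul_eq_mul, mul_one]
    refine hfr (w • a) ?_ ?_ ?_
    · rw [e1]
      exact hw0
    · rw [e1]
      linarith
    · rw [e1, sub_self, norm_zero]
      exact hη _
  -- the radius `r`
  have hφ0 : ContinuousAt φ 0 := h.cφ.continuousAt h.hV
  have hO1 : {x : E | ‖φ x‖ < R2 / 2 ∧ ‖l (φ x)‖ < R} ∈ 𝓝 (0:E) := by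
    have h1 : ContinuousAt (fun x => ‖φ x‖) 0 := hφ0.norm
    have h2 : ContinuousAt (fun x => ‖l (φ x)‖) 0 := (l.continuous.continuousAt.comp hφ0).norm
    have h3 : ‖φ 0‖ < R2 / 2 := by
      rw [h.z0, norm_zero]
      positivity
    have h4 : ‖l (φ 0)‖ < R := by
      rw [h.z0, map_zero, norm_zero]
      exact hR
    exact (h1.eventually (gt_mem_nhds h3)).and (h2.eventually (gt_mem_nhds h4))
  have hev1 := lead_wd hf.1 hk hv
  have hev2 := M4_ev (u := v) hO1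
  have hev3 : ∀ᶠ r : ℝ in 𝓝[>] 0, ∀ w : ℂ, ‖w‖ ≤ 1 → (0:E) + w • ((r : ℂ) • v) ∈ B' := by
    obtain ⟨δ, hδ, hbδ⟩ := Metric.isOpen_iff.1 hB'.isOpen 0 h0B'
    have hv1 : 0 < ‖v‖ + 1 := by positivity
    have h1 : ∀ᶠ ρ : ℝ in 𝓝[>] 0, ρ ∈ Ioo (0:ℝ) (δ / (‖v‖ + 1)) := Ioo_mem_nhdsGT (by positivity)
    filter_upwards [h1] with ρ hρ w hw
    refine hbδ ?_
    rw [zero_add, mem_ball_zero_iff, norm_smul, norm_smul, Complex.norm_real, Real.norm_eq_abs,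
      abs_of_pos hρ.1]
    have h2 := (lt_div_iff₀ hv1).1 hρ.2
    have h3 : ‖w‖ * (ρ * ‖v‖) ≤ 1 * (ρ * ‖v‖) :=
      mul_le_mul_of_nonneg_right hw (mul_nonneg hρ.1.le (norm_nonneg _))
    nlinarith [hρ.1]
  obtain ⟨ε, hε, hεs⟩ := mem_nhdsGT_iff_exists_Ioo_subset.1 (hev1.and (hev2.and hev3))
  obtain ⟨r, hr, hrε, hH⟩ := H ε hε
  obtain ⟨hw1, hw2, hw3⟩ := hεs ⟨hr, hrε⟩
  have hsm : ∀ θ : ℝ, ((r * cis θ : ℂ)) • v = (0:E) + cis θ • ((r : ℂ) • v) := by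
    intro θ
    rw [zero_add, smul_smul, mul_comm]
  have hmB' : ∀ θ : ℝ, ((r * cis θ : ℂ)) • v ∈ B' := by
    intro θ
    rw [hsm]
    exact hw3 _ (cis_norm θ).le
  set γ : ℝ → E := fun θ => φ (((r * cis θ : ℂ)) • v) with hγ
  have hγc : Continuous γ := by
    rw [continuous_iff_continuousAt]
    intro θ
    have hc : Continuous (fun θ : ℝ => ((r * cis θ : ℂ)) • v) := by fun_prop
    exact ContinuousAt.comp (g := φ) (f := fun θ : ℝ => ((r * cis θ : ℂ)) • v)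
      (hB'.ψ_cont _ (hmB' θ)) hc.continuousAt
  have hγp : ∀ θ, γ (θ + 2 * Real.pi) = γ θ := by
    intro θ
    simp only [hγ]
    rw [cis_per]
  have hγn : ∀ θ, ‖γ θ‖ < R2 / 2 ∧ ‖l (γ θ)‖ < R := by
    intro θ
    have := hw2 θ
    rw [zero_add] at this
    exact this
  have hγl : ∀ θ, l (γ θ) ≠ 0 := fun θ => (hH θ).1
  have hγa : ∀ θ, ‖γ θ - l (γ θ) • a‖ ≤ η ‖l (γ θ)‖ := fun θ => (hH θ).2
  obtain ⟨j, hj⟩ := Wd.ex (c := fun θ => l (γ θ)) (l.continuous.comp hγc) hγl (by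
    intro θ
    rw [hγp])
  -- the homotopy
  have hX : ∀ t ∈ Icc (0:ℝ) 1, ∀ θ : ℝ,
      l (γ θ) • a + (t : ℂ) • (γ θ - l (γ θ) • a) ∈ B ∧
      g (l (γ θ) • a + (t : ℂ) • (γ θ - l (γ θ) • a)) ≠ 0 := by
    intro t ht θ
    have e1 : l (l (γ θ) • a + (t : ℂ) • (γ θ - l (γ θ) • a)) = l (γ θ) := by
      simp only [map_add, map_smul, map_sub, hla, smul_eq_mul]
      ring
    have e2 : ‖(t : ℂ)‖ = t := by rw [Complex.norm_real, Real.norm_eq_abs, abs_of_nonneg ht.1]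
    constructor
    · refine hbB ?_
      rw [mem_ball_zero_iff]
      have e3 : l (γ θ) • a + (t : ℂ) • (γ θ - l (γ θ) • a) =
          ((1 - t : ℝ) : ℂ) • (l (γ θ) • a) + (t : ℂ) • γ θ := by
        push_cast
        module
      rw [e3]
      refine lt_of_le_of_lt (norm_add_le _ _) ?_
      rw [norm_smul, norm_smul, norm_smul, e2, Complex.norm_real, Real.norm_eq_abs,
        abs_of_nonneg (by linarith [ht.2] : 0 ≤ 1 - t)]
      have h1 : ‖l (γ θ)‖ * ‖a‖ ≤ R * ‖a‖ := mul_le_mul_of_nonneg_right (hγn θ).2.le (norm_nonneg _)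
      have h2 : (1 - t) * (‖l (γ θ)‖ * ‖a‖) ≤ (1 - t) * (R2 / 2) :=
        mul_le_mul_of_nonneg_left (by linarith) (by linarith [ht.2])
      have h3 : t * ‖γ θ‖ ≤ t * (R2 / 2) := mul_le_mul_of_nonneg_left (hγn θ).1.le ht.1
      nlinarith
    · refine hfr _ ?_ ?_ ?_
      · rw [e1]
        exact norm_pos_iff.2 (hγl θ)
      · rw [e1]
        exact lt_of_lt_of_le (hγn θ).2 hRr0
      · rw [e1, add_sub_cancel_left, norm_smul, e2]
        have h1 : t * ‖γ θ - l (γ θ) • a‖ ≤ 1 * ‖γ θ - l (γ θ) • a‖ :=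
          mul_le_mul_of_nonneg_right ht.2 (norm_nonneg _)
        linarith [hγa θ]
  have hXc : Continuous (fun p : ℝ × ℝ =>
      l (γ p.1) • a + (p.2 : ℂ) • (γ p.1 - l (γ p.1) • a)) := by fun_prop
  have move : ∀ (F : E → ℂ) (N : ℤ), (∀ y ∈ B, ContinuousAt F y) → (∀ y ∈ B, g y ≠ 0 → F y ≠ 0) →
      Wd (fun θ => F (l (γ θ) • a)) N → Wd (fun θ => F (γ θ)) N := by
    intro F N hF hF0 hN
    have := Wd.htpy (H := fun θ t => F (l (γ θ) • a + (t : ℂ) • (γ θ - l (γ θ) • a))) (k := N) (by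
        intro p hp
        exact (ContinuousAt.comp (g := F) (f := fun p : ℝ × ℝ =>
          l (γ p.1) • a + (p.2 : ℂ) • (γ p.1 - l (γ p.1) • a))
          (hF _ (hX p.2 hp.2 p.1).1) hXc.continuousAt).continuousWithinAt)
      (by
        intro t ht θ
        exact hF0 _ (hX t ht θ).1 (hX t ht θ).2)
      (by
        intro t ht θ
        rw [hγp])
      (by simpa using hN)
    simpa using this
  -- winding numbers on small circles of the line through `a`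
  have hfψ : ∀ y ∈ B, ContinuousAt (fun y => f (ψ y)) y := fun y hy =>
    ContinuousAt.comp (g := f) (f := ψ) (hB.f_an y hy).continuousAt (hB.ψ_cont y hy)
  have hfψ0 : ∀ y ∈ B, g y ≠ 0 → f (ψ y) ≠ 0 := fun y hy hgy hcon => hgy ((hB.zs y hy).1 hcon)
  have hgc : ∀ y ∈ B, ContinuousAt g y := fun y hy => (hB.g_an y hy).continuousAt
  have hcirc : ∀ θ : ℝ, ‖((R / 2 : ℝ) * cis θ : ℂ)‖ = R / 2 := by
    intro θ
    rw [norm_mul, cis_norm, mul_one, Complex.norm_real, Real.norm_eq_abs, abs_of_pos (by positivity)]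
  have line : ∀ F : E → ℂ, (∀ y ∈ B, ContinuousAt F y) → (∀ y ∈ B, g y ≠ 0 → F y ≠ 0) →
      ∃ G : ℤ, Wd (fun θ => F ((((R / 2 : ℝ) : ℂ) * cis θ) • a)) G ∧ Wd (fun θ => F (γ θ)) (j * G) := by
    intro F hF hF0
    have hHc : ∀ w : ℂ, 0 < ‖w‖ → ‖w‖ < R → ContinuousAt (fun w : ℂ => F (w • a)) w := by
      intro w _ hwR
      have hc : Continuous (fun w : ℂ => w • a) := by fun_prop
      exact ContinuousAt.comp (g := F) (f := fun w : ℂ => w • a) (hF _ (hwB w hwR)) hc.continuousAt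
    have hH0 : ∀ w : ℂ, 0 < ‖w‖ → ‖w‖ < R → F (w • a) ≠ 0 := fun w h1 h2 =>
      hF0 _ (hwB w h2) (hgw w h1 h2)
    obtain ⟨G, hG⟩ := Wd.ex (c := fun θ => F ((((R / 2 : ℝ) : ℂ) * cis θ) • a)) (by
        rw [continuous_iff_continuousAt]
        intro θ
        have hc : Continuous (fun θ : ℝ => (((R / 2 : ℝ) : ℂ) * cis θ)) := by fun_prop
        exact ContinuousAt.comp (g := fun w : ℂ => F (w • a)) (f := fun θ : ℝ => (((R / 2 : ℝ) : ℂ) * cis θ))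
          (hHc _ (by rw [hcirc]; positivity) (by rw [hcirc]; linarith)) hc.continuousAt)
      (fun θ => hH0 _ (by rw [hcirc]; positivity) (by rw [hcirc]; linarith))
      (by
        intro θ
        rw [cis_per])
    refine ⟨G, hG, move F _ hF hF0 ?_⟩
    exact punctured (H := fun w : ℂ => F (w • a)) hHc hH0 (ρ := R / 2) (by positivity) (by linarith) hj
      (fun θ => (hγn θ).2) hG
  obtain ⟨G, hG1, hG2⟩ := line g hgc (fun _ _ h => h)
  obtain ⟨q, hq1, hq2⟩ := line (fun y => f (ψ y)) hfψ hfψ0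
  -- `k = j q`
  have hk1 : 1 ≤ k := hk.one_le hf.2.1
  have hkq : (k : ℤ) = j * q := by
    refine hw1.uniq ?_
    have e1 : (fun θ => f (ψ (γ θ))) = fun θ => f (((r * cis θ : ℂ)) • v) := by
      funext θ
      rw [hγ, hB'.φψ _ (hmB' θ)]
    rw [← e1]
    exact hq2
  have hj0 : j ≠ 0 := by
    intro hj0
    rw [hj0, zero_mul] at hkq
    have : k = 0 := by exact_mod_cast hkq
    omega
  have hj1 : 1 ≤ |j| := Int.one_le_abs hj0
  -- `m ≤ G`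
  have hmG : (m : ℤ) ≤ G := by
    obtain ⟨C, hC⟩ := M15_bound hm (((R / 2 : ℝ) : ℂ) • a)
    refine M10_core (h := fun z : ℂ => g (z • (((R / 2 : ℝ) : ℂ) • a))) ?_ ?_ hC
    · intro z hz
      have h1 : AnalyticAt ℂ (fun z : ℂ => z • (((R / 2 : ℝ) : ℂ) • a)) z := by fun_prop
      refine AnalyticAt.fun_comp (g := g) (f := fun z : ℂ => z • (((R / 2 : ℝ) : ℂ) • a)) ?_ h1
      refine hB.g_an _ ?_
      rw [smul_smul]
      refine hwB _ ?_
      rw [norm_mul, Complex.norm_real, Real.norm_eq_abs, abs_of_pos (by positivity)]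
      nlinarith
    · have e1 : (fun θ => g (cis θ • (((R / 2 : ℝ) : ℂ) • a))) =
          fun θ => g ((((R / 2 : ℝ) : ℂ) * cis θ) • a) := by
        funext θ
        rw [smul_smul, mul_comm]
      rw [e1]
      exact hG1
  -- `|j G| ≤ k`
  have hle : |j * G| ≤ k := by
    refine disc_le hB' (x := 0) (v := (r : ℂ) • v) hw3 ?_ ?_ ?_
    · intro w hw
      obtain ⟨θ, rfl⟩ := exists_cis hw
      rw [← hsm]
      exact hw1.ne θ
    · have e1 : (fun θ => f (0 + cis θ • ((r : ℂ) • v))) = fun θ => f (((r * cis θ : ℂ)) • v) := by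
        funext θ
        rw [hsm]
      rw [e1]
      exact hw1
    · have e1 : (fun θ => g (φ (0 + cis θ • ((r : ℂ) • v)))) = fun θ => g (γ θ) := by
        funext θ
        rw [← hsm]
      rw [e1]
      exact hG2
  have hG0 : 0 ≤ G := le_trans (by positivity) hmG
  rw [abs_mul, abs_of_nonneg hG0] at hle
  have : G ≤ |j| * G := by nlinarith
  have hfin : (m : ℤ) ≤ k := by linarith
  exact_mod_cast hfin

end Zr
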