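import Pool.Agent.helper60.Zr.Defs

set_option autoImplicit false

/-!
# Zr, module M16a (ang_map only): the complex direction of `Φ x` is near the complex direction of `x`

Notation `C(κ) = {x | l x ≠ 0, ‖x - l x • v‖ ≤ κ ‖l x‖}`; for `x ∈ C(κ)`: `‖x‖ ≤ (1 + κ) ‖l x‖ ≤ (5/4) ‖l x‖`.
`ang_map`: for `x ∈ C(κ)` let `‖y - w • x‖ ≤ δ ‖y‖`, `y ≠ 0`, `e = y - w • x`, `u = x - l x • v`, `τ = 5 δ / 2`, `8 τ < κ`. Then `‖e‖ ≤ 2 δ ‖w • x‖ ≤ τ ‖w‖ ‖l x‖`, `‖l e‖ ≤ τ ‖w‖ ‖l x‖`,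
`(1 - τ) ‖w‖ ‖l x‖ ≤ ‖l y‖ ≤ (1 + τ) ‖w‖ ‖l x‖`, `y - l y • v = w • u + e - l e • v`. If `u = 0`: `‖y - l y • v‖ ≤ 2 τ ‖w‖ ‖l x‖ ≤ 4 τ ‖l y‖ = 10 δ ‖l y‖`. If `‖u‖ = κ ‖l x‖`: `‖y - l y • v‖ ≥ (κ - 2 τ) ‖w‖ ‖l x‖ > 4 τ (1 + τ) ‖w‖ ‖l x‖ ≥ 4 τ ‖l y‖`.
`ang_free`: the set `S = {y | 0 < ‖l y‖ < ρ, ‖y - l y • v‖ ≤ 10 δ ‖l y‖}` (`ρ` small) is the image of the convex set `{(s, u) : ℂ × E | s.re < log ρ, l u = 0, ‖u‖ ≤ 10 δ}` under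
`(s, u) ↦ exp s • (v + u)`, so preconnected. The continuous function `D y = ‖x - l x • v‖ - κ ‖l x‖`, `x = ψ y`, does not vanish on `S` (if `l x = 0` then `x = 0`, `y = φ x = 0`; otherwise `x` is in
the boundary of `C(κ)` and by `ang_map` `y = φ x` is not in `S`), and is negative at `y = φ x'`, `x' = z • v`, `z ≠ 0` small (`ang_map`, `u = 0`: `φ x' ∈ S`). So `D < 0` on `S`, so `ψ y ∈ C(κ)`, `l (ψ y) ≠ 0`,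
and `f (ψ y) ≠ 0`, `g y ≠ 0`.
`ang_pair`: `m ≤ k` by `line_le` (`a = v`, `η t = 10 δ t` for `t ≥ 0`, use `η t = 10 * δ * |t|`), `k ≤ m` by `line_le` for `h.symm` (`η t = κ |t|`, `HornFree f`), where `P v ≠ 0`, `Q v ≠ 0` by `cone_lead` (M12b): if
`‖x - z • v‖ ≤ κ' ‖z‖` with `κ' = κ₁ / 4`, `κ₁ ≤ 1/2`, then `‖l x - z‖ ≤ κ' ‖z‖` and `‖x - l x • v‖ ≤ 2 κ' ‖z‖ ≤ κ₁ ‖l x‖`, so `HornFree` gives `Cone`.
`ang_all`: `kappa` (M6) gives `v`, `‖v‖ = 1`, choose `κ` with `20 δ < κ`, `4 k κ < 1`, `l` by `exists_dual_vector` (`‖l‖ = 1`, `l v = ‖v‖ = 1`).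
`ang_family`: as `family` (M11), with `red_lead`; `δ` with `80 δ k < 1`.
-/

noncomputable section

namespace Zr

open Filter Topology Set

variable {E : Type*} [NormedAddCommGroup E] [NormedSpace ℂ E]

theorem ang_map {v x y : E} {l : E →L[ℂ] ℂ} {κ δ : ℝ} {w : ℂ} (hv : ‖v‖ = 1) (hl : ‖l‖ ≤ 1) (hlv : l v = 1)
    (hκ : κ ≤ 1 / 4) (hδ : 0 < δ) (hδκ : 20 * δ < κ) (hlx : l x ≠ 0) (hy : y ≠ 0) (hw : ‖y - w • x‖ ≤ δ * ‖y‖) :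
    (x = l x • v → l y ≠ 0 ∧ ‖y - l y • v‖ ≤ 10 * δ * ‖l y‖) ∧
    (‖x - l x • v‖ = κ * ‖l x‖ → 10 * δ * ‖l y‖ < ‖y - l y • v‖) := by
  have hδ1 : δ < 1 / 80 := by linarith
  have hw0 : w ≠ 0 := by
    rintro rfl
    rw [zero_smul, sub_zero] at hw
    have := norm_pos_iff.2 hy
    nlinarith
  have hL : 0 < ‖l x‖ := norm_pos_iff.2 hlx
  have ha : 0 < ‖w‖ * ‖l x‖ := mul_pos (norm_pos_iff.2 hw0) hL
  obtain ⟨e, he⟩ : ∃ e, e = y - w • x := ⟨_, rfl⟩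
  have hye : y = w • x + e := by rw [he]; abel
  have hle : ‖l e‖ ≤ ‖e‖ := by
    calc ‖l e‖ ≤ ‖l‖ * ‖e‖ := l.le_opNorm e
      _ ≤ 1 * ‖e‖ := by gcongr
      _ = ‖e‖ := one_mul _
  have hly : l y = w * l x + l e := by rw [hye, map_add, map_smul, smul_eq_mul]
  have hdec : y - l y • v = w • (x - l x • v) + (e - l e • v) := by
    rw [hly, hye, add_smul, mul_smul, smul_sub]; abel
  have hev : ‖e - l e • v‖ ≤ 2 * ‖e‖ := by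
    calc ‖e - l e • v‖ ≤ ‖e‖ + ‖l e • v‖ := norm_sub_le _ _
      _ = ‖e‖ + ‖l e‖ := by rw [norm_smul, hv, mul_one]
      _ ≤ 2 * ‖e‖ := by linarith
  have hyn : ‖y‖ ≤ ‖w‖ * ‖x‖ + ‖e‖ := by
    calc ‖y‖ = ‖w • x + e‖ := by rw [← hye]
      _ ≤ ‖w • x‖ + ‖e‖ := norm_add_le _ _
      _ = ‖w‖ * ‖x‖ + ‖e‖ := by rw [norm_smul]
  rw [← he] at hw
  -- `‖e‖ (1 - δ) ≤ δ ‖w‖ ‖x‖`
  have he1 : ‖e‖ ≤ δ * (‖w‖ * ‖x‖ + ‖e‖) := hw.trans (by gcongr)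
  have hwl : ‖w * l x‖ = ‖w‖ * ‖l x‖ := norm_mul _ _
  have hlow : ‖w‖ * ‖l x‖ - ‖e‖ ≤ ‖l y‖ := by
    have h := norm_sub_le (l y) (l e)
    have h2 : l y - l e = w * l x := by rw [hly]; ring
    rw [h2, hwl] at h
    linarith
  have hup : ‖l y‖ ≤ ‖w‖ * ‖l x‖ + ‖e‖ := by
    calc ‖l y‖ = ‖w * l x + l e‖ := by rw [hly]
      _ ≤ ‖w * l x‖ + ‖l e‖ := norm_add_le _ _
      _ ≤ _ := by rw [hwl]; linarith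
  -- the bound `‖e‖ ≤ 2 δ ‖w‖ ‖l x‖` once `‖x‖ ≤ (5/4) ‖l x‖`
  have hE : ‖x‖ ≤ 5 / 4 * ‖l x‖ → ‖e‖ ≤ 2 * δ * (‖w‖ * ‖l x‖) := by
    intro hx
    have h1 : ‖w‖ * ‖x‖ ≤ 5 / 4 * (‖w‖ * ‖l x‖) := by
      calc ‖w‖ * ‖x‖ ≤ ‖w‖ * (5 / 4 * ‖l x‖) := by gcongr
        _ = _ := by ring
    have h2 : ‖e‖ ≤ δ * (5 / 4 * (‖w‖ * ‖l x‖) + ‖e‖) := he1.trans (by gcongr)
    have h3 : δ * ‖e‖ ≤ 1 / 80 * ‖e‖ := by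
      apply mul_le_mul_of_nonneg_right hδ1.le (norm_nonneg _)
    have h4 : 0 < δ * (‖w‖ * ‖l x‖) := mul_pos hδ ha
    nlinarith
  refine ⟨fun hx => ?_, fun hx => ?_⟩
  · have hxn : ‖x‖ = ‖l x‖ := by
      conv_lhs => rw [hx]
      rw [norm_smul, hv, mul_one]
    have hE' := hE (by rw [hxn]; linarith)
    have h4 : 0 < δ * (‖w‖ * ‖l x‖) := mul_pos hδ ha
    have h5 : 2 * δ * (‖w‖ * ‖l x‖) ≤ 1 / 40 * (‖w‖ * ‖l x‖) := by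
      apply mul_le_mul_of_nonneg_right (by linarith) ha.le
    have h6 : 39 / 40 * (‖w‖ * ‖l x‖) ≤ ‖l y‖ := by linarith
    refine ⟨fun h0 => ?_, ?_⟩
    · rw [h0, norm_zero] at h6
      linarith
    · rw [hdec, ← hx, sub_self, smul_zero, zero_add]
      calc ‖e - l e • v‖ ≤ 2 * ‖e‖ := hev
        _ ≤ 2 * (2 * δ * (‖w‖ * ‖l x‖)) := by linarith
        _ ≤ 10 * δ * (39 / 40 * (‖w‖ * ‖l x‖)) := by nlinarith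
        _ ≤ 10 * δ * ‖l y‖ := by gcongr
  · have hxn : ‖x‖ ≤ 5 / 4 * ‖l x‖ := by
      calc ‖x‖ = ‖(x - l x • v) + l x • v‖ := by rw [sub_add_cancel]
        _ ≤ ‖x - l x • v‖ + ‖l x • v‖ := norm_add_le _ _
        _ = κ * ‖l x‖ + ‖l x‖ := by rw [hx, norm_smul, hv, mul_one]
        _ ≤ 1 / 4 * ‖l x‖ + ‖l x‖ := by gcongr
        _ = _ := by ring
    have hE' := hE hxn
    have h4 : 0 < δ * (‖w‖ * ‖l x‖) := mul_pos hδ ha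
    have h5 : 2 * δ * (‖w‖ * ‖l x‖) ≤ 1 / 40 * (‖w‖ * ‖l x‖) := by
      apply mul_le_mul_of_nonneg_right (by linarith) ha.le
    have h6 : ‖l y‖ ≤ 41 / 40 * (‖w‖ * ‖l x‖) := by linarith
    have h7 : κ * (‖w‖ * ‖l x‖) - 2 * ‖e‖ ≤ ‖y - l y • v‖ := by
      have h := norm_sub_le (y - l y • v) (e - l e • v)
      have h2 : (y - l y • v) - (e - l e • v) = w • (x - l x • v) := by rw [hdec]; abel
      rw [h2, norm_smul, hx] at h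
      linarith
    have h8 : 20 * δ * (‖w‖ * ‖l x‖) < κ * (‖w‖ * ‖l x‖) := mul_lt_mul_of_pos_right hδκ ha
    have h9 : 10 * δ * ‖l y‖ ≤ 10 * δ * (41 / 40 * (‖w‖ * ‖l x‖)) := by gcongr
    nlinarith

end Zr
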