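import Pool.Agent.helper60.Zr.M15
import Pool.Agent.helper60.Zr.M16a

set_option autoImplicit false

/-!
# Zr, module M16b (ang_free only): the complex direction of `Φ x` is near the complex direction of `x`
-/

noncomputable section

namespace Zr

open Filter Topology Set

variable {E : Type*} [NormedAddCommGroup E] [NormedSpace ℂ E]

/-- the truncated cone is preconnected -/
theorem M16b_preconn {v : E} {l : E →L[ℂ] ℂ} {c ρ : ℝ} (hlv : l v = 1) (hρ : 0 < ρ) :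
    IsPreconnected {y : E | 0 < ‖l y‖ ∧ ‖l y‖ < ρ ∧ ‖y - l y • v‖ ≤ c * ‖l y‖} := by
  have himg : {y : E | 0 < ‖l y‖ ∧ ‖l y‖ < ρ ∧ ‖y - l y • v‖ ≤ c * ‖l y‖} =
      (fun p : ℂ × E => Complex.exp p.1 • (v + p.2)) ''
        {p : ℂ × E | p.1.re < Real.log ρ ∧ l p.2 = 0 ∧ ‖p.2‖ ≤ c} := by
    ext y
    constructor
    · rintro ⟨h1, h2, h3⟩
      have hy : l y ≠ 0 := norm_pos_iff.1 h1
      refine ⟨(Complex.log (l y), (l y)⁻¹ • y - v), ⟨?_, ?_, ?_⟩, ?_⟩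
      · simp only [Complex.log_re]
        exact Real.log_lt_log h1 h2
      · simp only [map_sub, map_smul, hlv, smul_eq_mul, inv_mul_cancel₀ hy, sub_self]
      · simp only
        have e : (l y)⁻¹ • y - v = (l y)⁻¹ • (y - l y • v) := by
          rw [smul_sub, smul_smul, inv_mul_cancel₀ hy, one_smul]
        rw [e, norm_smul, norm_inv, inv_mul_le_iff₀ h1, mul_comm]
        exact h3
      · simp only [Complex.exp_log hy]
        rw [add_sub_cancel, smul_smul, mul_inv_cancel₀ hy, one_smul]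
    · rintro ⟨⟨s, u⟩, ⟨h1, h2, h3⟩, rfl⟩
      simp only at h1 h2 h3 ⊢
      have e : l (Complex.exp s • (v + u)) = Complex.exp s := by
        rw [map_smul, map_add, hlv, h2, add_zero, smul_eq_mul, mul_one]
      have n1 : ‖Complex.exp s‖ = Real.exp s.re := Complex.norm_exp s
      show 0 < ‖l (Complex.exp s • (v + u))‖ ∧ ‖l (Complex.exp s • (v + u))‖ < ρ ∧
        ‖Complex.exp s • (v + u) - l (Complex.exp s • (v + u)) • v‖ ≤ c * ‖l (Complex.exp s • (v + u))‖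
      rw [e, n1]
      refine ⟨Real.exp_pos _, ?_, ?_⟩
      · rw [← Real.exp_log hρ]
        exact Real.exp_lt_exp.2 h1
      · rw [smul_add, add_sub_cancel_left, norm_smul, n1, mul_comm]
        exact mul_le_mul_of_nonneg_right h3 (Real.exp_pos _).le
  rw [himg]
  refine IsPreconnected.image ?_ _ ?_
  · refine Convex.isPreconnected ?_
    intro p hp q hq a b ha hb hab
    obtain ⟨h1, h2, h3⟩ := hp
    obtain ⟨k1, k2, k3⟩ := hq
    refine ⟨?_, ?_, ?_⟩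
    · have e : (a • p + b • q).1.re = a * p.1.re + b * q.1.re := by
        simp
      rw [e]
      rcases ha.eq_or_lt with h0 | h0
      · rw [← h0] at hab ⊢
        rw [zero_add] at hab
        rw [hab]
        linarith
      · have e2 : Real.log ρ = a * Real.log ρ + b * Real.log ρ := by rw [← add_mul, hab, one_mul]
        rw [e2]
        exact add_lt_add_of_lt_of_le (mul_lt_mul_of_pos_left h1 h0) (mul_le_mul_of_nonneg_left k1.le hb)
    · have e : (a • p + b • q).2 = (a : ℂ) • p.2 + (b : ℂ) • q.2 := by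
        simp
      rw [e, map_add, map_smul, map_smul, h2, k2, smul_zero, smul_zero, add_zero]
    · have e : (a • p + b • q).2 = a • p.2 + b • q.2 := rfl
      rw [e]
      refine (norm_add_le _ _).trans ?_
      rw [norm_smul, norm_smul, Real.norm_eq_abs, Real.norm_eq_abs, abs_of_nonneg ha, abs_of_nonneg hb]
      calc a * ‖p.2‖ + b * ‖q.2‖ ≤ a * c + b * c :=
            add_le_add (mul_le_mul_of_nonneg_left h3 ha) (mul_le_mul_of_nonneg_left k3 hb)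
        _ = c := by rw [← add_mul, hab, one_mul]
  · apply Continuous.continuousOn
    fun_prop

theorem ang_free {f g : E → ℂ} {φ ψ : E → E} {V W : Set E} (h : Equ f g φ ψ V W) {v : E} {l : E →L[ℂ] ℂ} {κ δ : ℝ}
    (hv : ‖v‖ = 1) (hl : ‖l‖ ≤ 1) (hlv : l v = 1) (hκ : κ ≤ 1 / 4) (hδ : 0 < δ) (hδκ : 20 * δ < κ)
    (hfree : HornFree f v l (fun t => κ * |t|))
    (hA : ∀ᶠ x in 𝓝 (0 : E), l x ≠ 0 → ‖x - l x • v‖ ≤ κ * ‖l x‖ → ∃ w : ℂ, ‖φ x - w • x‖ ≤ δ * ‖φ x‖) :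
    HornFree g v l (fun t => 10 * δ * |t|) ∧
    ∃ ρ : ℝ, 0 < ρ ∧ ∀ y, 0 < ‖l y‖ → ‖l y‖ < ρ → ‖y - l y • v‖ ≤ 10 * δ * ‖l y‖ →
      l (ψ y) ≠ 0 ∧ ‖ψ y - l (ψ y) • v‖ ≤ κ * ‖l (ψ y)‖ := by
  have hκ0 : 0 < κ := by linarith
  obtain ⟨r0, hr0, hfr⟩ := hfree
  have hψc : ContinuousAt ψ 0 := h.cψ.continuousAt h.hW
  have hφc : ContinuousAt φ 0 := h.cφ.continuousAt h.hV
  have hψ0 := h.ψ0
  -- the good points
  have hgood : ∀ᶠ x in 𝓝 (0 : E), x ∈ V ∧ ‖l x‖ < r0 ∧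
      (l x ≠ 0 → ‖x - l x • v‖ ≤ κ * ‖l x‖ → ∃ w : ℂ, ‖φ x - w • x‖ ≤ δ * ‖φ x‖) := by
    have h1 : ∀ᶠ x in 𝓝 (0 : E), ‖l x‖ < r0 := by
      have : ContinuousAt (fun x : E => ‖l x‖) 0 := by fun_prop
      exact this.eventually (gt_mem_nhds (by simpa using hr0))
    filter_upwards [h.hV, h1, hA] with x a1 a2 a3
    exact ⟨a1, a2, a3⟩
  have hW' : ∀ᶠ y in 𝓝 (0 : E), y ∈ W := h.hW
  have hgy : ∀ᶠ y in 𝓝 (0 : E), y ∈ W ∧ (ψ y ∈ V ∧ ‖l (ψ y)‖ < r0 ∧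
      (l (ψ y) ≠ 0 → ‖ψ y - l (ψ y) • v‖ ≤ κ * ‖l (ψ y)‖ → ∃ w : ℂ, ‖φ (ψ y) - w • ψ y‖ ≤ δ * ‖φ (ψ y)‖)) := by
    have h1 : Tendsto ψ (𝓝 0) (𝓝 0) := by
      have := hψc.tendsto
      rwa [hψ0] at this
    exact hW'.and (h1.eventually hgood)
  rw [Metric.eventually_nhds_iff] at hgy
  obtain ⟨R, hR, hgy⟩ := hgy
  have hgy' : ∀ y : E, ‖y‖ < R → y ∈ W ∧ (ψ y ∈ V ∧ ‖l (ψ y)‖ < r0 ∧
      (l (ψ y) ≠ 0 → ‖ψ y - l (ψ y) • v‖ ≤ κ * ‖l (ψ y)‖ → ∃ w : ℂ, ‖φ (ψ y) - w • ψ y‖ ≤ δ * ‖φ (ψ y)‖)) :=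
    fun y hy => hgy (by simpa using hy)
  obtain ⟨ρ, hρ⟩ : ∃ ρ : ℝ, ρ = R / 2 := ⟨_, rfl⟩
  have hρ0 : 0 < ρ := by rw [hρ]; linarith
  obtain ⟨S, hS⟩ : ∃ S : Set E, S = {y : E | 0 < ‖l y‖ ∧ ‖l y‖ < ρ ∧ ‖y - l y • v‖ ≤ 10 * δ * ‖l y‖} := ⟨_, rfl⟩
  have hSpre : IsPreconnected S := by
    rw [hS]
    exact M16b_preconn hlv hρ0
  have hSball : ∀ y ∈ S, ‖y‖ < R := by
    intro y hy
    rw [hS] at hy
    obtain ⟨h1, h2, h3⟩ := hy
    have e : y = (y - l y • v) + l y • v := by abel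
    have h4 : ‖y‖ ≤ 10 * δ * ‖l y‖ + ‖l y‖ := by
      calc ‖y‖ = ‖(y - l y • v) + l y • v‖ := by rw [← e]
        _ ≤ ‖y - l y • v‖ + ‖l y • v‖ := norm_add_le _ _
        _ ≤ 10 * δ * ‖l y‖ + ‖l y‖ := by
            rw [norm_smul, hv, mul_one]
            linarith
    have h5 : 10 * δ ≤ 1 := by linarith
    have h6 : 10 * δ * ‖l y‖ ≤ 1 * ‖l y‖ := mul_le_mul_of_nonneg_right h5 h1.le
    linarith
  obtain ⟨D, hD⟩ : ∃ D : E → ℝ, D = fun y => ‖ψ y - l (ψ y) • v‖ - κ * ‖l (ψ y)‖ := ⟨_, rfl⟩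
  have hψS : ContinuousOn ψ S := h.cψ.mono fun y hy => (hgy' y (hSball y hy)).1
  have hDc : ContinuousOn D S := by
    rw [hD]
    have h1 : ContinuousOn (fun y => l (ψ y)) S := l.continuous.comp_continuousOn hψS
    exact ((hψS.sub (h1.smul continuousOn_const)).norm).sub (continuousOn_const.mul h1.norm)
  have hD0 : ∀ y ∈ S, D y ≠ 0 := by
    intro y hy hDy
    have hg := hgy' y (hSball y hy)
    rw [hS] at hy
    obtain ⟨h1, h2, h3⟩ := hy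
    have hφψ : φ (ψ y) = y := h.ri hg.1
    rw [hD] at hDy
    have hDy' : ‖ψ y - l (ψ y) • v‖ = κ * ‖l (ψ y)‖ := by
      simp only at hDy
      linarith
    by_cases hlx : l (ψ y) = 0
    · rw [hlx, zero_smul, sub_zero, norm_zero, mul_zero, norm_eq_zero] at hDy'
      rw [hDy', h.z0] at hφψ
      rw [← hφψ, map_zero, norm_zero] at h1
      exact lt_irrefl _ h1
    · obtain ⟨w, hw⟩ := hg.2.2.2 hlx hDy'.le
      rw [hφψ] at hw
      have hy0 : y ≠ 0 := by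
        rintro rfl
        rw [map_zero, norm_zero] at h1
        exact lt_irrefl _ h1
      have := (ang_map hv hl hlv hκ hδ hδκ hlx hy0 hw).2 hDy'
      linarith
  -- a negative value
  have hneg : ∃ y0 ∈ S, D y0 < 0 := by
    have c1 : ContinuousAt (fun z : ℂ => z • v) 0 := by fun_prop
    have c2 : Tendsto (fun z : ℂ => z • v) (𝓝 0) (𝓝 (0 : E)) := by
      have := c1.tendsto
      rwa [zero_smul] at this
    have c3 : Tendsto φ (𝓝 0) (𝓝 (0 : E)) := by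
      have := hφc.tendsto
      rwa [h.z0] at this
    have c4 : ∀ᶠ x in 𝓝 (0 : E), ‖φ x‖ < ρ := by
      have : ∀ᶠ y in 𝓝 (0 : E), ‖y‖ < ρ := by
        have : ContinuousAt (fun y : E => ‖y‖) 0 := by fun_prop
        exact this.eventually (gt_mem_nhds (by simpa using hρ0))
      exact c3.eventually this
    have c5 := c2.eventually (hgood.and c4)
    have c6 : ∀ᶠ z : ℂ in 𝓝[≠] 0, _ := eventually_nhdsWithin_of_eventually_nhds c5
    obtain ⟨z, ⟨⟨hzV, -, hz1⟩, hz2⟩, hz0⟩ := (c6.and self_mem_nhdsWithin).exists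
    have hz0 : z ≠ 0 := hz0
    have hlx : l (z • v) = z := by rw [map_smul, hlv, smul_eq_mul, mul_one]
    have hlx0 : l (z • v) ≠ 0 := by rw [hlx]; exact hz0
    have hxx : z • v - l (z • v) • v = 0 := by rw [hlx, sub_self]
    obtain ⟨w, hw⟩ := hz1 hlx0 (by rw [hxx, norm_zero]; positivity)
    have hψφ : ψ (φ (z • v)) = z • v := h.li hzV
    have hv0 : v ≠ 0 := by
      rintro rfl
      rw [norm_zero] at hv
      exact zero_ne_one hv
    have hφ0 : φ (z • v) ≠ 0 := by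
      intro h0
      rw [h0, hψ0] at hψφ
      exact (smul_ne_zero hz0 hv0) hψφ.symm
    have hm := (ang_map hv hl hlv hκ hδ hδκ hlx0 hφ0 hw).1 (by rw [hlx])
    refine ⟨φ (z • v), ?_, ?_⟩
    · rw [hS]
      refine ⟨norm_pos_iff.2 hm.1, ?_, hm.2⟩
      refine lt_of_le_of_lt ?_ hz2
      calc ‖l (φ (z • v))‖ ≤ ‖l‖ * ‖φ (z • v)‖ := l.le_opNorm _
        _ ≤ 1 * ‖φ (z • v)‖ := mul_le_mul_of_nonneg_right hl (norm_nonneg _)
        _ = _ := one_mul _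
    · rw [hD]
      simp only
      rw [hψφ, hxx, norm_zero, hlx, zero_sub, neg_lt_zero]
      have := norm_pos_iff.2 hz0
      positivity
  have hDneg : ∀ y ∈ S, D y < 0 := by
    intro y hy
    by_contra hcon
    rw [not_lt] at hcon
    obtain ⟨y0, hy0, hy0'⟩ := hneg
    obtain ⟨y2, hy2, hy2'⟩ := hSpre.intermediate_value hy0 hy hDc (show (0 : ℝ) ∈ Icc (D y0) (D y) from ⟨hy0'.le, hcon⟩)
    exact hD0 y2 hy2 hy2'
  have main : ∀ y, 0 < ‖l y‖ → ‖l y‖ < ρ → ‖y - l y • v‖ ≤ 10 * δ * ‖l y‖ →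
      l (ψ y) ≠ 0 ∧ ‖ψ y - l (ψ y) • v‖ ≤ κ * ‖l (ψ y)‖ := by
    intro y h1 h2 h3
    have hy : y ∈ S := by
      rw [hS]
      exact ⟨h1, h2, h3⟩
    have h4 := hDneg y hy
    rw [hD] at h4
    simp only at h4
    have h5 := norm_nonneg (ψ y - l (ψ y) • v)
    refine ⟨?_, by linarith⟩
    intro h6
    rw [h6] at h4
    simp only [zero_smul, sub_zero, norm_zero, mul_zero] at h4
    exact absurd h4 (not_lt.2 (norm_nonneg _))
  refine ⟨⟨ρ, hρ0, ?_⟩, ρ, hρ0, main⟩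
  intro y h1 h2 h3
  simp only [abs_norm] at h3
  obtain ⟨k1, k2⟩ := main y h1 h2 h3
  have hy : y ∈ S := by
    rw [hS]
    exact ⟨h1, h2, h3⟩
  have hg := hgy' y (hSball y hy)
  have hf0 : f (ψ y) ≠ 0 := hfr (ψ y) (norm_pos_iff.2 k1) hg.2.2.1 (by simpa only [abs_norm] using k2)
  intro hgy0
  apply hf0
  rw [h.zs (ψ y) hg.2.1, h.ri hg.1]
  exact hgy0

end Zr
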