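import Pool.Agent.helper60.Zr.M11
import Pool.Agent.helper60.Zr.M12b
import Pool.Agent.helper60.Zr.M15
import Pool.Agent.helper60.Zr.M16b

set_option autoImplicit false

/-!
# Zr, module M16 (ang_pair, ang_all, ang_family): the complex direction of `Φ x` is near the complex direction of `x`

Notation `C(κ) = {x | l x ≠ 0, ‖x - l x • v‖ ≤ κ ‖l x‖}`; for `x ∈ C(κ)`: `‖x‖ ≤ (1 + κ) ‖l x‖ ≤ (5/4) ‖l x‖`.
`ang_map`: for `x ∈ C(κ)` let `‖y - w • x‖ ≤ δ ‖y‖`, `y ≠ 0`, `e = y - w • x`, `u = x - l x • v`, `τ = 5 δ / 2`, `8 τ < κ`. Then `‖e‖ ≤ 2 δ ‖w • x‖ ≤ τ ‖w‖ ‖l x‖`, `‖l e‖ ≤ τ ‖w‖ ‖l x‖`,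
`(1 - τ) ‖w‖ ‖l x‖ ≤ ‖l y‖ ≤ (1 + τ) ‖w‖ ‖l x‖`, `y - l y • v = w • u + e - l e • v`. If `u = 0`: `‖y - l y • v‖ ≤ 2 τ ‖w‖ ‖l x‖ ≤ 4 τ ‖l y‖ = 10 δ ‖l y‖`. If `‖u‖ = κ ‖l x‖`: `‖y - l y • v‖ ≥ (κ - 2 τ) ‖w‖ ‖l x‖ > 4 τ (1 + τ) ‖w‖ ‖l x‖ ≥ 4 τ ‖l y‖`.
`ang_free`: the set `S = {y | 0 < ‖l y‖ < ρ, ‖y - l y • v‖ ≤ 10 δ ‖l y‖}` (`ρ` small) is the image of the convex set `{(s, u) : ℂ × E | s.re < log ρ, l u = 0, ‖u‖ ≤ 10 δ}` under
`(s, u) ↦ exp s • (v + u)`, so preconnected. The continuous function `D y = ‖x - l x • v‖ - κ ‖l x‖`, `x = ψ y`, does not vanish on `S` (if `l x = 0` then `x = 0`, `y = φ x = 0`; otherwise `x` is in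
the boundary of `C(κ)` and by `ang_map` `y = φ x` is not in `S`), and is negative at `y = φ x'`, `x' = z • v`, `z ≠ 0` small (`ang_map`, `u = 0`: `φ x' ∈ S`). So `D < 0` on `S`, so `ψ y ∈ C(κ)`, `l (ψ y) ≠ 0`,
and `f (ψ y) ≠ 0`, `g y ≠ 0`.
`ang_pair`: `m ≤ k` by `line_le` (`a = v`, `η t = 10 δ t` for `t ≥ 0`, use `η t = 10 * δ * |t|`), `k ≤ m` by `line_le` for `h.symm` (`η t = κ |t|`, `HornFree f`), where `P v ≠ 0`, `Q v ≠ 0` by `cone_lead` (M12b): if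
`‖x - z • v‖ ≤ κ' ‖z‖` with `κ' = κ₁ / 4`, `κ₁ ≤ 1/2`, then `‖l x - z‖ ≤ κ' ‖z‖` and `‖x - l x • v‖ ≤ 2 κ' ‖z‖ ≤ κ₁ ‖l x‖`, so `HornFree` gives `Cone`.
`ang_all`: `kappa` (M6) gives `v`, `‖v‖ = 1`, choose `κ` with `20 δ < κ`, `4 k κ < 1`, `l` by `exists_dual_vector` (`‖l‖ = 1`, `l v = ‖v‖ = 1`).
`ang_family`: as `family` (M11), with `red_lead`; `δ` with `80 δ k < 1`.
-/

noncomputable section

namespace Zr

open Filter Topology Set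

variable {E : Type*} [NormedAddCommGroup E] [NormedSpace ℂ E]

variable [FiniteDimensional ℂ E]

omit [FiniteDimensional ℂ E] in
/-- a horn of opening `c |t|` contains a cone -/
theorem M16_cone {f : E → ℂ} {v : E} {l : E →L[ℂ] ℂ} {c : ℝ} (hv : ‖v‖ = 1) (hl : ‖l‖ ≤ 1) (hlv : l v = 1)
    (hc : 0 < c) (hc2 : c ≤ 1 / 2) (hfree : HornFree f v l (fun t => c * |t|)) : Cone f v (c / 4) := by
  obtain ⟨r0, hr0, H⟩ := hfree
  refine ⟨r0 / 2, by positivity, ?_⟩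
  intro z x hz hzr hx
  have h1 : ‖l x - z‖ ≤ c / 4 * ‖z‖ := by
    have e : l x - z = l (x - z • v) := by
      rw [map_sub, map_smul, hlv, smul_eq_mul, mul_one]
    rw [e]
    calc ‖l (x - z • v)‖ ≤ ‖l‖ * ‖x - z • v‖ := l.le_opNorm _
      _ ≤ 1 * ‖x - z • v‖ := mul_le_mul_of_nonneg_right hl (norm_nonneg _)
      _ ≤ _ := by rw [one_mul]; exact hx
  have h2 : ‖l x‖ ≤ ‖z‖ + ‖l x - z‖ := by
    calc ‖l x‖ = ‖z + (l x - z)‖ := by congr 1; ring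
      _ ≤ _ := norm_add_le _ _
  have h3 : ‖z‖ ≤ ‖l x‖ + ‖l x - z‖ := by
    calc ‖z‖ = ‖l x - (l x - z)‖ := by congr 1; ring
      _ ≤ _ := norm_sub_le _ _
  have h4 : ‖x - l x • v‖ ≤ c / 4 * ‖z‖ + c / 4 * ‖z‖ := by
    have e : x - l x • v = (x - z • v) - (l x - z) • v := by
      rw [sub_smul]
      abel
    rw [e]
    refine (norm_sub_le _ _).trans (add_le_add hx ?_)
    rw [norm_smul, hv, mul_one]
    exact h1
  have h5 : c / 4 * ‖z‖ ≤ 1 / 8 * ‖z‖ := mul_le_mul_of_nonneg_right (by linarith) hz.le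
  refine H x (by linarith) (by linarith) ?_
  show ‖x - l x • v‖ ≤ c * |‖l x‖|
  rw [abs_of_nonneg (norm_nonneg _)]
  have h6 : c * (‖z‖ / 2) ≤ c * ‖l x‖ := mul_le_mul_of_nonneg_left (by linarith) hc.le
  linarith

theorem M16_cis (θ : ℝ) : ‖cis θ‖ = 1 := by
  unfold cis
  exact Complex.norm_exp_ofReal_mul_I θ

omit [FiniteDimensional ℂ E] in
/-- the points `(r cis θ) • v` of the complex line through `v` -/
theorem M16_pt {v : E} {l : E →L[ℂ] ℂ} (hv : ‖v‖ = 1) (hlv : l v = 1) {r : ℝ} (hr : 0 < r) (θ : ℝ) :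
    ‖l ((r * cis θ : ℂ) • v)‖ = r ∧ (r * cis θ : ℂ) • v = l ((r * cis θ : ℂ) • v) • v ∧
      ‖(r * cis θ : ℂ) • v‖ = r := by
  have h0 : ‖(r * cis θ : ℂ)‖ = r := by
    rw [norm_mul, M16_cis, mul_one, Complex.norm_real, Real.norm_eq_abs, abs_of_pos hr]
  have h1 : l ((r * cis θ : ℂ) • v) = r * cis θ := by
    rw [map_smul, hlv, smul_eq_mul, mul_one]
  refine ⟨?_, ?_, ?_⟩
  · rw [h1, h0]
  · rw [h1]
  · rw [norm_smul, h0, hv, mul_one]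

theorem ang_pair {f g : E → ℂ} {φ ψ : E → E} {V W : Set E} (hf : Red f) (hg : Red g) (h : Equ f g φ ψ V W) {k m : ℕ}
    {P Q : E → ℂ} (hk : Lead f k P) (hm : Lead g m Q) {v : E} {l : E →L[ℂ] ℂ} {κ δ : ℝ}
    (hv : ‖v‖ = 1) (hl : ‖l‖ ≤ 1) (hlv : l v = 1) (hκ : κ ≤ 1 / 4) (hδ : 0 < δ) (hδκ : 20 * δ < κ)
    (hfree : HornFree f v l (fun t => κ * |t|))
    (hA : ∀ᶠ x in 𝓝 (0 : E), l x ≠ 0 → ‖x - l x • v‖ ≤ κ * ‖l x‖ → ∃ w : ℂ, ‖φ x - w • x‖ ≤ δ * ‖φ x‖) : k = m := by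
  have hκ0 : 0 < κ := by linarith
  obtain ⟨hgfree, ρ, hρ, hψ⟩ := ang_free h hv hl hlv hκ hδ hδκ hfree hA
  have hPv : P v ≠ 0 :=
    cone_lead hf.1 hf.2.1 hk (κ := κ / 4) (by positivity) (M16_cone hv hl hlv hκ0 (by linarith) hfree)
  have hQv : Q v ≠ 0 :=
    cone_lead hg.1 hg.2.1 hm (κ := 10 * δ / 4) (by positivity)
      (M16_cone hv hl hlv (by positivity) (by linarith) hgfree)
  apply le_antisymm
  · -- `k ≤ m`
    refine line_le hg hf h.symm hm hk (v := v) (a := v) (l := l) (η := fun t => κ * |t|) hQv hlv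
      (fun t => by positivity) hfree ?_
    intro ε hε
    refine ⟨min (ε / 2) (ρ / 2), lt_min (by positivity) (by positivity),
      lt_of_le_of_lt (min_le_left _ _) (by linarith), ?_⟩
    intro θ
    have hr : 0 < min (ε / 2) (ρ / 2) := lt_min (by positivity) (by positivity)
    obtain ⟨h1, h2, h3⟩ := M16_pt hv hlv hr θ
    have h4 := hψ (((min (ε / 2) (ρ / 2) : ℝ) * cis θ : ℂ) • v) (by rw [h1]; exact hr)
      (by rw [h1]; exact lt_of_le_of_lt (min_le_right _ _) (by linarith))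
      (by rw [← h2, sub_self, norm_zero]; positivity)
    refine ⟨h4.1, ?_⟩
    show _ ≤ κ * |‖l _‖|
    rw [abs_of_nonneg (norm_nonneg _)]
    exact h4.2
  · -- `m ≤ k`
    refine line_le hf hg h hk hm (v := v) (a := v) (l := l) (η := fun t => 10 * δ * |t|) hPv hlv
      (fun t => by positivity) hgfree ?_
    intro ε hε
    obtain ⟨ρ', hρ', hev⟩ := Metric.eventually_nhds_iff.1 (hA.and (h.hV : ∀ᶠ x in 𝓝 (0 : E), x ∈ V))
    refine ⟨min (ε / 2) (ρ' / 2), lt_min (by positivity) (by positivity),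
      lt_of_le_of_lt (min_le_left _ _) (by linarith), ?_⟩
    intro θ
    have hr : 0 < min (ε / 2) (ρ' / 2) := lt_min (by positivity) (by positivity)
    obtain ⟨h1, h2, h3⟩ := M16_pt hv hlv hr θ
    generalize (((min (ε / 2) (ρ' / 2) : ℝ) * cis θ : ℂ) • v) = x at h1 h2 h3 ⊢
    have hlx : l x ≠ 0 := by
      intro h0
      rw [h0, norm_zero] at h1
      linarith
    have hx0 : x ≠ 0 := by
      intro h0
      exact hlx (by rw [h0, map_zero])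
    obtain ⟨hx1, hx2⟩ := hev (y := x) (by
      rw [dist_zero_right, h3]
      exact lt_of_le_of_lt (min_le_right _ _) (by linarith))
    obtain ⟨w, hw⟩ := hx1 hlx (by rw [← h2, sub_self, norm_zero]; positivity)
    have hy : φ x ≠ 0 := by
      intro h0
      have e1 := h.li hx2
      rw [h0, h.ψ0] at e1
      exact hx0 e1.symm
    have h5 := (ang_map hv hl hlv hκ hδ hδκ hlx hy hw).1 h2
    refine ⟨h5.1, ?_⟩
    show _ ≤ 10 * δ * |‖l _‖|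
    rw [abs_of_nonneg (norm_nonneg _)]
    exact h5.2

theorem ang_all {f g : E → ℂ} {φ ψ : E → E} {V W : Set E} (hf : Red f) (hg : Red g) (h : Equ f g φ ψ V W) {k m : ℕ}
    {P Q : E → ℂ} (hk : Lead f k P) (hm : Lead g m Q) {δ : ℝ} (hδ : 0 < δ) (hδk : 80 * δ * k < 1)
    (hA : ∀ᶠ x in 𝓝 (0 : E), ∃ w : ℂ, ‖φ x - w • x‖ ≤ δ * ‖φ x‖) : k = m := by
  have hk1 : 1 ≤ k := hk.one_le hf.2.1
  have hkR : (1 : ℝ) ≤ k := by exact_mod_cast hk1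
  have hk0 : (0 : ℝ) < k := by linarith
  obtain ⟨v, hv, -, hκf⟩ := kappa hk hk1
  have hv0 : v ≠ 0 := by
    intro h0
    rw [h0, norm_zero] at hv
    exact zero_ne_one hv
  obtain ⟨l, hl, hlv⟩ := exists_dual_vector ℂ v (norm_ne_zero_iff.2 hv0)
  rw [hv] at hlv
  have hδ1 : 20 * δ < 1 / (4 * k) := by
    rw [lt_div_iff₀ (by positivity)]
    linarith
  obtain ⟨κ, hκ1, hκ2⟩ := exists_between hδ1
  have hκ0 : 0 < κ := by linarith
  have hκ3 : 4 * k * κ < 1 := by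
    rw [lt_div_iff₀ (by positivity)] at hκ2
    linarith
  have hκ4 : κ ≤ 1 / 4 := by
    refine hκ2.le.trans ?_
    apply one_div_le_one_div_of_le (by norm_num)
    linarith
  obtain ⟨r0, hr0, hfr⟩ := hκf κ hκ0 hκ3
  have hlv' : l v = 1 := by
    rw [hlv]
    simp
  refine ang_pair hf hg h hk hm hv hl.le hlv' hκ4 hδ hκ1 ?_ ?_
  · refine ⟨r0, hr0, ?_⟩
    intro x hx1 hx2 hx3
    refine hfr (l x) x hx1 hx2 ?_
    have hx4 : ‖x - l x • v‖ ≤ κ * |‖l x‖| := hx3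
    rwa [abs_of_nonneg (norm_nonneg _)] at hx4
  · filter_upwards [hA] with x hx _ _
    exact hx

theorem ang_family {F : ℝ → E → ℂ} (hr : ∀ t ∈ Icc (0:ℝ) 1, Red (F t))
    (h : ∀ s ∈ Icc (0:ℝ) 1, ∀ δ : ℝ, 0 < δ → ∃ η : ℝ, 0 < η ∧ ∀ t ∈ Icc (0:ℝ) 1, |t - s| < η →
      ∃ (φ ψ : E → E) (V W : Set E), Equ (F s) (F t) φ ψ V W ∧ ∀ᶠ x in 𝓝 (0 : E), ∃ w : ℂ, ‖φ x - w • x‖ ≤ δ * ‖φ x‖)
    {s t : ℝ} (hs : s ∈ Icc (0:ℝ) 1) (ht : t ∈ Icc (0:ℝ) 1) (k : ℕ) :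
    (∀ j < k, iteratedFDeriv ℂ j (F s) 0 = 0) ↔ (∀ j < k, iteratedFDeriv ℂ j (F t) 0 = 0) := by
  have hex : ∀ t : ℝ, ∃ K : ℕ, t ∈ Icc (0:ℝ) 1 → ∃ P : E → ℂ, Lead (F t) K P := by
    intro t
    by_cases htt : t ∈ Icc (0:ℝ) 1
    · obtain ⟨K, P, -, hL⟩ := red_lead (hr t htt)
      exact ⟨K, fun _ => ⟨P, hL⟩⟩
    · exact ⟨0, fun h' => absurd h' htt⟩
  choose K hK using hex
  have hloc : ∀ s ∈ Icc (0:ℝ) 1, ∃ η : ℝ, 0 < η ∧ ∀ t ∈ Icc (0:ℝ) 1, |t - s| < η → K t = K s := by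
    intro s hs
    obtain ⟨P, hL⟩ := hK s hs
    have hδ : (0 : ℝ) < 1 / (80 * ((K s : ℝ) + 1)) := by positivity
    obtain ⟨η, hη, h2⟩ := h s hs _ hδ
    refine ⟨η, hη, ?_⟩
    intro t ht hts
    obtain ⟨P', hL'⟩ := hK t ht
    obtain ⟨φ, ψ, V, W, hE, hA⟩ := h2 t ht hts
    have h4 : 80 * (1 / (80 * ((K s : ℝ) + 1))) * K s < 1 := by
      have h5 : 80 * (1 / (80 * ((K s : ℝ) + 1))) * K s = K s / ((K s : ℝ) + 1) := by
        field_simp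
      rw [h5, div_lt_one (by positivity)]
      linarith
    exact (ang_all (hr s hs) (hr t ht) hE hL hL' hδ h4 hA).symm
  have hcont : ContinuousOn K (Icc (0:ℝ) 1) := by
    intro s hs
    obtain ⟨η, hη, h1⟩ := hloc s hs
    have h2 : ∀ᶠ t in 𝓝[Icc (0:ℝ) 1] s, K s = K t := by
      have h3 : ∀ᶠ t in 𝓝[Icc (0:ℝ) 1] s, |t - s| < η := by
        have h4 : Metric.ball s η ∈ 𝓝 s := Metric.ball_mem_nhds s hη
        have h5 : ∀ᶠ t in 𝓝 s, |t - s| < η := by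
          filter_upwards [h4] with t ht
          rwa [Metric.mem_ball, Real.dist_eq] at ht
        exact h5.filter_mono nhdsWithin_le_nhds
      filter_upwards [h3, self_mem_nhdsWithin] with t ht htt
      exact (h1 t htt ht).symm
    exact tendsto_const_nhds.congr' h2
  have hKK : K s = K t := isPreconnected_Icc.constant hcont hs ht
  obtain ⟨P, hL⟩ := hK s hs
  obtain ⟨P', hL'⟩ := hK t ht
  rw [lead_order (hr s hs).1 hL k, lead_order (hr t ht).1 hL' k, hKK]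

end Zr
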