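import Pool.Agent.helper60.Zr.M20

set_option autoImplicit false

/-!
# Zr, module M25: the images of the circles of one complex line are near boundaries of holomorphic discs through `0` (written by helper60)
-/

noncomputable section

namespace Zr

open Filter Topology Set

variable {E : Type*} [NormedAddCommGroup E] [NormedSpace ℂ E]

/-- for arbitrarily small `r` the image under `φ` of the circle `‖z‖ = r` in the complex line through `v` can be pushed, along segments which do not meet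
the zeros of `g`, into the boundary of a small holomorphic disc `h` with `h 0 = 0` (whose boundary does not meet the zeros of `g`) -/
def NearDisc (g : E → ℂ) (φ : E → E) (v : E) : Prop :=
  ∀ ε : ℝ, 0 < ε → ∃ r : ℝ, 0 < r ∧ r < ε ∧ ∃ (h : ℂ → E) (μ : ℂ → ℂ), h 0 = 0 ∧
    (∀ w : ℂ, ‖w‖ ≤ 1 → AnalyticAt ℂ h w ∧ ‖h w‖ < ε) ∧ (∀ w : ℂ, ‖w‖ = 1 → g (h w) ≠ 0) ∧
    ContinuousOn μ (Metric.sphere 0 r) ∧ ∀ z : ℂ, ‖z‖ = r → ‖μ z‖ = 1 ∧
      ∀ t ∈ Icc (0:ℝ) 1, g (h (μ z) + t • (φ (z • v) - h (μ z))) ≠ 0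

/-- composition with a loop in the unit circle -/
theorem M25_comp {F : ℂ → ℂ} {N : ℤ} (hF : Wd (fun θ => F (cis θ)) N) {μ : ℝ → ℂ} {j : ℤ} (hμ : Wd μ j)
    (h1 : ∀ θ, ‖μ θ‖ = 1) : Wd (fun θ => F (μ θ)) (j * N) := by
  obtain ⟨L, hL, hL1, hL2⟩ := hF
  obtain ⟨φ, hφ, hφ1, hφ2⟩ := hμ
  have hre : ∀ θ, (φ θ).re = 0 := by
    intro θ
    have h2 := h1 θ
    rw [← hφ1 θ, Complex.norm_exp] at h2
    exact (Real.exp_eq_one_iff _).1 h2
  have hφe : ∀ θ, φ θ = ((φ θ).im : ℂ) * Complex.I := by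
    intro θ
    apply Complex.ext
    · simp [hre θ]
    · simp
  have him : ∀ θ, (φ (θ + 2 * Real.pi)).im = (φ θ).im + 2 * Real.pi * j := by
    intro θ
    rw [hφ2 θ]
    simp
  refine ⟨fun θ => L (φ θ).im, by fun_prop, fun θ => ?_, fun θ => ?_⟩
  · rw [hL1]
    have e : cis (φ θ).im = μ θ := by
      unfold cis
      rw [← hφe θ, hφ1]
    simp only [e]
  · simp only
    rw [him, M1_iter (L := L) hL2 j]
    push_cast
    ring

variable [FiniteDimensional ℂ E]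

theorem disc_thm {f g : E → ℂ} {φ ψ : E → E} {V W : Set E} (hf : Red f) (hg : Red g) (h : Equ f g φ ψ V W) {k m : ℕ}
    {P Q : E → ℂ} (hk : Lead f k P) (hm : Lead g m Q) {v : E} (hT : Transv f v) (H : NearDisc g φ v) : m ≤ k := by
  have hcis := cis_cont
  obtain ⟨κ, hκ, hcone⟩ := hT.cone
  have hv := cone_lead hf.1 hf.2.1 hk hκ hcone
  obtain ⟨B, h0B, hB⟩ := h.pair hf hg
  obtain ⟨B', h0B', hB'⟩ := h.symm.pair hg hf
  obtain ⟨R2, hR2, hbB⟩ := Metric.isOpen_iff.1 hB.isOpen 0 h0B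
  -- the radius `r`
  have hφ0 : ContinuousAt φ 0 := h.cφ.continuousAt h.hV
  have hO1 : {x : E | ‖φ x‖ < R2 / 2} ∈ 𝓝 (0:E) := by
    have h1 : ContinuousAt (fun x => ‖φ x‖) 0 := hφ0.norm
    have h3 : ‖φ 0‖ < R2 / 2 := by
      rw [h.z0, norm_zero]
      positivity
    exact h1.eventually (gt_mem_nhds h3)
  have hev1 := lead_wd hf.1 hk hv
  have hev2 := M4_ev (u := v) hO1
  have hev3 : ∀ᶠ r : ℝ in 𝓝[>] 0, ∀ w : ℂ, ‖w‖ ≤ 1 → (0:E) + w • ((r : ℂ) • v) ∈ B' := by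
    obtain ⟨δ, hδ, hbδ⟩ := Metric.isOpen_iff.1 hB'.isOpen 0 h0B'
    have hv1 : 0 < ‖v‖ + 1 := by positivity
    have h1 : ∀ᶠ ρ : ℝ in 𝓝[>] 0, ρ ∈ Ioo (0:ℝ) (δ / (‖v‖ + 1)) := Ioo_mem_nhdsGT (by positivity)
    filter_upwards [h1] with ρ hρ w hw
    refine hbδ ?_
    rw [zero_add, mem_ball_zero_iff, norm_smul, norm_smul, Complex.norm_real, Real.norm_eq_abs,
      abs_of_pos hρ.1]
    have h2 := (lt_div_iff₀ hv1).1 hρ.2
    have h3 : ‖w‖ * (ρ * ‖v‖) ≤ 1 * (ρ * ‖v‖) :=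
      mul_le_mul_of_nonneg_right hw (mul_nonneg hρ.1.le (norm_nonneg _))
    nlinarith [hρ.1]
  obtain ⟨ε, hε, hεs⟩ := mem_nhdsGT_iff_exists_Ioo_subset.1 (hev1.and (hev2.and hev3))
  obtain ⟨r, hr, hrε, c, μ', hc0, hcd, hcg, hμ'c, hμ'⟩ := H (min ε (R2 / 2)) (lt_min hε (by positivity))
  obtain ⟨hw1, hw2, hw3⟩ := hεs ⟨hr, lt_of_lt_of_le hrε (min_le_left _ _)⟩
  have hcn : ∀ w : ℂ, ‖w‖ ≤ 1 → ‖c w‖ < R2 / 2 := fun w hw =>
    lt_of_lt_of_le (hcd w hw).2 (min_le_right _ _)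
  have hwB : ∀ w : ℂ, ‖w‖ ≤ 1 → c w ∈ B := by
    intro w hw
    refine hbB ?_
    rw [mem_ball_zero_iff]
    linarith [hcn w hw]
  have hzn : ∀ θ : ℝ, ‖(r * cis θ : ℂ)‖ = r := by
    intro θ
    rw [norm_mul, cis_norm, mul_one, Complex.norm_real, Real.norm_eq_abs, abs_of_pos hr]
  have hsm : ∀ θ : ℝ, ((r * cis θ : ℂ)) • v = (0:E) + cis θ • ((r : ℂ) • v) := by
    intro θ
    rw [zero_add, smul_smul, mul_comm]
  have hmB' : ∀ θ : ℝ, ((r * cis θ : ℂ)) • v ∈ B' := by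
    intro θ
    rw [hsm]
    exact hw3 _ (cis_norm θ).le
  set γ : ℝ → E := fun θ => φ (((r * cis θ : ℂ)) • v) with hγ
  have hγc : Continuous γ := by
    rw [continuous_iff_continuousAt]
    intro θ
    have hc : Continuous (fun θ : ℝ => ((r * cis θ : ℂ)) • v) := by fun_prop
    exact ContinuousAt.comp (g := φ) (f := fun θ : ℝ => ((r * cis θ : ℂ)) • v)
      (hB'.ψ_cont _ (hmB' θ)) hc.continuousAt
  have hγp : ∀ θ, γ (θ + 2 * Real.pi) = γ θ := by
    intro θ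
    simp only [hγ]
    rw [cis_per]
  have hγn : ∀ θ, ‖γ θ‖ < R2 / 2 := by
    intro θ
    have := hw2 θ
    rw [zero_add] at this
    exact this
  set μ : ℝ → ℂ := fun θ => μ' (r * cis θ) with hμ
  have hμc : Continuous μ := by
    refine hμ'c.comp_continuous (by fun_prop) (fun θ => ?_)
    rw [mem_sphere_zero_iff_norm]
    exact hzn θ
  have hμp : ∀ θ, μ (θ + 2 * Real.pi) = μ θ := by
    intro θ
    simp only [hμ]
    rw [cis_per]
  have hμn : ∀ θ, ‖μ θ‖ = 1 := fun θ => (hμ' _ (hzn θ)).1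
  have hμcc : Continuous fun θ => c (μ θ) := by
    rw [continuous_iff_continuousAt]
    intro θ
    exact ContinuousAt.comp (g := c) (f := μ) (hcd _ (hμn θ).le).1.continuousAt hμc.continuousAt
  obtain ⟨j, hj⟩ := Wd.ex (c := μ) hμc (fun θ h0 => by
    have := hμn θ
    rw [h0, norm_zero] at this
    norm_num at this) hμp
  -- the homotopy
  have hX : ∀ t ∈ Icc (0:ℝ) 1, ∀ θ : ℝ,
      c (μ θ) + (t : ℂ) • (γ θ - c (μ θ)) ∈ B ∧ g (c (μ θ) + (t : ℂ) • (γ θ - c (μ θ))) ≠ 0 := by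
    intro t ht θ
    have e2 : ‖(t : ℂ)‖ = t := by rw [Complex.norm_real, Real.norm_eq_abs, abs_of_nonneg ht.1]
    constructor
    · refine hbB ?_
      rw [mem_ball_zero_iff]
      have e3 : c (μ θ) + (t : ℂ) • (γ θ - c (μ θ)) = ((1 - t : ℝ) : ℂ) • c (μ θ) + (t : ℂ) • γ θ := by
        push_cast
        module
      rw [e3]
      refine lt_of_le_of_lt (norm_add_le _ _) ?_
      rw [norm_smul, norm_smul, e2, Complex.norm_real, Real.norm_eq_abs,
        abs_of_nonneg (by linarith [ht.2] : 0 ≤ 1 - t)]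
      have h2 : (1 - t) * ‖c (μ θ)‖ ≤ (1 - t) * (R2 / 2) :=
        mul_le_mul_of_nonneg_left (hcn _ (hμn θ).le).le (by linarith [ht.2])
      have h3 : t * ‖γ θ‖ ≤ t * (R2 / 2) := mul_le_mul_of_nonneg_left (hγn θ).le ht.1
      nlinarith
    · have h1 := (hμ' _ (hzn θ)).2 t ht
      rw [← Complex.coe_smul] at h1
      exact h1
  have hXc : Continuous (fun p : ℝ × ℝ => c (μ p.1) + (p.2 : ℂ) • (γ p.1 - c (μ p.1))) := by
    have h1 : Continuous fun p : ℝ × ℝ => c (μ p.1) := hμcc.comp continuous_fst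
    have h2 : Continuous fun p : ℝ × ℝ => γ p.1 := hγc.comp continuous_fst
    exact h1.add ((Complex.continuous_ofReal.comp continuous_snd).smul (h2.sub h1))
  have move : ∀ (F : E → ℂ) (N : ℤ), (∀ y ∈ B, ContinuousAt F y) → (∀ y ∈ B, g y ≠ 0 → F y ≠ 0) →
      Wd (fun θ => F (c (μ θ))) N → Wd (fun θ => F (γ θ)) N := by
    intro F N hF hF0 hN
    have := Wd.htpy (H := fun θ t => F (c (μ θ) + (t : ℂ) • (γ θ - c (μ θ)))) (k := N) (by
        intro p hp
        exact (ContinuousAt.comp (g := F) (f := fun p : ℝ × ℝ => c (μ p.1) + (p.2 : ℂ) • (γ p.1 - c (μ p.1)))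
          (hF _ (hX p.2 hp.2 p.1).1) hXc.continuousAt).continuousWithinAt)
      (by
        intro t ht θ
        exact hF0 _ (hX t ht θ).1 (hX t ht θ).2)
      (by
        intro t ht θ
        rw [hγp, hμp])
      (by simpa using hN)
    simpa using this
  -- winding numbers on the boundary of the disc
  have hfψ : ∀ y ∈ B, ContinuousAt (fun y => f (ψ y)) y := fun y hy =>
    ContinuousAt.comp (g := f) (f := ψ) (hB.f_an y hy).continuousAt (hB.ψ_cont y hy)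
  have hfψ0 : ∀ y ∈ B, g y ≠ 0 → f (ψ y) ≠ 0 := fun y hy hgy hcon => hgy ((hB.zs y hy).1 hcon)
  have hgc : ∀ y ∈ B, ContinuousAt g y := fun y hy => (hB.g_an y hy).continuousAt
  have line : ∀ F : E → ℂ, (∀ y ∈ B, ContinuousAt F y) → (∀ y ∈ B, g y ≠ 0 → F y ≠ 0) →
      ∃ G : ℤ, Wd (fun θ => F (c (cis θ))) G ∧ Wd (fun θ => F (γ θ)) (j * G) := by
    intro F hF hF0
    obtain ⟨G, hG⟩ := Wd.ex (c := fun θ => F (c (cis θ))) (by
        rw [continuous_iff_continuousAt]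
        intro θ
        have h1 : ContinuousAt (fun w : ℂ => F (c w)) (cis θ) :=
          ContinuousAt.comp (g := F) (f := c) (hF _ (hwB _ (cis_norm θ).le)) (hcd _ (cis_norm θ).le).1.continuousAt
        exact ContinuousAt.comp (g := fun w : ℂ => F (c w)) (f := cis) h1 hcis.continuousAt)
      (fun θ => hF0 _ (hwB _ (cis_norm θ).le) (hcg _ (cis_norm θ)))
      (by
        intro θ
        rw [cis_per])
    refine ⟨G, hG, move F _ hF hF0 ?_⟩
    exact M25_comp (F := fun w => F (c w)) hG hj hμn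
  obtain ⟨G, hG1, hG2⟩ := line g hgc (fun _ _ h => h)
  obtain ⟨q, hq1, hq2⟩ := line (fun y => f (ψ y)) hfψ hfψ0
  -- `k = j q`
  have hk1 : 1 ≤ k := hk.one_le hf.2.1
  have hkq : (k : ℤ) = j * q := by
    refine hw1.uniq ?_
    have e1 : (fun θ => f (ψ (γ θ))) = fun θ => f (((r * cis θ : ℂ)) • v) := by
      funext θ
      rw [hγ, hB'.φψ _ (hmB' θ)]
    rw [← e1]
    exact hq2
  have hj0 : j ≠ 0 := by
    intro hj0
    rw [hj0, zero_mul] at hkq
    have : k = 0 := by exact_mod_cast hkq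
    omega
  have hj1 : 1 ≤ |j| := Int.one_le_abs hj0
  -- `m ≤ G`
  have hmG : (m : ℤ) ≤ G := by
    have hc00 : AnalyticAt ℂ c 0 := (hcd 0 (by simp)).1
    obtain ⟨C, hC⟩ := M20_bound hm hm.diff.continuous hc00 hc0
    refine M10_core (h := fun z : ℂ => g (c z)) (C := C) ?_ hG1 hC
    intro z hz
    exact AnalyticAt.fun_comp (g := g) (f := c) (hB.g_an _ (hwB _ hz)) (hcd _ hz).1
  -- `|j G| ≤ k`
  have hle : |j * G| ≤ k := by
    refine disc_le hB' (x := 0) (v := (r : ℂ) • v) hw3 ?_ ?_ ?_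
    · intro w hw
      obtain ⟨θ, rfl⟩ := exists_cis hw
      rw [← hsm]
      exact hw1.ne θ
    · have e1 : (fun θ => f (0 + cis θ • ((r : ℂ) • v))) = fun θ => f (((r * cis θ : ℂ)) • v) := by
        funext θ
        rw [hsm]
      rw [e1]
      exact hw1
    · have e1 : (fun θ => g (φ (0 + cis θ • ((r : ℂ) • v)))) = fun θ => g (γ θ) := by
        funext θ
        rw [← hsm]
      rw [e1]
      exact hG2
  have hG0 : 0 ≤ G := le_trans (by positivity) hmG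
  rw [abs_mul, abs_of_nonneg hG0] at hle
  have : G ≤ |j| * G := by nlinarith
  have hfin : (m : ℤ) ≤ k := by linarith
  exact_mod_cast hfin

end Zr
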