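import Pool.Agent.helper60.Zr.M11
import Pool.Agent.helper60.Zr.M25

set_option autoImplicit false

/-!
# Zr, module M17: families, one complex line (written by helper60)
-/

noncomputable section

namespace Zr

open Filter Topology Set

variable {E : Type*} [NormedAddCommGroup E] [NormedSpace ℂ E]

/-- the multiplicity of `f` at `0` is `k` -/
def Mult (f : E → ℂ) (k : ℕ) : Prop :=
  (∀ j < k, iteratedFDeriv ℂ j f 0 = 0) ∧ iteratedFDeriv ℂ k f 0 ≠ 0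

variable [FiniteDimensional ℂ E]

theorem Mult.lead {f : E → ℂ} (hf : Red f) {k : ℕ} (h : Mult f k) : ∃ P : E → ℂ, Lead f k P := by
  obtain ⟨k0, P, h1, hP⟩ := red_lead hf
  have h2 := (lead_order hf.1 hP k).1 h.1
  have h3 : ¬ (k + 1 ≤ k0) := by
    intro h4
    exact h.2 ((lead_order hf.1 hP (k + 1)).2 h4 k (Nat.lt_succ_self k))
  have h5 : k = k0 := by omega
  subst h5
  exact ⟨P, hP⟩

/-- families: one complex line for every `t` -/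
theorem family_disc {F : ℝ → E → ℂ} {U : Set E} (hU : IsOpen U) (h0 : (0 : E) ∈ U)
    (hF : ContinuousOn (fun p : ℝ × E => F p.1 p.2) (Icc (0:ℝ) 1 ×ˢ U))
    (ha : ∀ t ∈ Icc (0:ℝ) 1, AnalyticOnNhd ℂ (F t) U) (hr : ∀ t ∈ Icc (0:ℝ) 1, Red (F t))
    (h : ∀ s ∈ Icc (0:ℝ) 1, ∃ δ : ℝ, 0 < δ ∧ ∀ t ∈ Icc (0:ℝ) 1, |t - s| < δ →
      ∃ (φ ψ : E → E) (V W : Set E) (v : E), Equ (F t) (F s) φ ψ V W ∧
        Transv (F t) v ∧ NearDisc (F s) φ v) {s t : ℝ} (hs : s ∈ Icc (0:ℝ) 1)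
    (ht : t ∈ Icc (0:ℝ) 1) (k : ℕ) :
    (∀ j < k, iteratedFDeriv ℂ j (F s) 0 = 0) ↔ (∀ j < k, iteratedFDeriv ℂ j (F t) 0 = 0) := by
  have hex : ∀ t : ℝ, ∃ k : ℕ, t ∈ Icc (0:ℝ) 1 → ∃ P : E → ℂ, Lead (F t) k P := by
    intro t
    by_cases ht : t ∈ Icc (0:ℝ) 1
    · obtain ⟨k, P, _, hP⟩ := red_lead (hr t ht)
      exact ⟨k, fun _ => ⟨P, hP⟩⟩
    · exact ⟨0, fun h => absurd h ht⟩
  choose K hK using hex
  have hloc : ∀ s ∈ Icc (0:ℝ) 1, ∃ δ : ℝ, 0 < δ ∧ ∀ t ∈ Icc (0:ℝ) 1, |t - s| < δ → K t = K s := by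
    intro s hs
    obtain ⟨δ1, hδ1, h1⟩ := h s hs
    obtain ⟨P, hP⟩ := hK s hs
    obtain ⟨δ2, hδ2, h2⟩ := semicont hU h0 hF ha hs hP
    refine ⟨min δ1 δ2, lt_min hδ1 hδ2, fun t ht hts => ?_⟩
    obtain ⟨φ, ψ, V, W, v, hE, hT, hN⟩ := h1 t ht (lt_of_lt_of_le hts (min_le_left _ _))
    obtain ⟨P', hP'⟩ := hK t ht
    refine le_antisymm (h2 t ht (lt_of_lt_of_le hts (min_le_right _ _)) _ P' hP') ?_
    exact disc_thm (hr t ht) (hr s hs) hE hP' hP hT hN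
  have hcont : ContinuousOn K (Icc (0:ℝ) 1) := by
    intro s hs
    obtain ⟨δ, hδ, h1⟩ := hloc s hs
    rw [ContinuousWithinAt, nhds_discrete, tendsto_pure]
    rw [eventually_nhdsWithin_iff]
    filter_upwards [Metric.ball_mem_nhds s hδ] with t ht1 ht2
    exact h1 t ht2 (by rwa [Metric.mem_ball, Real.dist_eq] at ht1)
  have hconst : K s = K t := isPreconnected_Icc.constant hcont hs ht
  obtain ⟨P, hP⟩ := hK s hs
  obtain ⟨P', hP'⟩ := hK t ht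
  rw [lead_order (hr s hs).1 hP, lead_order (hr t ht).1 hP', hconst]

end Zr
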