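import Pool.Agent.helper60.Zr.M8

set_option autoImplicit false

/-!
# Zr, module M18: ellipses, second form

`core2` is the last part of the proof of `core` (M8) after `hW1` (the loop `φ ((r cis θ) • v)` is no longer used): `ε0 = min s0 δ` with `s0` from `torus_avoid` and the ball of radius
`δ` in `B`; `M8_torus` for `f ∘ ψ` and `g`, `disc_le`: `|H1| ≤ G1`, `|H2| ≤ G2`, `K + q = 2 H1`, `K - q = - 2 H2`, `p + m = 2 G1`, `p - m = - 2 G2`, so `|K| ≤ m`.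
-/

noncomputable section

namespace Zr

open Filter Topology Set

variable {E : Type*} [NormedAddCommGroup E] [NormedSpace ℂ E] [FiniteDimensional ℂ E]

theorem core2 {f g : E → ℂ} {φ ψ : E → E} {B : Set E} (h : Pair f g φ ψ B) (hB : (0 : E) ∈ B)
    {m : ℕ} {Q : E → ℂ} (hg : Lead g m Q) (hm : 1 ≤ m) {c : ℝ} (hc : 0 < c) :
    ∃ ε0 : ℝ, 0 < ε0 ∧ ∀ a b : E, 0 < ‖a‖ + ‖b‖ → ‖a‖ + ‖b‖ < ε0 →
      (∀ (θ : ℝ) (y : E), ‖y - (cis θ • a + cis (-θ) • b)‖ < c * (‖a‖ + ‖b‖) → g y ≠ 0) →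
      ∀ K : ℤ, Wd (fun θ => f (ψ (cis θ • a + cis (-θ) • b))) K → |K| ≤ m := by
  have hcis := cis_cont
  have hg0 : AnalyticAt ℂ g 0 := h.g_an 0 hB
  obtain ⟨δ, hδ, hδB⟩ := Metric.isOpen_iff.1 h.isOpen 0 hB
  obtain ⟨s0, hs0, hav⟩ := torus_avoid hg0 hg hm hc
  refine ⟨min s0 δ, lt_min hs0 hδ, fun a b hρ hρε hgne K hW1 => ?_⟩
  have hρs0 : ‖a‖ + ‖b‖ < s0 := lt_of_lt_of_le hρε (min_le_left _ _)
  have hρδ : ‖a‖ + ‖b‖ < δ := lt_of_lt_of_le hρε (min_le_right _ _)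
  set ρ := ‖a‖ + ‖b‖ with hρdef
  have hβn : ∀ θ : ℝ, ‖cis θ • a + cis (-θ) • b‖ ≤ ρ := M8_norm a b
  have hfψ : ContinuousOn (fun y => f (ψ y)) (Metric.ball (0 : E) δ) := by
    intro y hy
    have hyB := hδB hy
    exact (ContinuousAt.comp (f := ψ) (g := f) (h.f_an y hyB).continuousAt
      (h.ψ_cont y hyB)).continuousWithinAt
  have hgc : ContinuousOn g (Metric.ball (0 : E) δ) := fun y hy =>
    (h.g_an y (hδB hy)).continuousAt.continuousWithinAt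
  have hzs : ∀ y ∈ Metric.ball (0 : E) δ, g y ≠ 0 → f (ψ y) ≠ 0 := fun y hy hgy hfy =>
    hgy ((h.zs y (hδB hy)).1 hfy)
  -- the torus
  have hρC : (ρ : ℂ) ≠ 0 := by exact_mod_cast hρ.ne'
  have hu : ∀ θ : ℝ, ‖((ρ : ℂ)⁻¹) • (cis θ • a + cis (-θ) • b)‖ ≤ 1 := by
    intro θ
    rw [norm_smul, norm_inv, Complex.norm_real, Real.norm_eq_abs, abs_of_pos hρ, inv_mul_le_iff₀ hρ,
      mul_one]
    exact hβn θ
  have hsu : ∀ θ : ℝ, ρ • ((ρ : ℂ)⁻¹) • (cis θ • a + cis (-θ) • b) =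
      cis θ • a + cis (-θ) • b := by
    intro θ
    have h1 : ∀ z : E, ρ • z = (ρ : ℂ) • z := fun z => (Complex.coe_smul ρ z).symm
    rw [h1, smul_smul, mul_inv_cancel₀ hρC, one_smul]
  have hall : ∀ θ : ℝ, (∀ w : ℂ, ‖w‖ = 1 → g (w • (cis θ • a + cis (-θ) • b)) ≠ 0) ∧
      Wd (fun s => g (cis s • (cis θ • a + cis (-θ) • b))) m := by
    intro θ
    obtain ⟨h1, h2⟩ := hav ρ (((ρ : ℂ)⁻¹) • (cis θ • a + cis (-θ) • b)) hρ hρs0 (hu θ) (by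
      intro y hy
      rw [hsu θ] at hy
      exact hgne θ y hy)
    refine ⟨fun w hw => ?_, ?_⟩
    · have h3 := h1 w hw
      rwa [smul_smul, mul_assoc, mul_inv_cancel₀ hρC, mul_one] at h3
    · have h3 : (fun s : ℝ => g (((ρ : ℂ) * cis s) • ((ρ : ℂ)⁻¹) •
          (cis θ • a + cis (-θ) • b))) = fun s => g (cis s • (cis θ • a + cis (-θ) • b)) := by
        funext s
        rw [smul_smul, mul_comm (ρ : ℂ), mul_assoc, mul_inv_cancel₀ hρC, mul_one]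
      rw [← h3]
      exact h2
  have hballw : ∀ w : ℂ, ‖w‖ = 1 → ∀ θ : ℝ, w • (cis θ • a + cis (-θ) • b) ∈
      Metric.ball (0 : E) δ := by
    intro w hw θ
    rw [mem_ball_zero_iff, norm_smul, hw, one_mul]
    exact lt_of_le_of_lt (hβn θ) hρδ
  have hg1 : ∀ w : ℂ, ‖w‖ = 1 → ∀ θ, g (w • (cis θ • a + cis (-θ) • b)) ≠ 0 :=
    fun w hw θ => (hall θ).1 w hw
  have hf1 : ∀ w : ℂ, ‖w‖ = 1 → ∀ θ, f (ψ (w • (cis θ • a + cis (-θ) • b))) ≠ 0 :=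
    fun w hw θ => hzs _ (hballw w hw θ) (hg1 w hw θ)
  have hper : ∀ θ : ℝ, cis (-(θ + 2 * Real.pi)) = cis (-θ) := by
    intro θ
    rw [← cis_per (-(θ + 2 * Real.pi))]
    congr 1
    ring
  obtain ⟨q, hq⟩ : ∃ q : ℤ, Wd (fun s => f (ψ (cis s • (cis 0 • a + cis (-0) • b)))) q := by
    refine Wd.ex ?_ (fun s => hf1 (cis s) (cis_norm s) 0) (fun s => by rw [cis_per])
    exact hfψ.comp_continuous (f := fun s : ℝ => cis s • (cis 0 • a + cis (-0) • b))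
      (by fun_prop) (fun s => hballw _ (cis_norm s) 0)
  obtain ⟨p, hp⟩ : ∃ p : ℤ, Wd (fun θ => g (cis θ • a + cis (-θ) • b)) p := by
    refine Wd.ex ?_ (fun θ => by
      have := hg1 1 (by simp) θ
      rwa [one_smul] at this) (fun θ => by rw [cis_per, hper])
    refine hgc.comp_continuous (f := fun θ : ℝ => cis θ • a + cis (-θ) • b)
      (by fun_prop) (fun θ => ?_)
    have := hballw 1 (by simp) θ
    rwa [one_smul] at this
  obtain ⟨H1, H2, hH1, hH2, e1, e2⟩ := M8_torus hfψ hρδ hf1 hW1 hq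
  obtain ⟨G1, G2, hG1, hG2, e3, e4⟩ := M8_torus hgc hρδ hg1 hp (hall 0).2
  -- the discs
  have hdisc : ∀ x y : E, ‖x‖ + ‖y‖ < δ → ∀ w : ℂ, ‖w‖ ≤ 1 → x + w • y ∈ B := by
    intro x y hxy w hw
    apply hδB
    rw [mem_ball_zero_iff]
    refine lt_of_le_of_lt (norm_add_le _ _) ?_
    rw [norm_smul]
    nlinarith [norm_nonneg y]
  have l1 : |H1| ≤ G1 := by
    refine disc_le h (x := b) (v := a) (hdisc b a (by rw [add_comm]; exact hρδ)) (fun w hw => ?_) hG1 hH1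
    obtain ⟨θ, rfl⟩ := exists_cis hw
    exact hG1.ne θ
  have l2 : |H2| ≤ G2 := by
    refine disc_le h (x := a) (v := b) (hdisc a b hρδ) (fun w hw => ?_) hG2 hH2
    obtain ⟨θ, rfl⟩ := exists_cis hw
    exact hG2.ne θ
  have a1 := abs_le.1 l1
  have a2 := abs_le.1 l2
  rw [abs_le]
  constructor
  · linarith [a1.1, a1.2, a2.1, a2.2]
  · linarith [a1.1, a1.2, a2.1, a2.2]

end Zr
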