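import Pool.Agent.helper60.Zr.M11
import Pool.Agent.helper60.Zr.M18

set_option autoImplicit false

/-!
# Zr, module M19: almost real linear in direction

`dir_le`. `k ≥ 1`, `m ≥ 1` (`Lead.one_le`). `v`, `‖v‖ = 1`, from `kappa` (M6); choose `κ` with `2 δ < (1 - δ) κ`, `4 k κ < 1` (possible: `8 δ k + δ ≤ 9 δ k < 1`), `κ < 1 / 4`, and `r0` from `kappa`;
`d = (1 - δ) κ - δ > δ`. `β θ = A ((cis θ) • v)`; with `M9_ell`, `M9_ell_norm` (M9; `r = 1`, or `r = ρ`) `ρ • β θ = A ((ρ * cis θ) • v) = cis θ • a + cis (-θ) • b`, `ρ ≤ ‖a‖ + ‖b‖`-type bounds `0 < ‖a‖ + ‖b‖ ≤ 2 Λ ρ`.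
(1) Claim: for small `y` and `0 < ρ`, `‖y - ρ • β θ‖ < d ρ` implies `g y ≠ 0`. Let `x = ψ y` (small, continuity of `ψ` at `0`), `φ x = y` (`h.ri`), `τ > 0` with `‖y - τ • A x‖ ≤ δ τ ‖x‖`. With `ξ = (cis θ) • v`:
`‖τ • x - ρ • ξ‖ ≤ ‖A (τ • x - ρ • ξ)‖ ≤ δ ‖τ • x‖ + d ρ ≤ δ (‖τ • x - ρ • ξ‖ + ρ) + d ρ`, so `‖τ • x - ρ • ξ‖ ≤ ((δ + d) / (1 - δ)) ρ = κ ρ`, `‖x - z • v‖ ≤ κ ‖z‖` for `z = (ρ / τ) cis θ`, and `(1 - κ) ‖z‖ ≤ ‖x‖`, so
`‖z‖ < r0` for small `y`; `f x ≠ 0`, so `g y ≠ 0` (`h.zs`).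
(2) `B` from `Equ.pair`. For small `r`: `f` has winding number `k` on `(r cis θ) • v` (`lead_wd`), `y θ = φ ((r cis θ) • v)` is small, `f (ψ (y θ)) = f ((r cis θ) • v)`, and `‖y θ - τ r • β θ‖ ≤ δ τ r` for some `τ = τ θ > 0`
(no continuity of `τ` needed). The segment from `y θ` to `ρ0 • β θ` (`ρ0 > 0` fixed, small): `‖y_t - ((1 - t) τ r + t ρ0) • β θ‖ ≤ (1 - t) δ τ r < d ((1 - t) τ r + t ρ0)`, so `g ≠ 0` and `f ∘ ψ ≠ 0` on it by (1), and it is in a small ball.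
`Wd.htpy`: `f ∘ ψ` has winding number `k` on `ρ0 • β θ`. `core2` with `c = d / (2 Λ)`: `k ≤ m`.
`dir_eq`: `k ≤ m` by `dir_le`; `m ≤ k` by `dir_le` for `h.symm`, the map `A' = Λ • A⁻¹` (`‖y‖ ≤ ‖A' y‖ ≤ Λ ‖y‖`) and `δ' = Λ δ / (1 - δ)`: for `x = ψ y`, `‖y - τ • A x‖ ≤ δ τ ‖x‖` gives `‖ψ y - τ⁻¹ • A⁻¹ y‖ ≤ δ ‖x‖`, `(1 - δ) τ ‖x‖ ≤ ‖y‖`, so
`‖ψ y - (τ⁻¹ / Λ) • A' y‖ ≤ δ' (τ⁻¹ / Λ) ‖y‖`; `9 δ' m < 1` because `9 Λ δ m + δ ≤ 10 Λ δ m < 1`.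
`dir_family`: as `family` (M11), with `semicont`, `red_lead`, and `δ` such that `10 Λ δ k < 1`.
-/

noncomputable section

namespace Zr

open Filter Topology Set

variable {E : Type*} [NormedAddCommGroup E] [NormedSpace ℂ E]

/-- near `0`, the direction of `φ x` is almost the direction of `A x` -/
def DirLin (φ : E → E) (A : E ≃ₗ[ℝ] E) (δ : ℝ) : Prop :=
  ∀ᶠ x in 𝓝 (0 : E), ∃ τ : ℝ, 0 < τ ∧ ‖φ x - τ • A x‖ ≤ δ * (τ * ‖x‖)

variable [FiniteDimensional ℂ E]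

omit [FiniteDimensional ℂ E] in
/-- step (1): `g` has no zeros near the multiples of the loop `β` -/
theorem M19_free {f g : E → ℂ} {φ ψ : E → E} {V W : Set E} (h : Equ f g φ ψ V W) {A : E ≃ₗ[ℝ] E} {δ κ d r0 : ℝ}
    {v : E} (hA : ∀ x, ‖x‖ ≤ ‖A x‖) (hδ : 0 ≤ δ) (hδ1 : δ < 1) (hκ : 0 < κ) (hκ1 : κ < 1) (hdκ : δ + d = (1 - δ) * κ)
    (hr0 : 0 < r0) (hv : ‖v‖ = 1)
    (hne : ∀ (z : ℂ) (x : E), 0 < ‖z‖ → ‖z‖ < r0 → ‖x - z • v‖ ≤ κ * ‖z‖ → f x ≠ 0) (hd : DirLin φ A δ) :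
    ∃ s : ℝ, 0 < s ∧ ∀ (y : E) (ρ θ : ℝ), ‖y‖ < s → 0 < ρ → ‖y - ρ • A (cis θ • v)‖ < d * ρ → g y ≠ 0 := by
  have hψ0 : ContinuousAt ψ 0 := h.cψ.continuousAt h.hW
  have hN : ∀ᶠ y in 𝓝 (0:E), y ∈ W ∧ (∃ τ : ℝ, 0 < τ ∧ ‖φ (ψ y) - τ • A (ψ y)‖ ≤ δ * (τ * ‖ψ y‖)) ∧
      ‖ψ y‖ < (1 - κ) * r0 := by
    have h1 : Tendsto ψ (𝓝 0) (𝓝 0) := by
      have := hψ0.tendsto
      rwa [h.ψ0] at this
    have h2 := h1.eventually hd
    have h3 : ∀ᶠ y in 𝓝 (0:E), ‖ψ y‖ < (1 - κ) * r0 := by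
      have h4 : Tendsto (fun y => ‖ψ y‖) (𝓝 0) (𝓝 0) := by
        have := h1.norm
        simpa using this
      exact h4.eventually (gt_mem_nhds (mul_pos (by linarith) hr0))
    filter_upwards [h.hW, h2, h3] with y a b c
    exact ⟨a, b, c⟩
  obtain ⟨s, hs, hb⟩ := Metric.eventually_nhds_iff.1 hN
  refine ⟨s, hs, ?_⟩
  intro y ρ θ hy hρ hyρ
  obtain ⟨hyW, ⟨τ, hτ, hτy⟩, hψy⟩ := hb (by rwa [dist_zero_right])
  have hφψ : φ (ψ y) = y := h.ri hyW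
  rw [hφψ] at hτy
  have hξ : ‖cis θ • v‖ = 1 := by rw [norm_smul, cis_norm, hv, mul_one]
  set x := ψ y with hx
  have hu : ‖τ • x - ρ • (cis θ • v)‖ ≤ κ * ρ := by
    have h1 := hA (τ • x - ρ • (cis θ • v))
    rw [map_sub, A.map_smul, A.map_smul] at h1
    have h2 : ‖τ • A x - ρ • A (cis θ • v)‖ ≤ ‖y - τ • A x‖ + ‖y - ρ • A (cis θ • v)‖ := by
      have e1 : τ • A x - ρ • A (cis θ • v) = (y - ρ • A (cis θ • v)) - (y - τ • A x) := by abel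
      rw [e1]
      refine (norm_sub_le _ _).trans ?_
      linarith
    have h3 : τ * ‖x‖ ≤ ‖τ • x - ρ • (cis θ • v)‖ + ρ := by
      have e2 : τ • x = (τ • x - ρ • (cis θ • v)) + ρ • (cis θ • v) := by abel
      have e3 : ‖τ • x‖ = τ * ‖x‖ := by rw [norm_smul, Real.norm_eq_abs, abs_of_pos hτ]
      have e4 : ‖ρ • (cis θ • v)‖ = ρ := by rw [norm_smul, Real.norm_eq_abs, abs_of_pos hρ, hξ, mul_one]
      calc τ * ‖x‖ = ‖(τ • x - ρ • (cis θ • v)) + ρ • (cis θ • v)‖ := by rw [← e2, e3]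
        _ ≤ ‖τ • x - ρ • (cis θ • v)‖ + ‖ρ • (cis θ • v)‖ := norm_add_le _ _
        _ = _ := by rw [e4]
    have h4 : δ * (τ * ‖x‖) ≤ δ * (‖τ • x - ρ • (cis θ • v)‖ + ρ) := mul_le_mul_of_nonneg_left h3 hδ
    have h5 : (1 - δ) * ‖τ • x - ρ • (cis θ • v)‖ ≤ (1 - δ) * (κ * ρ) := by
      have e5 : (1 - δ) * (κ * ρ) = (δ + d) * ρ := by rw [hdκ]; ring
      rw [e5]
      nlinarith
    exact le_of_mul_le_mul_left h5 (by linarith)
  have hz : ‖((ρ / τ : ℝ) : ℂ) * cis θ‖ = ρ / τ := by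
    rw [norm_mul, cis_norm, mul_one, Complex.norm_real, Real.norm_eq_abs, abs_of_pos (by positivity)]
  have hxz : ‖x - (((ρ / τ : ℝ) : ℂ) * cis θ) • v‖ ≤ κ * (ρ / τ) := by
    have e1 : x - (((ρ / τ : ℝ) : ℂ) * cis θ) • v = τ⁻¹ • (τ • x - ρ • (cis θ • v)) := by
      rw [smul_sub, smul_smul, smul_smul, inv_mul_cancel₀ hτ.ne', one_smul, mul_smul, Complex.coe_smul]
      congr 2
      field_simp
    rw [e1, norm_smul, Real.norm_eq_abs, abs_of_pos (by positivity)]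
    have h6 : τ⁻¹ * ‖τ • x - ρ • (cis θ • v)‖ ≤ τ⁻¹ * (κ * ρ) := mul_le_mul_of_nonneg_left hu (by positivity)
    have e6 : τ⁻¹ * (κ * ρ) = κ * (ρ / τ) := by field_simp
    linarith
  have hzr : ρ / τ < r0 := by
    have h7 : ρ / τ ≤ ‖x‖ + κ * (ρ / τ) := by
      have e7 : (((ρ / τ : ℝ) : ℂ) * cis θ) • v = x - (x - (((ρ / τ : ℝ) : ℂ) * cis θ) • v) := by abel
      have e8 : ‖(((ρ / τ : ℝ) : ℂ) * cis θ) • v‖ = ρ / τ := by rw [norm_smul, hz, hv, mul_one]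
      calc ρ / τ = ‖x - (x - (((ρ / τ : ℝ) : ℂ) * cis θ) • v)‖ := by rw [← e7, e8]
        _ ≤ ‖x‖ + ‖x - (((ρ / τ : ℝ) : ℂ) * cis θ) • v‖ := norm_sub_le _ _
        _ ≤ _ := by linarith
    have h8 : (1 - κ) * (ρ / τ) < (1 - κ) * r0 := by linarith
    exact lt_of_mul_lt_mul_left h8 (by linarith)
  have hfx := hne (((ρ / τ : ℝ) : ℂ) * cis θ) x (by rw [hz]; positivity) (by rw [hz]; exact hzr)
    (by rw [hz]; exact hxz)
  intro hgy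
  refine hfx ((h.zs x (h.mψ hyW)).2 ?_)
  rw [hφψ]
  exact hgy

theorem dir_le {f g : E → ℂ} {φ ψ : E → E} {V W : Set E} (hf : Red f) (hg : Red g) (h : Equ f g φ ψ V W) {k m : ℕ}
    {P Q : E → ℂ} (hk : Lead f k P) (hm : Lead g m Q) {A : E ≃ₗ[ℝ] E} {Λ δ : ℝ} (hΛ : 1 ≤ Λ)
    (hA : ∀ x, ‖x‖ ≤ ‖A x‖ ∧ ‖A x‖ ≤ Λ * ‖x‖) (hδ : 0 ≤ δ) (h1 : 9 * δ * k < 1) (hd : DirLin φ A δ) : k ≤ m := by
  have hcis := cis_cont
  have hk1 : 1 ≤ k := hk.one_le hf.2.1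
  have hm1 : 1 ≤ m := hm.one_le hg.2.1
  have hk1' : (1 : ℝ) ≤ k := by exact_mod_cast hk1
  have hΛ0 : 0 < Λ := by linarith
  obtain ⟨v, hv, hPv, hkap⟩ := kappa hk hk1
  have hδk : δ * 1 ≤ δ * k := mul_le_mul_of_nonneg_left hk1' hδ
  have hδ1 : δ < 1 / 9 := by linarith
  have h1δ : 0 < 1 - δ := by linarith
  obtain ⟨κ, hκ0, hκ1, hκ3⟩ : ∃ κ : ℝ, 0 < κ ∧ 2 * δ < (1 - δ) * κ ∧ 4 * k * κ < 1 := by
    have hk4 : 0 < 1 / (4 * (k : ℝ)) := by positivity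
    have hk5 : 2 * δ / (1 - δ) < 1 / (4 * (k : ℝ)) := by
      rw [div_lt_div_iff₀ h1δ (by positivity)]
      linarith
    have hk6 : 0 ≤ 2 * δ / (1 - δ) := by positivity
    refine ⟨(2 * δ / (1 - δ) + 1 / (4 * k)) / 2, by linarith, ?_, ?_⟩
    · have h2 : 2 * δ / (1 - δ) < (2 * δ / (1 - δ) + 1 / (4 * k)) / 2 := by linarith
      have h3 := mul_lt_mul_of_pos_left h2 h1δ
      rwa [mul_div_cancel₀ _ h1δ.ne'] at h3
    · have h2 : (2 * δ / (1 - δ) + 1 / (4 * k)) / 2 < 1 / (4 * (k : ℝ)) := by linarith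
      have h3 := mul_lt_mul_of_pos_left h2 (by positivity : 0 < 4 * (k : ℝ))
      rwa [mul_one_div_cancel (by positivity)] at h3
  have hκk : κ * 1 ≤ κ * k := mul_le_mul_of_nonneg_left hk1' hκ0.le
  have hκ4 : κ < 1 := by linarith
  obtain ⟨r0, hr0, hne⟩ := hkap κ hκ0 hκ3
  obtain ⟨d, hdd⟩ : ∃ d : ℝ, d = (1 - δ) * κ - δ := ⟨_, rfl⟩
  have hdδ : δ < d := by rw [hdd]; linarith
  have hd0 : 0 < d := by linarith
  obtain ⟨s1, hs1, hfree⟩ := M19_free h (fun x => (hA x).1) hδ (by linarith) hκ0 hκ4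
    (by rw [hdd]; ring : δ + d = (1 - δ) * κ) hr0 hv hne hd
  obtain ⟨B, hB0, hB⟩ := h.pair hf hg
  obtain ⟨s2, hs2, hbB⟩ := Metric.isOpen_iff.1 hB.isOpen 0 hB0
  obtain ⟨ε0, hε0, hcore⟩ := core2 hB hB0 hm hm1 (c := d / (2 * Λ)) (by positivity)
  -- the radius `ρ0`
  obtain ⟨ρ0, hρ0, hρ1, hρ2⟩ : ∃ ρ0 : ℝ, 0 < ρ0 ∧ 2 * Λ * ρ0 < ε0 ∧ (Λ + d) * ρ0 < min s1 s2 := by
    have hs : 0 < min s1 s2 := lt_min hs1 hs2
    have a1 : 0 < 2 * Λ := by positivity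
    have a2 : 0 < Λ + d := by positivity
    refine ⟨min (ε0 / (2 * Λ)) (min s1 s2 / (Λ + d)) / 2, by positivity, ?_, ?_⟩
    · have h2 : min (ε0 / (2 * Λ)) (min s1 s2 / (Λ + d)) ≤ ε0 / (2 * Λ) := min_le_left _ _
      have h3 := mul_le_mul_of_nonneg_left h2 a1.le
      rw [mul_div_cancel₀ _ a1.ne'] at h3
      nlinarith
    · have h2 : min (ε0 / (2 * Λ)) (min s1 s2 / (Λ + d)) ≤ min s1 s2 / (Λ + d) := min_le_right _ _
      have h3 := mul_le_mul_of_nonneg_left h2 a2.le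
      rw [mul_div_cancel₀ _ a2.ne'] at h3
      nlinarith
  have hρs1 : (Λ + d) * ρ0 < s1 := lt_of_lt_of_le hρ2 (min_le_left _ _)
  have hρs2 : (Λ + d) * ρ0 < s2 := lt_of_lt_of_le hρ2 (min_le_right _ _)
  have hξ : ∀ θ : ℝ, ‖cis θ • v‖ = 1 := by
    intro θ
    rw [norm_smul, cis_norm, hv, mul_one]
  have hβ : ∀ (ρ θ : ℝ), A (((ρ : ℂ) * cis θ) • v) = ρ • A (cis θ • v) := by
    intro ρ θ
    rw [mul_smul, Complex.coe_smul, A.map_smul]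
  have hβn : ∀ θ : ℝ, ‖A (cis θ • v)‖ ≤ Λ := by
    intro θ
    have := (hA (cis θ • v)).2
    rwa [hξ, mul_one] at this
  obtain ⟨n1, n2⟩ := M9_ell_norm (A : E →ₗ[ℝ] E) hv hρ0 one_pos (L := Λ) (fun x => (hA x).2)
    (fun x => by rw [one_mul]; exact (hA x).1)
  have hell := M9_ell (A : E →ₗ[ℝ] E) v ρ0
  -- the radius `r`
  have hO : {x : E | (∃ τ : ℝ, 0 < τ ∧ ‖φ x - τ • A x‖ ≤ δ * (τ * ‖x‖)) ∧ V ∈ 𝓝 x ∧ ‖φ x‖ < min s1 s2} ∈ 𝓝 (0:E) := by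
    have hφ0 : ContinuousAt φ 0 := h.cφ.continuousAt h.hV
    have h2 : ∀ᶠ x in 𝓝 (0:E), ‖φ x‖ < min s1 s2 := by
      have h3 : ContinuousAt (fun x => ‖φ x‖) 0 := hφ0.norm
      refine h3.eventually (gt_mem_nhds ?_)
      show ‖φ 0‖ < min s1 s2
      rw [h.z0, norm_zero]
      exact lt_min hs1 hs2
    have h3 : ∀ᶠ x in 𝓝 (0:E), V ∈ 𝓝 x := eventually_mem_nhds_iff.2 h.hV
    exact (hd.and (h3.and h2))
  obtain ⟨r, hw1, hrO, hr⟩ := ((lead_wd hf.1 hk hPv).and ((M4_ev (u := v) hO).and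
    (eventually_mem_nhdsWithin (a := (0:ℝ)) (s := Ioi 0)))).exists
  have hr' : 0 < r := hr
  have hrO' : ∀ θ : ℝ, (∃ τ : ℝ, 0 < τ ∧ ‖φ (((r : ℂ) * cis θ) • v) - (τ * r) • A (cis θ • v)‖ ≤ δ * (τ * r)) ∧
      V ∈ 𝓝 (((r : ℂ) * cis θ) • v) ∧ ‖φ (((r : ℂ) * cis θ) • v)‖ < min s1 s2 := by
    intro θ
    have h2 := hrO θ
    rw [zero_add] at h2
    obtain ⟨⟨τ, hτ, hτ2⟩, h3, h4⟩ := h2
    refine ⟨⟨τ, hτ, ?_⟩, h3, h4⟩
    have h5 : ‖((r : ℂ) * cis θ) • v‖ = r := by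
      rw [norm_smul, norm_mul, cis_norm, mul_one, Complex.norm_real, Real.norm_eq_abs, abs_of_pos hr', hv, mul_one]
    rw [hβ, smul_smul, h5] at hτ2
    exact hτ2
  -- the homotopy
  have hyc : Continuous (fun θ : ℝ => φ (((r : ℂ) * cis θ) • v)) := by
    rw [continuous_iff_continuousAt]
    intro θ
    have hc : Continuous (fun θ : ℝ => ((r : ℂ) * cis θ) • v) := by fun_prop
    exact ContinuousAt.comp (g := φ) (f := fun θ : ℝ => ((r : ℂ) * cis θ) • v)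
      (h.cφ.continuousAt (hrO' θ).2.1) hc.continuousAt
  have hAc : Continuous (fun θ : ℝ => A (cis θ • v)) := by
    have hAcont : Continuous (A : E →ₗ[ℝ] E) := by
      have : FiniteDimensional ℝ E := FiniteDimensional.complexToReal E
      exact LinearMap.continuous_of_finiteDimensional _
    have hc : Continuous (fun θ : ℝ => cis θ • v) := by fun_prop
    exact hAcont.comp hc
  have hX : ∀ t ∈ Icc (0:ℝ) 1, ∀ θ : ℝ,
      (1 - t) • φ (((r : ℂ) * cis θ) • v) + t • (ρ0 • A (cis θ • v)) ∈ B ∧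
      g ((1 - t) • φ (((r : ℂ) * cis θ) • v) + t • (ρ0 • A (cis θ • v))) ≠ 0 := by
    intro t ht θ
    obtain ⟨⟨τ, hτ, hτ2⟩, h3, h4⟩ := hrO' θ
    have ht1 : 0 ≤ 1 - t := by linarith [ht.2]
    have hn : ‖(1 - t) • φ (((r : ℂ) * cis θ) • v) + t • (ρ0 • A (cis θ • v))‖ < min s1 s2 := by
      have a1 : ‖(1 - t) • φ (((r : ℂ) * cis θ) • v) + t • (ρ0 • A (cis θ • v))‖ ≤
          (1 - t) * ‖φ (((r : ℂ) * cis θ) • v)‖ + t * (ρ0 * ‖A (cis θ • v)‖) := by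
        refine (norm_add_le _ _).trans (le_of_eq ?_)
        rw [norm_smul, norm_smul, norm_smul, Real.norm_eq_abs, Real.norm_eq_abs, Real.norm_eq_abs,
          abs_of_nonneg ht1, abs_of_nonneg ht.1, abs_of_pos hρ0]
      have a2 : ρ0 * ‖A (cis θ • v)‖ < min s1 s2 := by
        have := mul_le_mul_of_nonneg_left (hβn θ) hρ0.le
        nlinarith
      refine lt_of_le_of_lt a1 ?_
      rcases eq_or_lt_of_le ht.1 with h5 | h5
      · rw [← h5]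
        simpa using h4
      · have a3 : t * (ρ0 * ‖A (cis θ • v)‖) < t * min s1 s2 := mul_lt_mul_of_pos_left a2 h5
        have a4 : (1 - t) * ‖φ (((r : ℂ) * cis θ) • v)‖ ≤ (1 - t) * min s1 s2 :=
          mul_le_mul_of_nonneg_left h4.le ht1
        linarith
    refine ⟨hbB ?_, ?_⟩
    · rw [mem_ball_zero_iff]
      exact lt_of_lt_of_le hn (min_le_right _ _)
    · have hρ : 0 < (1 - t) * (τ * r) + t * ρ0 := by
        have b1 : 0 < τ * r := mul_pos hτ hr'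
        rcases eq_or_lt_of_le ht.1 with h5 | h5
        · rw [← h5]
          simpa using b1
        · have b2 := mul_nonneg ht1 b1.le
          have b3 := mul_pos h5 hρ0
          linarith
      refine hfree _ ((1 - t) * (τ * r) + t * ρ0) θ (lt_of_lt_of_le hn (min_le_left _ _)) hρ ?_
      have e1 : (1 - t) • φ (((r : ℂ) * cis θ) • v) + t • (ρ0 • A (cis θ • v)) -
          ((1 - t) * (τ * r) + t * ρ0) • A (cis θ • v) =
          (1 - t) • (φ (((r : ℂ) * cis θ) • v) - (τ * r) • A (cis θ • v)) := by module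
      rw [e1, norm_smul, Real.norm_eq_abs, abs_of_nonneg ht1]
      have b4 := mul_le_mul_of_nonneg_left hτ2 ht1
      refine lt_of_le_of_lt b4 ?_
      have b1 : 0 < τ * r := mul_pos hτ hr'
      rcases eq_or_lt_of_le ht.1 with h5 | h5
      · rw [← h5]
        have : δ * (τ * r) < d * (τ * r) := mul_lt_mul_of_pos_right hdδ b1
        linarith
      · have b3 : 0 < d * (t * ρ0) := by positivity
        have b5 : (1 - t) * (δ * (τ * r)) ≤ (1 - t) * (d * (τ * r)) :=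
          mul_le_mul_of_nonneg_left (mul_le_mul_of_nonneg_right hdδ.le b1.le) ht1
        nlinarith
  have hXc : Continuous (fun p : ℝ × ℝ =>
      (1 - p.2) • φ (((r : ℂ) * cis p.1) • v) + p.2 • (ρ0 • A (cis p.1 • v))) := by
    have c1 : Continuous (fun p : ℝ × ℝ => φ (((r : ℂ) * cis p.1) • v)) := hyc.comp continuous_fst
    have c2 : Continuous (fun p : ℝ × ℝ => A (cis p.1 • v)) := hAc.comp continuous_fst
    exact ((continuous_const.sub continuous_snd).smul c1).add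
      (continuous_snd.smul (continuous_const.smul c2))
  have hfψ : ∀ y ∈ B, ContinuousAt (fun y => f (ψ y)) y := fun y hy =>
    ContinuousAt.comp (g := f) (f := ψ) (hB.f_an y hy).continuousAt (hB.ψ_cont y hy)
  have hfin := Wd.htpy (H := fun θ t =>
      f (ψ ((1 - t) • φ (((r : ℂ) * cis θ) • v) + t • (ρ0 • A (cis θ • v))))) (k := k) (by
      intro p hp
      exact (ContinuousAt.comp (g := fun y => f (ψ y)) (f := fun p : ℝ × ℝ =>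
        (1 - p.2) • φ (((r : ℂ) * cis p.1) • v) + p.2 • (ρ0 • A (cis p.1 • v)))
        (hfψ _ (hX p.2 hp.2 p.1).1) hXc.continuousAt).continuousWithinAt)
    (by
      intro t ht θ hcon
      exact (hX t ht θ).2 ((hB.zs _ (hX t ht θ).1).1 hcon))
    (by
      intro t ht θ
      rw [cis_per])
    (by
      have e1 : (fun θ : ℝ => f (ψ ((1 - (0:ℝ)) • φ (((r : ℂ) * cis θ) • v) + (0:ℝ) • (ρ0 • A (cis θ • v))))) =
          fun θ => f (((r : ℂ) * cis θ) • v) := by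
        funext θ
        rw [sub_zero, one_smul, zero_smul, add_zero, h.li (mem_of_mem_nhds (hrO' θ).2.1)]
      rw [e1]
      exact hw1)
  have hfin2 : Wd (fun θ => f (ψ (cis θ • ((ρ0 / 2 : ℂ) • ((A : E →ₗ[ℝ] E) v - Complex.I • (A : E →ₗ[ℝ] E) (Complex.I • v))) +
      cis (-θ) • ((ρ0 / 2 : ℂ) • ((A : E →ₗ[ℝ] E) v + Complex.I • (A : E →ₗ[ℝ] E) (Complex.I • v)))))) k := by
    have e2 : (fun θ => f (ψ (cis θ • ((ρ0 / 2 : ℂ) • ((A : E →ₗ[ℝ] E) v - Complex.I • (A : E →ₗ[ℝ] E) (Complex.I • v))) +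
        cis (-θ) • ((ρ0 / 2 : ℂ) • ((A : E →ₗ[ℝ] E) v + Complex.I • (A : E →ₗ[ℝ] E) (Complex.I • v)))))) =
        fun θ : ℝ => f (ψ ((1 - (1:ℝ)) • φ (((r : ℂ) * cis θ) • v) + (1:ℝ) • (ρ0 • A (cis θ • v)))) := by
      funext θ
      rw [hell θ, sub_self, zero_smul, zero_add, one_smul, ← hβ]
      rfl
    rw [e2]
    exact hfin
  have hle := hcore _ _ n1 (lt_of_le_of_lt n2 hρ1) (by
    intro θ y hy
    rw [hell θ] at hy
    have hy' : ‖y - A (((ρ0 : ℂ) * cis θ) • v)‖ < d / (2 * Λ) * (‖(ρ0 / 2 : ℂ) • ((A : E →ₗ[ℝ] E) v - Complex.I • (A : E →ₗ[ℝ] E) (Complex.I • v))‖ +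
      ‖(ρ0 / 2 : ℂ) • ((A : E →ₗ[ℝ] E) v + Complex.I • (A : E →ₗ[ℝ] E) (Complex.I • v))‖) := hy
    rw [hβ] at hy'
    have h2 := mul_le_mul_of_nonneg_left n2 (by positivity : 0 ≤ d / (2 * Λ))
    have h3 : d / (2 * Λ) * (2 * Λ * ρ0) = d * ρ0 := by field_simp
    rw [h3] at h2
    have h4 : ‖y - ρ0 • A (cis θ • v)‖ < d * ρ0 := lt_of_lt_of_le hy' h2
    refine hfree y ρ0 θ ?_ hρ0 h4
    have h5 : ‖ρ0 • A (cis θ • v)‖ ≤ ρ0 * Λ := by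
      rw [norm_smul, Real.norm_eq_abs, abs_of_pos hρ0]
      exact mul_le_mul_of_nonneg_left (hβn θ) hρ0.le
    have h6 : ‖y‖ ≤ ‖y - ρ0 • A (cis θ • v)‖ + ‖ρ0 • A (cis θ • v)‖ := by
      have e3 : y = (y - ρ0 • A (cis θ • v)) + ρ0 • A (cis θ • v) := by abel
      calc ‖y‖ = ‖(y - ρ0 • A (cis θ • v)) + ρ0 • A (cis θ • v)‖ := by rw [← e3]
        _ ≤ _ := norm_add_le _ _
    linarith) k hfin2
  rw [abs_of_nonneg (by positivity)] at hle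
  exact_mod_cast hle

theorem dir_eq {f g : E → ℂ} {φ ψ : E → E} {V W : Set E} (hf : Red f) (hg : Red g) (h : Equ f g φ ψ V W) {k m : ℕ}
    {P Q : E → ℂ} (hk : Lead f k P) (hm : Lead g m Q) {A : E ≃ₗ[ℝ] E} {Λ δ : ℝ} (hΛ : 1 ≤ Λ)
    (hA : ∀ x, ‖x‖ ≤ ‖A x‖ ∧ ‖A x‖ ≤ Λ * ‖x‖) (hδ : 0 ≤ δ) (h1 : 10 * Λ * δ * k < 1) (h2 : 10 * Λ * δ * m < 1)
    (hd : DirLin φ A δ) : k = m := by
  have hΛ0 : 0 < Λ := by linarith
  have hm1 : 1 ≤ m := hm.one_le hg.2.1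
  have hm1' : (1 : ℝ) ≤ m := by exact_mod_cast hm1
  have hδΛ : δ ≤ Λ * δ := by nlinarith
  refine le_antisymm ?_ ?_
  · refine dir_le hf hg h hk hm hΛ hA hδ ?_ hd
    have h3 : δ * (k : ℝ) ≤ Λ * δ * k := mul_le_mul_of_nonneg_right hδΛ (Nat.cast_nonneg _)
    have h4 : 0 ≤ Λ * δ * (k : ℝ) := by positivity
    linarith
  · -- the inverse
    have h3 : Λ * δ * 1 ≤ Λ * δ * m := mul_le_mul_of_nonneg_left hm1' (by positivity)
    have hδ1 : δ < 1 := by linarith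
    have h1δ : 0 < 1 - δ := by linarith
    let A' : E ≃ₗ[ℝ] E := A.symm.trans (LinearEquiv.smulOfNeZero ℝ E Λ hΛ0.ne')
    have hA'v : ∀ y, A' y = Λ • A.symm y := fun y => rfl
    have hA'n : ∀ y, ‖A' y‖ = Λ * ‖A.symm y‖ := by
      intro y
      rw [hA'v, norm_smul, Real.norm_eq_abs, abs_of_pos hΛ0]
    have hA' : ∀ y, ‖y‖ ≤ ‖A' y‖ ∧ ‖A' y‖ ≤ Λ * ‖y‖ := by
      intro y
      have h4 := hA (A.symm y)
      rw [A.apply_symm_apply] at h4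
      rw [hA'n]
      exact ⟨h4.2, mul_le_mul_of_nonneg_left h4.1 hΛ0.le⟩
    have hd' : DirLin ψ A' (Λ * δ / (1 - δ)) := by
      have hψ0 : Tendsto ψ (𝓝 0) (𝓝 0) := by
        have := (h.cψ.continuousAt h.hW).tendsto
        rwa [h.ψ0] at this
      have h4 := hψ0.eventually hd
      unfold DirLin
      filter_upwards [h4, h.hW] with y hy hyW
      obtain ⟨τ, hτ, hτy⟩ := hy
      rw [h.ri hyW] at hτy
      refine ⟨τ⁻¹ / Λ, by positivity, ?_⟩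
      have e1 : (τ⁻¹ / Λ) • A' y = τ⁻¹ • A.symm y := by
        rw [hA'v, smul_smul, div_mul_cancel₀ _ hΛ0.ne']
      rw [e1]
      have h5 : ‖A.symm y - τ • ψ y‖ ≤ δ * (τ * ‖ψ y‖) := by
        have h6 := (hA (A.symm y - τ • ψ y)).1
        rw [map_sub, A.apply_symm_apply, A.map_smul] at h6
        exact h6.trans hτy
      have h7 : ‖ψ y - τ⁻¹ • A.symm y‖ ≤ δ * ‖ψ y‖ := by
        have e2 : ψ y - τ⁻¹ • A.symm y = -(τ⁻¹ • (A.symm y - τ • ψ y)) := by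
          rw [smul_sub, smul_smul, inv_mul_cancel₀ hτ.ne', one_smul]
          abel
        rw [e2, norm_neg, norm_smul, Real.norm_eq_abs, abs_of_pos (by positivity)]
        have h8 := mul_le_mul_of_nonneg_left h5 (by positivity : 0 ≤ τ⁻¹)
        have e3 : τ⁻¹ * (δ * (τ * ‖ψ y‖)) = δ * ‖ψ y‖ := by field_simp
        linarith
      have h9 : (1 - δ) * (τ * ‖ψ y‖) ≤ ‖y‖ := by
        have h10 := (hA (ψ y)).1
        have h11 : ‖τ • A (ψ y)‖ ≤ ‖y‖ + ‖y - τ • A (ψ y)‖ := by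
          have e4 : τ • A (ψ y) = y - (y - τ • A (ψ y)) := by abel
          calc ‖τ • A (ψ y)‖ = ‖y - (y - τ • A (ψ y))‖ := by rw [← e4]
            _ ≤ _ := norm_sub_le _ _
        rw [norm_smul, Real.norm_eq_abs, abs_of_pos hτ] at h11
        have h12 := mul_le_mul_of_nonneg_left h10 hτ.le
        linarith
      have h13 : ‖ψ y‖ ≤ ‖y‖ / ((1 - δ) * τ) := by
        rw [le_div_iff₀ (by positivity)]
        linarith
      have h14 := mul_le_mul_of_nonneg_left h13 hδ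
      have e5 : Λ * δ / (1 - δ) * (τ⁻¹ / Λ * ‖y‖) = δ * (‖y‖ / ((1 - δ) * τ)) := by
        field_simp
      rw [e5]
      exact h7.trans h14
    refine dir_le hg hf h.symm hm hk hΛ hA' (by positivity) ?_ hd'
    have e6 : 9 * (Λ * δ / (1 - δ)) * m = 9 * Λ * δ * m / (1 - δ) := by ring
    rw [e6, div_lt_one h1δ]
    linarith

theorem dir_family {F : ℝ → E → ℂ} {U : Set E} (hU : IsOpen U) (h0 : (0 : E) ∈ U)
    (hF : ContinuousOn (fun p : ℝ × E => F p.1 p.2) (Icc (0:ℝ) 1 ×ˢ U))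
    (ha : ∀ t ∈ Icc (0:ℝ) 1, AnalyticOnNhd ℂ (F t) U) (hr : ∀ t ∈ Icc (0:ℝ) 1, Red (F t)) {Λ : ℝ} (hΛ : 1 ≤ Λ)
    (h : ∀ s ∈ Icc (0:ℝ) 1, ∀ δ : ℝ, 0 < δ → ∃ η : ℝ, 0 < η ∧ ∀ t ∈ Icc (0:ℝ) 1, |t - s| < η →
      ∃ (φ ψ : E → E) (V W : Set E) (A : E ≃ₗ[ℝ] E), Equ (F s) (F t) φ ψ V W ∧
        (∀ x, ‖x‖ ≤ ‖A x‖ ∧ ‖A x‖ ≤ Λ * ‖x‖) ∧ DirLin φ A δ) {s t : ℝ} (hs : s ∈ Icc (0:ℝ) 1)
    (ht : t ∈ Icc (0:ℝ) 1) (k : ℕ) :
    (∀ j < k, iteratedFDeriv ℂ j (F s) 0 = 0) ↔ (∀ j < k, iteratedFDeriv ℂ j (F t) 0 = 0) := by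
  have hex : ∀ t : ℝ, ∃ K : ℕ, t ∈ Icc (0:ℝ) 1 → ∃ P : E → ℂ, Lead (F t) K P := by
    intro t
    by_cases htt : t ∈ Icc (0:ℝ) 1
    · obtain ⟨K, P, -, hL⟩ := red_lead (hr t htt)
      exact ⟨K, fun _ => ⟨P, hL⟩⟩
    · exact ⟨0, fun h' => absurd h' htt⟩
  choose K hK using hex
  -- the multiplicity is locally constant
  have hloc : ∀ s ∈ Icc (0:ℝ) 1, ∃ η : ℝ, 0 < η ∧ ∀ t ∈ Icc (0:ℝ) 1, |t - s| < η → K t = K s := by
    intro s hs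
    obtain ⟨P, hL⟩ := hK s hs
    obtain ⟨η1, hη1, h1⟩ := semicont hU h0 hF ha hs hL
    have hΛ0 : 0 < Λ := by linarith
    have hδ : 0 < 1 / (10 * Λ * ((K s : ℝ) + 1)) := by positivity
    obtain ⟨η2, hη2, h2⟩ := h s hs _ hδ
    refine ⟨min η1 η2, lt_min hη1 hη2, ?_⟩
    intro t ht hts
    obtain ⟨P', hL'⟩ := hK t ht
    have h3 : K t ≤ K s := h1 t ht (lt_of_lt_of_le hts (min_le_left _ _)) (K t) P' hL'
    obtain ⟨φ, ψ, V, W, A, hE, hA, hD⟩ := h2 t ht (lt_of_lt_of_le hts (min_le_right _ _))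
    have h4 : 10 * Λ * (1 / (10 * Λ * ((K s : ℝ) + 1))) * K s < 1 := by
      have h5 : 10 * Λ * (1 / (10 * Λ * ((K s : ℝ) + 1))) * K s = K s / ((K s : ℝ) + 1) := by
        field_simp
      rw [h5, div_lt_one (by positivity)]
      linarith
    have h6 : 10 * Λ * (1 / (10 * Λ * ((K s : ℝ) + 1))) * K t < 1 := by
      refine lt_of_le_of_lt ?_ h4
      apply mul_le_mul_of_nonneg_left
      · exact_mod_cast h3
      · positivity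
    exact (dir_eq (hr s hs) (hr t ht) hE hL hL' hΛ hA hδ.le h4 h6 hD).symm
  have hcont : ContinuousOn K (Icc (0:ℝ) 1) := by
    intro s hs
    obtain ⟨η, hη, h1⟩ := hloc s hs
    have h2 : ∀ᶠ t in 𝓝[Icc (0:ℝ) 1] s, K s = K t := by
      have h3 : ∀ᶠ t in 𝓝[Icc (0:ℝ) 1] s, |t - s| < η := by
        have h4 : Metric.ball s η ∈ 𝓝 s := Metric.ball_mem_nhds s hη
        have h5 : ∀ᶠ t in 𝓝 s, |t - s| < η := by
          filter_upwards [h4] with t ht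
          rwa [Metric.mem_ball, Real.dist_eq] at ht
        exact h5.filter_mono nhdsWithin_le_nhds
      filter_upwards [h3, self_mem_nhdsWithin] with t ht htt
      exact (h1 t htt ht).symm
    exact tendsto_const_nhds.congr' h2
  have hKK : K s = K t := isPreconnected_Icc.constant hcont hs ht
  obtain ⟨P, hL⟩ := hK s hs
  obtain ⟨P', hL'⟩ := hK t ht
  rw [lead_order (ha s hs 0 h0) hL k, lead_order (ha t ht 0 h0) hL' k, hKK]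

end Zr
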