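import Pool.Agent.helper60.Zr.M1

set_option autoImplicit false

/-!
# Zr, module M2: additivity of the winding number

`F` continuous and nonvanishing on the closed unit disc minus a finite set `P` in the open disc, local winding numbers
`e p`. Induction on `P`: the function `F * (w - p) ^ (- e p)` has winding number zero on a small circle around `p`, so on this
circle it is `exp` of a continuous periodic function of the argument, and `M2_fill` replaces it inside the small disc by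
`exp (‖w - p‖ / ρ * φ (arg (w - p)))`, which is continuous and nonvanishing there.
-/

noncomputable section

namespace Zr

open Filter Topology Set

theorem M2_per_eq {φ : ℝ → ℂ} (hp : ∀ θ, φ (θ + 2 * Real.pi) = φ θ) {a b : ℝ} (h : cis a = cis b) : φ a = φ b := by
  have hp' : Function.Periodic φ (2 * Real.pi) := hp
  obtain ⟨n, hn⟩ := Complex.exp_eq_exp_iff_exists_int.1 (show Complex.exp (a * Complex.I) = Complex.exp (b * Complex.I) from h)
  have h1 : (a : ℂ) = b + n * (2 * Real.pi) := by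
    have h2 : (a : ℂ) * Complex.I = (b + n * (2 * Real.pi)) * Complex.I := by
      rw [hn]
      ring
    exact mul_right_cancel₀ Complex.I_ne_zero h2
  have h3 : a = b + n * (2 * Real.pi) := by
    exact_mod_cast h1
  rw [h3]
  exact hp'.int_mul n b

theorem M2_cis_arg (z : ℂ) : (‖z‖ : ℂ) * cis z.arg = z := Complex.norm_mul_exp_arg_mul_I z

theorem M2_arg_cont {φ : ℝ → ℂ} (hφ : Continuous φ) (hp : ∀ θ, φ (θ + 2 * Real.pi) = φ θ) {z : ℂ} (hz : z ≠ 0) :
    ContinuousAt (fun w : ℂ => φ w.arg) z := by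
  by_cases hs : z ∈ Complex.slitPlane
  · exact hφ.continuousAt.comp (Complex.continuousAt_arg hs)
  · have hs' : -z ∈ Complex.slitPlane := by
      rw [Complex.mem_slitPlane_iff] at hs ⊢
      push Not at hs
      left
      have h1 : z.re ≠ 0 := fun h => hz (Complex.ext h hs.2)
      have h2 : z.re < 0 := lt_of_le_of_ne hs.1 h1
      simpa using h2
    have h1 : ContinuousAt (fun w : ℂ => φ ((-w).arg + Real.pi)) z := by
      have h2 : ContinuousAt (fun w : ℂ => (-w).arg) z :=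
        ContinuousAt.comp (f := fun w : ℂ => -w) (g := Complex.arg) (Complex.continuousAt_arg hs') continuousAt_neg
      exact hφ.continuousAt.comp (h2.add continuousAt_const)
    refine h1.congr ?_
    filter_upwards [isOpen_compl_singleton.mem_nhds hz] with w hw
    apply M2_per_eq hp
    have hw' : (‖w‖ : ℂ) ≠ 0 := by
      simpa using hw
    have e1 := M2_cis_arg w
    have e2 := M2_cis_arg (-w)
    rw [norm_neg] at e2
    have e3 : cis ((-w).arg + Real.pi) = - cis (-w).arg := by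
      rw [cis_add]
      have : cis Real.pi = -1 := Complex.exp_pi_mul_I
      rw [this]
      ring
    rw [e3]
    apply mul_left_cancel₀ hw'
    rw [e1]
    linear_combination -e2

theorem M2_bdd {φ : ℝ → ℂ} (hφ : Continuous φ) : ∃ C : ℝ, ∀ z : ℂ, ‖φ z.arg‖ ≤ C := by
  obtain ⟨C, hC⟩ := (isCompact_Icc (a := -Real.pi) (b := Real.pi)).exists_bound_of_continuousOn hφ.continuousOn
  exact ⟨C, fun z => hC _ ⟨(Complex.neg_pi_lt_arg z).le, Complex.arg_le_pi z⟩⟩

theorem M2_ext {φ : ℝ → ℂ} (hφ : Continuous φ) (hp : ∀ θ, φ (θ + 2 * Real.pi) = φ θ) :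
    Continuous (fun w : ℂ => (‖w‖ : ℂ) * φ w.arg) := by
  rw [continuous_iff_continuousAt]
  intro z
  by_cases hz : z = 0
  · subst hz
    obtain ⟨C, hC⟩ := M2_bdd hφ
    have hz0 : ((‖(0:ℂ)‖ : ℝ) : ℂ) * φ (Complex.arg 0) = 0 := by
      rw [norm_zero, Complex.ofReal_zero, zero_mul]
    show Tendsto (fun w : ℂ => (‖w‖ : ℂ) * φ w.arg) (𝓝 0) (𝓝 (((‖(0:ℂ)‖ : ℝ) : ℂ) * φ (Complex.arg 0)))
    rw [hz0]
    apply squeeze_zero_norm (a := fun w : ℂ => ‖w‖ * C)
    · intro w
      rw [norm_mul, Complex.norm_real, norm_norm]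
      exact mul_le_mul_of_nonneg_left (hC w) (norm_nonneg _)
    · have : Tendsto (fun w : ℂ => ‖w‖ * C) (𝓝 0) (𝓝 (‖(0:ℂ)‖ * C)) := by
        have h1 : Continuous (fun w : ℂ => ‖w‖ * C) := by fun_prop
        exact h1.tendsto 0
      simpa using this
  · exact ContinuousAt.mul (by fun_prop) (M2_arg_cont hφ hp hz)

/-- filling a puncture with local winding number zero -/
theorem M2_fill {G : ℂ → ℂ} {S : Set ℂ} {p : ℂ} {ρ : ℝ} (hρ : 0 < ρ)
    (hG : ContinuousOn G (S \ {p})) (h0 : ∀ w ∈ S, w ≠ p → G w ≠ 0)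
    (hw : Wd (fun θ => G (p + ρ * cis θ)) 0) :
    ∃ G' : ℂ → ℂ, ContinuousOn G' S ∧ (∀ w ∈ S, G' w ≠ 0) ∧ ∀ w, ρ ≤ ‖w - p‖ → G' w = G w := by
  obtain ⟨φ, h1, h2, h3⟩ := hw
  have hp : ∀ θ, φ (θ + 2 * Real.pi) = φ θ := by
    intro θ
    rw [h3 θ]
    simp
  have hc := M2_ext h1 hp
  have hc' : Continuous (fun w : ℂ => Complex.exp ((ρ : ℂ)⁻¹ * ((‖w - p‖ : ℂ) * φ (w - p).arg))) := by
    have : Continuous (fun w : ℂ => ((‖w - p‖ : ℂ) * φ (w - p).arg)) := hc.comp (continuous_id.sub continuous_const)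
    exact Complex.continuous_exp.comp (continuous_const.mul this)
  classical
  refine ⟨fun w => if ‖w - p‖ < ρ then Complex.exp ((ρ : ℂ)⁻¹ * ((‖w - p‖ : ℂ) * φ (w - p).arg)) else G w, ?_, ?_, ?_⟩
  · have hcl : {w : ℂ | ¬ ‖w - p‖ < ρ} = {w : ℂ | ρ ≤ ‖w - p‖} := by
      ext w
      simp
    have hclosed : IsClosed {w : ℂ | ρ ≤ ‖w - p‖} := isClosed_le (by fun_prop) (by fun_prop)
    have hclosed' : IsClosed {w : ℂ | ‖w - p‖ ≤ ρ} := isClosed_le (by fun_prop) (by fun_prop)
    have hcs : closure {w : ℂ | ‖w - p‖ < ρ} ⊆ {w : ℂ | ‖w - p‖ ≤ ρ} :=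
      closure_minimal (fun w (hw : ‖w - p‖ < ρ) => hw.le) hclosed'
    refine ContinuousOn.if ?_ hc'.continuousOn ?_
    · rintro w ⟨hwS, hwf⟩
      have hw1 : ‖w - p‖ ≤ ρ := hcs (frontier_subset_closure hwf)
      have hw2 : ρ ≤ ‖w - p‖ := by
        have := (frontier_compl {w : ℂ | ‖w - p‖ < ρ}).symm ▸ hwf
        have h4 := frontier_subset_closure this
        have h5 : ({w : ℂ | ‖w - p‖ < ρ})ᶜ = {w : ℂ | ρ ≤ ‖w - p‖} := by
          ext w
          simp
        rw [h5, hclosed.closure_eq] at h4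
        exact h4
      have hw3 : ‖w - p‖ = ρ := le_antisymm hw1 hw2
      have hρ' : (ρ : ℂ) ≠ 0 := by exact_mod_cast hρ.ne'
      rw [hw3, ← mul_assoc, inv_mul_cancel₀ hρ', one_mul, h2]
      have := M2_cis_arg (w - p)
      rw [hw3] at this
      show G (p + ρ * cis (w - p).arg) = G w
      rw [this]
      congr 1
      ring
    · rw [hcl, hclosed.closure_eq]
      refine hG.mono ?_
      rintro w ⟨hwS, hw⟩
      refine ⟨hwS, ?_⟩
      rintro rfl
      have hw' : ρ ≤ ‖w - w‖ := hw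
      rw [sub_self, norm_zero] at hw'
      linarith
  · intro w hwS
    simp only
    split_ifs with hlt
    · exact Complex.exp_ne_zero _
    · refine h0 w hwS ?_
      rintro rfl
      rw [sub_self, norm_zero] at hlt
      exact hlt hρ
  · intro w hw
    simp only
    rw [if_neg (not_lt.2 hw)]

theorem M2_wd_shift {a : ℂ} {ρ : ℝ} (hρ : 0 ≤ ρ) (h : ρ < ‖a‖) : Wd (fun θ => a + ρ * cis θ) 0 := by
  have ha : a ≠ 0 := by
    rintro rfl
    rw [norm_zero] at h
    linarith
  have hc := cis_cont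
  refine Wd.close (Wd.const ha) (by fun_prop) (fun θ => by rw [cis_per]) (fun θ => ?_)
  have : a + ρ * cis θ - a = ρ * cis θ := by ring
  rw [this, norm_mul, cis_norm, mul_one, Complex.norm_real, Real.norm_eq_abs, abs_of_nonneg hρ]
  exact h

theorem M2_ne_zero_wd {ρ : ℝ} (hρ : 0 < ρ) : Wd (fun θ => (ρ : ℂ) * cis θ) 1 := by
  have h := (Wd.const (a := (ρ : ℂ)) (by exact_mod_cast hρ.ne')).mul Wd.cis
  simpa using h

theorem M2_main (e : ℂ → ℤ) (P : Finset ℂ) : ∀ F : ℂ → ℂ, (∀ p ∈ P, ‖p‖ < 1) →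
    ContinuousOn F (Metric.closedBall 0 1 \ P) →
    (∀ w ∈ Metric.closedBall (0:ℂ) 1, w ∉ P → F w ≠ 0) →
    (∀ p ∈ P, ∀ᶠ ρ : ℝ in 𝓝[>] 0, Wd (fun θ => F (p + ρ * cis θ)) (e p)) →
    Wd (fun θ => F (cis θ)) (∑ p ∈ P, e p) := by
  classical
  induction P using Finset.induction_on with
  | empty =>
    intro F _ hF h0 _
    rw [Finset.sum_empty]
    refine Wd.disc (by simpa using hF) (fun w hw => h0 w hw (Finset.notMem_empty w))
  | insert p Q hpQ ih =>
    intro F hP hF h0 he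
    have hp1 : ‖p‖ < 1 := hP p (Finset.mem_insert_self p Q)
    -- the radius
    have ev1 : ∀ᶠ ρ : ℝ in 𝓝[>] 0, ρ < 1 - ‖p‖ :=
      nhdsWithin_le_nhds (Iio_mem_nhds (show (0:ℝ) < 1 - ‖p‖ by linarith))
    have ev2 : ∀ᶠ ρ : ℝ in 𝓝[>] 0, ∀ q ∈ Q, ρ < ‖q - p‖ := by
      rw [Filter.eventually_all_finset]
      intro q hq
      have hqp : 0 < ‖q - p‖ := by
        rw [norm_pos_iff, sub_ne_zero]
        rintro rfl
        exact hpQ hq
      exact nhdsWithin_le_nhds (Iio_mem_nhds hqp)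
    have ev3 : ∀ᶠ ρ : ℝ in 𝓝[>] 0, (0:ℝ) < ρ := self_mem_nhdsWithin
    obtain ⟨ρ, hρ1, hρ2, hρ, hρw⟩ := (ev1.and (ev2.and (ev3.and (he p (Finset.mem_insert_self p Q))))).exists
    set G : ℂ → ℂ := fun w => F w * (w - p) ^ (-(e p)) with hGdef
    have hSsub : (Metric.closedBall (0:ℂ) 1 \ (Q : Set ℂ)) \ {p} = Metric.closedBall (0:ℂ) 1 \ ((insert p Q : Finset ℂ) : Set ℂ) := by
      ext w
      simp only [Set.mem_sdiff, mem_singleton_iff, Finset.coe_insert, mem_insert_iff, Finset.mem_coe]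
      tauto
    obtain ⟨G', hG'1, hG'2, hG'3⟩ := M2_fill (G := G) (S := Metric.closedBall (0:ℂ) 1 \ (Q : Set ℂ)) (p := p) (ρ := ρ) hρ (by
      rw [hSsub]
      refine hF.mul ?_
      refine ContinuousOn.zpow₀ (by fun_prop) _ ?_
      intro w hw
      left
      rw [sub_ne_zero]
      rintro rfl
      exact hw.2 (by simp)) (by
      intro w hw hwp
      refine mul_ne_zero (h0 w hw.1 ?_) (zpow_ne_zero _ (sub_ne_zero.2 hwp))
      intro hmem
      rw [Finset.mem_insert] at hmem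
      rcases hmem with h | h
      · exact hwp h
      · exact hw.2 h) (by
      have h1 := hρw.mul ((M2_ne_zero_wd hρ).zpow (-(e p)))
      have h2 : e p + -(e p) * 1 = 0 := by ring
      rw [h2] at h1
      have h3 : (fun θ => G (p + ρ * cis θ)) = fun θ => F (p + ρ * cis θ) * ((ρ : ℂ) * cis θ) ^ (-(e p)) := by
        funext θ
        simp only [hGdef]
        rw [show p + ρ * cis θ - p = ρ * cis θ by ring]
      rw [h3]
      exact h1)
    have hmain := ih G' (fun q hq => hP q (Finset.mem_insert_of_mem hq)) hG'1 (fun w hw hwQ => hG'2 w ⟨hw, hwQ⟩) (by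
      intro q hq
      have hqp := hρ2 q hq
      have ev4 : ∀ᶠ σ : ℝ in 𝓝[>] 0, σ < ‖q - p‖ - ρ :=
        nhdsWithin_le_nhds (Iio_mem_nhds (show (0:ℝ) < ‖q - p‖ - ρ by linarith))
      have ev5 : ∀ᶠ σ : ℝ in 𝓝[>] 0, (0:ℝ) < σ := self_mem_nhdsWithin
      filter_upwards [ev4, ev5, he q (Finset.mem_insert_of_mem hq)] with σ h4 h5 h6
      have h7 := h6.mul ((M2_wd_shift (a := q - p) h5.le (by linarith)).zpow (-(e p)))
      have h8 : e q + -(e p) * 0 = e q := by ring
      rw [h8] at h7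
      have h9 : (fun θ => G' (q + σ * cis θ)) = fun θ => F (q + σ * cis θ) * (q - p + σ * cis θ) ^ (-(e p)) := by
        funext θ
        rw [hG'3]
        · simp only [hGdef]
          rw [show q + σ * cis θ - p = q - p + σ * cis θ by ring]
        · have h10 : q + σ * cis θ - p = (q - p) - (-(σ * cis θ)) := by ring
          rw [h10]
          have h11 := norm_sub_norm_le (q - p) (-(σ * cis θ))
          rw [norm_neg, norm_mul, cis_norm, mul_one, Complex.norm_real, Real.norm_eq_abs, abs_of_pos h5] at h11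
          linarith
      rw [h9]
      exact h7)
    have h12 := hmain.mul ((Wd.cis_sub hp1).zpow (e p))
    have h13 : ∑ q ∈ Q, e q + e p * 1 = ∑ q ∈ insert p Q, e q := by
      rw [Finset.sum_insert hpQ]
      ring
    rw [h13] at h12
    have h14 : (fun θ => F (cis θ)) = fun θ => G' (cis θ) * (cis θ - p) ^ (e p) := by
      funext θ
      have h15 : ρ ≤ ‖cis θ - p‖ := by
        have := norm_sub_norm_le (cis θ) p
        rw [cis_norm] at this
        linarith
      have h16 : cis θ - p ≠ 0 := by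
        rw [← norm_pos_iff]
        linarith
      rw [hG'3 _ h15]
      simp only [hGdef]
      rw [mul_assoc, ← zpow_add₀ h16]
      simp
    rw [h14]
    exact h12

theorem wd_sum {F : ℂ → ℂ} (P : Finset ℂ) (hP : ∀ p ∈ P, ‖p‖ < 1)
    (hF : ContinuousOn F (Metric.closedBall 0 1 \ P))
    (h0 : ∀ w ∈ Metric.closedBall (0:ℂ) 1, w ∉ P → F w ≠ 0) (e : ℂ → ℤ)
    (he : ∀ p ∈ P, ∀ᶠ ρ : ℝ in 𝓝[>] 0, Wd (fun θ => F (p + ρ * cis θ)) (e p)) :
    Wd (fun θ => F (cis θ)) (∑ p ∈ P, e p) :=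
  M2_main e P F hP hF h0 he

end Zr
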