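import Pool.Agent.helper60.Zr.M12b
import Pool.Agent.helper60.Zr.M15

set_option autoImplicit false

/-!
# Zr, module M20: the image of one complex line is near an analytic curve (written by helper60, after helper95's `line_le`)
-/

noncomputable section

namespace Zr

open Filter Topology Set

variable {E : Type*} [NormedAddCommGroup E] [NormedSpace ℂ E]

/-- the complex line through `v` is not contained in the tangent cone of the zeros of `f` at `0` -/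
def Transv (f : E → ℂ) (v : E) : Prop :=
  ∃ κ : ℝ, 0 < κ ∧ ∀ᶠ x in 𝓝 (0 : E), ∀ z : ℂ, z ≠ 0 → ‖x - z • v‖ ≤ κ * ‖z‖ → f x ≠ 0

/-- there is a holomorphic curve `c` through `0`, not contained in the zeros of `g`, such that for arbitrarily small `r` the image under `φ` of the circle
`‖z‖ = r` in the complex line through `v` can be pushed along segments which do not meet the zeros of `g` into the curve `c` -/
def NearCurve (g : E → ℂ) (φ : E → E) (v : E) : Prop :=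
  ∃ c : ℂ → E, AnalyticAt ℂ c 0 ∧ c 0 = 0 ∧ (∀ᶠ w in 𝓝[≠] (0 : ℂ), g (c w) ≠ 0) ∧
    ∀ ε : ℝ, 0 < ε → ∃ r : ℝ, 0 < r ∧ r < ε ∧ ∃ μ : ℂ → ℂ, ContinuousOn μ (Metric.sphere 0 r) ∧
      ∀ z : ℂ, ‖z‖ = r → μ z ≠ 0 ∧ ‖μ z‖ < ε ∧
        ∀ t ∈ Icc (0:ℝ) 1, g (c (μ z) + t • (φ (z • v) - c (μ z))) ≠ 0

theorem Transv.cone {f : E → ℂ} {v : E} (h : Transv f v) : ∃ κ : ℝ, 0 < κ ∧ Cone f v κ := by
  obtain ⟨κ, hκ, h1⟩ := h
  obtain ⟨R, hR, h2⟩ := Metric.eventually_nhds_iff_ball.1 h1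
  refine ⟨κ, hκ, R / (κ + ‖v‖ + 1), by positivity, fun z x hz hzr hx => ?_⟩
  refine h2 x ?_ z (norm_pos_iff.1 hz) hx
  rw [mem_ball_zero_iff]
  rw [lt_div_iff₀ (by positivity)] at hzr
  have h3 : ‖x‖ ≤ ‖x - z • v‖ + ‖z • v‖ := by
    have : x = (x - z • v) + z • v := by abel
    calc ‖x‖ = ‖(x - z • v) + z • v‖ := by rw [← this]
      _ ≤ _ := norm_add_le _ _
  rw [norm_smul] at h3
  nlinarith [norm_nonneg v]

theorem M20_bound {g : E → ℂ} {m : ℕ} {Q : E → ℂ} (hm : Lead g m Q) (hQ : Continuous Q) [FiniteDimensional ℂ E]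
    {c : ℂ → E} (hc : AnalyticAt ℂ c 0) (hc0 : c 0 = 0) :
    ∃ C : ℝ, ∀ᶠ w : ℂ in 𝓝 0, ‖g (c w)‖ ≤ C * ‖w‖ ^ m := by
  obtain ⟨C, hC, r, hr, hap⟩ := hm.approx
  -- `‖Q x‖ ≤ M ‖x‖ ^ m`
  obtain ⟨M, hM0, hM⟩ : ∃ M : ℝ, 0 ≤ M ∧ ∀ x : E, ‖Q x‖ ≤ M * ‖x‖ ^ m := by
    have : ProperSpace E := FiniteDimensional.proper ℂ E
    have hK : IsCompact (Metric.closedBall (0 : E) 1) := isCompact_closedBall 0 1
    obtain ⟨M, hM⟩ := hK.exists_bound_of_continuousOn hQ.continuousOn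
    refine ⟨max M 0, le_max_right _ _, fun x => ?_⟩
    by_cases hx : x = 0
    · subst hx
      by_cases hm0 : m = 0
      · subst hm0
        simp only [pow_zero, mul_one]
        exact (hM 0 (by simp)).trans (le_max_left _ _)
      · have h1 := hm.hom 0 0
        rw [zero_pow hm0, zero_smul, zero_mul] at h1
        rw [h1, norm_zero, norm_zero, zero_pow hm0, mul_zero]
    · have hxn : 0 < ‖x‖ := norm_pos_iff.2 hx
      have e : x = ((‖x‖ : ℝ) : ℂ) • (((‖x‖ : ℝ) : ℂ)⁻¹ • x) := by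
        rw [smul_smul, mul_inv_cancel₀ (by exact_mod_cast hxn.ne'), one_smul]
      have h1 := hm.hom ((‖x‖ : ℝ) : ℂ) (((‖x‖ : ℝ) : ℂ)⁻¹ • x)
      rw [← e] at h1
      rw [h1, norm_mul, norm_pow, Complex.norm_real, norm_norm, mul_comm]
      refine mul_le_mul_of_nonneg_right ?_ (by positivity)
      refine (hM _ ?_).trans (le_max_left _ _)
      rw [mem_closedBall_zero_iff, norm_smul, norm_inv, Complex.norm_real, norm_norm, inv_mul_cancel₀ hxn.ne']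
  -- `‖c w‖ ≤ D ‖w‖`
  obtain ⟨D, hD⟩ : ∃ D : ℝ, ∀ᶠ w : ℂ in 𝓝 0, ‖c w‖ ≤ D * ‖w‖ := by
    have h1 := hc.differentiableAt.isBigO_sub
    simp only [hc0, sub_zero] at h1
    exact h1.bound
  have hcc : Tendsto (fun w : ℂ => ‖c w‖) (𝓝 0) (𝓝 0) := by
    have := hc.continuousAt.norm.tendsto
    simpa [hc0] using this
  refine ⟨(M + C) * (max D 0) ^ m, ?_⟩
  filter_upwards [hD, hcc.eventually (gt_mem_nhds (lt_min one_pos hr))] with w hw hw2
  have hc1 : ‖c w‖ < 1 := lt_of_lt_of_le hw2 (min_le_left _ _)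
  have h3 := hap _ (lt_of_lt_of_le hw2 (min_le_right _ _))
  have h4 : ‖g (c w)‖ ≤ ‖Q (c w)‖ + C * ‖c w‖ ^ (m + 1) := by
    have e : g (c w) = Q (c w) + (g (c w) - Q (c w)) := by ring
    calc ‖g (c w)‖ = ‖Q (c w) + (g (c w) - Q (c w))‖ := by rw [← e]
      _ ≤ ‖Q (c w)‖ + ‖g (c w) - Q (c w)‖ := norm_add_le _ _
      _ ≤ _ := by linarith
  have h5 : ‖c w‖ ^ (m + 1) ≤ ‖c w‖ ^ m := pow_le_pow_of_le_one (norm_nonneg _) hc1.le (Nat.le_succ _)
  have h6 : ‖g (c w)‖ ≤ (M + C) * ‖c w‖ ^ m := by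
    have := hM (c w)
    have h7 : C * ‖c w‖ ^ (m + 1) ≤ C * ‖c w‖ ^ m := mul_le_mul_of_nonneg_left h5 hC.le
    linarith
  have h8 : ‖c w‖ ≤ max D 0 * ‖w‖ := hw.trans (mul_le_mul_of_nonneg_right (le_max_left _ _) (norm_nonneg _))
  have h9 : ‖c w‖ ^ m ≤ (max D 0 * ‖w‖) ^ m := pow_le_pow_left₀ (norm_nonneg _) h8 m
  calc ‖g (c w)‖ ≤ (M + C) * ‖c w‖ ^ m := h6
    _ ≤ (M + C) * (max D 0 * ‖w‖) ^ m := mul_le_mul_of_nonneg_left h9 (by linarith)
    _ = _ := by rw [mul_pow]; ring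

variable [FiniteDimensional ℂ E]

theorem curve_le {f g : E → ℂ} {φ ψ : E → E} {V W : Set E} (hf : Red f) (hg : Red g) (h : Equ f g φ ψ V W) {k m : ℕ}
    {P Q : E → ℂ} (hk : Lead f k P) (hm : Lead g m Q) {v : E} (hT : Transv f v) (H : NearCurve g φ v) : m ≤ k := by
  have hcis := cis_cont
  obtain ⟨κ, hκ, hcone⟩ := hT.cone
  have hv := cone_lead hf.1 hf.2.1 hk hκ hcone
  obtain ⟨B, h0B, hB⟩ := h.pair hf hg
  obtain ⟨B', h0B', hB'⟩ := h.symm.pair hg hf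
  obtain ⟨c, hc, hc0, hcg, H⟩ := H
  obtain ⟨R2, hR2, hbB⟩ := Metric.isOpen_iff.1 hB.isOpen 0 h0B
  -- the radius `R`
  obtain ⟨R, hR, hRc⟩ : ∃ R : ℝ, 0 < R ∧ ∀ w : ℂ, ‖w‖ < R → AnalyticAt ℂ c w ∧ ‖c w‖ < R2 / 2 ∧
      (w ≠ 0 → g (c w) ≠ 0) := by
    have hcc : Tendsto (fun w : ℂ => ‖c w‖) (𝓝 0) (𝓝 0) := by
      have := hc.continuousAt.norm.tendsto
      simpa [hc0] using this
    rw [eventually_nhdsWithin_iff] at hcg
    have h1 := hc.eventually_analyticAt.and ((hcc.eventually (gt_mem_nhds (half_pos hR2))).and hcg)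
    obtain ⟨R, hR, h2⟩ := Metric.eventually_nhds_iff_ball.1 h1
    exact ⟨R, hR, fun w hw => h2 w (mem_ball_zero_iff.2 hw)⟩
  have hwB : ∀ w : ℂ, ‖w‖ < R → c w ∈ B := by
    intro w hw
    refine hbB ?_
    rw [mem_ball_zero_iff]
    linarith [(hRc w hw).2.1]
  have hgw : ∀ w : ℂ, 0 < ‖w‖ → ‖w‖ < R → g (c w) ≠ 0 := fun w hw0 hwR =>
    (hRc w hwR).2.2 (norm_pos_iff.1 hw0)
  -- the radius `r`
  have hφ0 : ContinuousAt φ 0 := h.cφ.continuousAt h.hV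
  have hO1 : {x : E | ‖φ x‖ < R2 / 2} ∈ 𝓝 (0:E) := by
    have h1 : ContinuousAt (fun x => ‖φ x‖) 0 := hφ0.norm
    have h3 : ‖φ 0‖ < R2 / 2 := by
      rw [h.z0, norm_zero]
      positivity
    exact h1.eventually (gt_mem_nhds h3)
  have hev1 := lead_wd hf.1 hk hv
  have hev2 := M4_ev (u := v) hO1
  have hev3 : ∀ᶠ r : ℝ in 𝓝[>] 0, ∀ w : ℂ, ‖w‖ ≤ 1 → (0:E) + w • ((r : ℂ) • v) ∈ B' := by
    obtain ⟨δ, hδ, hbδ⟩ := Metric.isOpen_iff.1 hB'.isOpen 0 h0B'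
    have hv1 : 0 < ‖v‖ + 1 := by positivity
    have h1 : ∀ᶠ ρ : ℝ in 𝓝[>] 0, ρ ∈ Ioo (0:ℝ) (δ / (‖v‖ + 1)) := Ioo_mem_nhdsGT (by positivity)
    filter_upwards [h1] with ρ hρ w hw
    refine hbδ ?_
    rw [zero_add, mem_ball_zero_iff, norm_smul, norm_smul, Complex.norm_real, Real.norm_eq_abs,
      abs_of_pos hρ.1]
    have h2 := (lt_div_iff₀ hv1).1 hρ.2
    have h3 : ‖w‖ * (ρ * ‖v‖) ≤ 1 * (ρ * ‖v‖) :=
      mul_le_mul_of_nonneg_right hw (mul_nonneg hρ.1.le (norm_nonneg _))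
    nlinarith [hρ.1]
  obtain ⟨ε, hε, hεs⟩ := mem_nhdsGT_iff_exists_Ioo_subset.1 (hev1.and (hev2.and hev3))
  obtain ⟨r, hr, hrε, μ', hμ'c, hμ'⟩ := H (min ε R) (lt_min hε hR)
  obtain ⟨hw1, hw2, hw3⟩ := hεs ⟨hr, lt_of_lt_of_le hrε (min_le_left _ _)⟩
  have hzn : ∀ θ : ℝ, ‖(r * cis θ : ℂ)‖ = r := by
    intro θ
    rw [norm_mul, cis_norm, mul_one, Complex.norm_real, Real.norm_eq_abs, abs_of_pos hr]
  have hsm : ∀ θ : ℝ, ((r * cis θ : ℂ)) • v = (0:E) + cis θ • ((r : ℂ) • v) := by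
    intro θ
    rw [zero_add, smul_smul, mul_comm]
  have hmB' : ∀ θ : ℝ, ((r * cis θ : ℂ)) • v ∈ B' := by
    intro θ
    rw [hsm]
    exact hw3 _ (cis_norm θ).le
  set γ : ℝ → E := fun θ => φ (((r * cis θ : ℂ)) • v) with hγ
  have hγc : Continuous γ := by
    rw [continuous_iff_continuousAt]
    intro θ
    have hc : Continuous (fun θ : ℝ => ((r * cis θ : ℂ)) • v) := by fun_prop
    exact ContinuousAt.comp (g := φ) (f := fun θ : ℝ => ((r * cis θ : ℂ)) • v)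
      (hB'.ψ_cont _ (hmB' θ)) hc.continuousAt
  have hγp : ∀ θ, γ (θ + 2 * Real.pi) = γ θ := by
    intro θ
    simp only [hγ]
    rw [cis_per]
  have hγn : ∀ θ, ‖γ θ‖ < R2 / 2 := by
    intro θ
    have := hw2 θ
    rw [zero_add] at this
    exact this
  set μ : ℝ → ℂ := fun θ => μ' (r * cis θ) with hμ
  have hμc : Continuous μ := by
    refine hμ'c.comp_continuous (by fun_prop) (fun θ => ?_)
    rw [mem_sphere_zero_iff_norm]
    exact hzn θ
  have hμp : ∀ θ, μ (θ + 2 * Real.pi) = μ θ := by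
    intro θ
    simp only [hμ]
    rw [cis_per]
  have hμn : ∀ θ, μ θ ≠ 0 ∧ ‖μ θ‖ < R := fun θ =>
    ⟨(hμ' _ (hzn θ)).1, lt_of_lt_of_le (hμ' _ (hzn θ)).2.1 (min_le_right _ _)⟩
  have hμcc : Continuous fun θ => c (μ θ) := by
    rw [continuous_iff_continuousAt]
    intro θ
    exact ContinuousAt.comp (g := c) (f := μ) (hRc _ (hμn θ).2).1.continuousAt hμc.continuousAt
  obtain ⟨j, hj⟩ := Wd.ex (c := μ) hμc (fun θ => (hμn θ).1) hμp
  -- the homotopy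
  have hX : ∀ t ∈ Icc (0:ℝ) 1, ∀ θ : ℝ,
      c (μ θ) + (t : ℂ) • (γ θ - c (μ θ)) ∈ B ∧ g (c (μ θ) + (t : ℂ) • (γ θ - c (μ θ))) ≠ 0 := by
    intro t ht θ
    have e2 : ‖(t : ℂ)‖ = t := by rw [Complex.norm_real, Real.norm_eq_abs, abs_of_nonneg ht.1]
    constructor
    · refine hbB ?_
      rw [mem_ball_zero_iff]
      have e3 : c (μ θ) + (t : ℂ) • (γ θ - c (μ θ)) = ((1 - t : ℝ) : ℂ) • c (μ θ) + (t : ℂ) • γ θ := by
        push_cast
        module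
      rw [e3]
      refine lt_of_le_of_lt (norm_add_le _ _) ?_
      rw [norm_smul, norm_smul, e2, Complex.norm_real, Real.norm_eq_abs,
        abs_of_nonneg (by linarith [ht.2] : 0 ≤ 1 - t)]
      have h2 : (1 - t) * ‖c (μ θ)‖ ≤ (1 - t) * (R2 / 2) :=
        mul_le_mul_of_nonneg_left (hRc _ (hμn θ).2).2.1.le (by linarith [ht.2])
      have h3 : t * ‖γ θ‖ ≤ t * (R2 / 2) := mul_le_mul_of_nonneg_left (hγn θ).le ht.1
      nlinarith
    · have h1 := (hμ' _ (hzn θ)).2.2 t ht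
      rw [← Complex.coe_smul] at h1
      exact h1
  have hXc : Continuous (fun p : ℝ × ℝ => c (μ p.1) + (p.2 : ℂ) • (γ p.1 - c (μ p.1))) := by
    have h1 : Continuous fun p : ℝ × ℝ => c (μ p.1) := hμcc.comp continuous_fst
    have h2 : Continuous fun p : ℝ × ℝ => γ p.1 := hγc.comp continuous_fst
    exact h1.add ((Complex.continuous_ofReal.comp continuous_snd).smul (h2.sub h1))
  have move : ∀ (F : E → ℂ) (N : ℤ), (∀ y ∈ B, ContinuousAt F y) → (∀ y ∈ B, g y ≠ 0 → F y ≠ 0) →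
      Wd (fun θ => F (c (μ θ))) N → Wd (fun θ => F (γ θ)) N := by
    intro F N hF hF0 hN
    have := Wd.htpy (H := fun θ t => F (c (μ θ) + (t : ℂ) • (γ θ - c (μ θ)))) (k := N) (by
        intro p hp
        exact (ContinuousAt.comp (g := F) (f := fun p : ℝ × ℝ => c (μ p.1) + (p.2 : ℂ) • (γ p.1 - c (μ p.1)))
          (hF _ (hX p.2 hp.2 p.1).1) hXc.continuousAt).continuousWithinAt)
      (by
        intro t ht θ
        exact hF0 _ (hX t ht θ).1 (hX t ht θ).2)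
      (by
        intro t ht θ
        rw [hγp, hμp])
      (by simpa using hN)
    simpa using this
  -- winding numbers on small circles of the curve
  have hfψ : ∀ y ∈ B, ContinuousAt (fun y => f (ψ y)) y := fun y hy =>
    ContinuousAt.comp (g := f) (f := ψ) (hB.f_an y hy).continuousAt (hB.ψ_cont y hy)
  have hfψ0 : ∀ y ∈ B, g y ≠ 0 → f (ψ y) ≠ 0 := fun y hy hgy hcon => hgy ((hB.zs y hy).1 hcon)
  have hgc : ∀ y ∈ B, ContinuousAt g y := fun y hy => (hB.g_an y hy).continuousAt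
  have hcirc : ∀ θ : ℝ, ‖((R / 2 : ℝ) * cis θ : ℂ)‖ = R / 2 := by
    intro θ
    rw [norm_mul, cis_norm, mul_one, Complex.norm_real, Real.norm_eq_abs, abs_of_pos (by positivity)]
  have line : ∀ F : E → ℂ, (∀ y ∈ B, ContinuousAt F y) → (∀ y ∈ B, g y ≠ 0 → F y ≠ 0) →
      ∃ G : ℤ, Wd (fun θ => F (c (((R / 2 : ℝ) : ℂ) * cis θ))) G ∧ Wd (fun θ => F (γ θ)) (j * G) := by
    intro F hF hF0
    have hHc : ∀ w : ℂ, 0 < ‖w‖ → ‖w‖ < R → ContinuousAt (fun w : ℂ => F (c w)) w := by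
      intro w _ hwR
      exact ContinuousAt.comp (g := F) (f := c) (hF _ (hwB w hwR)) (hRc w hwR).1.continuousAt
    have hH0 : ∀ w : ℂ, 0 < ‖w‖ → ‖w‖ < R → F (c w) ≠ 0 := fun w h1 h2 =>
      hF0 _ (hwB w h2) (hgw w h1 h2)
    obtain ⟨G, hG⟩ := Wd.ex (c := fun θ => F (c (((R / 2 : ℝ) : ℂ) * cis θ))) (by
        rw [continuous_iff_continuousAt]
        intro θ
        have hc : Continuous (fun θ : ℝ => (((R / 2 : ℝ) : ℂ) * cis θ)) := by fun_prop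
        exact ContinuousAt.comp (g := fun w : ℂ => F (c w)) (f := fun θ : ℝ => (((R / 2 : ℝ) : ℂ) * cis θ))
          (hHc _ (by rw [hcirc]; positivity) (by rw [hcirc]; linarith)) hc.continuousAt)
      (fun θ => hH0 _ (by rw [hcirc]; positivity) (by rw [hcirc]; linarith))
      (by
        intro θ
        rw [cis_per])
    refine ⟨G, hG, move F _ hF hF0 ?_⟩
    exact punctured (H := fun w : ℂ => F (c w)) hHc hH0 (ρ := R / 2) (by positivity) (by linarith) hj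
      (fun θ => (hμn θ).2) hG
  obtain ⟨G, hG1, hG2⟩ := line g hgc (fun _ _ h => h)
  obtain ⟨q, hq1, hq2⟩ := line (fun y => f (ψ y)) hfψ hfψ0
  -- `k = j q`
  have hk1 : 1 ≤ k := hk.one_le hf.2.1
  have hkq : (k : ℤ) = j * q := by
    refine hw1.uniq ?_
    have e1 : (fun θ => f (ψ (γ θ))) = fun θ => f (((r * cis θ : ℂ)) • v) := by
      funext θ
      rw [hγ, hB'.φψ _ (hmB' θ)]
    rw [← e1]
    exact hq2
  have hj0 : j ≠ 0 := by
    intro hj0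
    rw [hj0, zero_mul] at hkq
    have : k = 0 := by exact_mod_cast hkq
    omega
  have hj1 : 1 ≤ |j| := Int.one_le_abs hj0
  -- `m ≤ G`
  have hmG : (m : ℤ) ≤ G := by
    obtain ⟨C, hC⟩ := M20_bound hm hm.diff.continuous hc hc0
    have hsc : ∀ z : ℂ, ‖z‖ ≤ 1 → ‖z * ((R / 2 : ℝ) : ℂ)‖ < R := by
      intro z hz
      rw [norm_mul, Complex.norm_real, Real.norm_eq_abs, abs_of_pos (by positivity)]
      nlinarith
    have hT0 : Tendsto (fun z : ℂ => z * ((R / 2 : ℝ) : ℂ)) (𝓝 0) (𝓝 0) := by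
      have : Continuous (fun z : ℂ => z * ((R / 2 : ℝ) : ℂ)) := by fun_prop
      have := this.tendsto 0
      simpa using this
    refine M10_core (h := fun z : ℂ => g (c (z * ((R / 2 : ℝ) : ℂ)))) (C := C * (R / 2) ^ m) ?_ ?_ ?_
    · intro z hz
      have h1 : AnalyticAt ℂ (fun z : ℂ => z * ((R / 2 : ℝ) : ℂ)) z := by fun_prop
      have h2 : AnalyticAt ℂ (fun z : ℂ => c (z * ((R / 2 : ℝ) : ℂ))) z :=
        AnalyticAt.fun_comp (g := c) (f := fun z : ℂ => z * ((R / 2 : ℝ) : ℂ)) (hRc _ (hsc z hz)).1 h1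
      exact AnalyticAt.fun_comp (g := g) (f := fun z : ℂ => c (z * ((R / 2 : ℝ) : ℂ)))
        (hB.g_an _ (hwB _ (hsc z hz))) h2
    · have e1 : (fun θ => g (c (cis θ * ((R / 2 : ℝ) : ℂ)))) =
          fun θ => g (c (((R / 2 : ℝ) : ℂ) * cis θ)) := by
        funext θ
        rw [mul_comm]
      show Wd (fun θ => g (c (cis θ * ((R / 2 : ℝ) : ℂ)))) G
      rw [e1]
      exact hG1
    · filter_upwards [hT0.eventually hC] with z hz
      refine hz.trans (le_of_eq ?_)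
      rw [norm_mul, Complex.norm_real, Real.norm_eq_abs, abs_of_pos (by positivity), mul_pow]
      ring
  -- `|j G| ≤ k`
  have hle : |j * G| ≤ k := by
    refine disc_le hB' (x := 0) (v := (r : ℂ) • v) hw3 ?_ ?_ ?_
    · intro w hw
      obtain ⟨θ, rfl⟩ := exists_cis hw
      rw [← hsm]
      exact hw1.ne θ
    · have e1 : (fun θ => f (0 + cis θ • ((r : ℂ) • v))) = fun θ => f (((r * cis θ : ℂ)) • v) := by
        funext θ
        rw [hsm]
      rw [e1]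
      exact hw1
    · have e1 : (fun θ => g (φ (0 + cis θ • ((r : ℂ) • v)))) = fun θ => g (γ θ) := by
        funext θ
        rw [← hsm]
      rw [e1]
      exact hG2
  have hG0 : 0 ≤ G := le_trans (by positivity) hmG
  rw [abs_mul, abs_of_nonneg hG0] at hle
  have : G ≤ |j| * G := by nlinarith
  have hfin : (m : ℤ) ≤ k := by linarith
  exact_mod_cast hfin

end Zr
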