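import Pool.Agent.helper60.Zr.M11
import Pool.Agent.helper60.Zr.M14
import Pool.Agent.helper60.Zr.M18

set_option autoImplicit false

/-!
# Zr, module M21: the complex direction of `Φ x` is almost that of `A x`, `A` real linear

`cdir_le` (`m ≤ k`, `k = ν(f)`, `m = ν(g)`). `m, k ≥ 1` (`Lead.one_le`). `w`, `‖w‖ = 1`, from `kappa` (M6) for `g`; `κ` with `10 Λ δ < κ`, `4 m κ < 1`, so `κ < 1/4`, `δ < 1/40`; `r0` from `kappa`: `g y ≠ 0` if `‖y - z • w‖ ≤ κ ‖z‖`,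
`0 < ‖z‖ < r0`. `d = (κ - 2 δ) / Λ ≥ 8 δ`, `d ≤ 1`. `l` a complex linear functional, `‖l‖ = 1`, `l w = 1` (`exists_dual_vector`). Write `A⁻¹ = A.symm`: `‖y‖ / Λ ≤ ‖A⁻¹ y‖ ≤ ‖y‖`.
(1) For small `x` and `z ≠ 0`: `‖x - A⁻¹ (z • w)‖ < d ‖z‖` implies `f x ≠ 0`: `φ x = τ • (A x + e)`, `‖e‖ ≤ δ ‖x‖ ≤ 2 δ ‖z‖` (`‖x‖ ≤ (1 + d) ‖z‖`), `‖φ x - (τ * z) • w‖ ≤ ‖τ‖ (Λ d + 2 δ) ‖z‖ = κ ‖τ * z‖`, and `(1 - κ) ‖τ * z‖ ≤ ‖φ x‖`, so
`‖τ * z‖ < r0` for small `x`. So `g (φ x) ≠ 0`, `f x ≠ 0` (`h.zs`, `x ∈ V`).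
(2) `B'` from `h.symm.pair hg hf : Pair g f ψ φ B'`. `core2` for it (`Lead f k P`, `c = d / 2`): for small `ρ` the ellipse `β θ = A⁻¹ ((ρ cis θ) • w) = cis θ • a + cis (-θ) • b` (`M9_ell`, `M9_ell_norm` for `A.symm`, `L = 1`: `0 < ‖a‖ + ‖b‖ ≤ 2 ρ`) and
any winding number `K` of `θ ↦ g (φ (β θ))`: `|K| ≤ k`. `K` exists (`Wd.ex`; `g (φ (β θ)) ≠ 0` by (1)).
(3) `K ≠ 0`. For small `r`: `g` has winding number `m` on `(r cis θ) • w` (`lead_wd`). `x θ = ψ ((r cis θ) • w)`, continuous, small, `φ (x θ) = (r cis θ) • w = τ • (A x + e)`, `‖e‖ ≤ δ ‖x‖`. `z' θ = l (A (x θ))` is continuous; `A x = u • w - e`, `u = r cis θ / τ`, so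
`‖A x - z' • w‖ ≤ 2 δ ‖x‖`, `‖x - A⁻¹ (z' • w)‖ ≤ 2 δ ‖x‖`, `(1 - 2 δ) ‖x‖ ≤ ‖z'‖`, `z' ≠ 0`, `‖x - A⁻¹ (z' • w)‖ ≤ 4 δ ‖z'‖ < d ‖z'‖` (if `δ = 0` both sides: `0 < d ‖z'‖`). The segment from `x θ` to `A⁻¹ (z' • w)` is in the set of (1) (same `z'`), so (`Wd.htpy`)
`m` is the winding number of `θ ↦ H (z' θ)`, `H z = g (φ (A⁻¹ (z • w)))`, continuous and nonvanishing for `0 < ‖z‖ < R`; `punctured` (M14): `m = j' K`, so `K ≠ 0`.
(4) `m ∣ K`: `y θ = φ (β θ) = τ • ((ρ cis θ) • w + e)`, `‖e‖ ≤ δ ‖β θ‖ ≤ δ ρ`, `μ θ = l (y θ)`; `‖y - μ • w‖ ≤ 2 δ ρ ‖τ‖`, `‖μ‖ ≥ (1 - δ) ρ ‖τ‖`, so `‖y - μ • w‖ ≤ 3 δ ‖μ‖ ≤ κ ‖μ‖`, `μ ≠ 0`; the segment from `y θ` to `μ θ • w` is in the cone where `g ≠ 0`;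
`punctured` with `H z = g (z • w)`, winding number `m` on small circles (`lead_wd`): `K = j'' m`.
So `m ≤ |K| ≤ k`.
`cdir_family`: as `family` (M11): `red_lead`, `semicont` (M10): `ν(F t) ≤ ν(F s)` for `t` near `s`, and `ν(F s) ≤ ν(F t)` by `cdir_le` with `f = F t`, `g = F s`, `δ` with `40 Λ δ ν(F s) < 1`.
-/

noncomputable section

namespace Zr

open Filter Topology Set

variable {E : Type*} [NormedAddCommGroup E] [NormedSpace ℂ E]

/-- near `0`, the complex direction of `φ x` is almost the complex direction of `A x` -/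
def CDir (φ : E → E) (A : E ≃ₗ[ℝ] E) (δ : ℝ) : Prop :=
  ∀ᶠ x in 𝓝 (0 : E), ∃ τ : ℂ, τ ≠ 0 ∧ ‖φ x - τ • A x‖ ≤ δ * (‖τ‖ * ‖x‖)

/-- the projection along the kernel of a functional of norm one -/
theorem M21_proj {l : E →L[ℂ] ℂ} {w : E} (hl : ‖l‖ = 1) (hw : ‖w‖ = 1) (hlw : l w = 1) {u : ℂ} {y : E} {η : ℝ}
    (h : ‖y - u • w‖ ≤ η) : ‖y - l y • w‖ ≤ 2 * η ∧ ‖u‖ - η ≤ ‖l y‖ ∧ ‖l y‖ ≤ ‖y‖ := by
  have hle : ∀ e : E, ‖l e‖ ≤ ‖e‖ := by
    intro e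
    have := l.le_opNorm e
    rwa [hl, one_mul] at this
  have h1 : l (y - u • w) = l y - u := by
    rw [map_sub, map_smul, hlw, smul_eq_mul, mul_one]
  have h2 := hle (y - u • w)
  rw [h1] at h2
  refine ⟨?_, ?_, hle y⟩
  · have e1 : y - l y • w = (y - u • w) - (l y - u) • w := by module
    rw [e1]
    refine (norm_sub_le _ _).trans ?_
    rw [norm_smul, hw, mul_one]
    linarith
  · have h3 : ‖u‖ ≤ ‖l y‖ + ‖l y - u‖ := by
      have e2 : u = l y - (l y - u) := by ring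
      calc ‖u‖ = ‖l y - (l y - u)‖ := by rw [← e2]
        _ ≤ _ := norm_sub_le _ _
    linarith

theorem M21_cont {A : E ≃ₗ[ℝ] E} {Λ : ℝ} (h : ∀ x, ‖A x‖ ≤ Λ * ‖x‖) : Continuous A :=
  AddMonoidHomClass.continuous_of_bound A Λ h

/-- points of a segment -/
theorem M21_seg {x y : E} {t : ℝ} (ht : t ∈ Icc (0:ℝ) 1) :
    ‖x + (t : ℂ) • (y - x) - y‖ ≤ ‖x - y‖ ∧ ‖x + (t : ℂ) • (y - x)‖ ≤ max ‖x‖ ‖y‖ := by
  have n1 : ‖((1 - t : ℝ) : ℂ)‖ = 1 - t := by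
    rw [Complex.norm_real, Real.norm_eq_abs, abs_of_nonneg (by linarith [ht.2])]
  have n2 : ‖(t : ℂ)‖ = t := by
    rw [Complex.norm_real, Real.norm_eq_abs, abs_of_nonneg ht.1]
  constructor
  · have e1 : x + (t : ℂ) • (y - x) - y = ((1 - t : ℝ) : ℂ) • (x - y) := by
      push_cast
      module
    rw [e1, norm_smul, n1]
    have := norm_nonneg (x - y)
    nlinarith [ht.1]
  · have e1 : x + (t : ℂ) • (y - x) = ((1 - t : ℝ) : ℂ) • x + (t : ℂ) • y := by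
      push_cast
      module
    rw [e1]
    refine (norm_add_le _ _).trans ?_
    rw [norm_smul, norm_smul, n1, n2]
    have h1 : (1 - t) * ‖x‖ ≤ (1 - t) * max ‖x‖ ‖y‖ :=
      mul_le_mul_of_nonneg_left (le_max_left _ _) (by linarith [ht.2])
    have h2 : t * ‖y‖ ≤ t * max ‖x‖ ‖y‖ := mul_le_mul_of_nonneg_left (le_max_right _ _) ht.1
    linarith

/-- homotopy along segments -/
theorem M21_move {G : E → ℂ} {x y : ℝ → E} (hx : Continuous x) (hy : Continuous y)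
    (hxp : ∀ θ, x (θ + 2 * Real.pi) = x θ) (hyp : ∀ θ, y (θ + 2 * Real.pi) = y θ)
    (h : ∀ t ∈ Icc (0:ℝ) 1, ∀ θ, ContinuousAt G (x θ + (t : ℂ) • (y θ - x θ)) ∧ G (x θ + (t : ℂ) • (y θ - x θ)) ≠ 0)
    {K : ℤ} (hK : Wd (fun θ => G (x θ)) K) : Wd (fun θ => G (y θ)) K := by
  have hc : Continuous fun p : ℝ × ℝ => x p.1 + (p.2 : ℂ) • (y p.1 - x p.1) := by fun_prop
  have := Wd.htpy (H := fun θ t => G (x θ + (t : ℂ) • (y θ - x θ))) (k := K)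
    (fun p hp => (ContinuousAt.comp (g := G) (f := fun p : ℝ × ℝ => x p.1 + (p.2 : ℂ) • (y p.1 - x p.1))
      (h p.2 hp.2 p.1).1 hc.continuousAt).continuousWithinAt)
    (fun t ht θ => (h t ht θ).2)
    (fun t ht θ => by simp only [hxp, hyp])
    (by simpa using hK)
  simpa using this

variable [FiniteDimensional ℂ E]

theorem cdir_le {f g : E → ℂ} {φ ψ : E → E} {V W : Set E} (hf : Red f) (hg : Red g) (h : Equ f g φ ψ V W) {k m : ℕ}
    {P Q : E → ℂ} (hk : Lead f k P) (hm : Lead g m Q) {A : E ≃ₗ[ℝ] E} {Λ δ : ℝ} (hΛ : 1 ≤ Λ)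
    (hA : ∀ x, ‖x‖ ≤ ‖A x‖ ∧ ‖A x‖ ≤ Λ * ‖x‖) (hδ : 0 ≤ δ) (h1 : 40 * Λ * δ * m < 1) (hd : CDir φ A δ) : m ≤ k := by
  have hcis := cis_cont
  have hk1 : 1 ≤ k := hk.one_le hf.2.1
  have hm1 : 1 ≤ m := hm.one_le hg.2.1
  have hmR : (1:ℝ) ≤ m := by exact_mod_cast hm1
  have hm0 : (0:ℝ) < m := by linarith
  have hΛ0 : 0 < Λ := by linarith
  obtain ⟨w, hw, hQw, hkap⟩ := kappa hm hm1
  -- the constants
  have hΛδ : 0 ≤ Λ * δ := mul_nonneg hΛ0.le hδ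
  obtain ⟨κ, hκ1, hκ2⟩ : ∃ κ : ℝ, 10 * (Λ * δ) < κ ∧ κ < 1 / (4 * m) := by
    refine exists_between ?_
    rw [lt_div_iff₀ (by positivity)]
    nlinarith
  have hκ0 : 0 < κ := by linarith
  have hκm : 4 * m * κ < 1 := by
    rw [lt_div_iff₀ (by positivity)] at hκ2
    linarith
  have hκ4 : κ < 1 / 4 := by nlinarith
  have hδΛ : δ ≤ Λ * δ := by nlinarith
  obtain ⟨r0, hr0, hcone⟩ := hkap κ hκ0 hκm
  obtain ⟨d, hd0, hdΛ, hd8⟩ : ∃ d : ℝ, 0 < d ∧ Λ * d = κ - 2 * δ ∧ 8 * δ < d := by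
    refine ⟨(κ - 2 * δ) / Λ, div_pos (by linarith) hΛ0, by field_simp, ?_⟩
    rw [lt_div_iff₀ hΛ0]
    nlinarith
  have hd1 : d ≤ 1 := by nlinarith
  -- the functional
  have hwne : w ≠ 0 := by
    intro hw0
    rw [hw0, norm_zero] at hw
    exact zero_ne_one hw
  obtain ⟨l, hl, hlw⟩ := exists_dual_vector ℂ w (norm_ne_zero_iff.2 hwne)
  have hlw1 : l w = 1 := by
    rw [hlw, hw]
    simp
  -- the linear map
  have hAs : ∀ y, ‖A.symm y‖ ≤ ‖y‖ := by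
    intro y
    have := (hA (A.symm y)).1
    rwa [A.apply_symm_apply] at this
  have hAs' : ∀ y, (1 / Λ) * ‖y‖ ≤ ‖A.symm y‖ := by
    intro y
    have := (hA (A.symm y)).2
    rw [A.apply_symm_apply] at this
    rw [one_div, inv_mul_le_iff₀ hΛ0]
    exact this
  have hAc : Continuous A := M21_cont fun x => (hA x).2
  have hAsc : Continuous A.symm := M21_cont (Λ := 1) fun x => by rw [one_mul]; exact hAs x
  -- the pairs
  obtain ⟨B', h0B', hB'⟩ := h.symm.pair hg hf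
  have hGc : ∀ x ∈ B', ContinuousAt (fun x => g (φ x)) x := fun x hx =>
    ContinuousAt.comp (f := φ) (g := g) (hB'.f_an x hx).continuousAt (hB'.ψ_cont x hx)
  -- small radii
  have hφ0 : ContinuousAt φ 0 := h.cφ.continuousAt h.hV
  have hψ0 : ContinuousAt ψ 0 := h.cψ.continuousAt h.hW
  obtain ⟨R3, hR3, hR3'⟩ := Metric.eventually_nhds_iff_ball.1
    (hg.1.eventually_analyticAt.and ((eventually_mem_nhds_iff.2 h.hW).and (Filter.eventually_of_mem h.hW fun x hx => hx)))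
  have hR4 : 0 < min r0 R3 := lt_min hr0 hR3
  obtain ⟨R0, hR0, hR0'⟩ : ∃ R0 : ℝ, 0 < R0 ∧ ∀ x : E, ‖x‖ < R0 → x ∈ B' ∧ x ∈ V ∧ ‖φ x‖ < (1 - κ) * min r0 R3 ∧
      ∃ τ : ℂ, τ ≠ 0 ∧ ‖φ x - τ • A x‖ ≤ δ * (‖τ‖ * ‖x‖) := by
    have e1 : ∀ᶠ x in 𝓝 (0:E), ‖φ x‖ < (1 - κ) * min r0 R3 := by
      have h2 : ContinuousAt (fun x => ‖φ x‖) 0 := hφ0.norm
      have h3 : ‖φ 0‖ < (1 - κ) * min r0 R3 := by
        rw [h.z0, norm_zero]
        exact mul_pos (by linarith) hR4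
      exact h2.eventually (gt_mem_nhds h3)
    have e2 : ∀ᶠ x in 𝓝 (0:E), x ∈ B' := hB'.isOpen.mem_nhds h0B'
    have e3 : ∀ᶠ x in 𝓝 (0:E), x ∈ V := h.hV
    obtain ⟨R0, hR0, h4⟩ := Metric.eventually_nhds_iff_ball.1 (e2.and (e3.and (e1.and hd)))
    exact ⟨R0, hR0, fun x hx => h4 x (mem_ball_zero_iff.2 hx)⟩
  have hφsm : ∀ x : E, ‖x‖ < R0 → ‖φ x‖ < min r0 R3 := by
    intro x hx
    have h2 := (hR0' x hx).2.2.1
    nlinarith
  -- (1)
  have key : ∀ (z : ℂ) (x : E), 0 < ‖z‖ → ‖z‖ < R0 / 2 → ‖x - A.symm (z • w)‖ < d * ‖z‖ →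
      ‖x‖ < R0 ∧ g (φ x) ≠ 0 := by
    intro z x hz hzR hx
    have n0 : ‖z • w‖ = ‖z‖ := by rw [norm_smul, hw, mul_one]
    have n1 : ‖x‖ ≤ 2 * ‖z‖ := by
      have e1 : x = (x - A.symm (z • w)) + A.symm (z • w) := by abel
      have e2 : ‖x‖ ≤ ‖x - A.symm (z • w)‖ + ‖A.symm (z • w)‖ := by
        calc ‖x‖ = ‖(x - A.symm (z • w)) + A.symm (z • w)‖ := by rw [← e1]
          _ ≤ _ := norm_add_le _ _
      have e3 := hAs (z • w)
      rw [n0] at e3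
      nlinarith
    have n2 : ‖x‖ < R0 := by linarith
    obtain ⟨hxB, hxV, hφx, τ, hτ, hτx⟩ := hR0' x n2
    have hτp : 0 < ‖τ‖ := norm_pos_iff.2 hτ
    have n3 : ‖A x - z • w‖ ≤ Λ * (d * ‖z‖) := by
      have e1 : A x - z • w = A (x - A.symm (z • w)) := by
        rw [map_sub, A.apply_symm_apply]
      rw [e1]
      refine (hA _).2.trans ?_
      exact mul_le_mul_of_nonneg_left hx.le hΛ0.le
    have n4 : ‖φ x - (τ * z) • w‖ ≤ κ * ‖τ * z‖ := by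
      have e1 : φ x - (τ * z) • w = (φ x - τ • A x) + τ • (A x - z • w) := by
        rw [smul_sub, smul_smul]
        abel
      rw [e1, norm_mul]
      refine (norm_add_le _ _).trans ?_
      rw [norm_smul]
      have e2 : ‖τ‖ * ‖A x - z • w‖ ≤ ‖τ‖ * (Λ * (d * ‖z‖)) := mul_le_mul_of_nonneg_left n3 hτp.le
      have e3 : δ * (‖τ‖ * ‖x‖) ≤ δ * (‖τ‖ * (2 * ‖z‖)) :=
        mul_le_mul_of_nonneg_left (mul_le_mul_of_nonneg_left n1 hτp.le) hδ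
      have e4 : ‖τ‖ * (Λ * (d * ‖z‖)) = (κ - 2 * δ) * (‖τ‖ * ‖z‖) := by
        rw [← hdΛ]
        ring
      have e5 : δ * (‖τ‖ * (2 * ‖z‖)) = 2 * δ * (‖τ‖ * ‖z‖) := by ring
      linarith
    have hτz : 0 < ‖τ * z‖ := by
      rw [norm_mul]
      exact mul_pos hτp hz
    have n5 : ‖τ * z‖ < r0 := by
      have e1 : ‖τ * z‖ ≤ ‖φ x‖ + κ * ‖τ * z‖ := by
        have e2 : (τ * z) • w = φ x - (φ x - (τ * z) • w) := by abel
        have e3 : ‖(τ * z) • w‖ = ‖τ * z‖ := by rw [norm_smul, hw, mul_one]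
        rw [← e3]
        calc ‖(τ * z) • w‖ = ‖φ x - (φ x - (τ * z) • w)‖ := by rw [← e2]
          _ ≤ ‖φ x‖ + ‖φ x - (τ * z) • w‖ := norm_sub_le _ _
          _ ≤ ‖φ x‖ + κ * ‖(τ * z) • w‖ := by
            rw [e3]
            linarith
      have e2 : (1 - κ) * ‖τ * z‖ < (1 - κ) * r0 := by
        have e3 : (1 - κ) * min r0 R3 ≤ (1 - κ) * r0 := mul_le_mul_of_nonneg_left (min_le_left _ _) (by linarith)
        linarith
      exact lt_of_mul_lt_mul_left e2 (by linarith)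
    exact ⟨n2, hcone (τ * z) (φ x) hτz n5 n4⟩
  have keyf : ∀ (z : ℂ) (x : E), 0 < ‖z‖ → ‖z‖ < R0 / 2 → ‖x - A.symm (z • w)‖ < d * ‖z‖ → f x ≠ 0 := by
    intro z x hz hzR hx hcon
    obtain ⟨n1, n2⟩ := key z x hz hzR hx
    exact n2 ((h.zs x (hR0' x n1).2.1).1 hcon)
  -- (2)
  obtain ⟨ε0, hε0, hcore⟩ := core2 (f := g) (g := f) (φ := ψ) (ψ := φ) hB' h0B' hk hk1 (half_pos hd0)
  obtain ⟨ρ, hρ, hρm⟩ : ∃ ρ : ℝ, 0 < ρ ∧ ρ < min (R0 / 2) (ε0 / 2) := exists_between (lt_min (half_pos hR0) (half_pos hε0))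
  have hρR : ρ < R0 / 2 := lt_of_lt_of_le hρm (min_le_left _ _)
  have hρε : 2 * ρ < ε0 := by linarith [lt_of_lt_of_le hρm (min_le_right _ _)]
  have hnz : ∀ (s : ℝ), 0 < s → ∀ θ : ℝ, ‖((s : ℂ) * cis θ)‖ = s := by
    intro s hs θ
    rw [norm_mul, cis_norm, mul_one, Complex.norm_real, Real.norm_eq_abs, abs_of_pos hs]
  have hnw : ∀ (s : ℝ), 0 < s → ∀ θ : ℝ, ‖((s : ℂ) * cis θ) • w‖ = s := by
    intro s hs θ
    rw [norm_smul, hw, mul_one, hnz s hs]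
  set β : ℝ → E := fun θ => A.symm (((ρ : ℂ) * cis θ) • w) with hβ
  have hβn : ∀ θ, ‖β θ‖ ≤ ρ := by
    intro θ
    have := hAs (((ρ : ℂ) * cis θ) • w)
    rwa [hnw ρ hρ] at this
  have hβc : Continuous β := hAsc.comp (by fun_prop)
  have hβp : ∀ θ, β (θ + 2 * Real.pi) = β θ := fun θ => by simp only [hβ, cis_per]
  have hβB : ∀ θ, β θ ∈ B' := fun θ => (hR0' _ (lt_of_le_of_lt (hβn θ) (by linarith))).1
  have hβ0 : ∀ θ, g (φ (β θ)) ≠ 0 := by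
    intro θ
    refine (key ((ρ : ℂ) * cis θ) (β θ) (by rw [hnz ρ hρ]; exact hρ) (by rw [hnz ρ hρ]; exact hρR) ?_).2
    rw [hβ, sub_self, norm_zero, hnz ρ hρ]
    exact mul_pos hd0 hρ
  obtain ⟨K, hK⟩ := Wd.ex (c := fun θ => g (φ (β θ))) (by
      rw [continuous_iff_continuousAt]
      intro θ
      exact ContinuousAt.comp (g := fun x => g (φ x)) (f := β) (hGc _ (hβB θ)) hβc.continuousAt)
    hβ0 (fun θ => by rw [hβp])
  have hKk : |K| ≤ k := by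
    obtain ⟨c1, c2⟩ := M9_ell_norm (A.symm : E →ₗ[ℝ] E) hw (r := ρ) (L := 1) (l := 1 / Λ) hρ (by positivity)
      (fun x => by rw [one_mul]; exact hAs x) hAs'
    have e1 : ∀ θ : ℝ, cis θ • ((ρ / 2 : ℂ) • ((A.symm : E →ₗ[ℝ] E) w - Complex.I • (A.symm : E →ₗ[ℝ] E) (Complex.I • w))) +
      cis (-θ) • ((ρ / 2 : ℂ) • ((A.symm : E →ₗ[ℝ] E) w + Complex.I • (A.symm : E →ₗ[ℝ] E) (Complex.I • w))) = β θ :=
      fun θ => M9_ell (A.symm : E →ₗ[ℝ] E) w ρ θ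
    refine hcore _ _ c1 (by linarith) ?_ K ?_
    · intro θ y hy
      rw [e1] at hy
      refine keyf ((ρ : ℂ) * cis θ) y (by rw [hnz ρ hρ]; exact hρ) (by rw [hnz ρ hρ]; exact hρR) ?_
      rw [hnz ρ hρ]
      refine lt_of_lt_of_le hy ?_
      nlinarith
    · have e2 : (fun θ => g (φ (cis θ • ((ρ / 2 : ℂ) • ((A.symm : E →ₗ[ℝ] E) w - Complex.I • (A.symm : E →ₗ[ℝ] E) (Complex.I • w))) +
          cis (-θ) • ((ρ / 2 : ℂ) • ((A.symm : E →ₗ[ℝ] E) w + Complex.I • (A.symm : E →ₗ[ℝ] E) (Complex.I • w)))))) =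
          fun θ => g (φ (β θ)) := by
        funext θ
        rw [e1]
      rw [e2]
      exact hK
  -- small circles for `g`
  obtain ⟨rg, hrg, hcirc⟩ := mem_nhdsGT_iff_exists_Ioo_subset.1 (lead_wd hg.1 hm hQw)
  have hrg0 : (0:ℝ) < rg := hrg
  have hδ40 : δ < 1 / 40 := by linarith
  have hz'c : Continuous l := l.continuous
  -- (3)
  obtain ⟨j', hj'⟩ : ∃ j' : ℤ, (m : ℤ) = j' * K := by
    have hψe : ∀ᶠ y in 𝓝 (0:E), ‖ψ y‖ < R0 / 2 / Λ := by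
      have h2 : ContinuousAt (fun y => ‖ψ y‖) 0 := hψ0.norm
      have h3 : ‖ψ 0‖ < R0 / 2 / Λ := by
        rw [h.ψ0, norm_zero]
        exact div_pos (half_pos hR0) hΛ0
      exact h2.eventually (gt_mem_nhds h3)
    obtain ⟨R5, hR5, hR5'⟩ := Metric.eventually_nhds_iff_ball.1 hψe
    obtain ⟨r, hr, hrm⟩ : ∃ r : ℝ, 0 < r ∧ r < min rg (min R5 R3) := exists_between (lt_min hrg0 (lt_min hR5 hR3))
    have hrrg : r < rg := lt_of_lt_of_le hrm (min_le_left _ _)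
    have hrR5 : r < R5 := lt_of_lt_of_le hrm ((min_le_right _ _).trans (min_le_left _ _))
    have hrR3 : r < R3 := lt_of_lt_of_le hrm ((min_le_right _ _).trans (min_le_right _ _))
    have hWr : Wd (fun θ => g (((r : ℂ) * cis θ) • w)) m := hcirc ⟨hr, hrrg⟩
    set x : ℝ → E := fun θ => ψ (((r : ℂ) * cis θ) • w) with hx
    have hb3 : ∀ θ, ((r : ℂ) * cis θ) • w ∈ Metric.ball (0 : E) R3 := fun θ => by
      rw [mem_ball_zero_iff, hnw r hr]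
      exact hrR3
    have hφx : ∀ θ, φ (x θ) = ((r : ℂ) * cis θ) • w := fun θ => h.ri (hR3' _ (hb3 θ)).2.2
    have hxc : Continuous x := by
      rw [continuous_iff_continuousAt]
      intro θ
      have h2 : ContinuousAt ψ (((r : ℂ) * cis θ) • w) := h.cψ.continuousAt (hR3' _ (hb3 θ)).2.1
      exact ContinuousAt.comp (g := ψ) (f := fun θ : ℝ => ((r : ℂ) * cis θ) • w) h2 (by fun_prop)
    have hxp : ∀ θ, x (θ + 2 * Real.pi) = x θ := fun θ => by simp only [hx, cis_per]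
    have hxn : ∀ θ, ‖x θ‖ < R0 / 2 / Λ := fun θ => hR5' _ (by
      rw [mem_ball_zero_iff, hnw r hr]
      exact hrR5)
    have hxΛ : ∀ θ, Λ * ‖x θ‖ < R0 / 2 := fun θ => by
      have := hxn θ
      rw [lt_div_iff₀ hΛ0] at this
      linarith
    have hxR : ∀ θ, ‖x θ‖ < R0 := fun θ => by
      have h2 := hxΛ θ
      have h3 : 1 * ‖x θ‖ ≤ Λ * ‖x θ‖ := mul_le_mul_of_nonneg_right hΛ (norm_nonneg _)
      linarith
    have hx0 : ∀ θ, 0 < ‖x θ‖ := by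
      intro θ
      rw [norm_pos_iff]
      intro hcon
      have h2 := hφx θ
      rw [hcon, h.z0] at h2
      have h3 := hnw r hr θ
      rw [← h2, norm_zero] at h3
      linarith
    have hmain : ∀ θ, 0 < ‖l (A (x θ))‖ ∧ ‖l (A (x θ))‖ < R0 / 2 ∧
        ‖x θ - A.symm (l (A (x θ)) • w)‖ < d * ‖l (A (x θ))‖ := by
      intro θ
      obtain ⟨-, -, -, τ, hτ, hτx⟩ := hR0' _ (hxR θ)
      have hτp : 0 < ‖τ‖ := norm_pos_iff.2 hτ
      rw [hφx] at hτx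
      have h2 : ‖A (x θ) - ((r : ℂ) * cis θ / τ) • w‖ ≤ δ * ‖x θ‖ := by
        have e1 : ((r : ℂ) * cis θ) • w - τ • A (x θ) = - (τ • (A (x θ) - ((r : ℂ) * cis θ / τ) • w)) := by
          rw [smul_sub, smul_smul, mul_div_cancel₀ _ hτ]
          abel
        rw [e1, norm_neg, norm_smul] at hτx
        have e2 : ‖τ‖ * ‖A (x θ) - ((r : ℂ) * cis θ / τ) • w‖ ≤ ‖τ‖ * (δ * ‖x θ‖) := by
          refine hτx.trans (le_of_eq ?_)
          ring
        exact le_of_mul_le_mul_left e2 hτp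
      obtain ⟨p1, p2, p3⟩ := M21_proj hl hw hlw1 h2
      have h3 : ‖A (x θ)‖ ≤ ‖((r : ℂ) * cis θ / τ)‖ + δ * ‖x θ‖ := by
        have e1 : A (x θ) = ((r : ℂ) * cis θ / τ) • w + (A (x θ) - ((r : ℂ) * cis θ / τ) • w) := by abel
        have e2 : ‖((r : ℂ) * cis θ / τ) • w‖ = ‖((r : ℂ) * cis θ / τ)‖ := by rw [norm_smul, hw, mul_one]
        calc ‖A (x θ)‖ = ‖((r : ℂ) * cis θ / τ) • w + (A (x θ) - ((r : ℂ) * cis θ / τ) • w)‖ := by rw [← e1]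
          _ ≤ ‖((r : ℂ) * cis θ / τ) • w‖ + ‖A (x θ) - ((r : ℂ) * cis θ / τ) • w‖ := norm_add_le _ _
          _ ≤ _ := by
            rw [e2]
            linarith
      have h4 := (hA (x θ)).1
      have h5 := (hA (x θ)).2
      have h6 : δ * ‖x θ‖ ≤ (1 / 40) * ‖x θ‖ := mul_le_mul_of_nonneg_right hδ40.le (norm_nonneg _)
      have h7 : ‖x θ‖ ≤ 2 * ‖l (A (x θ))‖ := by
        have := hx0 θ
        linarith
      have h8 : 0 < ‖l (A (x θ))‖ := by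
        have := hx0 θ
        linarith
      refine ⟨h8, lt_of_le_of_lt (p3.trans h5) (hxΛ θ), ?_⟩
      have e1 : x θ - A.symm (l (A (x θ)) • w) = A.symm (A (x θ) - l (A (x θ)) • w) := by
        rw [map_sub, A.symm_apply_apply]
      rw [e1]
      refine lt_of_le_of_lt (hAs _) (lt_of_le_of_lt p1 ?_)
      have h9 : 2 * (δ * ‖x θ‖) ≤ 2 * (δ * (2 * ‖l (A (x θ))‖)) := by
        have := mul_le_mul_of_nonneg_left h7 hδ
        linarith
      have h10 : 8 * δ * ‖l (A (x θ))‖ < d * ‖l (A (x θ))‖ := mul_lt_mul_of_pos_right hd8 h8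
      have h11 : 0 ≤ δ * ‖l (A (x θ))‖ := mul_nonneg hδ h8.le
      linarith
    have hzc : Continuous fun θ => l (A (x θ)) := hz'c.comp (hAc.comp hxc)
    have hzp : ∀ θ, l (A (x (θ + 2 * Real.pi))) = l (A (x θ)) := fun θ => by rw [hxp]
    have hW1 : Wd (fun θ => g (φ (A.symm (l (A (x θ)) • w)))) m := by
      refine M21_move (G := fun x => g (φ x)) (x := x) (y := fun θ => A.symm (l (A (x θ)) • w)) hxc ?_ hxp ?_ ?_ ?_
      · exact hAsc.comp (hzc.smul continuous_const)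
      · intro θ
        simp only [hzp]
      · intro t ht θ
        obtain ⟨q1, q2, q3⟩ := hmain θ
        have h2 := (M21_seg (x := x θ) (y := A.symm (l (A (x θ)) • w)) ht).1
        have h3 := key (l (A (x θ))) (x θ + (t : ℂ) • (A.symm (l (A (x θ)) • w) - x θ)) q1 q2 (lt_of_le_of_lt h2 q3)
        exact ⟨hGc _ (hR0' _ h3.1).1, h3.2⟩
      · have e1 : (fun θ => (fun x => g (φ x)) (x θ)) = fun θ => g (((r : ℂ) * cis θ) • w) := by
          funext θ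
          simp only [hφx]
        rw [e1]
        exact hWr
    obtain ⟨j', hj'⟩ := Wd.ex (c := fun θ => l (A (x θ))) hzc (fun θ => norm_pos_iff.1 (hmain θ).1) hzp
    refine ⟨j', ?_⟩
    have hP := punctured (H := fun z => g (φ (A.symm (z • w)))) (R := R0 / 2) (μ := fun θ => l (A (x θ))) (j := j') (G := K) (ρ := ρ)
      (fun z hz hzR => by
        have h2 : ‖A.symm (z • w)‖ < R0 := by
          have e1 := hAs (z • w)
          rw [norm_smul, hw, mul_one] at e1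
          linarith
        exact ContinuousAt.comp (g := fun x => g (φ x)) (f := fun z : ℂ => A.symm (z • w)) (hGc _ (hR0' _ h2).1)
          (hAsc.comp (continuous_id.smul continuous_const)).continuousAt)
      (fun z hz hzR => (key z (A.symm (z • w)) hz hzR (by
        rw [sub_self, norm_zero]
        exact mul_pos hd0 hz)).2)
      hρ hρR hj' (fun θ => (hmain θ).2.1) hK
    exact hW1.uniq hP
  -- (4)
  obtain ⟨j'', hj''⟩ : ∃ j'' : ℤ, K = j'' * (m : ℤ) := by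
    have hyc : Continuous fun θ => φ (β θ) := by
      rw [continuous_iff_continuousAt]
      intro θ
      exact ContinuousAt.comp (g := φ) (f := β) (hB'.ψ_cont _ (hβB θ)) hβc.continuousAt
    have hyp : ∀ θ, φ (β (θ + 2 * Real.pi)) = φ (β θ) := fun θ => by rw [hβp]
    have hyn : ∀ θ, ‖φ (β θ)‖ < min r0 R3 := fun θ => hφsm _ (lt_of_le_of_lt (hβn θ) (by linarith))
    have hmain : ∀ θ, 0 < ‖l (φ (β θ))‖ ∧ ‖l (φ (β θ))‖ < min r0 R3 ∧
        ‖φ (β θ) - l (φ (β θ)) • w‖ ≤ κ * ‖l (φ (β θ))‖ := by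
      intro θ
      obtain ⟨-, -, -, τ, hτ, hτx⟩ := hR0' (β θ) (lt_of_le_of_lt (hβn θ) (by linarith))
      have hτp : 0 < ‖τ‖ := norm_pos_iff.2 hτ
      have e0 : A (β θ) = ((ρ : ℂ) * cis θ) • w := by
        rw [hβ]
        simp only [A.apply_symm_apply]
      have h2 : ‖φ (β θ) - (τ * ((ρ : ℂ) * cis θ)) • w‖ ≤ δ * (‖τ‖ * ρ) := by
        rw [e0, smul_smul] at hτx
        refine hτx.trans ?_
        exact mul_le_mul_of_nonneg_left (mul_le_mul_of_nonneg_left (hβn θ) hτp.le) hδ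
      obtain ⟨p1, p2, p3⟩ := M21_proj hl hw hlw1 h2
      rw [norm_mul, hnz ρ hρ] at p2
      have hτρ : 0 < ‖τ‖ * ρ := mul_pos hτp hρ
      have h6 : δ * (‖τ‖ * ρ) ≤ (1 / 40) * (‖τ‖ * ρ) := mul_le_mul_of_nonneg_right hδ40.le hτρ.le
      have h7 : ‖τ‖ * ρ ≤ 2 * ‖l (φ (β θ))‖ := by linarith
      have h8 : 0 < ‖l (φ (β θ))‖ := by linarith
      refine ⟨h8, lt_of_le_of_lt p3 (hyn θ), p1.trans ?_⟩
      have h9 : δ * (‖τ‖ * ρ) ≤ δ * (2 * ‖l (φ (β θ))‖) := mul_le_mul_of_nonneg_left h7 hδ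
      have h10 : (10 * δ) * ‖l (φ (β θ))‖ ≤ κ * ‖l (φ (β θ))‖ := mul_le_mul_of_nonneg_right (by linarith) h8.le
      have h11 : 0 ≤ δ * ‖l (φ (β θ))‖ := mul_nonneg hδ h8.le
      linarith
    have hμc : Continuous fun θ => l (φ (β θ)) := hz'c.comp hyc
    have hμp : ∀ θ, l (φ (β (θ + 2 * Real.pi))) = l (φ (β θ)) := fun θ => by rw [hyp]
    have hW1 : Wd (fun θ => g (l (φ (β θ)) • w)) K := by
      refine M21_move (G := g) (x := fun θ => φ (β θ)) (y := fun θ => l (φ (β θ)) • w) hyc (hμc.smul continuous_const) hyp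
        ?_ ?_ hK
      · intro θ
        simp only [hμp]
      · intro t ht θ
        obtain ⟨q1, q2, q3⟩ := hmain θ
        obtain ⟨h2, h3⟩ := M21_seg (x := φ (β θ)) (y := l (φ (β θ)) • w) ht
        refine ⟨?_, hcone (l (φ (β θ))) _ q1 (lt_of_lt_of_le q2 (min_le_left _ _)) (h2.trans q3)⟩
        refine (hR3' _ ?_).1.continuousAt
        rw [mem_ball_zero_iff]
        refine lt_of_le_of_lt h3 (max_lt ?_ ?_)
        · exact lt_of_lt_of_le (hyn θ) (min_le_right _ _)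
        · rw [norm_smul, hw, mul_one]
          exact lt_of_lt_of_le q2 (min_le_right _ _)
    obtain ⟨j'', hj''⟩ := Wd.ex (c := fun θ => l (φ (β θ))) hμc (fun θ => norm_pos_iff.1 (hmain θ).1) hμp
    refine ⟨j'', ?_⟩
    obtain ⟨ρ', hρ', hρm'⟩ : ∃ ρ' : ℝ, 0 < ρ' ∧ ρ' < min rg (min r0 R3) := exists_between (lt_min hrg0 hR4)
    have hWρ : Wd (fun θ => g (((ρ' : ℂ) * cis θ) • w)) m := hcirc ⟨hρ', lt_of_lt_of_le hρm' (min_le_left _ _)⟩
    have hP := punctured (H := fun z => g (z • w)) (R := min r0 R3) (μ := fun θ => l (φ (β θ))) (j := j'') (G := m) (ρ := ρ')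
      (fun z hz hzR => by
        have h2 : z • w ∈ Metric.ball (0 : E) R3 := by
          rw [mem_ball_zero_iff, norm_smul, hw, mul_one]
          exact lt_of_lt_of_le hzR (min_le_right _ _)
        exact ContinuousAt.comp (g := g) (f := fun z : ℂ => z • w) (hR3' _ h2).1.continuousAt
          (continuous_id.smul continuous_const).continuousAt)
      (fun z hz hzR => hcone z (z • w) hz (lt_of_lt_of_le hzR (min_le_left _ _)) (by
        rw [sub_self, norm_zero]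
        exact mul_nonneg hκ0.le hz.le))
      hρ' (lt_of_lt_of_le hρm' (min_le_right _ _)) hj'' (fun θ => (hmain θ).2.1) hWρ
    exact hW1.uniq hP
  -- conclusion
  have hm0' : (m : ℤ) ≠ 0 := by
    have : (1 : ℤ) ≤ m := by exact_mod_cast hm1
    omega
  have hK0 : K ≠ 0 := by
    intro hcon
    rw [hcon, mul_zero] at hj'
    exact hm0' hj'
  have hdvd : (m : ℤ) ∣ |K| := by
    rw [dvd_abs]
    exact ⟨j'', by rw [mul_comm]; exact hj''⟩
  have h2 : (m : ℤ) ≤ |K| := Int.le_of_dvd (abs_pos.2 hK0) hdvd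
  have h3 : (m : ℤ) ≤ k := h2.trans hKk
  exact_mod_cast h3

end Zr
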