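import Pool.Agent.helper60.Zr.M11
import Pool.Agent.helper60.Zr.M21

set_option autoImplicit false

/-!
# Zr, module M22: families

`cdir_family`: as `family` (M11): `red_lead`, `semicont` (M10): `ν(F t) ≤ ν(F s)` for `t` near `s`, and `ν(F s) ≤ ν(F t)` by `cdir_le` (M21) with `f = F t`, `g = F s`, `δ` with `40 Λ δ ν(F s) < 1`.
-/

noncomputable section

namespace Zr

open Filter Topology Set

variable {E : Type*} [NormedAddCommGroup E] [NormedSpace ℂ E] [FiniteDimensional ℂ E]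

theorem cdir_family {F : ℝ → E → ℂ} {U : Set E} (hU : IsOpen U) (h0 : (0 : E) ∈ U)
    (hF : ContinuousOn (fun p : ℝ × E => F p.1 p.2) (Icc (0:ℝ) 1 ×ˢ U))
    (ha : ∀ t ∈ Icc (0:ℝ) 1, AnalyticOnNhd ℂ (F t) U) (hr : ∀ t ∈ Icc (0:ℝ) 1, Red (F t)) {Λ : ℝ} (hΛ : 1 ≤ Λ)
    (h : ∀ s ∈ Icc (0:ℝ) 1, ∀ δ : ℝ, 0 < δ → ∃ η : ℝ, 0 < η ∧ ∀ t ∈ Icc (0:ℝ) 1, |t - s| < η →
      ∃ (φ ψ : E → E) (V W : Set E) (A : E ≃ₗ[ℝ] E), Equ (F t) (F s) φ ψ V W ∧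
        (∀ x, ‖x‖ ≤ ‖A x‖ ∧ ‖A x‖ ≤ Λ * ‖x‖) ∧ CDir φ A δ) {s t : ℝ} (hs : s ∈ Icc (0:ℝ) 1)
    (ht : t ∈ Icc (0:ℝ) 1) (k : ℕ) :
    (∀ j < k, iteratedFDeriv ℂ j (F s) 0 = 0) ↔ (∀ j < k, iteratedFDeriv ℂ j (F t) 0 = 0) := by
  have hex : ∀ t : ℝ, ∃ K : ℕ, t ∈ Icc (0:ℝ) 1 → ∃ P : E → ℂ, Lead (F t) K P := by
    intro t
    by_cases htt : t ∈ Icc (0:ℝ) 1
    · obtain ⟨K, P, -, hL⟩ := red_lead (hr t htt)
      exact ⟨K, fun _ => ⟨P, hL⟩⟩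
    · exact ⟨0, fun h' => absurd h' htt⟩
  choose K hK using hex
  -- the multiplicity is locally constant
  have hloc : ∀ s ∈ Icc (0:ℝ) 1, ∃ η : ℝ, 0 < η ∧ ∀ t ∈ Icc (0:ℝ) 1, |t - s| < η → K t = K s := by
    intro s hs
    obtain ⟨P, hL⟩ := hK s hs
    obtain ⟨η1, hη1, h1⟩ := semicont hU h0 hF ha hs hL
    have hΛ0 : 0 < Λ := by linarith
    have hδ : 0 < 1 / (40 * Λ * ((K s : ℝ) + 1)) := by positivity
    obtain ⟨η2, hη2, h2⟩ := h s hs _ hδ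
    refine ⟨min η1 η2, lt_min hη1 hη2, ?_⟩
    intro t ht hts
    obtain ⟨P', hL'⟩ := hK t ht
    have h3 : K t ≤ K s := h1 t ht (lt_of_lt_of_le hts (min_le_left _ _)) (K t) P' hL'
    obtain ⟨φ, ψ, V, W, A, hE, hA, hd⟩ := h2 t ht (lt_of_lt_of_le hts (min_le_right _ _))
    have h4 : 40 * Λ * (1 / (40 * Λ * ((K s : ℝ) + 1))) * K s < 1 := by
      have h5 : 40 * Λ * (1 / (40 * Λ * ((K s : ℝ) + 1))) * K s = K s / ((K s : ℝ) + 1) := by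
        field_simp
      rw [h5, div_lt_one (by positivity)]
      linarith
    exact le_antisymm h3 (cdir_le (hr t ht) (hr s hs) hE hL' hL hΛ hA hδ.le h4 hd)
  have hcont : ContinuousOn K (Icc (0:ℝ) 1) := by
    intro s hs
    obtain ⟨η, hη, h1⟩ := hloc s hs
    have h2 : ∀ᶠ t in 𝓝[Icc (0:ℝ) 1] s, K s = K t := by
      have h3 : ∀ᶠ t in 𝓝[Icc (0:ℝ) 1] s, |t - s| < η := by
        have h4 : Metric.ball s η ∈ 𝓝 s := Metric.ball_mem_nhds s hη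
        have h5 : ∀ᶠ t in 𝓝 s, |t - s| < η := by
          filter_upwards [h4] with t ht
          rwa [Metric.mem_ball, Real.dist_eq] at ht
        exact h5.filter_mono nhdsWithin_le_nhds
      filter_upwards [h3, self_mem_nhdsWithin] with t ht htt
      exact (h1 t htt ht).symm
    exact tendsto_const_nhds.congr' h2
  have hKK : K s = K t := isPreconnected_Icc.constant hcont hs ht
  obtain ⟨P, hL⟩ := hK s hs
  obtain ⟨P', hL'⟩ := hK t ht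
  rw [lead_order (ha s hs 0 h0) hL k, lead_order (ha t ht 0 h0) hL' k, hKK]

end Zr
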