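import Mathlib

set_option autoImplicit false

/-!
# Zr, module M23: Gronwall, modulo the complex radial direction

`gron`: `L u = ∫_s^u lam` (`L' = lam` on `[s, t]` from the right, `lam` continuous on `[s, t]`; extend `lam` continuously with `IccExtend` / `projIcc` if convenient), `y u = exp (- L u) • γ u`, `‖y' u‖ = ‖exp (- L u)‖ ‖γ' - lam u • γ u‖ ≤ C ‖y u‖`.
`norm_le_gronwallBound_of_norm_deriv_right_le`: for `z u = y u - y s`: `‖z'‖ ≤ C ‖z‖ + C ‖y s‖`, so `‖z t‖ ≤ gronwallBound 0 C (C ‖y s‖) (t - s) = ‖y s‖ (exp (C (t - s)) - 1)` (`C > 0`: `gronwallBound_of_K_ne_0`). `w = exp (L t)`.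
`gron_back`: apply `gron` to `u ↦ γ (-u)`, `lam' u = - lam (-u)` on `[-s, -t]`.
-/

noncomputable section

namespace Zr

open Filter Topology Set

variable {E : Type*} [NormedAddCommGroup E] [NormedSpace ℂ E] [CompleteSpace E]

theorem gron {γ : ℝ → E} {lam : ℝ → ℂ} {s t C : ℝ} (hst : s ≤ t) (hC : 0 < C) (hlam : ContinuousOn lam (Icc s t))
    (hd : ∀ u ∈ Icc s t, ∃ γ' : E, HasDerivWithinAt γ γ' (Icc s t) u ∧ ‖γ' - lam u • γ u‖ ≤ C * ‖γ u‖) :
    ∃ w : ℂ, w ≠ 0 ∧ ‖γ t - w • γ s‖ ≤ (Real.exp (C * (t - s)) - 1) * ‖w • γ s‖ := by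
  classical
  -- the continuous extension of `lam`
  set lam2 : ℝ → ℂ := IccExtend hst (fun u : Icc s t => lam u) with hlam2
  have hl2c : Continuous lam2 := by
    refine Continuous.Icc_extend' ?_
    exact continuousOn_iff_continuous_domRestrict.mp hlam
  have hl2e : ∀ u ∈ Icc s t, lam2 u = lam u := fun u hu => by
    simp only [hlam2, IccExtend_of_mem _ _ hu]
  set L : ℝ → ℂ := fun u => ∫ x in s..u, lam2 x with hL
  have hLd : ∀ u, HasDerivAt L (lam2 u) u := fun u =>
    intervalIntegral.integral_hasDerivAt_right (hl2c.intervalIntegrable _ _)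
      (hl2c.stronglyMeasurableAtFilter _ _) hl2c.continuousAt
  have hLs : L s = 0 := by simp [hL]
  set y : ℝ → E := fun u => Complex.exp (-L u) • γ u with hy
  choose! γ' hγ' hb using hd
  set y' : ℝ → E := fun u =>
    Complex.exp (-L u) • γ' u + (Complex.exp (-L u) * (-lam2 u)) • γ u with hy'
  have hyd : ∀ u ∈ Icc s t, HasDerivWithinAt y (y' u) (Icc s t) u := by
    intro u hu
    have h1 : HasDerivWithinAt (fun v => Complex.exp (-L v)) (Complex.exp (-L u) * (-lam2 u))
        (Icc s t) u := ((hLd u).neg.cexp).hasDerivWithinAt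
    exact h1.smul (hγ' u hu)
  have hyn : ∀ u ∈ Icc s t, ‖y' u‖ ≤ C * ‖y u‖ := by
    intro u hu
    have e : y' u = Complex.exp (-L u) • (γ' u - lam u • γ u) := by
      simp only [hy', hl2e u hu]
      rw [smul_sub, smul_smul, mul_neg, neg_smul, sub_eq_add_neg]
    rw [e, norm_smul]
    simp only [hy]
    rw [norm_smul]
    have := mul_le_mul_of_nonneg_left (hb u hu) (norm_nonneg (Complex.exp (-L u)))
    linarith
  have hcont : ContinuousOn (fun u => y u - y s) (Icc s t) := fun u hu =>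
    ((hyd u hu).continuousWithinAt).sub continuousWithinAt_const
  have key := norm_le_gronwallBound_of_norm_deriv_right_le (f := fun u => y u - y s) (f' := y')
    (δ := 0) (K := C) (ε := C * ‖y s‖) (a := s) (b := t) hcont
    (fun u hu => by
      have h1 := (hyd u (Ico_subset_Icc_self hu)).sub_const (y s)
      refine h1.mono_of_mem_nhdsWithin ?_
      have : Icc u t ∈ 𝓝[≥] u := Icc_mem_nhdsGE hu.2
      exact mem_of_superset this (Icc_subset_Icc_left hu.1))
    (by simp)
    (fun u hu => by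
      have h1 := hyn u (Ico_subset_Icc_self hu)
      have h2 : ‖y u‖ ≤ ‖y u - y s‖ + ‖y s‖ := by
        have := norm_add_le (y u - y s) (y s)
        rwa [sub_add_cancel] at this
      have h3 := mul_le_mul_of_nonneg_left h2 hC.le
      linarith)
    t (right_mem_Icc.mpr hst)
  rw [gronwallBound_of_K_ne_0 hC.ne'] at key
  have hys : y s = γ s := by simp [hy, hLs]
  have e1 : C * ‖γ s‖ / C = ‖γ s‖ := mul_div_cancel_left₀ _ hC.ne'
  simp only [zero_mul, zero_add, hys] at key
  rw [e1] at key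
  refine ⟨Complex.exp (L t), Complex.exp_ne_zero _, ?_⟩
  have e2 : γ t - Complex.exp (L t) • γ s = Complex.exp (L t) • (y t - γ s) := by
    simp only [hy]
    rw [smul_sub, smul_smul, ← Complex.exp_add]
    simp
  rw [e2, norm_smul, norm_smul]
  have h4 := mul_le_mul_of_nonneg_left key (norm_nonneg (Complex.exp (L t)))
  linarith

theorem gron_back {γ : ℝ → E} {lam : ℝ → ℂ} {s t C : ℝ} (hst : t ≤ s) (hC : 0 < C) (hlam : ContinuousOn lam (Icc t s))
    (hd : ∀ u ∈ Icc t s, ∃ γ' : E, HasDerivWithinAt γ γ' (Icc t s) u ∧ ‖γ' - lam u • γ u‖ ≤ C * ‖γ u‖) :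
    ∃ w : ℂ, w ≠ 0 ∧ ‖γ t - w • γ s‖ ≤ (Real.exp (C * (s - t)) - 1) * ‖w • γ s‖ := by
  have hmap : MapsTo (fun u : ℝ => -u) (Icc (-s) (-t)) (Icc t s) := by
    intro u hu
    exact ⟨by linarith [hu.2], by linarith [hu.1]⟩
  have := gron (γ := fun u => γ (-u)) (lam := fun u => -lam (-u)) (s := -s) (t := -t) (C := C)
    (by linarith) hC ((hlam.comp continuousOn_neg hmap).neg)
    (fun u hu => by
      obtain ⟨g, hg, hb⟩ := hd (-u) (hmap hu)
      refine ⟨-g, ?_, ?_⟩
      · have h1 := hg.scomp u (hasDerivWithinAt_neg u (Icc (-s) (-t))) hmap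
        rw [neg_one_smul] at h1
        exact h1
      · have e : -g - (-lam (-u)) • γ (-u) = -(g - lam (-u) • γ (-u)) := by
          rw [neg_smul]; abel
        rw [e, norm_neg]
        exact hb)
  obtain ⟨w, hw, h⟩ := this
  refine ⟨w, hw, ?_⟩
  have e : -t - -s = s - t := by ring
  rw [e] at h
  simpa using h

end Zr
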