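import Pool.Agent.helper60.Zr.M11
import Pool.Agent.helper60.Zr.M16
import Pool.Agent.helper60.Zr.M23

set_option autoImplicit false

/-!
# Zr, module M24: trivialisations by vector fields

`vf_family`. The multiplicity (`red_lead`, M11) is locally constant on `[0,1]`, as in `family` (M11): for `s` let `v, κ, C, η` be as in the hypothesis. Normalise: `v ≠ 0` (`F s 0 = 0` and `Cone`), `v1 = ‖v‖⁻¹ • v`, `κ1 = min (κ / ‖v‖ / 2) (1 / 4)`, `l` with `‖l‖ = 1`, `l v1 = 1`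
(`exists_dual_vector`). If `l x ≠ 0`, `‖x - l x • v1‖ ≤ κ1 ‖l x‖`, then with `z = l x / ‖v‖`: `‖x - z • v‖ ≤ κ ‖z‖`, so `HornFree (F s) v1 l (fun t => κ1 * |t|)` from `Cone`, and the hypothesis on the trajectory of `x` holds for small `x`.
Choose `δ` with `0 < δ`, `20 δ < κ1`, and `η' ≤ η` with `(exp (C' η') - 1) ≤ δ / 2`, `C' = max C 1`. For `|t - s| < η'` and small `x` in the cone, `gron` / `gron_back` for `γ u = Φ s u x` (restricted to `[s, t]` or `[t, s]`, which is in `[0,1]`; `γ s = x`, `γ t = Φ s t x`) gives `w ≠ 0` with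
`‖Φ s t x - w • x‖ ≤ (δ / 2) ‖w • x‖`, and so `‖Φ s t x - w • x‖ ≤ δ ‖Φ s t x‖` (`δ ≤ 1`: `‖w • x‖ ≤ 2 ‖Φ s t x‖`). `ang_pair` (M16) for `f = F s`, `g = F t`, `φ = Φ s t`: equal multiplicities.
-/

noncomputable section

namespace Zr

open Filter Topology Set

variable {E : Type*} [NormedAddCommGroup E] [NormedSpace ℂ E] [FiniteDimensional ℂ E]

theorem vf_family {F : ℝ → E → ℂ} (hr : ∀ t ∈ Icc (0:ℝ) 1, Red (F t)) {Φ : ℝ → ℝ → E → E} {V : ℝ → ℝ → Set E}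
    (hE : ∀ s ∈ Icc (0:ℝ) 1, ∀ t ∈ Icc (0:ℝ) 1, Equ (F s) (F t) (Φ s t) (Φ t s) (V s t) (V t s))
    (h : ∀ s ∈ Icc (0:ℝ) 1, ∃ (v : E) (κ C η : ℝ), 0 < κ ∧ 0 < η ∧ Cone (F s) v κ ∧
      ∀ᶠ x in 𝓝 (0 : E), (∃ z : ℂ, ‖x - z • v‖ ≤ κ * ‖z‖) → Φ s s x = x ∧
        ∃ lam : ℝ → ℂ, ContinuousOn lam (Icc (0:ℝ) 1) ∧ ∀ u ∈ Icc (0:ℝ) 1, |u - s| < η →
          ∃ γ' : E, HasDerivWithinAt (fun u => Φ s u x) γ' (Icc (0:ℝ) 1) u ∧
            ‖γ' - lam u • Φ s u x‖ ≤ C * ‖Φ s u x‖) {s t : ℝ} (hs : s ∈ Icc (0:ℝ) 1)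
    (ht : t ∈ Icc (0:ℝ) 1) (k : ℕ) :
    (∀ j < k, iteratedFDeriv ℂ j (F s) 0 = 0) ↔ (∀ j < k, iteratedFDeriv ℂ j (F t) 0 = 0) := by
  have : CompleteSpace E := FiniteDimensional.complete ℂ E
  have hex : ∀ t : ℝ, ∃ K : ℕ, t ∈ Icc (0:ℝ) 1 → ∃ P : E → ℂ, Lead (F t) K P := by
    intro t
    by_cases htt : t ∈ Icc (0:ℝ) 1
    · obtain ⟨K, P, -, hL⟩ := red_lead (hr t htt)
      exact ⟨K, fun _ => ⟨P, hL⟩⟩
    · exact ⟨0, fun h' => absurd h' htt⟩
  choose K hK using hex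
  have hloc : ∀ s ∈ Icc (0:ℝ) 1, ∃ η : ℝ, 0 < η ∧ ∀ t ∈ Icc (0:ℝ) 1, |t - s| < η → K t = K s := by
    intro s hs
    obtain ⟨P, hL⟩ := hK s hs
    obtain ⟨v, κ, C, η, hκ, hη, ⟨r0, hr0, hcone⟩, hev⟩ := h s hs
    -- `v ≠ 0`
    have hv0 : v ≠ 0 := by
      intro hv
      refine hcone ((r0 / 2 : ℝ) : ℂ) 0 ?_ ?_ ?_ (hr s hs).2.1
      · rw [Complex.norm_real, Real.norm_eq_abs, abs_of_pos (by positivity)]
        positivity
      · rw [Complex.norm_real, Real.norm_eq_abs, abs_of_pos (by positivity)]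
        linarith
      · rw [hv, smul_zero, sub_zero, norm_zero]
        positivity
    have hn : 0 < ‖v‖ := norm_pos_iff.2 hv0
    have hnC : ((‖v‖ : ℝ) : ℂ) ≠ 0 := by exact_mod_cast hn.ne'
    obtain ⟨v1, hv1⟩ : ∃ v1 : E, v1 = ((‖v‖ : ℝ) : ℂ)⁻¹ • v := ⟨_, rfl⟩
    have hv1n : ‖v1‖ = 1 := by
      rw [hv1, norm_smul, norm_inv, Complex.norm_real, norm_norm]
      exact inv_mul_cancel₀ hn.ne'
    obtain ⟨κ1, hκ1⟩ : ∃ κ1 : ℝ, κ1 = min (κ / ‖v‖ / 2) (1 / 4) := ⟨_, rfl⟩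
    have hκ10 : 0 < κ1 := by
      rw [hκ1]
      exact lt_min (by positivity) (by norm_num)
    have hκ14 : κ1 ≤ 1 / 4 := by
      rw [hκ1]
      exact min_le_right _ _
    have hκ1a : κ1 ≤ κ / ‖v‖ / 2 := by
      rw [hκ1]
      exact min_le_left _ _
    obtain ⟨l, hl, hlv⟩ := exists_dual_vector ℂ v1 (by rw [hv1n]; exact one_ne_zero)
    have hlv' : l v1 = 1 := by
      rw [hlv, hv1n]
      simp
    have hconv : ∀ x : E, ‖x - l x • v1‖ ≤ κ1 * ‖l x‖ →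
        ‖x - (l x / ((‖v‖ : ℝ) : ℂ)) • v‖ ≤ κ * ‖l x / ((‖v‖ : ℝ) : ℂ)‖ := by
      intro x hx
      have e1 : (l x / ((‖v‖ : ℝ) : ℂ)) • v = l x • v1 := by
        rw [hv1, smul_smul, div_eq_mul_inv]
      have e2 : ‖l x / ((‖v‖ : ℝ) : ℂ)‖ = ‖l x‖ / ‖v‖ := by
        rw [norm_div, Complex.norm_real, norm_norm]
      rw [e1, e2]
      have h1 : κ1 * ‖l x‖ ≤ κ / ‖v‖ / 2 * ‖l x‖ := mul_le_mul_of_nonneg_right hκ1a (norm_nonneg _)
      have h2 : κ / ‖v‖ / 2 * ‖l x‖ = κ * (‖l x‖ / ‖v‖) / 2 := by ring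
      have h3 : 0 ≤ κ * (‖l x‖ / ‖v‖) := by positivity
      linarith
    have hfree : HornFree (F s) v1 l (fun t => κ1 * |t|) := by
      refine ⟨r0 * ‖v‖, by positivity, ?_⟩
      intro x hx1 hx2 hx3
      have hx4 : ‖x - l x • v1‖ ≤ κ1 * |‖l x‖| := hx3
      rw [abs_of_nonneg (norm_nonneg _)] at hx4
      have e2 : ‖l x / ((‖v‖ : ℝ) : ℂ)‖ = ‖l x‖ / ‖v‖ := by
        rw [norm_div, Complex.norm_real, norm_norm]
      refine hcone (l x / ((‖v‖ : ℝ) : ℂ)) x ?_ ?_ (hconv x hx4)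
      · rw [e2]
        positivity
      · rw [e2, div_lt_iff₀ hn]
        exact hx2
    obtain ⟨C', hC'⟩ : ∃ C' : ℝ, C' = max C 1 := ⟨_, rfl⟩
    have hC'0 : 0 < C' := by
      rw [hC']
      exact lt_max_of_lt_right one_pos
    have hCC' : C ≤ C' := by
      rw [hC']
      exact le_max_left _ _
    obtain ⟨δ, hδe⟩ : ∃ δ : ℝ, δ = κ1 / 40 := ⟨_, rfl⟩
    have hδ : 0 < δ := by rw [hδe]; positivity
    have hδκ : 20 * δ < κ1 := by rw [hδe]; linarith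
    have hδ1 : δ ≤ 1 := by rw [hδe]; linarith
    have hlog : 0 < Real.log (1 + δ / 2) := Real.log_pos (by linarith)
    have hexp : ∀ a : ℝ, a < Real.log (1 + δ / 2) / C' → Real.exp (C' * a) - 1 ≤ δ / 2 := by
      intro a ha
      have h1 : C' * a ≤ Real.log (1 + δ / 2) := by
        rw [lt_div_iff₀ hC'0] at ha
        linarith
      have h2 : Real.exp (C' * a) ≤ 1 + δ / 2 := by
        calc Real.exp (C' * a) ≤ Real.exp (Real.log (1 + δ / 2)) := Real.exp_le_exp.2 h1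
          _ = 1 + δ / 2 := Real.exp_log (by linarith)
      linarith
    refine ⟨min η (Real.log (1 + δ / 2) / C'), lt_min hη (by positivity), ?_⟩
    intro t ht hts
    obtain ⟨P', hL'⟩ := hK t ht
    have hts1 : |t - s| < η := lt_of_lt_of_le hts (min_le_left _ _)
    have hts2 : |t - s| < Real.log (1 + δ / 2) / C' := lt_of_lt_of_le hts (min_le_right _ _)
    refine (ang_pair (hr s hs) (hr t ht) (hE s hs t ht) hL hL' hv1n hl.le hlv' hκ14 hδ hδκ hfree ?_).symm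
    filter_upwards [hev] with x hx _ hx2
    obtain ⟨hΦ, lam, hlam, hder⟩ := hx ⟨_, hconv x hx2⟩
    have key : ∃ w : ℂ, w ≠ 0 ∧ ‖Φ s t x - w • x‖ ≤ δ / 2 * ‖w • x‖ := by
      rcases le_total s t with hst | hst
      · have hsub : Icc s t ⊆ Icc (0:ℝ) 1 := Icc_subset_Icc hs.1 ht.2
        obtain ⟨w, hw, hwb⟩ := gron (γ := fun u => Φ s u x) (lam := lam) (C := C') hst hC'0 (hlam.mono hsub) (by
          intro u hu
          have hu' : |u - s| < η := by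
            rw [abs_of_nonneg (by linarith [hu.1])]
            rw [abs_of_nonneg (by linarith)] at hts1
            linarith [hu.2]
          obtain ⟨γ', hγ1, hγ2⟩ := hder u (hsub hu) hu'
          exact ⟨γ', hγ1.mono hsub, hγ2.trans (mul_le_mul_of_nonneg_right hCC' (norm_nonneg _))⟩)
        refine ⟨w, hw, ?_⟩
        have hwb' : ‖Φ s t x - w • Φ s s x‖ ≤ (Real.exp (C' * (t - s)) - 1) * ‖w • Φ s s x‖ := hwb
        rw [hΦ] at hwb'
        refine hwb'.trans (mul_le_mul_of_nonneg_right (hexp _ ?_) (norm_nonneg _))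
        rwa [abs_of_nonneg (by linarith)] at hts2
      · have hsub : Icc t s ⊆ Icc (0:ℝ) 1 := Icc_subset_Icc ht.1 hs.2
        obtain ⟨w, hw, hwb⟩ := gron_back (γ := fun u => Φ s u x) (lam := lam) (C := C') hst hC'0 (hlam.mono hsub) (by
          intro u hu
          have hu' : |u - s| < η := by
            rw [abs_of_nonpos (by linarith [hu.2])]
            rw [abs_of_nonpos (by linarith)] at hts1
            linarith [hu.1]
          obtain ⟨γ', hγ1, hγ2⟩ := hder u (hsub hu) hu'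
          exact ⟨γ', hγ1.mono hsub, hγ2.trans (mul_le_mul_of_nonneg_right hCC' (norm_nonneg _))⟩)
        refine ⟨w, hw, ?_⟩
        have hwb' : ‖Φ s t x - w • Φ s s x‖ ≤ (Real.exp (C' * (s - t)) - 1) * ‖w • Φ s s x‖ := hwb
        rw [hΦ] at hwb'
        refine hwb'.trans (mul_le_mul_of_nonneg_right (hexp _ ?_) (norm_nonneg _))
        rw [abs_of_nonpos (by linarith)] at hts2
        linarith
    obtain ⟨w, -, hw⟩ := key
    refine ⟨w, hw.trans ?_⟩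
    have h1 : ‖w • x‖ ≤ ‖Φ s t x‖ + ‖Φ s t x - w • x‖ := by
      calc ‖w • x‖ = ‖Φ s t x - (Φ s t x - w • x)‖ := by congr 1; abel
        _ ≤ _ := norm_sub_le _ _
    have h2 : δ / 2 * ‖w • x‖ ≤ 1 / 2 * ‖w • x‖ := mul_le_mul_of_nonneg_right (by linarith) (norm_nonneg _)
    have h3 : ‖w • x‖ ≤ 2 * ‖Φ s t x‖ := by linarith
    calc δ / 2 * ‖w • x‖ ≤ δ / 2 * (2 * ‖Φ s t x‖) := mul_le_mul_of_nonneg_left h3 (by positivity)
      _ = δ * ‖Φ s t x‖ := by ring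
  have hcont : ContinuousOn K (Icc (0:ℝ) 1) := by
    intro s hs
    obtain ⟨η, hη, h1⟩ := hloc s hs
    have h2 : ∀ᶠ t in 𝓝[Icc (0:ℝ) 1] s, K s = K t := by
      have h3 : ∀ᶠ t in 𝓝[Icc (0:ℝ) 1] s, |t - s| < η := by
        have h4 : Metric.ball s η ∈ 𝓝 s := Metric.ball_mem_nhds s hη
        have h5 : ∀ᶠ t in 𝓝 s, |t - s| < η := by
          filter_upwards [h4] with t ht
          rwa [Metric.mem_ball, Real.dist_eq] at ht
        exact h5.filter_mono nhdsWithin_le_nhds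
      filter_upwards [h3, self_mem_nhdsWithin] with t ht htt
      exact (h1 t htt ht).symm
    exact tendsto_const_nhds.congr' h2
  have hKK : K s = K t := isPreconnected_Icc.constant hcont hs ht
  obtain ⟨P, hL⟩ := hK s hs
  obtain ⟨P', hL'⟩ := hK t ht
  rw [lead_order (hr s hs).1 hL k, lead_order (hr t ht).1 hL' k, hKK]

end Zr
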