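import Pool.Agent.helper60.Zr.RA2

set_option autoImplicit false

/-!
# Zr, module RB1: power sums of the zeros on parallel discs are analytic

`psum_an`: the integrand `w ^ p * fderiv ℂ f (x + w • v) v / f (x + w • v)` is analytic in `x` near every `x ∈ ball 0 α`, for every `w` on the circle, jointly continuous, and its derivative in `x` is jointly continuous, so bounded for
`x` near `x0` and `w` on the compact circle. Differentiate under the integral sign (`hasFDerivAt_integral_of_dominated_of_fderiv_le`, interval integral version): `psum f v ρ p` is differentiable on `ball 0 α`; `diff_an` (RA2).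
-/

noncomputable section

namespace Zr

open Filter Topology Set

variable {E : Type*} [NormedAddCommGroup E] [NormedSpace ℂ E]

/-- the sum of the `p`-th powers of the zeros of `w ↦ f (x + w • v)` in the disc of radius `ρ` -/
def psum (f : E → ℂ) (v : E) (ρ : ℝ) (p : ℕ) (x : E) : ℂ :=
  (2 * Real.pi * Complex.I)⁻¹ * ∮ w in C(0, ρ), w ^ p * (fderiv ℂ f (x + w • v) v / f (x + w • v))

variable [FiniteDimensional ℂ E]

omit [FiniteDimensional ℂ E] in
theorem RB1_an {f : E → ℂ} {v : E} (p : ℕ) {x : E} {w : ℂ} (hf : AnalyticAt ℂ f (x + w • v))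
    (h0 : f (x + w • v) ≠ 0) :
    AnalyticAt ℂ (fun q : E × ℂ => q.2 ^ p * (fderiv ℂ f (q.1 + q.2 • v) v / f (q.1 + q.2 • v)))
      (x, w) := by
  have h1 : AnalyticAt ℂ (fun q : E × ℂ => q.1 + q.2 • v) (x, w) :=
    analyticAt_fst.add (analyticAt_snd.smul analyticAt_const)
  have h2 : AnalyticAt ℂ (fun q : E × ℂ => f (q.1 + q.2 • v)) (x, w) :=
    AnalyticAt.fun_comp (g := f) (f := fun q : E × ℂ => q.1 + q.2 • v) (x := (x, w)) hf h1
  have h3 : AnalyticAt ℂ (fun q : E × ℂ => fderiv ℂ f (q.1 + q.2 • v)) (x, w) :=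
    AnalyticAt.fun_comp (g := fderiv ℂ f) (f := fun q : E × ℂ => q.1 + q.2 • v) (x := (x, w))
      hf.fderiv h1
  have h4 : AnalyticAt ℂ (fun q : E × ℂ => fderiv ℂ f (q.1 + q.2 • v) v) (x, w) :=
    AnalyticAt.fun_comp (g := fun L : E →L[ℂ] ℂ => L v)
      (f := fun q : E × ℂ => fderiv ℂ f (q.1 + q.2 • v)) (x := (x, w))
      ((ContinuousLinearMap.apply ℂ ℂ v).analyticAt _) h3
  exact (analyticAt_snd.pow p).mul (h4.div h2 h0)

theorem psum_an {f : E → ℂ} {v : E} {ρ α : ℝ} (hρ : 0 < ρ)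
    (hf : ∀ x : E, ‖x‖ < α → ∀ w : ℂ, ‖w‖ = ρ → AnalyticAt ℂ f (x + w • v))
    (h0 : ∀ x : E, ‖x‖ < α → ∀ w : ℂ, ‖w‖ = ρ → f (x + w • v) ≠ 0) (p : ℕ) :
    AnalyticOnNhd ℂ (psum f v ρ p) (Metric.ball 0 α) := by
  refine diff_an Metric.isOpen_ball (fun x0 hx0 => DifferentiableAt.differentiableWithinAt ?_)
  have hx0' : ‖x0‖ < α := mem_ball_zero_iff.1 hx0
  have _hps : ProperSpace E := FiniteDimensional.proper ℂ E
  let Φ : E × ℂ → ℂ := fun q => q.2 ^ p * (fderiv ℂ f (q.1 + q.2 • v) v / f (q.1 + q.2 • v))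
  have hAn : ∀ (x : E) (w : ℂ), ‖x‖ < α → ‖w‖ = ρ → AnalyticAt ℂ Φ (x, w) := fun x w hx hw =>
    RB1_an p (hf x hx w hw) (h0 x hx w hw)
  let G : E × ℂ → E →L[ℂ] ℂ := fun q => (fderiv ℂ Φ q).comp (ContinuousLinearMap.inl ℂ E ℂ)
  have hGc : ∀ (x : E) (w : ℂ), ‖x‖ < α → ‖w‖ = ρ → ContinuousAt G (x, w) := fun x w hx hw =>
    (hAn x w hx hw).fderiv.continuousAt.clm_comp continuousAt_const
  have hδ : 0 < (α - ‖x0‖) / 2 := by linarith
  have hKα : ∀ x ∈ Metric.closedBall x0 ((α - ‖x0‖) / 2), ‖x‖ < α := by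
    intro x hx
    have h1 : ‖x - x0‖ ≤ (α - ‖x0‖) / 2 := by
      rw [← dist_eq_norm]
      exact hx
    have h2 : ‖x‖ ≤ ‖x - x0‖ + ‖x0‖ := by
      have h3 := norm_add_le (x - x0) x0
      rwa [sub_add_cancel] at h3
    linarith
  have hK : IsCompact (Metric.closedBall x0 ((α - ‖x0‖) / 2) ×ˢ Metric.sphere (0 : ℂ) ρ) :=
    (isCompact_closedBall _ _).prod (isCompact_sphere _ _)
  have hsph : ∀ w ∈ Metric.sphere (0 : ℂ) ρ, ‖w‖ = ρ := fun w hw => mem_sphere_zero_iff_norm.1 hw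
  have hcm : ∀ θ : ℝ, ‖circleMap 0 ρ θ‖ = ρ := by
    intro θ
    rw [norm_circleMap_zero, abs_of_pos hρ]
  obtain ⟨C, hC⟩ := hK.exists_bound_of_continuousOn (f := G)
    (fun q hq => (hGc q.1 q.2 (hKα _ hq.1) (hsph _ hq.2)).continuousWithinAt)
  have hdc : Continuous (fun θ : ℝ => deriv (circleMap 0 ρ) θ) := by
    have h1 : (fun θ : ℝ => deriv (circleMap 0 ρ) θ) = fun θ => circleMap 0 ρ θ * Complex.I := by
      funext θ
      exact deriv_circleMap 0 ρ θ
    rw [h1]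
    exact (continuous_circleMap 0 ρ).mul continuous_const
  have hpair : ∀ x : E, Continuous (fun θ : ℝ => ((x, circleMap 0 ρ θ) : E × ℂ)) := fun x =>
    continuous_const.prodMk (continuous_circleMap 0 ρ)
  have hFc : ∀ x : E, ‖x‖ < α →
      Continuous (fun θ : ℝ => deriv (circleMap 0 ρ) θ • Φ (x, circleMap 0 ρ θ)) := by
    intro x hx
    refine hdc.smul (continuous_iff_continuousAt.2 (fun θ => ?_))
    exact ContinuousAt.comp (g := Φ) (hAn x _ hx (hcm θ)).continuousAt (hpair x).continuousAt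
  have hGc' : ∀ x : E, ‖x‖ < α →
      Continuous (fun θ : ℝ => deriv (circleMap 0 ρ) θ • G (x, circleMap 0 ρ θ)) := by
    intro x hx
    refine hdc.smul (continuous_iff_continuousAt.2 (fun θ => ?_))
    exact ContinuousAt.comp (g := G) (hGc x _ hx (hcm θ)) (hpair x).continuousAt
  have hs : Metric.closedBall x0 ((α - ‖x0‖) / 2) ∈ 𝓝 x0 := Metric.closedBall_mem_nhds _ hδ
  have key := intervalIntegral.hasFDerivAt_integral_of_dominated_of_fderiv_le (𝕜 := ℂ)
    (μ := MeasureTheory.volume) (a := 0) (b := 2 * Real.pi)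
    (F := fun (x : E) (θ : ℝ) => deriv (circleMap 0 ρ) θ • Φ (x, circleMap 0 ρ θ))
    (F' := fun (x : E) (θ : ℝ) => deriv (circleMap 0 ρ) θ • G (x, circleMap 0 ρ θ))
    (x₀ := x0) (bound := fun _ => ρ * C) hs
    (Filter.eventually_of_mem hs (fun x hx => (hFc x (hKα x hx)).aestronglyMeasurable))
    ((hFc x0 hx0').intervalIntegrable _ _)
    (hGc' x0 hx0').aestronglyMeasurable
    (Filter.Eventually.of_forall (fun θ _ x hx => ?_))
    intervalIntegrable_const
    (Filter.Eventually.of_forall (fun θ _ x hx => ?_))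
  · have h1 : DifferentiableAt ℂ (fun x => (2 * Real.pi * Complex.I : ℂ)⁻¹ *
        ∫ θ in (0 : ℝ)..2 * Real.pi, deriv (circleMap 0 ρ) θ • Φ (x, circleMap 0 ρ θ)) x0 :=
      key.differentiableAt.const_mul _
    exact h1
  · rw [norm_smul]
    have h1 : ‖deriv (circleMap 0 ρ) θ‖ = ρ := by
      rw [deriv_circleMap, norm_mul, hcm, Complex.norm_I, mul_one]
    rw [h1]
    exact mul_le_mul_of_nonneg_left
      (hC _ ⟨hx, mem_sphere_zero_iff_norm.2 (hcm θ)⟩) hρ.le
  · have h1 : HasFDerivAt Φ (fderiv ℂ Φ (x, circleMap 0 ρ θ)) (x, circleMap 0 ρ θ) :=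
      (hAn x _ (hKα x hx) (hcm θ)).differentiableAt.hasFDerivAt
    have h2 : HasFDerivAt (fun y : E => ((y, circleMap 0 ρ θ) : E × ℂ))
        (ContinuousLinearMap.inl ℂ E ℂ) x := hasFDerivAt_prodMk_left x _
    have h3 := HasFDerivAt.comp (g := Φ) x h1 h2
    exact HasFDerivAt.const_smul h3 (deriv (circleMap 0 ρ) θ)

end Zr
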