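import Mathlib

set_option autoImplicit false

/-!
# Zr, module RB2: the argument principle with powers

`residues`: the zeros in the closed disc are isolated (`h ≠ 0` on the circle, connectedness) and finite (compactness). Write `h w = (∏ z ∈ Z, (w - z) ^ m z) * u w` with `u` analytic and nonvanishing near every point of the closed disc (divide out the zeros one after
the other, induction on the number of zeros; at a zero `z`: `AnalyticAt.exists_eventuallyEq_pow_smul_nonzero_iff` or `analyticOrderAt`; or define `u` as the quotient, with the obvious values at the zeros). Then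
`deriv h w / h w = ∑ m z / (w - z) + deriv u w / u w` on the circle, `∮ w ^ p / (w - z) = 2 π i z ^ p` (Cauchy's formula, `Complex.circleIntegral_div_sub_of_differentiable_on_off_countable` or similar), and `∮ w ^ p * deriv u w / u w = 0` (Cauchy's theorem).
-/

noncomputable section

namespace Zr

open Filter Topology Set

theorem RB2_fin {h : ℂ → ℂ} {ρ : ℝ} (hρ : 0 < ρ) (hh : ∀ w : ℂ, ‖w‖ ≤ ρ → AnalyticAt ℂ h w)
    (h0 : ∀ w : ℂ, ‖w‖ = ρ → h w ≠ 0) : {w : ℂ | ‖w‖ < ρ ∧ h w = 0}.Finite := by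
  by_contra hinf
  have hK : IsCompact (Metric.closedBall (0:ℂ) ρ) := isCompact_closedBall _ _
  have hsub : {w : ℂ | ‖w‖ < ρ ∧ h w = 0} ⊆ Metric.closedBall (0:ℂ) ρ := by
    intro w hw
    rw [mem_closedBall_zero_iff]
    exact hw.1.le
  obtain ⟨x, hx, hacc⟩ := Set.Infinite.exists_accPt_of_subset_isCompact hinf hK hsub
  have hA : AnalyticOnNhd ℂ h (Metric.closedBall (0:ℂ) ρ) := fun w hw => hh w (mem_closedBall_zero_iff.1 hw)
  have hc : IsPreconnected (Metric.closedBall (0:ℂ) ρ) := (convex_closedBall _ _).isPreconnected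
  have hf : ∃ᶠ w in 𝓝[≠] x, h w = 0 := by
    rw [accPt_iff_frequently_nhdsNE] at hacc
    exact hacc.mono fun w hw => hw.2
  have hz := hA.eqOn_zero_of_preconnected_of_frequently_eq_zero hc hx hf
  have hn : ‖((ρ : ℝ) : ℂ)‖ = ρ := by
    rw [Complex.norm_real, Real.norm_eq_abs, abs_of_pos hρ]
  exact h0 _ hn (hz (mem_closedBall_zero_iff.2 hn.le))

theorem RB2_aux {ρ : ℝ} (hρ : 0 < ρ) : ∀ (n : ℕ) (h : ℂ → ℂ), (∀ w : ℂ, ‖w‖ ≤ ρ → AnalyticAt ℂ h w) →
    (∀ w : ℂ, ‖w‖ = ρ → h w ≠ 0) → {w : ℂ | ‖w‖ < ρ ∧ h w = 0}.ncard = n →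
    ∃ (Z : Finset ℂ) (m : ℂ → ℕ), (∀ w, w ∈ Z ↔ ‖w‖ < ρ ∧ h w = 0) ∧ (∀ w ∈ Z, 1 ≤ m w) ∧
      ∀ p : ℕ, (∮ w in C(0, ρ), w ^ p * (deriv h w / h w)) = (2 * Real.pi * Complex.I) * ∑ w ∈ Z, (m w : ℂ) * w ^ p := by
  intro n
  induction n with
  | zero =>
    intro h hh h0 hn
    have hfin := RB2_fin hρ hh h0
    rw [Set.ncard_eq_zero hfin] at hn
    have hne : ∀ w : ℂ, ‖w‖ ≤ ρ → h w ≠ 0 := by
      intro w hw hz
      rcases hw.lt_or_eq with h1 | h1
      · have : w ∈ {w : ℂ | ‖w‖ < ρ ∧ h w = 0} := ⟨h1, hz⟩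
        rw [hn] at this
        exact this
      · exact h0 w h1 hz
    refine ⟨∅, fun _ => 1, fun w => ?_, by simp, fun p => ?_⟩
    · simp only [Finset.notMem_empty, false_iff]
      rintro ⟨h1, h2⟩
      exact hne w h1.le h2
    · rw [Finset.sum_empty, mul_zero]
      have han : ∀ w : ℂ, ‖w‖ ≤ ρ → AnalyticAt ℂ (fun w => w ^ p * (deriv h w / h w)) w := by
        intro w hw
        have h1 := hh w hw
        exact (by fun_prop : AnalyticAt ℂ (fun w : ℂ => w ^ p) w).mul (h1.deriv.div h1 (hne w hw))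
      refine Complex.circleIntegral_eq_zero_of_differentiable_on_off_countable hρ.le Set.countable_empty ?_ ?_
      · intro w hw
        exact (han w (mem_closedBall_zero_iff.1 hw)).continuousAt.continuousWithinAt
      · intro w hw
        exact (han w (mem_ball_zero_iff.1 hw.1).le).differentiableAt
  | succ n ih =>
    intro h hh h0 hn
    have hfin := RB2_fin hρ hh h0
    obtain ⟨z, hz⟩ : {w : ℂ | ‖w‖ < ρ ∧ h w = 0}.Nonempty := by
      rw [← Set.ncard_pos hfin, hn]
      exact Nat.succ_pos n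
    have hA : AnalyticOnNhd ℂ h (Metric.closedBall (0:ℂ) ρ) := fun w hw => hh w (mem_closedBall_zero_iff.1 hw)
    have hc : IsPreconnected (Metric.closedBall (0:ℂ) ρ) := (convex_closedBall _ _).isPreconnected
    have hnz : ¬ ∀ᶠ w in 𝓝 z, h w = 0 := by
      intro hev
      have := hA.eqOn_zero_of_preconnected_of_eventuallyEq_zero hc (mem_closedBall_zero_iff.2 hz.1.le) hev
      have hn : ‖((ρ : ℝ) : ℂ)‖ = ρ := by
        rw [Complex.norm_real, Real.norm_eq_abs, abs_of_pos hρ]
      exact h0 _ hn (this (mem_closedBall_zero_iff.2 hn.le))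
    obtain ⟨k, g, hg, hgz, hgk⟩ := ((hh z hz.1.le).exists_eventuallyEq_pow_smul_nonzero_iff).2 hnz
    have hk : 1 ≤ k := by
      by_contra hk
      have hk0 : k = 0 := by omega
      have := hgk.self_of_nhds
      rw [hk0, pow_zero, one_smul, hz.2] at this
      exact hgz this.symm
    obtain ⟨u, hu⟩ : ∃ u : ℂ → ℂ, u = fun w => if w = z then g z else h w / (w - z) ^ k := ⟨_, rfl⟩
    have huz : u z = g z := by rw [hu]; simp
    have hune' : ∀ w, w ≠ z → u w = h w / (w - z) ^ k := by
      intro w hw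
      rw [hu]
      simp [hw]
    have hhu : ∀ w, h w = (w - z) ^ k * u w := by
      intro w
      by_cases hw : w = z
      · rw [hw, hz.2, sub_self, zero_pow (by omega), zero_mul]
      · have : (w - z) ^ k ≠ 0 := pow_ne_zero _ (sub_ne_zero.2 hw)
        rw [hune' w hw]
        field_simp
    have hu0 : u =ᶠ[𝓝 z] g := by
      filter_upwards [hgk] with w hw
      by_cases h1 : w = z
      · rw [h1, huz]
      · have : (w - z) ^ k ≠ 0 := pow_ne_zero _ (sub_ne_zero.2 h1)
        rw [hune' w h1, hw, smul_eq_mul]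
        field_simp
    have hua : ∀ w : ℂ, ‖w‖ ≤ ρ → AnalyticAt ℂ u w := by
      intro w hw
      by_cases h1 : w = z
      · rw [h1]
        exact hg.congr hu0.symm
      · have h2 : AnalyticAt ℂ (fun w : ℂ => h w / (w - z) ^ k) w :=
          (hh w hw).div (by fun_prop) (pow_ne_zero _ (sub_ne_zero.2 h1))
        refine h2.congr ?_
        filter_upwards [isOpen_ne.mem_nhds h1] with x hx
        exact (hune' x hx).symm
    have hune : ∀ w : ℂ, ‖w‖ = ρ → u w ≠ 0 := by
      intro w hw h1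
      apply h0 w hw
      rw [hhu w, h1, mul_zero]
    have hset : {w : ℂ | ‖w‖ < ρ ∧ u w = 0} = {w : ℂ | ‖w‖ < ρ ∧ h w = 0} \ {z} := by
      ext w
      constructor
      · rintro ⟨h1, h2⟩
        refine ⟨⟨h1, by rw [hhu w, h2, mul_zero]⟩, ?_⟩
        intro h3
        have h3' : w = z := h3
        rw [h3', huz] at h2
        exact hgz h2
      · rintro ⟨⟨h1, h2⟩, h3⟩
        have h3' : w ≠ z := h3
        refine ⟨h1, ?_⟩
        rw [hune' w h3', h2, zero_div]
    have hcard : {w : ℂ | ‖w‖ < ρ ∧ u w = 0}.ncard = n := by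
      rw [hset, Set.ncard_sdiff_singleton_of_mem hz, hn]
      rfl
    obtain ⟨Z, m, hZ, hm, hint⟩ := ih u hua hune hcard
    have hzZ : z ∉ Z := by
      intro h1
      have := ((hZ z).1 h1).2
      rw [huz] at this
      exact hgz this
    classical
    refine ⟨insert z Z, Function.update m z k, fun w => ?_, fun w hw => ?_, fun p => ?_⟩
    · rw [Finset.mem_insert, hZ w]
      have := Set.ext_iff.1 hset w
      constructor
      · rintro (h1 | h1)
        · rw [h1]; exact hz
        · exact (this.1 h1).1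
      · intro h1
        by_cases h2 : w = z
        · exact Or.inl h2
        · exact Or.inr (this.2 ⟨h1, h2⟩)
    · by_cases h1 : w = z
      · rw [h1, Function.update_self]
        exact hk
      · rw [Function.update_of_ne h1]
        refine hm w ?_
        rcases Finset.mem_insert.1 hw with h2 | h2
        · exact absurd h2 h1
        · exact h2
    · have hnz' : ∀ w : ℂ, ‖w‖ = ρ → w - z ≠ 0 := by
        intro w hw h1
        have : w = z := sub_eq_zero.1 h1
        rw [this] at hw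
        exact absurd hw hz.1.ne
      have hder : ∀ w : ℂ, ‖w‖ = ρ → w ^ p * (deriv h w / h w) =
          (w - z)⁻¹ • ((k : ℂ) * w ^ p) + w ^ p * (deriv u w / u w) := by
        intro w hw
        have h1 : HasDerivAt u (deriv u w) w := (hua w hw.le).differentiableAt.hasDerivAt
        have h2 : HasDerivAt (fun x : ℂ => (x - z) ^ k) ((k : ℂ) * (w - z) ^ (k - 1) * 1) w :=
          ((hasDerivAt_id w).sub_const z).pow k
        have h3 := h2.mul h1
        have h4 : h = fun x => (x - z) ^ k * u x := funext hhu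
        have h5 : deriv h w = (k : ℂ) * (w - z) ^ (k - 1) * 1 * u w + (w - z) ^ k * deriv u w := by
          rw [h4]
          exact h3.deriv
        have h6 := hune w hw
        have h7 := hnz' w hw
        have h8 : (w - z) ^ k = (w - z) ^ (k - 1) * (w - z) := by
          rw [← pow_succ]
          congr 1
          omega
        have h9 : (w - z) ^ (k - 1) ≠ 0 := pow_ne_zero _ h7
        rw [h5, hhu w, h8, smul_eq_mul]
        field_simp
      have hcong : (∮ w in C(0, ρ), w ^ p * (deriv h w / h w)) =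
          ∮ w in C(0, ρ), ((w - z)⁻¹ • ((k : ℂ) * w ^ p) + w ^ p * (deriv u w / u w)) := by
        refine circleIntegral.integral_congr hρ.le ?_
        intro w hw
        exact hder w (by rwa [mem_sphere_zero_iff_norm] at hw)
      have hi1 : CircleIntegrable (fun w : ℂ => (w - z)⁻¹ • ((k : ℂ) * w ^ p)) 0 ρ := by
        refine ContinuousOn.circleIntegrable hρ.le ?_
        have c1 : ContinuousOn (fun w : ℂ => w - z) (Metric.sphere (0:ℂ) ρ) := by fun_prop
        have c2 : ContinuousOn (fun w : ℂ => (k : ℂ) * w ^ p) (Metric.sphere (0:ℂ) ρ) := by fun_prop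
        refine (c1.inv₀ fun w hw => ?_).smul c2
        exact hnz' w (by rwa [mem_sphere_zero_iff_norm] at hw)
      have hi2 : CircleIntegrable (fun w : ℂ => w ^ p * (deriv u w / u w)) 0 ρ := by
        refine ContinuousOn.circleIntegrable hρ.le ?_
        intro w hw
        rw [mem_sphere_zero_iff_norm] at hw
        have h1 := hua w hw.le
        exact ((by fun_prop : AnalyticAt ℂ (fun w : ℂ => w ^ p) w).mul
          (h1.deriv.div h1 (hune w hw))).continuousAt.continuousWithinAt
      have hC : (∮ w in C(0, ρ), (w - z)⁻¹ • ((k : ℂ) * w ^ p)) = (2 * Real.pi * Complex.I) • ((k : ℂ) * z ^ p) := by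
        refine DiffContOnCl.circleIntegral_sub_inv_smul ?_ ?_
        · exact (by fun_prop : Differentiable ℂ fun w : ℂ => (k : ℂ) * w ^ p).diffContOnCl
        · rw [mem_ball_zero_iff]
          exact hz.1
      rw [hcong, circleIntegral.integral_add hi1 hi2, hC, hint p, Finset.sum_insert hzZ, Function.update_self,
        smul_eq_mul]
      have hs : ∑ w ∈ Z, ((Function.update m z k w : ℕ) : ℂ) * w ^ p = ∑ w ∈ Z, (m w : ℂ) * w ^ p := by
        refine Finset.sum_congr rfl fun w hw => ?_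
        have : w ≠ z := fun h1 => hzZ (h1 ▸ hw)
        rw [Function.update_of_ne this]
      rw [hs]
      ring

theorem residues {h : ℂ → ℂ} {ρ : ℝ} (hρ : 0 < ρ) (hh : ∀ w : ℂ, ‖w‖ ≤ ρ → AnalyticAt ℂ h w)
    (h0 : ∀ w : ℂ, ‖w‖ = ρ → h w ≠ 0) :
    ∃ (Z : Finset ℂ) (m : ℂ → ℕ), (∀ w, w ∈ Z ↔ ‖w‖ < ρ ∧ h w = 0) ∧ (∀ w ∈ Z, 1 ≤ m w) ∧
      ∀ p : ℕ, (2 * Real.pi * Complex.I)⁻¹ * (∮ w in C(0, ρ), w ^ p * (deriv h w / h w)) = ∑ w ∈ Z, (m w : ℂ) * w ^ p := by
  obtain ⟨Z, m, h1, h2, h3⟩ := RB2_aux hρ _ h hh h0 rfl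
  refine ⟨Z, m, h1, h2, fun p => ?_⟩
  rw [h3 p, ← mul_assoc, inv_mul_cancel₀ Complex.two_pi_I_ne_zero, one_mul]

end Zr
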