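import Mathlib

set_option autoImplicit false

/-!
# Zr, module RC: symmetric functions of weighted finite sets

`symm F s = ∑ e, F.coeff e * ∏ j, s (e j)`; if `s p = ∑ w ∈ Z, m w * w ^ p` then `symm F s = ∑ t ∈ Z ^ d, (∏ j, m (t j)) * eval t F` (`Finset.prod_univ_sum`, `MvPolynomial.eval_eq'`).
`symm_lt`: if `Z.card < d`, every `t : Fin d → Z` has two equal entries, so `eval t (disc d) = 0`.
`symm_disc_ne`: if `Z.card = d`: the nonzero terms come from the injective `t`, which are bijections onto `Z`; for these `∏ j, m (t j) = ∏ w ∈ Z, m w ≥ 1` and `eval t (disc d) = ∏_{i<j} (t i - t j) ^ 2` is the square of the Vandermonde determinant, the same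
nonzero number for all of them (a permutation changes the determinant by a sign: `Matrix.det_permute`, `Matrix.det_vandermonde`). So the sum is (number of bijections) * positive integer * nonzero.
`symm_G`: `eval t (disc d * ∏ X j) = eval t (disc d) * ∏ j, t j`, and for a bijection `∏ j, t j = ∏ w ∈ Z, w`.
-/

noncomputable section

namespace Zr

open Filter Topology Set

/-- the discriminant polynomial -/
def discP (d : ℕ) : MvPolynomial (Fin d) ℂ :=
  ∏ i : Fin d, ∏ j ∈ Finset.Ioi i, (MvPolynomial.X i - MvPolynomial.X j) ^ 2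

/-- the expression of a symmetric sum by power sums -/
def symm {d : ℕ} (F : MvPolynomial (Fin d) ℂ) (s : ℕ → ℂ) : ℂ :=
  ∑ e ∈ F.support, F.coeff e * ∏ j, s (e j)

theorem symm_eq {d : ℕ} (F : MvPolynomial (Fin d) ℂ) (Z : Finset ℂ) (m : ℂ → ℕ) {s : ℕ → ℂ}
    (hs : ∀ p, s p = ∑ w ∈ Z, (m w : ℂ) * w ^ p) :
    symm F s = ∑ t ∈ Fintype.piFinset (fun _ : Fin d => Z), (∏ j, (m (t j) : ℂ)) * MvPolynomial.eval t F := by
  unfold symm
  have h1 : ∀ e ∈ F.support, F.coeff e * ∏ j, s (e j)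
      = ∑ t ∈ Fintype.piFinset (fun _ : Fin d => Z), (∏ j, (m (t j) : ℂ)) * (F.coeff e * ∏ j, t j ^ (e j)) := by
    intro e _
    have h2 : ∏ j, s (e j) = ∏ j, ∑ w ∈ Z, (m w : ℂ) * w ^ (e j) := Finset.prod_congr rfl (fun j _ => hs (e j))
    rw [h2, Finset.prod_univ_sum, Finset.mul_sum]
    refine Finset.sum_congr rfl (fun t _ => ?_)
    rw [Finset.prod_mul_distrib]
    ring
  rw [Finset.sum_congr rfl h1, Finset.sum_comm]
  refine Finset.sum_congr rfl (fun t _ => ?_)
  rw [MvPolynomial.eval_eq', Finset.mul_sum]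

theorem RC_eval {d : ℕ} (t : Fin d → ℂ) : MvPolynomial.eval t (discP d) = (Matrix.vandermonde t).det ^ 2 := by
  rw [Matrix.det_vandermonde]
  unfold discP
  rw [map_prod, ← Finset.prod_pow]
  refine Finset.prod_congr rfl (fun i _ => ?_)
  rw [map_prod, ← Finset.prod_pow]
  refine Finset.prod_congr rfl (fun j _ => ?_)
  simp only [map_pow, map_sub, MvPolynomial.eval_X]
  ring

theorem RC_eval_zero {d : ℕ} {t : Fin d → ℂ} (ht : ¬ Function.Injective t) : MvPolynomial.eval t (discP d) = 0 := by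
  rw [RC_eval]
  have h : (Matrix.vandermonde t).det = 0 := by
    by_contra h
    exact ht (Matrix.det_vandermonde_ne_zero_iff.1 h)
  rw [h]
  simp

theorem RC_eval_ne {d : ℕ} {t : Fin d → ℂ} (ht : Function.Injective t) : MvPolynomial.eval t (discP d) ≠ 0 := by
  rw [RC_eval]
  exact pow_ne_zero 2 (Matrix.det_vandermonde_ne_zero_iff.2 ht)

theorem RC_prod {M : Type*} [CommMonoid M] {Z : Finset ℂ} (g : ℂ → M) {t : Fin Z.card → ℂ} (htZ : ∀ j, t j ∈ Z)
    (ht : Function.Injective t) : ∏ j, g (t j) = ∏ w ∈ Z, g w := by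
  have h1 : Finset.univ.image t = Z := by
    refine Finset.eq_of_subset_of_card_le ?_ ?_
    · intro w hw
      obtain ⟨j, -, rfl⟩ := Finset.mem_image.1 hw
      exact htZ j
    · rw [Finset.card_image_of_injective _ ht]
      simp
  conv_rhs => rw [← h1]
  rw [Finset.prod_image (fun a _ b _ h => ht h)]

theorem RC_perm {Z : Finset ℂ} {t t' : Fin Z.card → ℂ} (htZ : ∀ j, t j ∈ Z) (ht : Function.Injective t)
    (htZ' : ∀ j, t' j ∈ Z) (ht' : Function.Injective t') :
    MvPolynomial.eval t (discP Z.card) = MvPolynomial.eval t' (discP Z.card) := by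
  have key : ∀ u : Fin Z.card → ℂ, (∀ j, u j ∈ Z) → Function.Injective u → ∃ e : Fin Z.card ≃ Z, ∀ j, (e j : ℂ) = u j := by
    intro u huZ hu
    have hinj : Function.Injective (fun j : Fin Z.card => (⟨u j, huZ j⟩ : Z)) := by
      intro a b hab
      exact hu (congrArg Subtype.val hab)
    have hbij : Function.Bijective (fun j : Fin Z.card => (⟨u j, huZ j⟩ : Z)) := by
      rw [Fintype.bijective_iff_injective_and_card]
      exact ⟨hinj, by simp⟩
    exact ⟨Equiv.ofBijective _ hbij, fun j => rfl⟩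
  obtain ⟨e, he⟩ := key t htZ ht
  obtain ⟨e', he'⟩ := key t' htZ' ht'
  have hσ : ∀ j, t j = t' ((e.trans e'.symm) j) := by
    intro j
    rw [← he', ← he]
    simp
  have hm : Matrix.vandermonde t = (Matrix.vandermonde t').submatrix (e.trans e'.symm) id := by
    ext i j
    simp only [Matrix.vandermonde_apply, Matrix.submatrix_apply, id]
    rw [hσ i]
  rw [RC_eval, RC_eval, hm, Matrix.det_permute, mul_pow]
  have hs : (((Equiv.Perm.sign (e.trans e'.symm) : ℤˣ) : ℤ) : ℂ) ^ 2 = 1 := by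
    rcases Int.units_eq_one_or (Equiv.Perm.sign (e.trans e'.symm)) with h | h <;> rw [h] <;> simp
  rw [hs, one_mul]

theorem symm_lt {d : ℕ} (Z : Finset ℂ) (m : ℂ → ℕ) {s : ℕ → ℂ} (hs : ∀ p, s p = ∑ w ∈ Z, (m w : ℂ) * w ^ p)
    (hZ : Z.card < d) : symm (discP d) s = 0 ∧ symm (discP d * ∏ j, MvPolynomial.X j) s = 0 := by
  have hni : ∀ t ∈ Fintype.piFinset (fun _ : Fin d => Z), ¬ Function.Injective t := by
    intro t ht hinj
    rw [Fintype.mem_piFinset] at ht
    have h1 : (Finset.univ.image t).card ≤ Z.card := by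
      refine Finset.card_le_card ?_
      intro w hw
      obtain ⟨j, -, rfl⟩ := Finset.mem_image.1 hw
      exact ht j
    rw [Finset.card_image_of_injective _ hinj] at h1
    simp at h1
    omega
  constructor
  · rw [symm_eq _ Z m hs]
    refine Finset.sum_eq_zero (fun t ht => ?_)
    rw [RC_eval_zero (hni t ht), mul_zero]
  · rw [symm_eq _ Z m hs]
    refine Finset.sum_eq_zero (fun t ht => ?_)
    rw [map_mul, RC_eval_zero (hni t ht), zero_mul, mul_zero]

theorem symm_disc_ne (Z : Finset ℂ) (m : ℂ → ℕ) (hm : ∀ w ∈ Z, 1 ≤ m w) {s : ℕ → ℂ}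
    (hs : ∀ p, s p = ∑ w ∈ Z, (m w : ℂ) * w ^ p) : symm (discP Z.card) s ≠ 0 := by
  classical
  set t0 : Fin Z.card → ℂ := fun j => (Z.equivFin.symm j : ℂ) with ht0
  have ht0Z : ∀ j, t0 j ∈ Z := fun j => (Z.equivFin.symm j).2
  have ht0i : Function.Injective t0 := Subtype.val_injective.comp Z.equivFin.symm.injective
  have hV : MvPolynomial.eval t0 (discP Z.card) ≠ 0 := RC_eval_ne ht0i
  have hP : (∏ w ∈ Z, (m w : ℂ)) ≠ 0 := by
    rw [Finset.prod_ne_zero_iff]
    intro w hw
    have := hm w hw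
    exact_mod_cast (by omega : m w ≠ 0)
  rw [symm_eq _ Z m hs]
  have hterm : ∀ t ∈ Fintype.piFinset (fun _ : Fin Z.card => Z), (∏ j, (m (t j) : ℂ)) * MvPolynomial.eval t (discP Z.card)
      = if Function.Injective t then (∏ w ∈ Z, (m w : ℂ)) * MvPolynomial.eval t0 (discP Z.card) else 0 := by
    intro t ht
    rw [Fintype.mem_piFinset] at ht
    by_cases hi : Function.Injective t
    · rw [if_pos hi, RC_perm ht hi ht0Z ht0i, RC_prod (fun w => (m w : ℂ)) ht hi]
    · rw [if_neg hi, RC_eval_zero hi, mul_zero]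
  rw [Finset.sum_congr rfl hterm, ← Finset.sum_filter, Finset.sum_const, nsmul_eq_mul]
  refine mul_ne_zero ?_ (mul_ne_zero hP hV)
  have hmem : t0 ∈ (Fintype.piFinset (fun _ : Fin Z.card => Z)).filter (fun t => Function.Injective t) := by
    rw [Finset.mem_filter, Fintype.mem_piFinset]
    exact ⟨ht0Z, ht0i⟩
  exact_mod_cast (Finset.card_pos.2 ⟨t0, hmem⟩).ne'

theorem symm_G (Z : Finset ℂ) (m : ℂ → ℕ) {s : ℕ → ℂ} (hs : ∀ p, s p = ∑ w ∈ Z, (m w : ℂ) * w ^ p) :
    symm (discP Z.card * ∏ j, MvPolynomial.X j) s = symm (discP Z.card) s * ∏ w ∈ Z, w := by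
  rw [symm_eq _ Z m hs, symm_eq _ Z m hs, Finset.sum_mul]
  refine Finset.sum_congr rfl (fun t ht => ?_)
  rw [Fintype.mem_piFinset] at ht
  by_cases hi : Function.Injective t
  · have h1 : MvPolynomial.eval t (∏ j, MvPolynomial.X j : MvPolynomial (Fin Z.card) ℂ) = ∏ w ∈ Z, w := by
      rw [map_prod]
      simp only [MvPolynomial.eval_X]
      exact RC_prod (fun w => w) ht hi
    rw [map_mul, h1, mul_assoc]
  · rw [map_mul, RC_eval_zero hi]
    ring

end Zr
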