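import Pool.Agent.helper60.Zr.M9
import Pool.Agent.helper60.Zr.RB1
import Pool.Agent.helper60.Zr.RB2
import Pool.Agent.helper60.Zr.RC

set_option autoImplicit false

/-!
# Zr, module RD: if `f` generates the ideal of its zero set then the regular zeros are dense

`ideal_red`. `exists_lead` (M6): `k`, `P`, `v` with `P v ≠ 0`, so `f (w • v) ≠ 0` for `0 < ‖w‖ ≤ ρ` (`ρ` small), and `f` is analytic at the points `w • v`, `‖w‖ ≤ ρ`. By compactness there is `α > 0` with: for `‖x‖ < α`, `f` is analytic at `x + w • v` (`‖w‖ ≤ ρ`) and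
`f (x + w • v) ≠ 0` for `ρ / 2 ≤ ‖w‖ ≤ ρ`. For `‖x‖ < α` let `Z x`, `m x` be the zeros and multiplicities of `w ↦ f (x + w • v)` (`residues`; its derivative is `fderiv ℂ f (x + w • v) v`), so `psum f v ρ p x = ∑ w ∈ Z x, m x w * w ^ p`. `p = 0`: `(Z x).card ≤ psum .. 0 x`, which is an
integer and continuous in `x`, so constant on the ball: the cardinals are bounded. Let `d` be the maximum of `(Z x).card`, `‖x‖ < α`. `D x = symm (discP d) (psum .. x)`, `G x = symm (discP d * ∏ X j) (psum .. x)` are analytic on the ball (`psum_an`; finite sums and products), `D x ≠ 0` iff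
`(Z x).card = d` (`symm_lt`, `symm_disc_ne`), and `D` is not identically zero, so (`AnalyticOnNhd.eqOn_zero_of_preconnected_of_eventuallyEq_zero`, the ball is connected) `{D ≠ 0}` is dense in the ball. If `f x = 0`, `‖x‖ < α`, then `0 ∈ Z x` and `G x = 0` (`symm_lt` or `symm_G`). So by
`hI` `G = h * f` near `0`.
Now let `y` be near `0`, `f y = 0`, and `ε > 0`. Since `w = 0` is a zero of `w ↦ f (y + w • v)` (not identically zero), for `x` near `y` there is a zero `w` of `w ↦ f (x + w • v)` with `‖w‖ < ε` (for instance: otherwise the local winding number (`wd_zeros`, M3, on a small disc) would be zero; `Wd.close`,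
`Wd.disc`, or M5_stab of M5, or the minimum modulus principle / Hurwitz). Choose `x` with `D x ≠ 0` and put `x0 = x + w • v`: `f x0 = 0`, `x0` near `y`. If `‖w‖ < ρ / 4` then `Z x0 = Z x - w` (no zeros with `ρ / 2 ≤ ‖·‖ ≤ ρ`), so `(Z x0).card = d`, `D x0 ≠ 0`. Claim `fderiv ℂ f x0 v ≠ 0`. For small `τ`:
`Z (x0 + τ • v) = Z x0 - τ`, `G (x0 + τ • v) = D (x0 + τ • v) * ∏_{w ∈ Z x0} (w - τ)`, so `‖G (x0 + τ • v)‖ ≥ c ‖τ‖`, `c > 0` (the factor `w = 0` gives `-τ`, the others and `D` are bounded below). If `fderiv ℂ f x0 v = 0` then `f (x0 + τ • v) = O(‖τ‖ ^ 2)` and `G = h * f` gives a contradiction.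
-/

noncomputable section

namespace Zr

open Filter Topology Set

variable {E : Type*} [NormedAddCommGroup E] [NormedSpace ℂ E] [FiniteDimensional ℂ E]

omit [FiniteDimensional ℂ E] in
theorem RD_cpt {K : Set ℂ} (hK : IsCompact K) {q : E → Prop} {v x0 : E} (h : ∀ w ∈ K, ∀ᶠ z in 𝓝 (x0 + w • v), q z) :
    ∀ᶠ x in 𝓝 x0, ∀ w ∈ K, q (x + w • v) := by
  refine hK.eventually_forall_of_forall_eventually (P := fun x w => q (x + w • v)) ?_
  intro w hw
  have hc : ContinuousAt (fun p : E × ℂ => p.1 + p.2 • v) (x0, w) := by fun_prop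
  exact hc.eventually (h w hw)

theorem RD_setup {f : E → ℂ} (hf : AnalyticAt ℂ f 0) (hne : ¬ ∀ᶠ x in 𝓝 (0 : E), f x = 0) :
    ∃ (v : E) (ρ α : ℝ), 0 < ρ ∧ 0 < α ∧ (∀ x : E, ‖x‖ < α → ∀ w : ℂ, ‖w‖ ≤ ρ → AnalyticAt ℂ f (x + w • v)) ∧
      ∀ x : E, ‖x‖ < α → ∀ w : ℂ, ρ / 2 ≤ ‖w‖ → ‖w‖ ≤ ρ → f (x + w • v) ≠ 0 := by
  obtain ⟨k, P, hL⟩ := exists_lead hf hne
  obtain ⟨v, hv⟩ := hL.ne
  obtain ⟨C, hC, r1, hr1, hap⟩ := hL.approx
  have hM : 0 < ‖P v‖ := norm_pos_iff.2 hv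
  have hcont : ContinuousAt (fun w : ℂ => w • v) 0 := by fun_prop
  have hcont' : Tendsto (fun w : ℂ => w • v) (𝓝 0) (𝓝 (0 : E)) := by
    have := hcont.tendsto
    simpa using this
  have e1 : ∀ᶠ w : ℂ in 𝓝 0, AnalyticAt ℂ f (w • v) := hcont'.eventually hf.eventually_analyticAt
  have e2 : ∀ᶠ w : ℂ in 𝓝 0, ‖w • v‖ < r1 := by
    have := hcont'.norm
    rw [norm_zero] at this
    exact this.eventually (gt_mem_nhds hr1)
  have e3 : ∀ᶠ w : ℂ in 𝓝 0, ‖w‖ * (C * ‖v‖ ^ (k + 1)) < ‖P v‖ := by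
    have : Tendsto (fun w : ℂ => ‖w‖ * (C * ‖v‖ ^ (k + 1))) (𝓝 0) (𝓝 (‖(0:ℂ)‖ * (C * ‖v‖ ^ (k + 1)))) := by
      apply Continuous.tendsto
      fun_prop
    rw [norm_zero, zero_mul] at this
    exact this.eventually (gt_mem_nhds hM)
  obtain ⟨r, hr, hball⟩ := Metric.eventually_nhds_iff_ball.1 (e1.and (e2.and e3))
  have hnz : ∀ w : ℂ, ‖w‖ < r → w ≠ 0 → f (w • v) ≠ 0 := by
    intro w hw hw0 h0
    obtain ⟨-, h2, h3⟩ := hball w (by simpa using hw)
    have h4 := hap _ h2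
    rw [h0, zero_sub, norm_neg, hL.hom, norm_mul, norm_pow, norm_smul, mul_pow, pow_succ] at h4
    have hw1 : 0 < ‖w‖ := norm_pos_iff.2 hw0
    have hw2 : 0 < ‖w‖ ^ k := by positivity
    have h5 : ‖w‖ ^ k * ‖P v‖ ≤ ‖w‖ ^ k * (‖w‖ * (C * ‖v‖ ^ (k + 1))) := by
      calc _ ≤ _ := h4
        _ = _ := by ring
    have h6 := le_of_mul_le_mul_left h5 hw2
    linarith
  have hK1 : IsCompact (Metric.closedBall (0:ℂ) (r / 2)) := isCompact_closedBall _ _
  have hK2 : IsCompact (Metric.closedBall (0:ℂ) (r / 2) ∩ {w : ℂ | r / 2 / 2 ≤ ‖w‖}) :=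
    hK1.inter_right (isClosed_le continuous_const continuous_norm)
  have hin : ∀ w : ℂ, w ∈ Metric.closedBall (0:ℂ) (r / 2) → ‖w‖ < r := by
    intro w hw
    have : ‖w‖ ≤ r / 2 := by simpa using hw
    linarith
  have a1 := RD_cpt (x0 := (0 : E)) (v := v) hK1 (q := fun z => AnalyticAt ℂ f z) (by
    intro w hw
    rw [zero_add]
    exact (hball w (by simpa using hin w hw)).1.eventually_analyticAt)
  have a2 := RD_cpt (x0 := (0 : E)) (v := v) hK2 (q := fun z => f z ≠ 0) (by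
    intro w hw
    rw [zero_add]
    refine (hball w (by simpa using hin w hw.1)).1.continuousAt.eventually_ne ?_
    refine hnz w (hin w hw.1) ?_
    rintro rfl
    have : r / 2 / 2 ≤ ‖(0:ℂ)‖ := hw.2
    rw [norm_zero] at this
    linarith)
  obtain ⟨α, hα, hα'⟩ := Metric.eventually_nhds_iff_ball.1 (a1.and a2)
  refine ⟨v, r / 2, α, by positivity, hα, ?_, ?_⟩
  · intro x hx w hw
    exact (hα' x (by simpa using hx)).1 w (by simpa using hw)
  · intro x hx w hw1 hw2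
    exact (hα' x (by simpa using hx)).2 w ⟨by simpa using hw2, hw1⟩

omit [FiniteDimensional ℂ E] in
theorem RD_line {f : E → ℂ} {x v : E} {w : ℂ} (h : AnalyticAt ℂ f (x + w • v)) :
    AnalyticAt ℂ (fun w : ℂ => f (x + w • v)) w := by
  refine AnalyticAt.comp (g := f) (f := fun w : ℂ => x + w • v) h ?_
  fun_prop

omit [FiniteDimensional ℂ E] in
theorem RD_lined {f : E → ℂ} {x v : E} {w : ℂ} (h : DifferentiableAt ℂ f (x + w • v)) :
    HasDerivAt (fun w : ℂ => f (x + w • v)) (fderiv ℂ f (x + w • v) v) w := by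
  have h1 : HasDerivAt (fun w : ℂ => x + w • v) v w := by
    have a1 : HasDerivAt (fun w : ℂ => w • v) v w := by
      simpa using (hasDerivAt_id w).smul_const v
    exact a1.const_add x
  exact h.hasFDerivAt.comp_hasDerivAt w h1

omit [FiniteDimensional ℂ E] in
theorem RD_Z {f : E → ℂ} {x v : E} {ρ : ℝ} (hρ : 0 < ρ) (ha : ∀ w : ℂ, ‖w‖ ≤ ρ → AnalyticAt ℂ f (x + w • v))
    (h0 : ∀ w : ℂ, ‖w‖ = ρ → f (x + w • v) ≠ 0) :
    ∃ (Z : Finset ℂ) (m : ℂ → ℕ), (∀ w, w ∈ Z ↔ ‖w‖ < ρ ∧ f (x + w • v) = 0) ∧ (∀ w ∈ Z, 1 ≤ m w) ∧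
      ∀ p, psum f v ρ p x = ∑ w ∈ Z, (m w : ℂ) * w ^ p := by
  obtain ⟨Z, m, h1, h2, h3⟩ := residues (h := fun w : ℂ => f (x + w • v)) hρ (fun w hw => RD_line (ha w hw)) h0
  refine ⟨Z, m, h1, h2, fun p => ?_⟩
  rw [← h3 p]
  unfold psum
  congr 1
  apply circleIntegral.integral_congr hρ.le
  intro w hw
  have hw' : ‖w‖ = ρ := by simpa using hw
  have h4 := (RD_lined (ha w hw'.le).differentiableAt).deriv
  show w ^ p * _ = w ^ p * _
  rw [h4]

theorem RD_sym {Z : Finset ℂ} {m : ℂ → ℕ} (hm : ∀ w ∈ Z, 1 ≤ m w) {s : ℕ → ℂ}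
    (hs : ∀ p, s p = ∑ w ∈ Z, (m w : ℂ) * w ^ p) {d : ℕ} (h : Z.card = d) :
    symm (discP d) s ≠ 0 ∧ symm (discP d * ∏ j, MvPolynomial.X j) s = symm (discP d) s * ∏ w ∈ Z, w := by
  subst h
  exact ⟨symm_disc_ne Z m hm hs, symm_G Z m hs⟩

omit [FiniteDimensional ℂ E] in
theorem RD_an {d : ℕ} (F : MvPolynomial (Fin d) ℂ) {s : ℕ → E → ℂ} {U : Set E} (hs : ∀ p, AnalyticOnNhd ℂ (s p) U) :
    AnalyticOnNhd ℂ (fun x => symm F (fun p => s p x)) U := by
  intro x hx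
  unfold symm
  refine Finset.analyticAt_fun_sum _ (fun e _ => ?_)
  exact analyticAt_const.mul (Finset.analyticAt_fun_prod _ fun j _ => hs _ x hx)

omit [FiniteDimensional ℂ E] in
theorem RD_hur {f : E → ℂ} {y v : E} {ρ ε : ℝ} (hε : 0 < ε) (hερ : ε ≤ ρ) {Z : Finset ℂ}
    (ha : ∀ w : ℂ, ‖w‖ ≤ ρ → AnalyticAt ℂ f (y + w • v)) (hZ : ∀ w, w ∈ Z ↔ ‖w‖ < ρ ∧ f (y + w • v) = 0)
    (hy : f y = 0) : ∀ᶠ x in 𝓝 y, ∃ w : ℂ, ‖w‖ < ε ∧ f (x + w • v) = 0 := by
  classical
  obtain ⟨e, he, heZ⟩ : ∃ e ∈ Ioo (0:ℝ) ε, e ∉ Z.image (fun w => ‖w‖) := by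
    have h1 : (Ioo (0:ℝ) ε \ ((Z.image (fun w => ‖w‖) : Finset ℝ) : Set ℝ)).Infinite :=
      (Ioo_infinite hε).sdiff (Finset.finite_toSet _)
    obtain ⟨e, he⟩ := h1.nonempty
    exact ⟨e, he.1, fun h => he.2 (by exact_mod_cast h)⟩
  have hsph : ∀ w : ℂ, ‖w‖ = e → f (y + w • v) ≠ 0 := by
    intro w hw h0
    apply heZ
    rw [Finset.mem_image]
    refine ⟨w, (hZ w).2 ⟨by rw [hw]; linarith [he.2], h0⟩, hw⟩
  have hK : IsCompact (Metric.sphere (0:ℂ) e) := isCompact_sphere _ _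
  have hneK : (Metric.sphere (0:ℂ) e).Nonempty := NormedSpace.sphere_nonempty.2 he.1.le
  have hcy : ContinuousOn (fun w : ℂ => ‖f (y + w • v)‖) (Metric.sphere (0:ℂ) e) := by
    intro w hw
    have hw' : ‖w‖ = e := by simpa using hw
    have := (RD_line (ha w (by rw [hw']; linarith [he.2]))).continuousAt
    exact this.norm.continuousWithinAt
  obtain ⟨w0, hw0, hmin⟩ := hK.exists_isMinOn hneK hcy
  set c : ℝ := ‖f (y + w0 • v)‖ with hc
  have hc0 : 0 < c := norm_pos_iff.2 (hsph w0 (by simpa using hw0))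
  have b1 := RD_cpt (x0 := y) (v := v) hK (q := fun z => c / 2 < ‖f z‖) (by
    intro w hw
    have hw' : ‖w‖ = e := by simpa using hw
    have h1 : c ≤ ‖f (y + w • v)‖ := hmin hw
    have h2 := (ha w (by rw [hw']; linarith [he.2])).continuousAt.norm
    exact h2.eventually (lt_mem_nhds (by linarith)))
  have b2 := RD_cpt (x0 := y) (v := v) (isCompact_closedBall (0:ℂ) e) (q := fun z => AnalyticAt ℂ f z) (by
    intro w hw
    have hw' : ‖w‖ ≤ e := by simpa using hw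
    exact (ha w (by linarith [he.2])).eventually_analyticAt)
  have b3 : ∀ᶠ x in 𝓝 y, ‖f x‖ < c / 2 := by
    have h1 : ContinuousAt f y := by
      have := (ha 0 (by rw [norm_zero]; linarith)).continuousAt
      simpa using this
    have h2 := h1.norm
    refine h2.eventually (gt_mem_nhds ?_)
    show ‖f y‖ < c / 2
    rw [hy, norm_zero]
    linarith
  filter_upwards [b1, b2, b3] with x h1 h2 h3
  by_contra hcon
  push Not at hcon
  have hnz : ∀ w : ℂ, ‖w‖ ≤ e → f (x + w • v) ≠ 0 := fun w hw => hcon w (by linarith [he.2])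
  have hcl : closure (Metric.ball (0:ℂ) e) = Metric.closedBall 0 e := closure_ball _ he.1.ne'
  have hfr : frontier (Metric.ball (0:ℂ) e) = Metric.sphere 0 e := frontier_ball _ he.1.ne'
  have hd : DiffContOnCl ℂ (fun w : ℂ => f (x + w • v)) (Metric.ball 0 e) := by
    refine ⟨?_, ?_⟩
    · intro w hw
      have hw' : ‖w‖ < e := by simpa using hw
      exact (RD_line (h2 w (by simpa using hw'.le))).differentiableAt.differentiableWithinAt
    · rw [hcl]
      intro w hw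
      exact (RD_line (h2 w hw)).continuousAt.continuousWithinAt
  have hd' := hd.inv (by
    rw [hcl]
    intro w hw
    exact hnz w (by simpa using hw))
  have h4 := Complex.norm_le_of_forall_mem_frontier_norm_le Metric.isBounded_ball hd' (C := (c / 2)⁻¹) (by
    rw [hfr]
    intro w hw
    rw [Pi.inv_apply, norm_inv]
    exact inv_anti₀ (by linarith) (h1 w hw).le) (z := 0) (subset_closure (Metric.mem_ball_self he.1))
  rw [Pi.inv_apply, norm_inv, zero_smul, add_zero] at h4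
  have h5 : f x ≠ 0 := by
    have := hnz 0 (by rw [norm_zero]; exact he.1.le)
    simpa using this
  have h6 : 0 < ‖f x‖ := norm_pos_iff.2 h5
  have h7 := (inv_le_inv₀ h6 (by linarith)).1 h4
  linarith

theorem ideal_red {f : E → ℂ} (hf : AnalyticAt ℂ f 0) (hf0 : f 0 = 0) (hne : ¬ ∀ᶠ x in 𝓝 (0 : E), f x = 0)
    (hI : ∀ g : E → ℂ, AnalyticAt ℂ g 0 → (∀ᶠ z in 𝓝 (0 : E), f z = 0 → g z = 0) →
      ∃ h : E → ℂ, AnalyticAt ℂ h 0 ∧ ∀ᶠ z in 𝓝 (0 : E), g z = h z * f z) : Red f := by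
  classical
  obtain ⟨v, ρ, α0, hρ, hα0, ha, hnz⟩ := RD_setup hf hne
  have hps : ∀ p, AnalyticOnNhd ℂ (psum f v ρ p) (Metric.ball 0 α0) := fun p =>
    psum_an hρ (fun x hx w hw => ha x hx w hw.le) (fun x hx w hw => hnz x hx w (by rw [hw]; linarith) hw.le) p
  have hZe : ∀ x : E, ∃ (Z : Finset ℂ) (m : ℂ → ℕ), ‖x‖ < α0 → ((∀ w, w ∈ Z ↔ ‖w‖ < ρ ∧ f (x + w • v) = 0) ∧
      (∀ w ∈ Z, 1 ≤ m w) ∧ ∀ p, psum f v ρ p x = ∑ w ∈ Z, (m w : ℂ) * w ^ p) := by
    intro x
    by_cases hx : ‖x‖ < α0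
    · obtain ⟨Z, m, h⟩ := RD_Z hρ (ha x hx) (fun w hw => hnz x hx w (by rw [hw]; linarith) hw.le)
      exact ⟨Z, m, fun _ => h⟩
    · exact ⟨∅, 0, fun h => absurd h hx⟩
  choose Z m hZm using hZe
  have hZ : ∀ x : E, ‖x‖ < α0 → ∀ w, w ∈ Z x ↔ ‖w‖ < ρ ∧ f (x + w • v) = 0 := fun x hx => (hZm x hx).1
  -- the shifted zeros
  have hshift : ∀ (x : E) (w : ℂ), ‖x‖ < α0 → ‖x + w • v‖ < α0 → ‖w‖ < ρ / 4 →
      Z (x + w • v) = (Z x).image (fun u => u - w) := by
    intro x w hx hxw hw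
    ext u
    rw [Finset.mem_image]
    constructor
    · intro hu
      obtain ⟨hu1, hu2⟩ := (hZ _ hxw u).1 hu
      have hu3 : ‖u‖ < ρ / 2 := by
        by_contra hlt
        push Not at hlt
        exact hnz _ hxw u hlt hu1.le hu2
      refine ⟨u + w, (hZ x hx _).2 ⟨?_, ?_⟩, by ring⟩
      · have := norm_add_le u w
        linarith
      · rw [← hu2]
        congr 1
        rw [add_smul]
        abel
    · rintro ⟨u', hu', rfl⟩
      obtain ⟨hu1, hu2⟩ := (hZ x hx u').1 hu'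
      have hu3 : ‖u'‖ < ρ / 2 := by
        by_contra hlt
        push Not at hlt
        exact hnz _ hx u' hlt hu1.le hu2
      refine (hZ _ hxw _).2 ⟨?_, ?_⟩
      · have := norm_sub_le u' w
        linarith
      · rw [← hu2]
        congr 1
        rw [sub_smul]
        abel
  -- the cardinals are bounded
  set α : ℝ := α0 / 2 with hα
  have hαpos : 0 < α := by positivity
  have hαlt : ∀ x : E, ‖x‖ < α → ‖x‖ < α0 := fun x hx => by linarith
  obtain ⟨M, hM⟩ : ∃ M : ℝ, ∀ x : E, ‖x‖ < α → ‖psum f v ρ 0 x‖ ≤ M := by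
    have hc : ContinuousOn (psum f v ρ 0) (Metric.closedBall (0 : E) α) := by
      intro x hx
      have hx' : ‖x‖ ≤ α := by simpa using hx
      have hx2 : x ∈ Metric.ball (0 : E) α0 := by
        rw [mem_ball_zero_iff]
        linarith
      exact (hps 0 x hx2).continuousAt.continuousWithinAt
    have : ProperSpace E := FiniteDimensional.proper ℂ E
    obtain ⟨M, hM⟩ := (isCompact_closedBall (0 : E) α).exists_bound_of_continuousOn hc
    exact ⟨M, fun x hx => hM x (by simpa using hx.le)⟩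
  have hcard : ∀ x : E, ‖x‖ < α → (Z x).card ≤ ⌊M⌋₊ := by
    intro x hx
    obtain ⟨h1, h2, h3⟩ := hZm x (hαlt x hx)
    have h4 := hM x hx
    rw [h3 0] at h4
    have h5 : ∑ w ∈ Z x, (m x w : ℂ) * w ^ 0 = ((∑ w ∈ Z x, m x w : ℕ) : ℂ) := by
      push_cast
      simp
    rw [h5, Complex.norm_natCast] at h4
    have h6 : (Z x).card ≤ ∑ w ∈ Z x, m x w := by
      have := Finset.card_nsmul_le_sum (Z x) (fun w => m x w) 1 h2
      simpa using this
    apply Nat.le_floor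
    have h7 : ((Z x).card : ℝ) ≤ ((∑ w ∈ Z x, m x w : ℕ) : ℝ) := by exact_mod_cast h6
    linarith
  obtain ⟨x1, hx1, hmax⟩ : ∃ x1 : E, ‖x1‖ < α ∧ ∀ x : E, ‖x‖ < α → (Z x).card ≤ (Z x1).card := by
    have hne' : {n : ℕ | ∃ x : E, ‖x‖ < α ∧ (Z x).card = n}.Nonempty := ⟨_, 0, by simpa using hαpos, rfl⟩
    have hbd : BddAbove {n : ℕ | ∃ x : E, ‖x‖ < α ∧ (Z x).card = n} := by
      refine ⟨⌊M⌋₊, ?_⟩
      rintro n ⟨x, hx, rfl⟩
      exact hcard x hx
    obtain ⟨x1, hx1, h1⟩ := Nat.sSup_mem hne' hbd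
    refine ⟨x1, hx1, fun x hx => ?_⟩
    rw [h1]
    exact le_csSup hbd ⟨x, hx, rfl⟩
  obtain ⟨d, hd⟩ : ∃ d, (Z x1).card = d := ⟨_, rfl⟩
  rw [hd] at hmax
  set D : E → ℂ := fun x => symm (discP d) (fun p => psum f v ρ p x) with hD
  set G : E → ℂ := fun x => symm (discP d * ∏ j, MvPolynomial.X j) (fun p => psum f v ρ p x) with hG
  have hsub : Metric.ball (0 : E) α ⊆ Metric.ball (0 : E) α0 := Metric.ball_subset_ball (by linarith)
  have hDan : AnalyticOnNhd ℂ D (Metric.ball 0 α) := RD_an _ (fun p => (hps p).mono hsub)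
  have hGan : AnalyticOnNhd ℂ G (Metric.ball 0 α) := RD_an _ (fun p => (hps p).mono hsub)
  have hlt : ∀ x : E, ‖x‖ < α → (Z x).card < d → D x = 0 ∧ G x = 0 := by
    intro x hx hcx
    obtain ⟨h1, h2, h3⟩ := hZm x (hαlt x hx)
    exact symm_lt (Z x) (m x) h3 hcx
  have heq : ∀ x : E, ‖x‖ < α → (Z x).card = d → D x ≠ 0 ∧ G x = D x * ∏ w ∈ Z x, w := by
    intro x hx hcx
    obtain ⟨h1, h2, h3⟩ := hZm x (hαlt x hx)
    exact RD_sym h2 h3 hcx
  have hDne : ∀ x : E, ‖x‖ < α → D x ≠ 0 → (Z x).card = d := by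
    intro x hx hDx
    by_contra hcx
    exact hDx (hlt x hx (lt_of_le_of_ne (hmax x hx) hcx)).1
  have hG0 : ∀ x : E, ‖x‖ < α → f x = 0 → G x = 0 := by
    intro x hx hfx
    rcases (hmax x hx).lt_or_eq with h1 | h1
    · exact (hlt x hx h1).2
    · rw [(heq x hx h1).2]
      have h0 : (0:ℂ) ∈ Z x := (hZ x (hαlt x hx) 0).2 ⟨by simpa using hρ, by simpa using hfx⟩
      rw [Finset.prod_eq_zero h0 rfl, mul_zero]
  obtain ⟨h, hh, hGh⟩ := hI G (hGan 0 (Metric.mem_ball_self hαpos)) (by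
    filter_upwards [Metric.ball_mem_nhds (0 : E) hαpos] with z hz hfz
    exact hG0 z (by simpa using hz) hfz)
  obtain ⟨β, hβ, hβ'⟩ := Metric.eventually_nhds_iff_ball.1 (hh.eventually_analyticAt.and hGh)
  -- density
  have hdense : ∀ y : E, ‖y‖ < α → ∃ᶠ x in 𝓝 y, D x ≠ 0 := by
    intro y hy hcon
    have h1 : D =ᶠ[𝓝 y] 0 := by
      filter_upwards [hcon] with x hx
      simpa using hx
    have hpre : IsPreconnected (Metric.ball (0 : E) α) := by
      let _ : NormedSpace ℝ E := NormedSpace.restrictScalars ℝ ℂ E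
      exact (convex_ball (0 : E) α).isPreconnected
    have h2 := hDan.eqOn_zero_of_preconnected_of_eventuallyEq_zero hpre (by simpa using hy) h1
    exact (heq x1 hx1 hd).1 (h2 (by simpa using hx1))
  -- regular points
  have hreg : ∀ x0 : E, ‖x0‖ < α → ‖x0‖ < β → f x0 = 0 → D x0 ≠ 0 → fderiv ℂ f x0 v ≠ 0 := by
    intro x0 h0 h0' hfx hDx hfd
    have hcd := hDne x0 h0 hDx
    have h0Z : (0:ℂ) ∈ Z x0 := (hZ x0 (hαlt x0 h0) 0).2 ⟨by simpa using hρ, by simpa using hfx⟩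
    have hcont : ContinuousAt (fun τ : ℂ => x0 + τ • v) 0 := by fun_prop
    have hval : x0 + (0:ℂ) • v = x0 := by simp
    set Φ : ℂ → ℂ := fun τ => D (x0 + τ • v) * ∏ w ∈ (Z x0).erase 0, (w - τ) with hΦ
    have hev : (fun τ : ℂ => G (x0 + τ • v)) =ᶠ[𝓝 0] fun τ => (-τ) * Φ τ := by
      have e1 : ∀ᶠ τ : ℂ in 𝓝 0, x0 + τ • v ∈ Metric.ball (0 : E) α := by
        refine hcont.eventually_mem (Metric.isOpen_ball.mem_nhds ?_)
        rw [hval]
        simpa using h0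
      have e2 : ∀ᶠ τ : ℂ in 𝓝 0, ‖τ‖ < ρ / 4 := by
        have := Metric.ball_mem_nhds (0:ℂ) (show 0 < ρ / 4 by positivity)
        filter_upwards [this] with τ hτ
        simpa using hτ
      filter_upwards [e1, e2] with τ h1 h2
      have h1' : ‖x0 + τ • v‖ < α := by simpa using h1
      have h3 := hshift x0 τ (hαlt x0 h0) (hαlt _ h1') h2
      have hinj : Function.Injective (fun u : ℂ => u - τ) := sub_left_injective
      have h4 : (Z (x0 + τ • v)).card = d := by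
        rw [h3, Finset.card_image_of_injective _ hinj, hcd]
      have h5 := (heq _ h1' h4).2
      show G (x0 + τ • v) = -τ * (D (x0 + τ • v) * ∏ w ∈ (Z x0).erase 0, (w - τ))
      rw [h5, h3, Finset.prod_image (fun a _ b _ hab => hinj hab), ← Finset.mul_prod_erase _ _ h0Z]
      ring
    have hDd : DifferentiableAt ℂ (fun τ : ℂ => D (x0 + τ • v)) 0 := by
      have h1 : AnalyticAt ℂ D (x0 + (0:ℂ) • v) := by
        rw [hval]
        exact hDan x0 (by simpa using h0)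
      exact (RD_line h1).differentiableAt
    have hPd : DifferentiableAt ℂ (fun τ : ℂ => ∏ w ∈ (Z x0).erase 0, (w - τ)) 0 := by
      refine DifferentiableAt.fun_finsetProd (fun w _ => ?_)
      fun_prop
    have hΦd : DifferentiableAt ℂ Φ 0 := hDd.mul hPd
    have hder1 : HasDerivAt (fun τ : ℂ => (-τ) * Φ τ) (-Φ 0) 0 := by
      have h1 : HasDerivAt (fun τ : ℂ => -τ) (-1) 0 := hasDerivAt_neg' 0
      refine (h1.fun_mul hΦd.hasDerivAt).congr_deriv ?_
      simp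
    have hder2 : HasDerivAt (fun τ : ℂ => G (x0 + τ • v)) (-Φ 0) 0 := hder1.congr_of_eventuallyEq hev
    have hev2 : (fun τ : ℂ => G (x0 + τ • v)) =ᶠ[𝓝 0] fun τ => h (x0 + τ • v) * f (x0 + τ • v) := by
      have e1 : ∀ᶠ τ : ℂ in 𝓝 0, x0 + τ • v ∈ Metric.ball (0 : E) β := by
        refine hcont.eventually_mem (Metric.isOpen_ball.mem_nhds ?_)
        rw [hval]
        simpa using h0'
      filter_upwards [e1] with τ h1
      exact (hβ' _ h1).2
    have hfd' : HasDerivAt (fun τ : ℂ => f (x0 + τ • v)) 0 0 := by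
      have h1 : AnalyticAt ℂ f (x0 + (0:ℂ) • v) := ha x0 (hαlt x0 h0) 0 (by simpa using hρ.le)
      have h2 := RD_lined h1.differentiableAt
      rw [hval, hfd] at h2
      exact h2
    have hhd : DifferentiableAt ℂ (fun τ : ℂ => h (x0 + τ • v)) 0 := by
      have h1 : AnalyticAt ℂ h (x0 + (0:ℂ) • v) := by
        rw [hval]
        exact (hβ' x0 (by simpa using h0')).1
      exact (RD_line h1).differentiableAt
    have hder3 : HasDerivAt (fun τ : ℂ => h (x0 + τ • v) * f (x0 + τ • v)) 0 0 := by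
      refine (hhd.hasDerivAt.fun_mul hfd').congr_deriv ?_
      simp [hfx]
    have hder4 := (hder3.congr_of_eventuallyEq hev2).unique hder2
    have hΦ0 : Φ 0 ≠ 0 := by
      show D (x0 + (0:ℂ) • v) * ∏ w ∈ (Z x0).erase 0, (w - 0) ≠ 0
      rw [hval]
      refine mul_ne_zero hDx (Finset.prod_ne_zero_iff.2 ?_)
      intro w hw
      rw [sub_zero]
      exact (Finset.mem_erase.1 hw).1
    apply hΦ0
    have := hder4
    simpa using this.symm
  refine ⟨hf, hf0, ?_⟩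
  have hγ : 0 < min α β := lt_min hαpos hβ
  filter_upwards [Metric.ball_mem_nhds (0 : E) hγ] with y hy hfy
  have hy' : ‖y‖ < min α β := by simpa using hy
  have hyα : ‖y‖ < α := lt_of_lt_of_le hy' (min_le_left _ _)
  rw [Metric.mem_closure_iff]
  intro ε hε
  set ε1 : ℝ := min ε (min α β - ‖y‖) with hε1
  have hε1p : 0 < ε1 := lt_min hε (by linarith)
  have hv1 : 0 < ‖v‖ + 1 := by positivity
  set ε2 : ℝ := min (ρ / 4) (ε1 / 2 / (‖v‖ + 1)) with hε2
  have hε2p : 0 < ε2 := lt_min (by positivity) (by positivity)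
  have hε2ρ : ε2 ≤ ρ := (min_le_left _ _).trans (by linarith)
  have e1 := RD_hur hε2p hε2ρ (ha y (hαlt y hyα)) (hZ y (hαlt y hyα)) hfy
  have e2 : ∀ᶠ x in 𝓝 y, dist x y < ε1 / 2 := Metric.ball_mem_nhds y (by positivity)
  obtain ⟨x, hDx, ⟨w, hw, hfw⟩, hxy⟩ := ((hdense y hyα).and_eventually (e1.and e2)).exists
  have hw1 : ‖w‖ < ρ / 4 := lt_of_lt_of_le hw (min_le_left _ _)
  have hw2 : ‖w‖ * (‖v‖ + 1) < ε1 / 2 := by
    have := lt_of_lt_of_le hw (min_le_right _ _)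
    rwa [lt_div_iff₀ hv1] at this
  have hw3 : ‖w • v‖ < ε1 / 2 := by
    rw [norm_smul]
    have : 0 ≤ ‖w‖ := norm_nonneg _
    nlinarith
  have hdx : dist (x + w • v) y < ε1 := by
    calc dist (x + w • v) y ≤ dist (x + w • v) x + dist x y := dist_triangle _ _ _
      _ = ‖w • v‖ + dist x y := by rw [dist_eq_norm, add_sub_cancel_left]
      _ < ε1 := by linarith
  have hle2 : ε1 ≤ min α β - ‖y‖ := min_le_right _ _
  have hxn : ‖x‖ < min α β := by
    have h1 : ‖x‖ ≤ ‖y‖ + dist x y := by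
      rw [dist_eq_norm]
      have : x = y + (x - y) := by abel
      calc ‖x‖ = ‖y + (x - y)‖ := by rw [← this]
        _ ≤ _ := norm_add_le _ _
    linarith
  have hx0n : ‖x + w • v‖ < min α β := by
    have h1 : ‖x + w • v‖ ≤ ‖y‖ + dist (x + w • v) y := by
      rw [dist_eq_norm]
      have : x + w • v = y + (x + w • v - y) := by abel
      calc ‖x + w • v‖ = ‖y + (x + w • v - y)‖ := by rw [← this]
        _ ≤ _ := norm_add_le _ _
    linarith
  have hxα : ‖x‖ < α := lt_of_lt_of_le hxn (min_le_left _ _)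
  have hx0α : ‖x + w • v‖ < α := lt_of_lt_of_le hx0n (min_le_left _ _)
  have hx0β : ‖x + w • v‖ < β := lt_of_lt_of_le hx0n (min_le_right _ _)
  have hcx := hDne x hxα hDx
  have hcx0 : (Z (x + w • v)).card = d := by
    rw [hshift x w (hαlt x hxα) (hαlt _ hx0α) hw1, Finset.card_image_of_injective _ sub_left_injective, hcx]
  have hDx0 := (heq _ hx0α hcx0).1
  have hfin := hreg _ hx0α hx0β hfw hDx0
  refine ⟨x + w • v, ⟨hfw, fun hz => hfin (by rw [hz]; rfl)⟩, ?_⟩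
  rw [dist_comm]
  exact lt_of_lt_of_le hdx (min_le_left _ _)

end Zr
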