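import Pool.Agent.helper60.Zr.M17
import Pool.Agent.helper60.Zr.RD

set_option autoImplicit false

/-!
# Zr, module M26: reduced germs in the sense of ideals (written by helper60)
-/

noncomputable section

namespace Zr

open Filter Topology Set

variable {E : Type*} [NormedAddCommGroup E] [NormedSpace ℂ E]

/-- `f` is a reduced holomorphic germ at `0` with `f 0 = 0`: every holomorphic germ which vanishes on the zeros of `f` is a multiple of `f` -/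
def RedGerm (f : E → ℂ) : Prop :=
  AnalyticAt ℂ f 0 ∧ f 0 = 0 ∧ ∀ g : E → ℂ, AnalyticAt ℂ g 0 → (∀ᶠ z in 𝓝 (0 : E), f z = 0 → g z = 0) →
    ∃ h : E → ℂ, AnalyticAt ℂ h 0 ∧ ∀ᶠ z in 𝓝 (0 : E), g z = h z * f z

theorem zero_deriv {f : E → ℂ} (h : ∀ᶠ x in 𝓝 (0 : E), f x = 0) (j : ℕ) : iteratedFDeriv ℂ j f 0 = 0 := by
  have h1 : f =ᶠ[𝓝 (0 : E)] fun _ => (0 : ℂ) := h
  have h2 := h1.iteratedFDeriv ℂ j
  rw [h2.self_of_nhds]
  have h3 := iteratedFDeriv_zero_fun (𝕜 := ℂ) (E := E) (F := ℂ) (n := j)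
  rw [h3]
  rfl

theorem Mult.ne {f : E → ℂ} {k : ℕ} (h : Mult f k) : ¬ ∀ᶠ x in 𝓝 (0 : E), f x = 0 := fun h0 =>
  h.2 (zero_deriv h0 k)

omit [NormedSpace ℂ E] in
theorem Equ.zero_imp {f g : E → ℂ} {φ ψ : E → E} {V W : Set E} (h : Equ f g φ ψ V W) (h0 : ∀ᶠ x in 𝓝 (0 : E), f x = 0) :
    ∀ᶠ y in 𝓝 (0 : E), g y = 0 := by
  have hc : Tendsto ψ (𝓝 0) (𝓝 0) := by
    have := (h.cψ.continuousAt h.hW).tendsto
    rwa [h.ψ0] at this
  filter_upwards [hc.eventually h0, h.hW] with y hy hyW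
  rw [h.zs _ (h.mψ hyW), h.ri hyW] at hy
  exact hy

variable [FiniteDimensional ℂ E]

theorem RedGerm.red {f : E → ℂ} (h : RedGerm f) (hne : ¬ ∀ᶠ x in 𝓝 (0 : E), f x = 0) : Red f :=
  ideal_red h.1 h.2.1 hne h.2.2

/-- in a family which is locally topologically constant, all germs are zero or none -/
theorem family_red {F : ℝ → E → ℂ} (hR : ∀ t ∈ Icc (0:ℝ) 1, RedGerm (F t))
    (hloc : ∀ s ∈ Icc (0:ℝ) 1, ∃ η : ℝ, 0 < η ∧ ∀ t ∈ Icc (0:ℝ) 1, |t - s| < η →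
      ∃ (φ ψ : E → E) (V W : Set E), Equ (F s) (F t) φ ψ V W) :
    (∀ t ∈ Icc (0:ℝ) 1, ∀ᶠ x in 𝓝 (0 : E), F t x = 0) ∨ (∀ t ∈ Icc (0:ℝ) 1, Red (F t)) := by
  classical
  let K : ℝ → ℕ := fun t => if ∀ᶠ x in 𝓝 (0 : E), F t x = 0 then 0 else 1
  have hcont : ContinuousOn K (Icc (0:ℝ) 1) := by
    intro s hs
    obtain ⟨δ, hδ, h1⟩ := hloc s hs
    rw [ContinuousWithinAt, nhds_discrete, tendsto_pure]
    rw [eventually_nhdsWithin_iff]
    filter_upwards [Metric.ball_mem_nhds s hδ] with t ht1 ht2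
    obtain ⟨φ, ψ, V, W, hE⟩ := h1 t ht2 (by rwa [Metric.mem_ball, Real.dist_eq] at ht1)
    have : (∀ᶠ x in 𝓝 (0 : E), F t x = 0) ↔ (∀ᶠ x in 𝓝 (0 : E), F s x = 0) :=
      ⟨fun h => hE.symm.zero_imp h, fun h => hE.zero_imp h⟩
    simp only [K, this]
  have hconst : ∀ t ∈ Icc (0:ℝ) 1, K t = K 0 := fun t ht =>
    isPreconnected_Icc.constant hcont ht (by simp)
  by_cases h0 : ∀ᶠ x in 𝓝 (0 : E), F 0 x = 0
  · left
    intro t ht
    have h1 := hconst t ht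
    by_contra h2
    simp only [K, h0, h2, if_true, if_false] at h1
    exact one_ne_zero h1
  · right
    intro t ht
    refine (hR t ht).red ?_
    intro h2
    have h1 := hconst t ht
    simp only [K, h0, h2, if_true, if_false] at h1
    exact zero_ne_one h1

end Zr
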