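import Pool.Agent.helper60.Zr.M2

set_option autoImplicit false

/-!
# Zr, module M3: zeros of holomorphic functions in the unit disc

Proof: the zeros in the closed disc are isolated (`AnalyticOnNhd.eqOn_zero_of_preconnected_of_eventuallyEq_zero`, connected disc,
`h ≠ 0` on the circle), so finite by compactness. At a zero `w`: `h z = (z - w) ^ m * u z`, `u` analytic, `u w ≠ 0`, `m` the order
(`AnalyticAt.exists_eventuallyEq_pow_smul_nonzero_iff` or `analyticOrderAt`), local winding number `m` on small circles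
(`Wd.mul`, `Wd.zpow`, and `Wd.disc` for `u` on a small disc). The sum by `wd_sum` (M2). `m = 1` iff `deriv h w ≠ 0`.
-/

noncomputable section

namespace Zr

open Filter Topology Set

theorem M3_not_freq {h : ℂ → ℂ} (hh : ∀ w : ℂ, ‖w‖ ≤ 1 → AnalyticAt ℂ h w) (h0 : ∀ w : ℂ, ‖w‖ = 1 → h w ≠ 0)
    {x : ℂ} (hx : ‖x‖ ≤ 1) : ¬ ∃ᶠ z in 𝓝[≠] x, h z = 0 := by
  intro hf
  have hU : AnalyticOnNhd ℂ h (Metric.closedBall 0 1) := by
    intro w hw
    exact hh w (by simpa using hw)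
  have hc : IsPreconnected (Metric.closedBall (0:ℂ) 1) := (convex_closedBall (0:ℂ) 1).isPreconnected
  have := hU.eqOn_zero_of_preconnected_of_frequently_eq_zero hc (z₀ := x) (by simpa using hx) hf
  have h1 := this (x := 1) (by simp)
  exact h0 1 (by simp) (by simpa using h1)

theorem M3_fin {h : ℂ → ℂ} (hh : ∀ w : ℂ, ‖w‖ ≤ 1 → AnalyticAt ℂ h w) (h0 : ∀ w : ℂ, ‖w‖ = 1 → h w ≠ 0) :
    {w : ℂ | ‖w‖ < 1 ∧ h w = 0}.Finite := by
  by_contra hinf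
  obtain ⟨x, hx, hacc⟩ := Set.Infinite.exists_accPt_of_subset_isCompact hinf
    (isCompact_closedBall (0:ℂ) 1) (by
      intro w hw
      simpa using hw.1.le)
  refine M3_not_freq hh h0 (x := x) (by simpa using hx) ?_
  rw [accPt_iff_frequently_nhdsNE] at hacc
  exact hacc.mono (fun y hy => hy.2)

theorem M3_fact {h : ℂ → ℂ} {w : ℂ} (hw : AnalyticAt ℂ h w) (hn : ¬ ∃ᶠ z in 𝓝[≠] w, h z = 0) :
    ∃ (n : ℕ) (g : ℂ → ℂ), AnalyticAt ℂ g w ∧ g w ≠ 0 ∧ ∀ᶠ z in 𝓝 w, h z = (z - w) ^ n * g z := by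
  have h1 : ¬ ∀ᶠ z in 𝓝 w, h z = 0 := by
    intro h2
    apply hn
    exact (h2.filter_mono nhdsWithin_le_nhds).frequently
  obtain ⟨n, g, hg, hg0, he⟩ := (hw.exists_eventuallyEq_pow_smul_nonzero_iff).2 h1
  exact ⟨n, g, hg, hg0, by simpa [smul_eq_mul] using he⟩

theorem M3_deriv {h g : ℂ → ℂ} {w : ℂ} {n : ℕ} (hg : AnalyticAt ℂ g w)
    (he : ∀ᶠ z in 𝓝 w, h z = (z - w) ^ n * g z) (hn : 1 ≤ n) :
    deriv h w = if n = 1 then g w else 0 := by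
  have e1 : deriv h w = deriv (fun z => (z - w) ^ n * g z) w := Filter.EventuallyEq.deriv_eq he
  have e2 : HasDerivAt (fun z : ℂ => (z - w) ^ n * g z)
      ((n * (w - w) ^ (n - 1) * 1) * g w + (w - w) ^ n * deriv g w) w := by
    refine HasDerivAt.mul ?_ hg.differentiableAt.hasDerivAt
    exact HasDerivAt.pow ((hasDerivAt_id w).sub_const w) n
  rw [e1, e2.deriv]
  split_ifs with h1
  · subst h1
    simp
  · have h2 : n - 1 ≠ 0 := by omega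
    have h3 : n ≠ 0 := by omega
    simp [h2, h3]

theorem M3_local {h g : ℂ → ℂ} {w : ℂ} {n : ℕ} (hg : AnalyticAt ℂ g w) (hg0 : g w ≠ 0)
    (he : ∀ᶠ z in 𝓝 w, h z = (z - w) ^ n * g z) :
    ∀ᶠ ρ : ℝ in 𝓝[>] 0, Wd (fun θ => h (w + ρ * cis θ)) (n : ℤ) := by
  have h1 : ∀ᶠ z in 𝓝 w, h z = (z - w) ^ n * g z ∧ g z ≠ 0 ∧ ContinuousAt g z := by
    refine he.and ((hg.continuousAt.eventually_ne hg0).and ?_)
    exact hg.eventually_continuousAt
  obtain ⟨r, hr, hr'⟩ := Metric.eventually_nhds_iff.1 h1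
  filter_upwards [Ioo_mem_nhdsGT hr] with ρ hρ
  have hin : ∀ z : ℂ, ‖z‖ ≤ 1 → dist (w + ρ * z) w < r := by
    intro z hz
    rw [dist_eq_norm, add_sub_cancel_left, norm_mul, Complex.norm_real, Real.norm_eq_abs, abs_of_pos hρ.1]
    calc ρ * ‖z‖ ≤ ρ * 1 := mul_le_mul_of_nonneg_left hz hρ.1.le
      _ = ρ := mul_one ρ
      _ < r := hρ.2
  have a1 : Wd (fun θ => g (w + ρ * Zr.cis θ)) 0 := by
    refine Wd.disc (F := fun z => g (w + ρ * z)) ?_ ?_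
    · intro z hz
      have h2 := (hr' (hin z (by simpa using hz))).2.2
      refine ContinuousAt.continuousWithinAt ?_
      exact ContinuousAt.comp (g := g) (f := fun z : ℂ => w + ρ * z) h2 (by fun_prop)
    · intro z hz
      exact (hr' (hin z (by simpa using hz))).2.1
  have a2 := (M2_ne_zero_wd hρ.1).zpow (n : ℤ)
  have a3 := a2.mul a1
  have a4 : (fun θ => h (w + ρ * cis θ)) = fun θ => ((ρ : ℂ) * cis θ) ^ (n : ℤ) * g (w + ρ * cis θ) := by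
    funext θ
    rw [(hr' (hin (cis θ) (by rw [cis_norm]))).1]
    rw [add_sub_cancel_left, zpow_natCast]
  rw [a4]
  simpa using a3

theorem wd_zeros {h : ℂ → ℂ} (hh : ∀ w : ℂ, ‖w‖ ≤ 1 → AnalyticAt ℂ h w) (h0 : ∀ w : ℂ, ‖w‖ = 1 → h w ≠ 0) :
    ∃ (Z : Finset ℂ) (m : ℂ → ℕ), (∀ w, w ∈ Z ↔ ‖w‖ < 1 ∧ h w = 0) ∧ (∀ w ∈ Z, 1 ≤ m w) ∧
      (∀ w ∈ Z, deriv h w ≠ 0 → m w = 1) ∧ (∀ w ∈ Z, deriv h w = 0 → 2 ≤ m w) ∧
      (∀ w ∈ Z, ∀ᶠ ρ : ℝ in 𝓝[>] 0, Wd (fun θ => h (w + ρ * cis θ)) (m w)) ∧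
      Wd (fun θ => h (cis θ)) (∑ w ∈ Z, (m w : ℤ)) := by
  classical
  have hZ : ∀ w, w ∈ (M3_fin hh h0).toFinset ↔ ‖w‖ < 1 ∧ h w = 0 := by
    intro w
    simp
  set Z := (M3_fin hh h0).toFinset with hZdef
  have key : ∀ w : ℂ, ∃ n : ℕ, w ∈ Z → ∃ g : ℂ → ℂ, AnalyticAt ℂ g w ∧ g w ≠ 0 ∧
      ∀ᶠ z in 𝓝 w, h z = (z - w) ^ n * g z := by
    intro w
    by_cases hw : w ∈ Z
    · have hw' := (hZ w).1 hw
      obtain ⟨n, g, h1, h2, h3⟩ := M3_fact (hh w hw'.1.le) (M3_not_freq hh h0 hw'.1.le)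
      exact ⟨n, fun _ => ⟨g, h1, h2, h3⟩⟩
    · exact ⟨0, fun h' => absurd h' hw⟩
  choose m hm using key
  have hm1 : ∀ w ∈ Z, 1 ≤ m w := by
    intro w hw
    obtain ⟨g, h1, h2, h3⟩ := hm w hw
    by_contra hlt
    have hm0 : m w = 0 := by omega
    rw [hm0] at h3
    have := h3.self_of_nhds
    rw [((hZ w).1 hw).2] at this
    simp at this
    exact h2 this.symm
  have hloc : ∀ w ∈ Z, ∀ᶠ ρ : ℝ in 𝓝[>] 0, Wd (fun θ => h (w + ρ * cis θ)) (m w) := by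
    intro w hw
    obtain ⟨g, h1, h2, h3⟩ := hm w hw
    exact M3_local h1 h2 h3
  refine ⟨Z, m, hZ, hm1, ?_, ?_, hloc, ?_⟩
  · intro w hw hd
    obtain ⟨g, h1, h2, h3⟩ := hm w hw
    rw [M3_deriv h1 h3 (hm1 w hw)] at hd
    by_contra hne
    simp [hne] at hd
  · intro w hw hd
    obtain ⟨g, h1, h2, h3⟩ := hm w hw
    rw [M3_deriv h1 h3 (hm1 w hw)] at hd
    by_contra hlt
    have hm1' : m w = 1 := by
      have := hm1 w hw
      omega
    rw [if_pos hm1'] at hd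
    exact h2 hd
  · refine wd_sum Z (fun p hp => ((hZ p).1 hp).1) ?_ ?_ (fun w => (m w : ℤ)) hloc
    · intro z hz
      exact (hh z (by simpa using hz.1)).continuousAt.continuousWithinAt
    · intro w hw hwZ hw0
      have hw1 : ‖w‖ ≤ 1 := by simpa using hw
      rcases hw1.lt_or_eq with h2 | h2
      · exact hwZ ((hZ w).2 ⟨h2, hw0⟩)
      · exact h0 w h2 hw0

end Zr
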