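import Pool.Agent.helper60.Zr.M16
import Pool.Agent.helper60.Zr.M26
import Pool.Agent.helper60.Zr.M27
import Pool.Agent.helper60.Zr.M28

set_option autoImplicit false

/-!
# Zr, module M31: final forms (written by helper60)
-/

noncomputable section

namespace Zr

open Filter Topology Set

variable {E : Type*} [NormedAddCommGroup E] [NormedSpace ℂ E] [FiniteDimensional ℂ E]

/-- control of complex directions near one complex line -/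
theorem angle_eq {f g : E → ℂ} {φ ψ : E → E} {V W : Set E} (hf : Red f) (hg : Red g) (h : Equ f g φ ψ V W) {k m : ℕ}
    {P Q : E → ℂ} (hk : Lead f k P) (hm : Lead g m Q) {v : E} {κ δ : ℝ} (hv : ‖v‖ = 1) (hκ : κ ≤ 1 / 4) (hδ : 0 < δ)
    (hδκ : 20 * δ < κ)
    (hfree : ∀ᶠ x in 𝓝 (0 : E), ∀ z : ℂ, z ≠ 0 → ‖x - z • v‖ ≤ κ * ‖z‖ → f x ≠ 0)
    (hA : ∀ᶠ x in 𝓝 (0 : E), ∀ z : ℂ, z ≠ 0 → ‖x - z • v‖ ≤ κ * ‖z‖ → ∃ w : ℂ, ‖φ x - w • x‖ ≤ δ * ‖φ x‖) : k = m := by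
  have hκ0 : 0 < κ := by linarith
  obtain ⟨l, hl, hlv⟩ := exists_dual_vector ℂ v (by rw [hv]; exact one_ne_zero)
  have hlv' : l v = 1 := by
    rw [hlv, hv]
    simp
  refine ang_pair hf hg h hk hm hv hl.le hlv' hκ hδ hδκ ?_ ?_
  · obtain ⟨R, hR, h2⟩ := Metric.eventually_nhds_iff_ball.1 hfree
    refine ⟨R / 2, by positivity, fun x hx hxR hxa => ?_⟩
    have hxa' : ‖x - l x • v‖ ≤ κ * ‖l x‖ := by
      have := hxa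
      simp only [abs_of_nonneg (norm_nonneg (l x))] at this
      exact this
    refine h2 x ?_ (l x) (norm_pos_iff.1 hx) hxa'
    rw [mem_ball_zero_iff]
    have h3 : ‖x‖ ≤ ‖x - l x • v‖ + ‖l x • v‖ := by
      have : x = (x - l x • v) + l x • v := by abel
      calc ‖x‖ = ‖(x - l x • v) + l x • v‖ := by rw [← this]
        _ ≤ _ := norm_add_le _ _
    rw [norm_smul, hv, mul_one] at h3
    have h4 : κ * ‖l x‖ ≤ 1 * ‖l x‖ := mul_le_mul_of_nonneg_right (by linarith) (norm_nonneg _)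
    linarith
  · filter_upwards [hA] with x hx hx1 hx2
    exact hx (l x) hx1 hx2

theorem result_disc {f g : E → ℂ} (hf : RedGerm f) (hg : RedGerm g) {φ ψ : E → E} {V W : Set E} (h : Equ f g φ ψ V W)
    {k m : ℕ} (hk : Mult f k) (hm : Mult g m) {v : E} (hv : Transv f v) (hd : DiscHtp g φ v) : m ≤ k := by
  have hf' := hf.red hk.ne
  have hg' := hg.red hm.ne
  obtain ⟨P, hP⟩ := hk.lead hf'
  obtain ⟨Q, hQ⟩ := hm.lead hg'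
  exact disc_htp hf' hg' h hP hQ hv hd

theorem result_alm {f g : E → ℂ} (hf : RedGerm f) (hg : RedGerm g) {φ ψ : E → E} {V W : Set E} (h : Equ f g φ ψ V W)
    {k m : ℕ} (hk : Mult f k) (hm : Mult g m) {Λ δ : ℝ} (hΛ : 1 ≤ Λ) (hδ : 0 ≤ δ) (h1 : 8 * Λ * δ * k < 1)
    (h2 : 8 * Λ * δ * m < 1) (hA : AlmLin φ Λ δ) : k = m := by
  have hf' := hf.red hk.ne
  have hg' := hg.red hm.ne
  obtain ⟨P, hP⟩ := hk.lead hf'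
  obtain ⟨Q, hQ⟩ := hm.lead hg'
  exact alm_lin_eq hf' hg' h hP hQ hΛ hδ h1 h2 hA

theorem result_angle {f g : E → ℂ} (hf : RedGerm f) (hg : RedGerm g) {φ ψ : E → E} {V W : Set E} (h : Equ f g φ ψ V W)
    {k m : ℕ} (hk : Mult f k) (hm : Mult g m) {v : E} {κ δ : ℝ} (hv : ‖v‖ = 1) (hκ : κ ≤ 1 / 4) (hδ : 0 < δ)
    (hδκ : 20 * δ < κ)
    (hfree : ∀ᶠ x in 𝓝 (0 : E), ∀ z : ℂ, z ≠ 0 → ‖x - z • v‖ ≤ κ * ‖z‖ → f x ≠ 0)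
    (hA : ∀ᶠ x in 𝓝 (0 : E), ∀ z : ℂ, z ≠ 0 → ‖x - z • v‖ ≤ κ * ‖z‖ → ∃ w : ℂ, ‖φ x - w • x‖ ≤ δ * ‖φ x‖) : k = m := by
  have hf' := hf.red hk.ne
  have hg' := hg.red hm.ne
  obtain ⟨P, hP⟩ := hk.lead hf'
  obtain ⟨Q, hQ⟩ := hm.lead hg'
  exact angle_eq hf' hg' h hP hQ hv hκ hδ hδκ hfree hA

theorem result_family {F : ℝ → E → ℂ} {U : Set E} (hU : IsOpen U) (h0 : (0 : E) ∈ U)
    (hF : ContinuousOn (fun p : ℝ × E => F p.1 p.2) (Icc (0:ℝ) 1 ×ˢ U))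
    (ha : ∀ t ∈ Icc (0:ℝ) 1, AnalyticOnNhd ℂ (F t) U) (hr : ∀ t ∈ Icc (0:ℝ) 1, RedGerm (F t))
    (h : ∀ s ∈ Icc (0:ℝ) 1, ∃ Λ : ℝ, 1 ≤ Λ ∧ ∀ δ : ℝ, 0 < δ → ∃ η : ℝ, 0 < η ∧ ∀ t ∈ Icc (0:ℝ) 1, |t - s| < η →
      ∃ (φ ψ : E → E) (V W : Set E) (A : E ≃ₗ[ℝ] E), Equ (F t) (F s) φ ψ V W ∧
        (∀ x, ‖x‖ ≤ ‖A x‖ ∧ ‖A x‖ ≤ Λ * ‖x‖) ∧ CDir φ A δ) {s t : ℝ} (hs : s ∈ Icc (0:ℝ) 1)
    (ht : t ∈ Icc (0:ℝ) 1) (k : ℕ) :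
    (∀ j < k, iteratedFDeriv ℂ j (F s) 0 = 0) ↔ (∀ j < k, iteratedFDeriv ℂ j (F t) 0 = 0) := by
  rcases family_red hr (by
    intro s hs
    obtain ⟨Λ, hΛ, h1⟩ := h s hs
    obtain ⟨η, hη, h2⟩ := h1 1 one_pos
    refine ⟨η, hη, fun t ht hts => ?_⟩
    obtain ⟨φ, ψ, V, W, A, hE, _⟩ := h2 t ht hts
    exact ⟨ψ, φ, W, V, hE.symm⟩) with h3 | h3
  · exact ⟨fun _ j _ => zero_deriv (h3 t ht) j, fun _ j _ => zero_deriv (h3 s hs) j⟩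
  · exact cdir_family' hU h0 hF ha h3 h hs ht k

end Zr
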