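import Pool.Agent.helper60.Zr.M1

set_option autoImplicit false

/-!
# Zr, module M4: the local index is `±1`

`chart`: near a point `p` with `fderiv f p ≠ 0`: for every neighbourhood `U` of `p` there is an open neighbourhood `O ⊆ U` of `p` such
that for EVERY continuous nonvanishing `H` on `O ∖ {f = 0}` there is an integer `e` with: every loop `c` in `O ∖ {f = 0}` has
`wind (H ∘ c) = e * wind (f ∘ c)`. Proof: `f - f p = f` is the first component of a local homeomorphism `T` from `E` to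
`ℂ × ker (fderiv f p)` (`HasStrictFDerivAt.implicitToOpenPartialHomeomorph` / `...OfComplemented`, finite dimension). `O := T⁻¹ (ball 0 ρ ×
ball ρ)`. The map `Q (s, k) = T.symm (exp (cut s), retr k)` (`cut s` = `s` with the real part replaced by its minimum with `log ρ - 1`
or: treat loops whose image is in a compact part; any convex covering of the punctured product by a simply connected space works,
for instance `X = {s : ℂ // s.re < Real.log ρ} × ball` with convexity, or `ℂ × ker` after a homeomorphism) makes `H ∘ Q` a nonvanishing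
continuous function on a simply connected space, `exists_log`: `H (Q (s, k)) = exp (u (s, k))`, and `u (s + 2πi, k) - u (s, k) = 2πi e`
with a constant integer `e` (connected, discrete). A loop `c` in `O ∖ {f = 0}`: the lift `φ` of `f ∘ c` (`Wd.ex`) and the second
component of `T ∘ c` give a path in `X`; `u` of it is a lift of `H ∘ c`.
`local_index`: apply `chart` at `q` to `g`, `H = f ∘ ψ`: integer `e`; at `p = ψ q` to `f`, `H = g ∘ φ`: integer `e'`. Take a small loop
`c` around `p` with `wind (f ∘ c) = 1` (`c θ = p + ρ cis θ u`, `fderiv f p u ≠ 0`, `simple_wd`), so small that it lies in both charts: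
`wind (g ∘ φ ∘ c) = e'`, and for the loop `φ ∘ c` in the chart at `q`: `1 = wind (f ∘ ψ ∘ φ ∘ c) = e * e'`. So `|e| = 1`. The circles
`q + ρ cis θ v` have `wind (g ∘ ·) = 1` (`simple_wd`), so `f ∘ ψ` has winding number `e` on them.
-/

noncomputable section

namespace Zr

open Filter Topology Set

variable {E : Type*} [NormedAddCommGroup E] [NormedSpace ℂ E] [FiniteDimensional ℂ E]


omit [FiniteDimensional ℂ E] in
theorem M4_norm_le {u : E} {ρ δ : ℝ} (h0 : 0 < ρ) (h1 : ρ < δ / (‖u‖ + 1)) (θ : ℝ) :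
    ‖((ρ * cis θ : ℂ)) • u‖ < δ := by
  have hu : 0 < ‖u‖ + 1 := by positivity
  rw [norm_smul, norm_mul, cis_norm, mul_one, Complex.norm_real, Real.norm_eq_abs, abs_of_pos h0]
  rw [lt_div_iff₀ hu] at h1
  nlinarith [norm_nonneg u]

omit [FiniteDimensional ℂ E] in
theorem M4_ev {u p : E} {O : Set E} (hO : O ∈ 𝓝 p) :
    ∀ᶠ ρ : ℝ in 𝓝[>] 0, ∀ θ : ℝ, p + ((ρ * cis θ : ℂ)) • u ∈ O := by
  obtain ⟨δ, hδ, hb⟩ := Metric.mem_nhds_iff.1 hO
  have hu : 0 < ‖u‖ + 1 := by positivity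
  have h1 : ∀ᶠ ρ : ℝ in 𝓝[>] 0, ρ ∈ Ioo (0:ℝ) (δ / (‖u‖ + 1)) :=
    Ioo_mem_nhdsGT (by positivity)
  filter_upwards [h1] with ρ hρ θ
  refine hb ?_
  rw [mem_ball_iff_norm]
  have := M4_norm_le (u := u) hρ.1 hρ.2 θ
  simpa using this

theorem simple_wd {f : E → ℂ} {p u : E} (hf : AnalyticAt ℂ f p) (h0 : f p = 0) (hu : fderiv ℂ f p u ≠ 0) :
    ∀ᶠ ρ : ℝ in 𝓝[>] 0, Wd (fun θ => f (p + (ρ * cis θ) • u)) 1 := by
  set a : ℂ := fderiv ℂ f p u with ha
  have hapos : 0 < ‖a‖ := norm_pos_iff.2 hu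
  have hu1 : 0 < ‖u‖ + 1 := by positivity
  have hd := hf.differentiableAt.hasFDerivAt
  rw [hasFDerivAt_iff_isLittleO_nhds_zero] at hd
  have h2 := hd.def (c := ‖a‖ / (2 * (‖u‖ + 1))) (by positivity)
  have h3 : ∀ᶠ x in 𝓝 p, ContinuousAt f x := hf.eventually_analyticAt.mono (fun x hx => hx.continuousAt)
  have h2' : ∀ᶠ x in 𝓝 p, ‖f x - f p - fderiv ℂ f p (x - p)‖ ≤ ‖a‖ / (2 * (‖u‖ + 1)) * ‖x - p‖ := by
    have h4 : Tendsto (fun x : E => x - p) (𝓝 p) (𝓝 0) := by
      have : Tendsto (fun x : E => x - p) (𝓝 p) (𝓝 (p - p)) := (continuous_id.sub continuous_const).tendsto p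
      simpa using this
    filter_upwards [h4.eventually h2] with x hx
    simpa using hx
  have h5 := M4_ev (u := u) (h2'.and h3)
  have h6 : ∀ᶠ ρ : ℝ in 𝓝[>] 0, (0:ℝ) < ρ := eventually_mem_nhdsWithin
  filter_upwards [h5, h6] with ρ hρ hpos
  have hc : Continuous (fun θ : ℝ => p + ((ρ * cis θ : ℂ)) • u) := by
    have := cis_cont
    fun_prop
  have h7 : Wd (fun θ => (ρ : ℂ) * a * cis θ) 1 := by
    have hne : (ρ : ℂ) * a ≠ 0 := mul_ne_zero (by exact_mod_cast hpos.ne') hu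
    have := (Wd.const hne).mul Wd.cis
    simpa using this
  refine h7.close ?_ ?_ ?_
  · rw [continuous_iff_continuousAt]
    intro θ
    exact ContinuousAt.comp (g := f) (f := fun θ : ℝ => p + ((ρ * cis θ : ℂ)) • u) (hρ θ).2 hc.continuousAt
  · intro θ
    rw [cis_per]
  · intro θ
    have h8 := (hρ θ).1
    rw [h0, sub_zero, add_sub_cancel_left, map_smul, ← ha, smul_eq_mul] at h8
    have h9 : ‖((ρ * cis θ : ℂ)) • u‖ = ρ * ‖u‖ := by
      rw [norm_smul, norm_mul, cis_norm, mul_one, Complex.norm_real, Real.norm_eq_abs, abs_of_pos hpos]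
    rw [h9] at h8
    have h10 : ‖(ρ : ℂ) * a * cis θ‖ = ρ * ‖a‖ := by
      rw [norm_mul, norm_mul, cis_norm, mul_one, Complex.norm_real, Real.norm_eq_abs, abs_of_pos hpos]
    rw [h10]
    have h11 : (ρ : ℂ) * cis θ * a = ρ * a * cis θ := by ring
    rw [h11] at h8
    refine lt_of_le_of_lt h8 ?_
    rw [div_mul_eq_mul_div, div_lt_iff₀ (by positivity)]
    have h12 : 0 < ρ * ‖a‖ := by positivity
    nlinarith [norm_nonneg u]


/-- the covering space of the punctured product -/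
def M4S (d : E →L[ℂ] ℂ) (w : E) (ρ : ℝ) : Set (ℂ × E) :=
  {x | x.1.re < Real.log ρ ∧ ‖x.2 - d x.2 • w‖ < ρ}

/-- the covering map -/
def M4Q (d : E →L[ℂ] ℂ) (w p : E) (x : ℂ × E) : E :=
  p + Complex.exp x.1 • w + (x.2 - d x.2 • w)

/-- the punctured product -/
def M4V (d : E →L[ℂ] ℂ) (w p : E) (ρ : ℝ) : Set E :=
  {y | ‖d (y - p)‖ < ρ ∧ ‖(y - p) - d (y - p) • w‖ < ρ}

omit [FiniteDimensional ℂ E] in
theorem M4S_open (d : E →L[ℂ] ℂ) (w : E) (ρ : ℝ) : IsOpen (M4S d w ρ) := by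
  refine IsOpen.inter ?_ ?_
  · exact isOpen_lt (Complex.continuous_re.comp continuous_fst) continuous_const
  · have h : Continuous (fun x : ℂ × E => ‖x.2 - d x.2 • w‖) := by fun_prop
    exact isOpen_lt h continuous_const

omit [FiniteDimensional ℂ E] in
theorem M4S_convex (d : E →L[ℂ] ℂ) (w : E) (ρ : ℝ) : Convex ℝ (M4S d w ρ) := by
  intro x hx y hy a b ha hb hab
  refine ⟨?_, ?_⟩
  · have h1 := hx.1
    have h2 := hy.1
    simp only [Prod.fst_add, Prod.smul_fst, Complex.add_re, Complex.real_smul, Complex.mul_re,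
      Complex.ofReal_re, Complex.ofReal_im, zero_mul, sub_zero]
    rcases eq_or_lt_of_le ha with h | h
    · subst h
      have : b = 1 := by linarith
      subst this
      simpa using h2
    · have h3 : a * x.1.re < a * Real.log ρ := mul_lt_mul_of_pos_left h1 h
      have h4 : b * y.1.re ≤ b * Real.log ρ := mul_le_mul_of_nonneg_left h2.le hb
      have h5 : a * Real.log ρ + b * Real.log ρ = Real.log ρ := by rw [← add_mul, hab, one_mul]
      linarith
  · have h1 := hx.2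
    have h2 := hy.2
    have e : (a • x + b • y).2 - d (a • x + b • y).2 • w =
        a • (x.2 - d x.2 • w) + b • (y.2 - d y.2 • w) := by
      simp only [Prod.snd_add, Prod.smul_snd, map_add]
      rw [← Complex.coe_smul a x.2, ← Complex.coe_smul b y.2, map_smul, map_smul,
        ← Complex.coe_smul a (x.2 - _), ← Complex.coe_smul b (y.2 - _), smul_sub, smul_sub, add_smul,
        smul_eq_mul, smul_eq_mul, mul_smul, mul_smul]
      abel
    rw [e]
    refine lt_of_le_of_lt (norm_add_le _ _) ?_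
    rw [norm_smul, norm_smul, Real.norm_eq_abs, Real.norm_eq_abs, abs_of_nonneg ha, abs_of_nonneg hb]
    rcases eq_or_lt_of_le ha with h | h
    · subst h
      have : b = 1 := by linarith
      subst this
      simpa using h2
    · have h3 : a * ‖x.2 - d x.2 • w‖ < a * ρ := mul_lt_mul_of_pos_left h1 h
      have h4 : b * ‖y.2 - d y.2 • w‖ ≤ b * ρ := mul_le_mul_of_nonneg_left h2.le hb
      have h5 : a * ρ + b * ρ = ρ := by rw [← add_mul, hab, one_mul]
      linarith

omit [FiniteDimensional ℂ E] in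
theorem M4Q_d {d : E →L[ℂ] ℂ} {w : E} (hw : d w = 1) (p : E) (x : ℂ × E) :
    d (M4Q d w p x - p) = Complex.exp x.1 := by
  unfold M4Q
  have : p + Complex.exp x.1 • w + (x.2 - d x.2 • w) - p =
      Complex.exp x.1 • w + (x.2 - d x.2 • w) := by abel
  rw [this, map_add, map_sub, map_smul, map_smul, hw]
  simp

omit [FiniteDimensional ℂ E] in
theorem M4Q_mem {d : E →L[ℂ] ℂ} {w : E} (hw : d w = 1) {p : E} {ρ : ℝ} (hρ : 0 < ρ) {x : ℂ × E}
    (hx : x ∈ M4S d w ρ) : M4Q d w p x ∈ M4V d w p ρ := by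
  refine ⟨?_, ?_⟩
  · rw [M4Q_d hw, Complex.norm_exp]
    have := Real.exp_lt_exp.2 hx.1
    rwa [Real.exp_log hρ] at this
  · rw [M4Q_d hw]
    unfold M4Q
    have : p + Complex.exp x.1 • w + (x.2 - d x.2 • w) - p - Complex.exp x.1 • w =
        x.2 - d x.2 • w := by abel
    rw [this]
    exact hx.2

omit [FiniteDimensional ℂ E] in
theorem M4S_shift {d : E →L[ℂ] ℂ} {w : E} {ρ : ℝ} {x : ℂ × E} (hx : x ∈ M4S d w ρ) (s : ℝ) :
    (x.1 + Complex.I * s, x.2) ∈ M4S d w ρ := by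
  refine ⟨?_, hx.2⟩
  have := hx.1
  simpa using this

omit [FiniteDimensional ℂ E] in
theorem M4_log {d : E →L[ℂ] ℂ} {w : E} {ρ : ℝ} (hρ : 0 < ρ) {F : ℂ × E → ℂ}
    (hF : ContinuousOn F (M4S d w ρ)) (hF0 : ∀ x ∈ M4S d w ρ, F x ≠ 0)
    (hper : ∀ x ∈ M4S d w ρ, F (x.1 + 2 * Real.pi * Complex.I, x.2) = F x) :
    ∃ e : ℤ, ∀ (φ : ℝ → ℂ) (y : ℝ → E) (k : ℤ), Continuous φ → Continuous y →
      (∀ θ, φ (θ + 2 * Real.pi) = φ θ + 2 * Real.pi * Complex.I * k) →
      (∀ θ, y (θ + 2 * Real.pi) = y θ) → (∀ θ, (φ θ, y θ) ∈ M4S d w ρ) →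
      Wd (fun θ => F (φ θ, y θ)) (e * k) := by
  have hne : (M4S d w ρ).Nonempty := by
    refine ⟨((Real.log ρ - 1 : ℝ), 0), ?_, ?_⟩
    · simp only [Complex.ofReal_re]
      linarith
    · simpa using hρ
  have i1 : ContractibleSpace (M4S d w ρ) := (M4S_convex d w ρ).contractibleSpace hne
  have i2 : SimplyConnectedSpace (M4S d w ρ) := inferInstance
  have i3 : LocallyPathConnectedSpace (M4S d w ρ) := (M4S_open d w ρ).locallyPathConnectedSpace
  have i4 : PathConnectedSpace (M4S d w ρ) := inferInstance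
  obtain ⟨L, hL, hL'⟩ := exists_log (X := M4S d w ρ) (F := fun x => F x.1)
    (continuousOn_iff_continuous_domRestrict.1 hF) (fun x => hF0 x.1 x.2)
  have hsh : Continuous (fun x : M4S d w ρ =>
      (⟨(x.1.1 + Complex.I * (2 * Real.pi : ℝ), x.1.2), M4S_shift x.2 _⟩ : M4S d w ρ)) := by
    refine Continuous.subtype_mk ?_ _
    fun_prop
  obtain ⟨e, he⟩ := M1_const (D := fun x : M4S d w ρ =>
      L ⟨(x.1.1 + Complex.I * (2 * Real.pi : ℝ), x.1.2), M4S_shift x.2 _⟩ - L x)
    ((hL.comp hsh).sub hL) (by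
      intro x
      rw [Complex.exp_sub, hL', hL']
      have h1 := hper x.1 x.2
      have h2 : x.1.1 + 2 * Real.pi * Complex.I = x.1.1 + Complex.I * (2 * Real.pi : ℝ) := by
        push_cast
        ring
      rw [h2] at h1
      simp only
      rw [h1, div_self (hF0 x.1 x.2)])
  refine ⟨e, ?_⟩
  intro φ y k hφ hy hφp hyp hm
  refine ⟨fun θ => L ⟨(φ θ, y θ), hm θ⟩, ?_, fun θ => hL' _, ?_⟩
  · refine hL.comp ?_
    refine Continuous.subtype_mk ?_ _
    fun_prop
  · intro θ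
    have h1 : ∀ s : ℝ, L ⟨(φ θ + Complex.I * ((s + 2 * Real.pi : ℝ) : ℂ), y θ), M4S_shift (hm θ) _⟩ =
        L ⟨(φ θ + Complex.I * (s : ℂ), y θ), M4S_shift (hm θ) _⟩ + 2 * Real.pi * Complex.I * e := by
      intro s
      have h2 := he ⟨(φ θ + Complex.I * (s : ℂ), y θ), M4S_shift (hm θ) s⟩
      have h3 : (⟨(φ θ + Complex.I * ((s + 2 * Real.pi : ℝ) : ℂ), y θ), M4S_shift (hm θ) _⟩ :
          M4S d w ρ) = ⟨(φ θ + Complex.I * (s : ℂ) + Complex.I * (2 * Real.pi : ℝ), y θ),
            M4S_shift (M4S_shift (hm θ) s) _⟩ := by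
        refine Subtype.ext (Prod.ext ?_ rfl)
        simp only
        push_cast
        ring
      rw [h3, ← h2]
      ring
    have h4 := M1_iter (L := fun s : ℝ => L ⟨(φ θ + Complex.I * (s : ℂ), y θ), M4S_shift (hm θ) s⟩)
      (a := 2 * Real.pi * Complex.I * e) h1 k 0
    have h5 : (⟨(φ (θ + 2 * Real.pi), y (θ + 2 * Real.pi)), hm (θ + 2 * Real.pi)⟩ : M4S d w ρ) =
        ⟨(φ θ + Complex.I * ((0 + 2 * Real.pi * k : ℝ) : ℂ), y θ), M4S_shift (hm θ) _⟩ := by
      refine Subtype.ext (Prod.ext ?_ (hyp θ))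
      simp only
      rw [hφp]
      push_cast
      ring
    have h6 : (⟨(φ θ, y θ), hm θ⟩ : M4S d w ρ) =
        ⟨(φ θ + Complex.I * ((0 : ℝ) : ℂ), y θ), M4S_shift (hm θ) _⟩ := by
      refine Subtype.ext (Prod.ext ?_ rfl)
      simp
    show L ⟨(φ (θ + 2 * Real.pi), y (θ + 2 * Real.pi)), hm (θ + 2 * Real.pi)⟩ =
      L ⟨(φ θ, y θ), hm θ⟩ + 2 * Real.pi * Complex.I * ((e * k : ℤ) : ℂ)
    rw [h5, h6, h4]
    push_cast
    ring

theorem chart {f : E → ℂ} {p : E} (hf : AnalyticAt ℂ f p) (h0 : f p = 0) (hd : fderiv ℂ f p ≠ 0) {U : Set E}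
    (hU : U ∈ 𝓝 p) : ∃ O : Set E, IsOpen O ∧ p ∈ O ∧ O ⊆ U ∧ ∀ H : E → ℂ, ContinuousOn H (O \ {x | f x = 0}) →
      (∀ x ∈ O, f x ≠ 0 → H x ≠ 0) → ∃ e : ℤ, ∀ (c : ℝ → E) (k : ℤ), Continuous c →
        (∀ θ, c (θ + 2 * Real.pi) = c θ) → (∀ θ, c θ ∈ O) → Wd (fun θ => f (c θ)) k →
        Wd (fun θ => H (c θ)) (e * k) := by
  have hcomp : CompleteSpace E := FiniteDimensional.complete ℂ E
  set d : E →L[ℂ] ℂ := fderiv ℂ f p with hdd
  obtain ⟨w, hw⟩ : ∃ w, d w = 1 := by
    obtain ⟨v, hv⟩ : ∃ v, d v ≠ 0 := by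
      by_contra hcon
      push Not at hcon
      exact hd (ContinuousLinearMap.ext hcon)
    refine ⟨(d v)⁻¹ • v, ?_⟩
    rw [map_smul, smul_eq_mul, inv_mul_cancel₀ hv]
  -- the flattening map
  let G : E → E := fun x => x + (f x - d (x - p)) • w
  have hGd : HasStrictFDerivAt G ((ContinuousLinearEquiv.refl ℂ E : E ≃L[ℂ] E) : E →L[ℂ] E) p := by
    have h1 := hf.hasStrictFDerivAt
    rw [← hdd] at h1
    have h2 : HasStrictFDerivAt (fun x => d (x - p)) d p := by
      have e1 : (fun x => d (x - p)) = fun x => d x - d p := by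
        funext x
        rw [map_sub]
      rw [e1]
      exact (d.hasStrictFDerivAt (x := p)).sub_const _
    have h3 := (h1.sub h2).smul_const w
    have h4 := (hasStrictFDerivAt_id p).add h3
    have h5 : (ContinuousLinearMap.id ℂ E + (d - d).smulRight w : E →L[ℂ] E) =
        ((ContinuousLinearEquiv.refl ℂ E : E ≃L[ℂ] E) : E →L[ℂ] E) := by
      ext x
      simp
    rw [h5] at h4
    exact h4
  have hGp : G p = p := by
    simp [G, h0]
  have hfG : ∀ x, d (G x - p) = f x := by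
    intro x
    have : G x - p = (x - p) + (f x - d (x - p)) • w := by
      simp only [G]
      abel
    rw [this, map_add, map_smul, hw, smul_eq_mul, mul_one]
    ring
  set T := hGd.toOpenPartialHomeomorph G with hT
  have hTc : (T : E → E) = G := hGd.toOpenPartialHomeomorph_coe
  have hps : p ∈ T.source := hGd.mem_toOpenPartialHomeomorph_source
  have hpt : p ∈ T.target := by
    have := hGd.image_mem_toOpenPartialHomeomorph_target
    rwa [hGp] at this
  have hsp : T.symm p = p := by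
    have := T.left_inv hps
    rwa [hTc, hGp] at this
  have hW : T.target ∩ T.symm ⁻¹' U ∈ 𝓝 p := by
    refine inter_mem (T.open_target.mem_nhds hpt) ?_
    have := T.continuousAt_symm hpt
    refine this.preimage_mem_nhds ?_
    rw [hsp]
    exact hU
  obtain ⟨r, hr, hb⟩ := Metric.mem_nhds_iff.1 hW
  have hwp : 0 < ‖w‖ + 1 := by positivity
  obtain ⟨ρ, hρ, hρr⟩ : ∃ ρ : ℝ, 0 < ρ ∧ ρ * (‖w‖ + 1) ≤ r :=
    ⟨r / (‖w‖ + 1), by positivity, by rw [div_mul_cancel₀ _ hwp.ne']⟩
  have hV : M4V d w p ρ ⊆ T.target ∩ T.symm ⁻¹' U := by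
    intro y hy
    refine hb ?_
    rw [mem_ball_iff_norm]
    have h1 : y - p = d (y - p) • w + ((y - p) - d (y - p) • w) := by abel
    rw [h1]
    refine lt_of_le_of_lt (norm_add_le _ _) ?_
    rw [norm_smul]
    have h2 := hy.1
    have h3 := hy.2
    have h4 : ‖d (y - p)‖ * ‖w‖ ≤ ρ * ‖w‖ := mul_le_mul_of_nonneg_right h2.le (norm_nonneg _)
    nlinarith
  have hVo : IsOpen (M4V d w p ρ) := by
    refine IsOpen.inter ?_ ?_
    · have h : Continuous (fun y : E => ‖d (y - p)‖) := by fun_prop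
      exact isOpen_lt h continuous_const
    · have h : Continuous (fun y : E => ‖(y - p) - d (y - p) • w‖) := by fun_prop
      exact isOpen_lt h continuous_const
  refine ⟨T.source ∩ T ⁻¹' (M4V d w p ρ), T.isOpen_inter_preimage hVo, ⟨hps, ?_⟩, ?_, ?_⟩
  · show T p ∈ M4V d w p ρ
    rw [hTc, hGp]
    constructor <;> simpa using hρ
  · rintro x ⟨hx, hx'⟩
    have := (hV hx').2
    rw [mem_preimage, T.left_inv hx] at this
    exact this
  · intro H hH hH0
    have hsymm : ∀ x ∈ M4S d w ρ, T.symm (M4Q d w p x) ∈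
        (T.source ∩ T ⁻¹' (M4V d w p ρ)) \ {x | f x = 0} := by
      intro x hx
      have h1 := M4Q_mem hw (p := p) hρ hx
      have h2 := (hV h1).1
      refine ⟨⟨T.map_target h2, ?_⟩, ?_⟩
      · rw [mem_preimage, T.right_inv h2]
        exact h1
      · have h3 := hfG (T.symm (M4Q d w p x))
        have h4 : G (T.symm (M4Q d w p x)) = M4Q d w p x := by
          have := T.right_inv h2
          rwa [hTc] at this
        rw [h4, M4Q_d hw] at h3
        rw [mem_ofPred_eq, ← h3]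
        exact Complex.exp_ne_zero _
    have hQc : Continuous (M4Q d w p) := by
      unfold M4Q
      fun_prop
    obtain ⟨e, he⟩ := M4_log (d := d) (w := w) hρ (F := fun x => H (T.symm (M4Q d w p x)))
      (by
        refine ContinuousOn.comp (t := (T.source ∩ T ⁻¹' (M4V d w p ρ)) \ {x | f x = 0})
          (g := H) (f := fun x => T.symm (M4Q d w p x)) hH ?_ hsymm
        refine ContinuousOn.comp (t := T.target) (g := T.symm) (f := M4Q d w p)
          T.continuousOn_symm hQc.continuousOn ?_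
        intro x hx
        exact (hV (M4Q_mem hw hρ hx)).1)
      (by
        intro x hx
        have := hsymm x hx
        exact hH0 _ this.1 this.2)
      (by
        intro x hx
        have : M4Q d w p (x.1 + 2 * Real.pi * Complex.I, x.2) = M4Q d w p x := by
          unfold M4Q
          simp only
          rw [Complex.exp_periodic]
        rw [this])
    refine ⟨e, ?_⟩
    intro c k hc hcp hcO hcw
    obtain ⟨φ, h1, h2', h3⟩ := hcw
    have h2 : ∀ θ, Complex.exp (φ θ) = f (c θ) := h2'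
    have hTcont : Continuous (fun θ => T (c θ)) :=
      T.continuousOn.comp_continuous hc (fun θ => (hcO θ).1)
    have hfT : ∀ θ, d (T (c θ) - p) = f (c θ) := by
      intro θ
      rw [hTc]
      exact hfG _
    let y : ℝ → E := fun θ => (T (c θ) - p) - d (T (c θ) - p) • w
    have hdy : ∀ θ, d (y θ) = 0 := by
      intro θ
      simp only [y]
      rw [map_sub, map_smul, hw]
      simp
    have hyc : Continuous y := by
      have h8 : Continuous (fun θ => T (c θ) - p) := hTcont.sub continuous_const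
      exact h8.sub ((d.continuous.comp h8).smul continuous_const)
    have h4 := he φ y k h1 hyc h3 (by
      intro θ
      simp only [y]
      rw [hcp]) (by
      intro θ
      refine ⟨?_, ?_⟩
      · have h5 := (hcO θ).2.1
        rw [hfT, ← h2, Complex.norm_exp] at h5
        exact (Real.lt_log_iff_exp_lt hρ).2 h5
      · show ‖y θ - d (y θ) • w‖ < ρ
        rw [hdy, zero_smul, sub_zero]
        exact (hcO θ).2.2)
    have h5 : (fun θ => H (T.symm (M4Q d w p (φ θ, y θ)))) = fun θ => H (c θ) := by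
      funext θ
      have h6 : M4Q d w p (φ θ, y θ) = T (c θ) := by
        unfold M4Q
        simp only
        rw [hdy, zero_smul, sub_zero, h2, ← hfT]
        simp only [y]
        abel
      rw [h6, T.left_inv (hcO θ).1]
    rw [h5] at h4
    exact h4

theorem local_index {f g : E → ℂ} {φ ψ : E → E} {B : Set E} (h : Pair f g φ ψ B) {q v : E} (hq : q ∈ B)
    (hg : g q = 0) (hv : fderiv ℂ g q v ≠ 0) (hf : fderiv ℂ f (ψ q) ≠ 0) : ∃ e : ℤ, |e| ≤ 1 ∧
      ∀ᶠ ρ : ℝ in 𝓝[>] 0, Wd (fun θ => f (ψ (q + (ρ * cis θ) • v))) e := by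
  have hcis := cis_cont
  have hgd : fderiv ℂ g q ≠ 0 := by
    intro h0
    rw [h0] at hv
    simp at hv
  have hfp : f (ψ q) = 0 := (h.zs q hq).2 hg
  -- the chart at `q`
  obtain ⟨O, hO, hqO, hOB, hOH⟩ := chart (h.g_an q hq) hg hgd (h.isOpen.mem_nhds hq)
  obtain ⟨e, he⟩ := hOH (fun y => f (ψ y)) (by
    intro y hy
    have hyB := hOB hy.1
    exact (ContinuousAt.comp (g := f) (f := ψ) (h.f_an y hyB).continuousAt (h.ψ_cont y hyB)).continuousWithinAt)
    (by
      intro y hy hgy hcon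
      exact hgy ((h.zs y (hOB hy)).1 hcon))
  -- the chart at `p = ψ q`
  have hφq : φ (ψ q) = q := h.φψ q hq
  have hU : {x | φ x ∈ O ∧ ψ (φ x) = x} ∈ 𝓝 (ψ q) := by
    have h1 : ∀ᶠ x in 𝓝 (ψ q), φ x ∈ O := by
      refine (h.φ_cont q hq).preimage_mem_nhds ?_
      rw [hφq]
      exact hO.mem_nhds hqO
    exact h1.and (h.ψφ q hq)
  obtain ⟨O', hO', hpO', hOU', hOH'⟩ := chart (h.f_an q hq) hfp hf hU
  have hcontφ : ∀ x ∈ O', ContinuousAt φ x := by
    intro x hx
    obtain ⟨h1, h2⟩ := hOU' hx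
    have := h.φ_cont (φ x) (hOB h1)
    rwa [h2] at this
  obtain ⟨e', he'⟩ := hOH' (fun x => g (φ x)) (by
    intro x hx
    obtain ⟨h1, h2⟩ := hOU' hx.1
    exact (ContinuousAt.comp (g := g) (f := φ) (h.g_an _ (hOB h1)).continuousAt
      (hcontφ x hx.1)).continuousWithinAt)
    (by
      intro x hx hfx hcon
      obtain ⟨h1, h2⟩ := hOU' hx
      have h3 := (h.zs _ (hOB h1)).2 hcon
      rw [h2] at h3
      exact hfx h3)
  -- a small loop around `p`
  obtain ⟨u, hu⟩ : ∃ u, fderiv ℂ f (ψ q) u ≠ 0 := by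
    by_contra hcon
    push Not at hcon
    exact hf (ContinuousLinearMap.ext hcon)
  obtain ⟨ρ, hρ1, hρ2⟩ := ((simple_wd (h.f_an q hq) hfp hu).and
    (M4_ev (u := u) (hO'.mem_nhds hpO'))).exists
  have hcc : Continuous (fun θ : ℝ => ψ q + ((ρ * cis θ : ℂ)) • u) := by fun_prop
  have hcp : ∀ θ : ℝ, ψ q + ((ρ * cis (θ + 2 * Real.pi) : ℂ)) • u = ψ q + ((ρ * cis θ : ℂ)) • u := by
    intro θ
    rw [cis_per]
  have h1 := he' (fun θ : ℝ => ψ q + ((ρ * cis θ : ℂ)) • u) 1 hcc hcp hρ2 hρ1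
  have h2 := he (fun θ : ℝ => φ (ψ q + ((ρ * cis θ : ℂ)) • u)) (e' * 1)
    (by
      rw [continuous_iff_continuousAt]
      intro θ
      exact ContinuousAt.comp (g := φ) (f := fun θ : ℝ => ψ q + ((ρ * cis θ : ℂ)) • u)
        (hcontφ _ (hρ2 θ)) hcc.continuousAt)
    (by
      intro θ
      rw [hcp])
    (fun θ => (hOU' (hρ2 θ)).1) h1
  have h3 : (fun θ : ℝ => f (ψ (φ (ψ q + ((ρ * cis θ : ℂ)) • u)))) =
      fun θ : ℝ => f (ψ q + ((ρ * cis θ : ℂ)) • u) := by
    funext θ
    rw [(hOU' (hρ2 θ)).2]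
  rw [h3] at h2
  have h4 : (1 : ℤ) = e * (e' * 1) := hρ1.uniq h2
  refine ⟨e, ?_, ?_⟩
  · have h5 : e ∣ 1 := ⟨e' * 1, h4⟩
    have h6 : |e| ∣ 1 := (abs_dvd e 1).2 h5
    exact Int.le_of_dvd one_pos h6
  · filter_upwards [simple_wd (h.g_an q hq) hg hv, M4_ev (u := v) (hO.mem_nhds hqO)] with ρ' h5 h6
    have h7 := he (fun θ : ℝ => q + ((ρ' * cis θ : ℂ)) • v) 1 (by fun_prop)
      (by
        intro θ
        rw [cis_per]) h6 h5
    rw [mul_one] at h7
    exact h7

end Zr
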