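import Pool.Agent.helper60.Zr.M3

set_option autoImplicit false

/-!
# Zr, module M5: a generic parallel disc has simple zeros

`line_zero` by the implicit function theorem for `(w, τ) ↦ g (q + w • v + τ • u)`; `generic_simple` by
maximality of the number of distinct zeros.
-/

noncomputable section

namespace Zr

open Filter Topology Set

variable {E : Type*} [NormedAddCommGroup E] [NormedSpace ℂ E] [FiniteDimensional ℂ E]

/-- if `fderiv g · v` vanishes on the zero set near a regular zero, the zero set contains a piece of the line -/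
theorem line_zero {g : E → ℂ} {q v : E} (hg : AnalyticAt ℂ g q) (h0 : g q = 0) (hd : fderiv ℂ g q ≠ 0)
    (hv : ∀ᶠ y in 𝓝 q, g y = 0 → fderiv ℂ g y v = 0) : ∀ᶠ w : ℂ in 𝓝 0, g (q + w • v) = 0 := by
  obtain ⟨u, hu⟩ : ∃ u, fderiv ℂ g q u ≠ 0 := by
    by_contra hcon
    push Not at hcon
    exact hd (ContinuousLinearMap.ext hcon)
  set A : ℂ × ℂ → E := fun p => q + p.1 • v + p.2 • u with hA
  have hA0 : A (0, 0) = q := by simp [hA]
  set G : ℂ × ℂ → ℂ := fun p => g (A p) with hG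
  have hAd : ∀ p : ℂ × ℂ, HasFDerivAt A ((ContinuousLinearMap.fst ℂ ℂ ℂ).smulRight v
      + (ContinuousLinearMap.snd ℂ ℂ ℂ).smulRight u) p := by
    intro p
    have h1 : HasFDerivAt (fun p : ℂ × ℂ => p.1 • v) ((ContinuousLinearMap.fst ℂ ℂ ℂ).smulRight v) p :=
      ((ContinuousLinearMap.fst ℂ ℂ ℂ).smulRight v).hasFDerivAt
    have h2 : HasFDerivAt (fun p : ℂ × ℂ => p.2 • u) ((ContinuousLinearMap.snd ℂ ℂ ℂ).smulRight u) p :=
      ((ContinuousLinearMap.snd ℂ ℂ ℂ).smulRight u).hasFDerivAt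
    exact (h1.const_add q).add h2
  have hAan : ContDiff ℂ 1 A := by
    rw [hA]
    fun_prop
  have hGc : ContDiffAt ℂ 1 G (0, 0) := by
    have h1 : ContDiffAt ℂ 1 g (A (0, 0)) := by
      rw [hA0]
      exact hg.contDiffAt
    exact h1.comp (0, 0) hAan.contDiffAt
  have hGd : fderiv ℂ G (0, 0) = (fderiv ℂ g q).comp ((ContinuousLinearMap.fst ℂ ℂ ℂ).smulRight v
      + (ContinuousLinearMap.snd ℂ ℂ ℂ).smulRight u) := by
    have h1 : HasFDerivAt g (fderiv ℂ g q) (A (0, 0)) := by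
      rw [hA0]
      exact hg.differentiableAt.hasFDerivAt
    exact (h1.comp (0, 0) (hAd (0, 0))).fderiv
  have hinv : (fderiv ℂ G (0, 0) ∘L .inr ℂ ℂ ℂ).IsInvertible := by
    have hval : ∀ t : ℂ, (fderiv ℂ G (0, 0) ∘L .inr ℂ ℂ ℂ) t = t * fderiv ℂ g q u := by
      intro t
      rw [hGd]
      simp
    refine ⟨ContinuousLinearEquiv.unitsEquivAut ℂ (Units.mk0 _ hu), ?_⟩
    ext
    simp [hval]
  have hψs := hGc.implicitFunction_apply_self one_ne_zero hinv
  have hψe := hGc.eventually_apply_implicitFunction one_ne_zero hinv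
  have hψc := hGc.contDiffAt_implicitFunction one_ne_zero hinv
  set ψ := hGc.implicitFunction one_ne_zero hinv with hψ
  simp only at hψs hψe hψc
  have hG0 : G (0, 0) = 0 := by
    show g (A (0, 0)) = 0
    rw [hA0, h0]
  rw [hG0] at hψe
  have hψd : ∀ᶠ w in 𝓝 (0 : ℂ), DifferentiableAt ℂ ψ w := by
    filter_upwards [hψc.eventually (by simp)] with w hw
    exact hw.differentiableAt (by simp)
  have hcurve : Tendsto (fun w : ℂ => A (w, ψ w)) (𝓝 0) (𝓝 q) := by
    have h1 : ContinuousAt (fun w : ℂ => A (w, ψ w)) 0 := by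
      have h2 : ContinuousAt ψ 0 := hψc.continuousAt
      have h3 : ContinuousAt A (0, ψ 0) := hAan.continuous.continuousAt
      exact ContinuousAt.comp (g := A) (f := fun w : ℂ => (w, ψ w)) (x := 0) h3
        (continuousAt_id.prodMk h2)
    have h4 : A (0, ψ 0) = q := by rw [hψs, hA0]
    have := h1.tendsto
    rwa [h4] at this
  have hv' := hcurve.eventually hv
  have hu' : ∀ᶠ w in 𝓝 (0 : ℂ), fderiv ℂ g (A (w, ψ w)) u ≠ 0 := by
    have h1 : ContinuousAt (fun y => fderiv ℂ g y u) q := by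
      have := hg.fderiv.continuousAt
      exact this.clm_apply continuousAt_const
    exact hcurve.eventually (h1.eventually_ne hu)
  have hg' : ∀ᶠ w in 𝓝 (0 : ℂ), DifferentiableAt ℂ g (A (w, ψ w)) := by
    refine hcurve.eventually ?_
    filter_upwards [hg.eventually_analyticAt] with y hy
    exact hy.differentiableAt
  have hder : ∀ᶠ w in 𝓝 (0 : ℂ), DifferentiableAt ℂ ψ w ∧ deriv ψ w = 0 ∧ G (w, ψ w) = 0 := by
    filter_upwards [hψe.eventually_nhds, hψd, hv', hu', hg'] with w h1 h2 h3 h4 h5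
    have h6 : G (w, ψ w) = 0 := h1.self_of_nhds
    have h7 : HasDerivAt (fun w => A (w, ψ w)) (v + deriv ψ w • u) w := by
      have a1 : HasDerivAt (fun w : ℂ => w • v) v w := by
        simpa using (hasDerivAt_id w).smul_const v
      have a2 : HasDerivAt (fun w : ℂ => ψ w • u) (deriv ψ w • u) w := h2.hasDerivAt.smul_const u
      exact (a1.const_add q).add a2
    have h8 := h5.hasFDerivAt.comp_hasDerivAt w h7
    have h9 : HasDerivAt (g ∘ fun w => A (w, ψ w)) 0 w := by
      have : (g ∘ fun w => A (w, ψ w)) =ᶠ[𝓝 w] fun _ => (0 : ℂ) := h1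
      exact (hasDerivAt_const w (0 : ℂ)).congr_of_eventuallyEq this
    have h10 := h8.unique h9
    rw [map_add, map_smul, h3 h6, zero_add, smul_eq_mul] at h10
    refine ⟨h2, ?_, h6⟩
    rcases mul_eq_zero.1 h10 with h | h
    · exact h
    · exact absurd h h4
  obtain ⟨r, hr, hball⟩ := Metric.eventually_nhds_iff_ball.1 hder
  have hconst : ∀ w ∈ Metric.ball (0 : ℂ) r, ψ w = 0 := by
    intro w hw
    have h1 : DifferentiableOn ℂ ψ (Metric.ball 0 r) :=
      fun z hz => (hball z hz).1.differentiableWithinAt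
    have h2 : (Metric.ball (0 : ℂ) r).EqOn (deriv ψ) 0 := fun z hz => (hball z hz).2.1
    have := Metric.isOpen_ball.is_const_of_deriv_eq_zero
      (convex_ball (0 : ℂ) r).isPreconnected h1 h2 hw (Metric.mem_ball_self hr)
    rw [this, hψs]
  filter_upwards [Metric.ball_mem_nhds (0 : ℂ) hr] with w hw
  have h1 := (hball w hw).2.2
  rw [hconst w hw] at h1
  have h2 : G (w, 0) = g (q + w • v) := by
    simp [hG, hA]
  rw [← h2]
  exact h1

omit [FiniteDimensional ℂ E] in
theorem M5_cpt {B : Set E} (hB : IsOpen B) {K : Set ℂ} (hK : IsCompact K) {x v a0 : E}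
    (h : ∀ w ∈ K, x + a0 + w • v ∈ B) : ∀ᶠ a in 𝓝 a0, ∀ w ∈ K, x + a + w • v ∈ B := by
  refine hK.eventually_forall_of_forall_eventually (P := fun a w => x + a + w • v ∈ B) ?_
  intro w hw
  have hc : ContinuousAt (fun p : E × ℂ => x + p.1 + p.2 • v) (a0, w) := by fun_prop
  exact hc.eventually_mem (hB.mem_nhds (h w hw))

omit [FiniteDimensional ℂ E] in
theorem M5_stab {g : E → ℂ} {B : Set E} (hg : ∀ y ∈ B, AnalyticAt ℂ g y) {x v a0 : E} {p : ℂ}
    {ρ r : ℝ} (hb : ∀ a ∈ Metric.ball a0 r, ∀ θ : ℝ, x + a + (p + ρ * cis θ) • v ∈ B)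
    (hn : ∀ a ∈ Metric.ball a0 r, ∀ θ : ℝ, g (x + a + (p + ρ * cis θ) • v) ≠ 0) {a : E}
    (ha : a ∈ Metric.ball a0 r) {k : ℤ} (h : Wd (fun θ => g (x + a0 + (p + ρ * cis θ) • v)) k) :
    Wd (fun θ => g (x + a + (p + ρ * cis θ) • v)) k := by
  have hmem : ∀ t ∈ Icc (0:ℝ) 1, a0 + (t : ℂ) • (a - a0) ∈ Metric.ball a0 r := by
    intro t ht
    rw [Metric.mem_ball, dist_eq_norm] at ha ⊢
    have e : a0 + (t : ℂ) • (a - a0) - a0 = (t : ℂ) • (a - a0) := by abel
    rw [e, norm_smul, Complex.norm_real, Real.norm_eq_abs, abs_of_nonneg ht.1]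
    have h1 : t * ‖a - a0‖ ≤ 1 * ‖a - a0‖ := mul_le_mul_of_nonneg_right ht.2 (norm_nonneg _)
    linarith
  have hcis := cis_cont
  have := Wd.htpy (H := fun θ t => g (x + (a0 + (t : ℂ) • (a - a0)) + (p + ρ * cis θ) • v)) (k := k)
    (by
      intro z hz
      have h1 : ContinuousAt (fun z : ℝ × ℝ =>
          x + (a0 + (z.2 : ℂ) • (a - a0)) + (p + ρ * cis z.1) • v) z := by
        have : Continuous (fun z : ℝ × ℝ =>
          x + (a0 + (z.2 : ℂ) • (a - a0)) + (p + ρ * cis z.1) • v) := by fun_prop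
        exact this.continuousAt
      have h2 := (hg _ (hb _ (hmem _ hz.2) z.1)).continuousAt
      exact (ContinuousAt.comp (g := g) (f := fun z : ℝ × ℝ =>
        x + (a0 + (z.2 : ℂ) • (a - a0)) + (p + ρ * cis z.1) • v) (x := z) h2 h1).continuousWithinAt)
    (by
      intro t ht θ
      exact hn _ (hmem t ht) θ)
    (by
      intro t ht θ
      rw [cis_per])
    (by simpa using h)
  simpa using this

omit [FiniteDimensional ℂ E] in
theorem M5_an {g : E → ℂ} {x v a : E} {p c w : ℂ}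
    (hg : AnalyticAt ℂ g (x + a + (p + c * w) • v)) :
    AnalyticAt ℂ (fun w : ℂ => g (x + a + (p + c * w) • v)) w := by
  have h1 : AnalyticAt ℂ (fun w : ℂ => x + a + (p + c * w) • v) w := by fun_prop
  exact AnalyticAt.fun_comp hg h1

omit [FiniteDimensional ℂ E] in
theorem M5_deriv {g : E → ℂ} {x v a : E} {p c w : ℂ}
    (hg : AnalyticAt ℂ g (x + a + (p + c * w) • v)) :
    deriv (fun w : ℂ => g (x + a + (p + c * w) • v)) w
      = c * fderiv ℂ g (x + a + (p + c * w) • v) v := by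
  have h1 : HasDerivAt (fun w : ℂ => x + a + (p + c * w) • v) (c • v) w := by
    have a0 : HasDerivAt (fun w : ℂ => p + c * w) c w := by
      simpa using ((hasDerivAt_id w).const_mul c).const_add p
    exact (a0.smul_const v).const_add (x + a)
  have h2 := hg.differentiableAt.hasFDerivAt.comp_hasDerivAt w h1
  have h3 := h2.deriv
  rw [map_smul, smul_eq_mul] at h3
  exact h3

theorem generic_simple {g : E → ℂ} {B : Set E} (hB : IsOpen B) (hg : ∀ y ∈ B, AnalyticAt ℂ g y)
    (hr : ∀ y ∈ B, g y = 0 → y ∈ closure {q | g q = 0 ∧ fderiv ℂ g q ≠ 0}) {x v : E}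
    (hD : ∀ w : ℂ, ‖w‖ ≤ 1 → x + w • v ∈ B) (h0 : ∀ w : ℂ, ‖w‖ = 1 → g (x + w • v) ≠ 0) {ε : ℝ} (hε : 0 < ε) :
    ∃ a : E, ‖a‖ < ε ∧ (∀ w : ℂ, ‖w‖ ≤ 1 → x + a + w • v ∈ B) ∧ (∀ w : ℂ, ‖w‖ = 1 → g (x + a + w • v) ≠ 0) ∧
      ∀ w : ℂ, ‖w‖ ≤ 1 → g (x + a + w • v) = 0 → fderiv ℂ g (x + a + w • v) v ≠ 0 := by
  classical
  -- the open set where `g ≠ 0`
  set B' : Set E := {y ∈ B | g y ≠ 0} with hB'def
  have hB' : IsOpen B' := by
    have hc : ContinuousOn g B := fun y hy => (hg y hy).continuousAt.continuousWithinAt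
    exact hc.isOpen_inter_preimage hB isOpen_compl_singleton
  -- uniform neighbourhood
  have hcptB := M5_cpt hB (isCompact_closedBall (0 : ℂ) 1) (x := x) (v := v) (a0 := 0) (by
    intro w hw
    rw [add_zero]
    exact hD w (by simpa using hw))
  have hcptC := M5_cpt hB' (isCompact_sphere (0 : ℂ) 1) (x := x) (v := v) (a0 := 0) (by
    intro w hw
    have hw1 : ‖w‖ = 1 := by simpa using hw
    rw [add_zero]
    exact ⟨hD w hw1.le, h0 w hw1⟩)
  obtain ⟨ε0, hε0, hball⟩ := Metric.eventually_nhds_iff_ball.1 (hcptB.and hcptC)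
  have hin : ∀ a ∈ Metric.ball (0 : E) ε0, ∀ w : ℂ, ‖w‖ ≤ 1 → x + a + w • v ∈ B :=
    fun a ha w hw => (hball a ha).1 w (by simpa using hw)
  have hne : ∀ a ∈ Metric.ball (0 : E) ε0, ∀ w : ℂ, ‖w‖ = 1 → g (x + a + w • v) ≠ 0 :=
    fun a ha w hw => ((hball a ha).2 w (by simpa using hw)).2
  -- zeros on each disc
  have hz : ∀ a ∈ Metric.ball (0 : E) ε0, ∃ (Z : Finset ℂ) (m : ℂ → ℕ),
      (∀ w, w ∈ Z ↔ ‖w‖ < 1 ∧ g (x + a + w • v) = 0) ∧ (∀ w ∈ Z, 1 ≤ m w) ∧
      (∀ w ∈ Z, fderiv ℂ g (x + a + w • v) v = 0 → 2 ≤ m w) ∧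
      (∀ w ∈ Z, ∀ᶠ ρ : ℝ in 𝓝[>] 0, Wd (fun θ => g (x + a + (w + ρ * cis θ) • v)) (m w)) ∧
      Wd (fun θ => g (x + a + cis θ • v)) (∑ w ∈ Z, (m w : ℤ)) := by
    intro a ha
    obtain ⟨Z, m, h1, h2, h3, h4, h5, h6⟩ := wd_zeros (h := fun w => g (x + a + w • v)) (by
      intro w hw
      have := M5_an (g := g) (x := x) (v := v) (a := a) (p := 0) (c := 1) (w := w)
        (by simpa using hg _ (hin a ha w hw))
      simpa using this) (hne a ha)
    refine ⟨Z, m, h1, h2, ?_, h5, h6⟩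
    intro w hw hd
    apply h4 w hw
    have hw1 := (h1 w).1 hw
    have := M5_deriv (g := g) (x := x) (v := v) (a := a) (p := 0) (c := 1) (w := w)
        (by simpa using hg _ (hin a ha w hw1.1.le))
    simp only [zero_add, one_mul] at this
    rw [this, hd]
  -- the winding number does not depend on `a`
  obtain ⟨Z0, m0, -, -, -, -, hW0⟩ := hz 0 (Metric.mem_ball_self hε0)
  set N : ℤ := ∑ w ∈ Z0, (m0 w : ℤ) with hN
  have hWa : ∀ a ∈ Metric.ball (0 : E) ε0, Wd (fun θ => g (x + a + cis θ • v)) N := by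
    intro a ha
    have := M5_stab hg (x := x) (v := v) (a0 := 0) (p := 0) (ρ := 1) (r := ε0) (by
      intro b hb θ
      have := hin b hb (cis θ) (cis_norm θ).le
      simpa using this) (by
      intro b hb θ
      have := hne b hb (cis θ) (cis_norm θ)
      simpa using this) ha (k := N) (by simpa using hW0)
    simpa using this
  -- the maximal number of zeros
  set ε1 := min ε ε0 with hε1
  have hε1pos : 0 < ε1 := lt_min hε hε0
  have hsub1 : ∀ a : E, ‖a‖ < ε1 → a ∈ Metric.ball (0 : E) ε0 := by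
    intro a ha
    rw [mem_ball_zero_iff]
    exact lt_of_lt_of_le ha (min_le_right _ _)
  set S : E → Set ℂ := fun a => {w | ‖w‖ < 1 ∧ g (x + a + w • v) = 0} with hS
  have hSfin : ∀ a ∈ Metric.ball (0 : E) ε0, (S a).Finite := by
    intro a ha
    obtain ⟨Z, m, h1, -⟩ := hz a ha
    have : S a = ↑Z := by
      ext w
      exact (h1 w).symm
    rw [this]
    exact Z.finite_toSet
  have hcard : ∀ a ∈ Metric.ball (0 : E) ε0, (S a).ncard ≤ N.toNat := by
    intro a ha
    obtain ⟨Z, m, h1, h2, -, -, h6⟩ := hz a ha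
    have hSZ : S a = ↑Z := by
      ext w
      exact (h1 w).symm
    rw [hSZ, Set.ncard_coe_finset]
    have h7 := h6.uniq (hWa a ha)
    have h8 : (Z.card : ℤ) ≤ N := by
      rw [← h7]
      calc (Z.card : ℤ) = ∑ w ∈ Z, (1 : ℤ) := by simp
        _ ≤ _ := Finset.sum_le_sum (fun w hw => by exact_mod_cast h2 w hw)
    omega
  set T : Set ℕ := {n | ∃ a : E, ‖a‖ < ε1 ∧ (S a).ncard = n} with hT
  have hTne : T.Nonempty := ⟨(S 0).ncard, 0, by simpa using hε1pos, rfl⟩
  have hTbdd : BddAbove T := by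
    refine ⟨N.toNat, ?_⟩
    rintro n ⟨a, ha, rfl⟩
    exact hcard a (hsub1 a ha)
  obtain ⟨a0, ha0, ha0max⟩ := Nat.sSup_mem hTne hTbdd
  have hmax : ∀ a : E, ‖a‖ < ε1 → (S a).ncard ≤ (S a0).ncard := by
    intro a ha
    rw [ha0max]
    exact le_csSup hTbdd ⟨a, ha, rfl⟩
  have ha0' := hsub1 a0 ha0
  refine ⟨a0, lt_of_lt_of_le ha0 (min_le_left _ _), hin a0 ha0', hne a0 ha0', ?_⟩
  intro w1 hw1 hz1 hd1
  have hw1' : ‖w1‖ < 1 := by
    rcases hw1.lt_or_eq with h | h
    · exact h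
    · exact absurd hz1 (hne a0 ha0' w1 h)
  obtain ⟨Z, m, h1, h2, h4, h5, h6⟩ := hz a0 ha0'
  have hSZ : S a0 = ↑Z := by
    ext w
    exact (h1 w).symm
  have hw1Z : w1 ∈ Z := (h1 w1).2 ⟨hw1', hz1⟩
  have hm1 : 2 ≤ m w1 := h4 w1 hw1Z hd1
  -- the radius `ρ`
  have hsmall : ∀ c : ℝ, 0 < c → ∀ᶠ ρ : ℝ in 𝓝[>] 0, ρ < c := fun c hc =>
    eventually_nhdsWithin_of_eventually_nhds (Iio_mem_nhds hc)
  have hρev : ∀ᶠ ρ : ℝ in 𝓝[>] 0, 0 < ρ ∧
      (∀ w ∈ Z, Wd (fun θ => g (x + a0 + (w + ρ * cis θ) • v)) (m w)) ∧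
      (∀ w ∈ Z, ρ < 1 - ‖w‖) ∧ (∀ w ∈ Z, ∀ w' ∈ Z, w ≠ w' → ρ < dist w w' / 2) := by
    refine (eventually_mem_nhdsWithin).and (((Filter.eventually_all_finset Z).2 h5).and
      (((Filter.eventually_all_finset Z).2 ?_).and ((Filter.eventually_all_finset Z).2 ?_)))
    · intro w hw
      exact hsmall _ (by linarith [((h1 w).1 hw).1])
    · intro w hw
      refine (Filter.eventually_all_finset Z).2 ?_
      intro w' hw'
      by_cases h : w = w'
      · exact Eventually.of_forall (fun _ h' => absurd h h')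
      · filter_upwards [hsmall (dist w w' / 2) (by have := dist_pos.2 h; linarith)] with ρ hρ _
        exact hρ
  obtain ⟨ρ, hρ, hρW, hρ1, hρd⟩ := hρev.exists
  have hdisc : ∀ w ∈ Z, ∀ z : ℂ, dist z w ≤ ρ → ‖z‖ < 1 := by
    intro w hw z hzw
    have := hρ1 w hw
    rw [dist_eq_norm] at hzw
    have h7 : ‖z‖ ≤ ‖z - w‖ + ‖w‖ := by
      have := norm_add_le (z - w) w
      simpa using this
    linarith
  -- a neighbourhood of `a0`
  have hnbd : ∀ᶠ a in 𝓝 a0, ‖a‖ < ε1 ∧ ∀ w ∈ Z, ∀ z ∈ Metric.sphere w ρ, x + a + z • v ∈ B' := by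
    refine Eventually.and ?_ ((Filter.eventually_all_finset Z).2 ?_)
    · exact continuous_norm.continuousAt.eventually_lt continuousAt_const ha0
    · intro w hw
      apply M5_cpt hB' (isCompact_sphere w ρ)
      intro z hzs
      have hzd : dist z w = ρ := hzs
      refine ⟨hin a0 ha0' z (hdisc w hw z hzd.le).le, ?_⟩
      -- `z = w + ρ cis θ`
      have hn1 : ‖(z - w) / ρ‖ = 1 := by
        rw [norm_div, Complex.norm_real, Real.norm_eq_abs, abs_of_pos hρ, ← dist_eq_norm, hzd,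
          div_self hρ.ne']
      obtain ⟨θ, hθ⟩ := exists_cis hn1
      have h7 := (hρW w hw).ne θ
      have h8 : w + ρ * cis θ = z := by
        rw [hθ]
        have : (ρ : ℂ) ≠ 0 := by exact_mod_cast hρ.ne'
        field_simp
        ring
      rw [h8] at h7
      exact h7
  obtain ⟨r, hr0, hrb⟩ := Metric.eventually_nhds_iff_ball.1 hnbd
  have hsph : ∀ (w : ℂ) (θ : ℝ), w + ρ * cis θ ∈ Metric.sphere w ρ := by
    intro w θ
    rw [mem_sphere_iff_norm, add_sub_cancel_left, norm_mul, cis_norm, Complex.norm_real,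
      Real.norm_eq_abs, abs_of_pos hρ, mul_one]
  -- winding numbers near the zeros
  have hA : ∀ a ∈ Metric.ball a0 r, ∀ w ∈ Z,
      Wd (fun θ => g (x + a + (w + ρ * cis θ) • v)) (m w) := by
    intro a ha w hw
    apply M5_stab hg (r := r) _ _ ha (hρW w hw)
    · intro b hb θ
      exact ((hrb b hb).2 w hw _ (hsph w θ)).1
    · intro b hb θ
      exact ((hrb b hb).2 w hw _ (hsph w θ)).2
  have hdin : ∀ a ∈ Metric.ball a0 r, ∀ w ∈ Z, ∀ u : ℂ, ‖u‖ ≤ 1 →
      x + a + (w + ρ * u) • v ∈ B := by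
    intro a ha w hw u hu
    apply hin a (hsub1 a (hrb a ha).1)
    apply le_of_lt
    apply hdisc w hw
    rw [dist_eq_norm, add_sub_cancel_left, norm_mul, Complex.norm_real, Real.norm_eq_abs,
      abs_of_pos hρ]
    nlinarith
  have hex : ∀ a ∈ Metric.ball a0 r, ∀ w ∈ Z, ∃ z, dist z w < ρ ∧ g (x + a + z • v) = 0 := by
    intro a ha w hw
    by_contra hcon
    push Not at hcon
    have h7 : Wd (fun θ => g (x + a + (w + ρ * cis θ) • v)) 0 := by
      apply Wd.disc (F := fun u => g (x + a + (w + ρ * u) • v))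
      · intro u hu
        have hu1 : ‖u‖ ≤ 1 := by simpa using hu
        exact (M5_an (hg _ (hdin a ha w hw u hu1))).continuousAt.continuousWithinAt
      · intro u hu
        have hu1 : ‖u‖ ≤ 1 := by simpa using hu
        rcases hu1.lt_or_eq with hlt | heq
        · apply hcon
          rw [dist_eq_norm, add_sub_cancel_left, norm_mul, Complex.norm_real, Real.norm_eq_abs,
            abs_of_pos hρ]
          nlinarith
        · refine ((hrb a ha).2 w hw (w + ρ * u) ?_).2
          rw [mem_sphere_iff_norm, add_sub_cancel_left, norm_mul, Complex.norm_real,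
            Real.norm_eq_abs, abs_of_pos hρ, heq, mul_one]
    have h8 := (hA a ha w hw).uniq h7
    have h9 := h2 w hw
    have h10 : m w = 0 := by exact_mod_cast h8
    omega
  have huniq : ∀ a ∈ Metric.ball a0 r, ∀ z z' : ℂ, dist z w1 < ρ → dist z' w1 < ρ →
      g (x + a + z • v) = 0 → g (x + a + z' • v) = 0 → z = z' := by
    intro a ha z z' hz1 hz2 hg1 hg2
    by_contra hne'
    have hch : ∀ w ∈ Z, ∃ y, dist y w < ρ ∧ g (x + a + y • v) = 0 ∧ (w = w1 → y = z) := by
      intro w hw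
      by_cases h : w = w1
      · exact ⟨z, by rw [h]; exact hz1, hg1, fun _ => rfl⟩
      · obtain ⟨y, hy1, hy2⟩ := hex a ha w hw
        exact ⟨y, hy1, hy2, fun h' => absurd h' h⟩
    choose! f hf1 hf2 hf3 using hch
    have hfin := hSfin a (hsub1 a (hrb a ha).1)
    have hinj : Set.InjOn f ↑Z := by
      intro w hw w' hw' hww
      by_contra hne2
      have hww1 : w ∈ Z := hw
      have hww2 : w' ∈ Z := hw'
      have a1 := hf1 w hww1
      have a2 := hf1 w' hww2
      rw [← hww] at a2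
      have a3 := hρd w hww1 w' hww2 hne2
      have a4 := dist_triangle_left w w' (f w)
      linarith
    have himg : f '' ↑Z ⊆ S a \ {z'} := by
      rintro _ ⟨w, hw, rfl⟩
      have hwZ : w ∈ Z := hw
      refine ⟨⟨hdisc w hwZ _ (hf1 w hwZ).le, hf2 w hwZ⟩, ?_⟩
      intro heq
      have heq' : f w = z' := heq
      by_cases h : w = w1
      · exact hne' ((hf3 w hwZ h).symm.trans heq')
      · have a1 := hf1 w hwZ
        have a3 := hρd w hwZ w1 hw1Z h
        have a4 := dist_triangle_left w w1 (f w)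
        rw [heq'] at a1 a4
        linarith
    have hz'S : z' ∈ S a := ⟨hdisc w1 hw1Z z' hz2.le, hg2⟩
    have c1 := Set.ncard_le_ncard himg (hfin.subset Set.diff_subset)
    rw [Set.ncard_image_of_injOn hinj, Set.ncard_coe_finset] at c1
    have c2 := Set.ncard_diff_singleton_lt_of_mem hz'S hfin
    have c3 := hmax a (hrb a ha).1
    rw [hSZ, Set.ncard_coe_finset] at c3
    omega
  -- the zero near `w1` is never simple
  have hnot : ∀ a ∈ Metric.ball a0 r, g (x + a + w1 • v) = 0 →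
      fderiv ℂ g (x + a + w1 • v) v = 0 := by
    intro a ha hga
    obtain ⟨Z', m', k1, k2, k3, k4, k5, k6⟩ := wd_zeros (h := fun u => g (x + a + (w1 + ρ * u) • v))
      (fun u hu => M5_an (hg _ (hdin a ha w1 hw1Z u hu))) (by
        intro u hu
        refine ((hrb a ha).2 w1 hw1Z (w1 + ρ * u) ?_).2
        rw [mem_sphere_iff_norm, add_sub_cancel_left, norm_mul, Complex.norm_real,
          Real.norm_eq_abs, abs_of_pos hρ, hu, mul_one])
    have hZ' : Z' = {0} := by
      ext u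
      rw [k1, Finset.mem_singleton]
      constructor
      · rintro ⟨hu1, hu2⟩
        have h7 := huniq a ha (w1 + ρ * u) w1 (by
          rw [dist_eq_norm, add_sub_cancel_left, norm_mul, Complex.norm_real, Real.norm_eq_abs,
            abs_of_pos hρ]
          nlinarith) (by rw [dist_self]; exact hρ) hu2 hga
        have h8 : (ρ : ℂ) * u = 0 := by linear_combination h7
        rcases mul_eq_zero.1 h8 with h | h
        · exact absurd (by exact_mod_cast h : ρ = 0) hρ.ne'
        · exact h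
      · rintro rfl
        refine ⟨by simp, ?_⟩
        simpa using hga
    rw [hZ', Finset.sum_singleton] at k6
    have h7 := k6.uniq (hA a ha w1 hw1Z)
    have h8 : m' 0 = m w1 := by exact_mod_cast h7
    by_contra hdne
    have h9 := k3 0 (by rw [hZ']; exact Finset.mem_singleton_self _) (by
      rw [M5_deriv (by simpa using hg _ (hin a (hsub1 a (hrb a ha).1) w1 hw1'.le))]
      have : (ρ : ℂ) ≠ 0 := by exact_mod_cast hρ.ne'
      refine mul_ne_zero this ?_
      simpa using hdne)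
    omega
  -- conclusion
  set q1 := x + a0 + w1 • v with hq1
  have hq1B : q1 ∈ B := hin a0 ha0' w1 hw1
  have hshift : ∀ q w : _, x + (a0 + (q - q1)) + (w1 + w) • v = q + w • v := by
    intro q w
    rw [hq1, add_smul]
    abel
  have hev : ∀ᶠ q in 𝓝 q1, g q = 0 → fderiv ℂ g q v = 0 := by
    filter_upwards [Metric.ball_mem_nhds q1 hr0] with q hq hgq
    have hmem : a0 + (q - q1) ∈ Metric.ball a0 r := by
      rw [Metric.mem_ball, dist_eq_norm] at hq ⊢
      rwa [add_sub_cancel_left]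
    have e := hshift q 0
    rw [add_zero, zero_smul, add_zero] at e
    have := hnot _ hmem
    rw [e] at this
    exact this hgq
  have hfreq := mem_closure_iff_frequently.1 (hr q1 hq1B hz1)
  obtain ⟨q2, ⟨hq2a, hq2b⟩, hq2c, hq2d, hq2e⟩ := (hfreq.and_eventually
    (hev.eventually_nhds.and ((hB.eventually_mem hq1B).and
      (Metric.ball_mem_nhds q1 hr0)))).exists
  have hline := line_zero (hg q2 hq2d) hq2a hq2b hq2c
  have hmem2 : a0 + (q2 - q1) ∈ Metric.ball a0 r := by
    have hq : q2 ∈ Metric.ball q1 r := hq2e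
    rw [Metric.mem_ball, dist_eq_norm] at hq ⊢
    rwa [add_sub_cancel_left]
  have hfin2 := hSfin _ (hsub1 _ (hrb _ hmem2).1)
  refine (infinite_of_mem_nhds w1 (s := S (a0 + (q2 - q1))) ?_) hfin2
  have ht : Tendsto (fun z : ℂ => z - w1) (𝓝 w1) (𝓝 0) := by
    have : ContinuousAt (fun z : ℂ => z - w1) w1 := by fun_prop
    have h7 := this.tendsto
    rwa [sub_self] at h7
  have hn1 : ∀ᶠ z : ℂ in 𝓝 w1, ‖z‖ < 1 :=
    continuous_norm.continuousAt.eventually_lt continuousAt_const hw1'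
  filter_upwards [ht.eventually hline, hn1] with z hz2 hz3
  refine ⟨hz3, ?_⟩
  have e := hshift q2 (z - w1)
  rw [add_sub_cancel] at e
  rw [e]
  exact hz2

end Zr
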