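import Pool.Agent.helper60.Zr.M4
import Pool.Agent.helper60.Zr.M5

set_option autoImplicit false

/-!
# Zr, module M7: linking numbers of affine discs

`generic`: start with `a0` from `generic_simple`. For `b` near `x + a0` the disc `b` has the same winding number `N`, so it has at most `N` zeros
(`M7_card`). Among the discs near `a0` choose one with the maximal number of good zeros (`fderiv f (ψ q) ≠ 0`); if it had a bad zero `q1`, by `f_red` at
`ψ q1` there would be a good zero `q` near `q1`; the disc translated by `q - q1` has the good zero `q` and a good zero near every good zero of the old disc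
(`M7_good`), contradiction.
`disc_le`: for small `a` the loops `g (x + a + cis θ • v)`, `f (ψ (x + a + cis θ • v))` have the same winding numbers (`M7_wd`); by `wd_sum` / `wd_zeros`
the first is the number of zeros of the generic disc and the second is the sum of the local indices (`local_index`), each of absolute value `≤ 1`.
-/

noncomputable section

namespace Zr

open Filter Topology Set

variable {E : Type*} [NormedAddCommGroup E] [NormedSpace ℂ E]

theorem M7_map (b v : E) (w : ℂ) : Tendsto (fun z : E × ℂ => z.1 + z.2 • v) (𝓝 (b, w)) (𝓝 (b + w • v)) := by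
  have h : Continuous (fun z : E × ℂ => z.1 + z.2 • v) := by fun_prop
  exact h.tendsto (b, w)

theorem M7_map2 (b v : E) (w : ℂ) : Tendsto (fun z : E × ℂ => b + z.2 • v) (𝓝 (b, w)) (𝓝 (b + w • v)) := by
  have h : Continuous (fun z : E × ℂ => b + z.2 • v) := by fun_prop
  exact h.tendsto (b, w)

/-- a compact part of the disc stays in the open set -/
theorem M7_in {B : Set E} (hB : IsOpen B) {K : Set ℂ} (hK : IsCompact K) {b v : E}
    (h : ∀ w ∈ K, b + w • v ∈ B) : ∀ᶠ b' in 𝓝 b, ∀ w ∈ K, b' + w • v ∈ B := by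
  refine hK.eventually_forall_of_forall_eventually fun w hw => ?_
  exact (M7_map b v w).eventually (hB.mem_nhds (h w hw))

/-- closeness on a compact part of the disc where `G` does not vanish -/
theorem M7_close {G : E → ℂ} {K : Set ℂ} (hK : IsCompact K) {b v : E}
    (hG : ∀ w ∈ K, ContinuousAt G (b + w • v)) (h0 : ∀ w ∈ K, G (b + w • v) ≠ 0) :
    ∀ᶠ b' in 𝓝 b, ∀ w ∈ K, ‖G (b' + w • v) - G (b + w • v)‖ < ‖G (b + w • v)‖ := by
  refine hK.eventually_forall_of_forall_eventually fun w hw => ?_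
  have h1 : Tendsto (fun z : E × ℂ => G (z.1 + z.2 • v)) (𝓝 (b, w)) (𝓝 (G (b + w • v))) :=
    (hG w hw).tendsto.comp (M7_map b v w)
  have h2 : Tendsto (fun z : E × ℂ => G (b + z.2 • v)) (𝓝 (b, w)) (𝓝 (G (b + w • v))) :=
    (hG w hw).tendsto.comp (M7_map2 b v w)
  have h3 : Tendsto (fun z : E × ℂ => ‖G (z.1 + z.2 • v) - G (b + z.2 • v)‖) (𝓝 (b, w)) (𝓝 0) := by
    have := (h1.sub h2).norm
    simpa using this
  have h4 : 0 < ‖G (b + w • v)‖ := norm_pos_iff.2 (h0 w hw)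
  exact h3.eventually_lt h2.norm h4

/-- the winding number along a loop of parameters is locally constant in the base point -/
theorem M7_wd {G : E → ℂ} {B : Set E} (hB : IsOpen B) (hG : ∀ y ∈ B, ContinuousAt G y) {γ : ℝ → ℂ}
    (hγ : Continuous γ) (hp : ∀ θ, γ (θ + 2 * Real.pi) = γ θ) {b v : E} {K : Set ℂ} (hK : IsCompact K)
    (hγK : ∀ θ, γ θ ∈ K) (hb : ∀ w ∈ K, b + w • v ∈ B) (h0 : ∀ w ∈ K, G (b + w • v) ≠ 0) {k : ℤ}
    (h : Wd (fun θ => G (b + γ θ • v)) k) : ∀ᶠ b' in 𝓝 b, Wd (fun θ => G (b' + γ θ • v)) k := by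
  filter_upwards [M7_in hB hK hb, M7_close hK (fun w hw => hG _ (hb w hw)) h0] with b' h1 h2
  refine h.close ?_ (fun θ => by simp only [hp]) (fun θ => h2 _ (hγK θ))
  refine continuous_iff_continuousAt.2 fun θ => ?_
  have h3 : ContinuousAt (fun θ => b' + γ θ • v) θ := by
    have : Continuous (fun θ => b' + γ θ • v) := by fun_prop
    exact this.continuousAt
  exact ContinuousAt.comp (f := fun θ => b' + γ θ • v) (g := G) (hG _ (h1 _ (hγK θ))) h3

/-- the restriction of `g` to the disc is analytic -/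
theorem M7_an {g : E → ℂ} {b v : E} {w : ℂ} (hg : AnalyticAt ℂ g (b + w • v)) :
    AnalyticAt ℂ (fun w : ℂ => g (b + w • v)) w := by
  have h : AnalyticAt ℂ (fun w : ℂ => b + w • v) w := by fun_prop
  exact AnalyticAt.fun_comp (f := fun w : ℂ => b + w • v) (g := g) hg h

theorem M7_deriv {g : E → ℂ} {b v : E} {w : ℂ} (hg : AnalyticAt ℂ g (b + w • v)) :
    deriv (fun w : ℂ => g (b + w • v)) w = fderiv ℂ g (b + w • v) v := by
  have h1 : HasDerivAt (fun w : ℂ => b + w • v) v w := by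
    have := ((hasDerivAt_id w).smul_const v).const_add b
    simpa using this
  exact (hg.differentiableAt.hasFDerivAt.comp_hasDerivAt w h1).deriv

/-- a zero persists -/
theorem M7_persist {g : E → ℂ} {B : Set E} (hB : IsOpen B) (hg : ∀ y ∈ B, AnalyticAt ℂ g y) {b v : E}
    (hD : ∀ w : ℂ, ‖w‖ ≤ 1 → b + w • v ∈ B) (h0 : ∀ w : ℂ, ‖w‖ = 1 → g (b + w • v) ≠ 0) {w0 : ℂ}
    (hw0 : ‖w0‖ ≤ 1) (hz : g (b + w0 • v) = 0) {U : Set ℂ} (hU : U ∈ 𝓝 w0) :
    ∀ᶠ b' in 𝓝 b, ∃ w' ∈ U, ‖w'‖ ≤ 1 ∧ g (b' + w' • v) = 0 := by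
  have hlt : ‖w0‖ < 1 := lt_of_le_of_ne hw0 fun h => h0 w0 h hz
  obtain ⟨Z, m, hZ, hm1, -, -, hloc, -⟩ := wd_zeros (h := fun w => g (b + w • v))
    (fun w hw => M7_an (hg _ (hD w hw))) h0
  have hw0Z : w0 ∈ Z := (hZ w0).2 ⟨hlt, hz⟩
  have hball : Metric.ball (0:ℂ) 1 ∈ 𝓝 w0 := Metric.isOpen_ball.mem_nhds (by simpa using hlt)
  obtain ⟨η, hη, hηU⟩ := Metric.mem_nhds_iff.1 (Filter.inter_mem hU hball)
  have hlt' : ∀ᶠ ρ : ℝ in 𝓝[>] 0, ρ < η := by
    have : Iio η ∈ 𝓝 (0:ℝ) := Iio_mem_nhds hη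
    exact mem_nhdsWithin_of_mem_nhds this
  obtain ⟨ρ, h1, h2, h3⟩ := ((hloc w0 hw0Z).and (hlt'.and self_mem_nhdsWithin)).exists
  have h3' : 0 < ρ := h3
  have hmem : ∀ z : ℂ, ‖z‖ ≤ 1 → w0 + ρ * z ∈ U ∧ ‖w0 + ρ * z‖ < 1 := by
    intro z hz1
    have h4 : w0 + ρ * z ∈ Metric.ball w0 η := by
      rw [Metric.mem_ball, dist_eq_norm, add_sub_cancel_left, norm_mul, Complex.norm_real, Real.norm_eq_abs,
        abs_of_pos h3']
      calc ρ * ‖z‖ ≤ ρ * 1 := mul_le_mul_of_nonneg_left hz1 h3'.le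
        _ < η := by rw [mul_one]; exact h2
    have h5 := hηU h4
    exact ⟨h5.1, by simpa using h5.2⟩
  let K : Set ℂ := (fun z : ℂ => w0 + ρ * z) '' Metric.sphere 0 1
  have hK : IsCompact K := (isCompact_sphere (0:ℂ) 1).image (by fun_prop)
  have hKB : ∀ w ∈ K, b + w • v ∈ B := by
    rintro w ⟨z, hz1, rfl⟩
    have hz1' : ‖z‖ = 1 := by simpa using hz1
    exact hD _ (hmem z hz1'.le).2.le
  have hK0 : ∀ w ∈ K, g (b + w • v) ≠ 0 := by
    rintro w ⟨z, hz1, rfl⟩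
    have hz1' : ‖z‖ = 1 := by simpa using hz1
    obtain ⟨θ, rfl⟩ := exists_cis hz1'
    exact h1.ne θ
  have hγ : Continuous fun θ : ℝ => w0 + ρ * cis θ := by
    have := cis_cont
    fun_prop
  have h5 := M7_wd (G := g) hB (fun y hy => (hg y hy).continuousAt) hγ (fun θ => by rw [cis_per]) hK
    (fun θ => ⟨cis θ, by simp [cis_norm], rfl⟩) hKB hK0 h1
  have h6 := M7_in hB (isCompact_closedBall (0:ℂ) 1) (b := b) (v := v) (fun w hw => hD w (by simpa using hw))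
  filter_upwards [h5, h6] with b' h7 h8
  by_contra hcon
  push Not at hcon
  have h9 : Wd (fun θ => g (b' + (w0 + ρ * cis θ) • v)) 0 := by
    refine Wd.disc (F := fun z => g (b' + (w0 + ρ * z) • v)) ?_ ?_
    · intro z hz1
      have hz1' : ‖z‖ ≤ 1 := by simpa using hz1
      have h10 := h8 (w0 + ρ * z) (by simpa using (hmem z hz1').2.le)
      have h11 : ContinuousAt (fun z : ℂ => b' + (w0 + ρ * z) • v) z := by fun_prop
      exact (ContinuousAt.comp (f := fun z : ℂ => b' + (w0 + ρ * z) • v) (g := g) (hg _ h10).continuousAt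
        h11).continuousWithinAt
    · intro z hz1
      have hz1' : ‖z‖ ≤ 1 := by simpa using hz1
      exact hcon _ (hmem z hz1').1 (hmem z hz1').2.le
  have h12 := h7.uniq h9
  have h13 := hm1 w0 hw0Z
  omega

/-- a zero with an open property persists -/
theorem M7_good {g : E → ℂ} {B : Set E} (hB : IsOpen B) (hg : ∀ y ∈ B, AnalyticAt ℂ g y) {b v : E}
    (hD : ∀ w : ℂ, ‖w‖ ≤ 1 → b + w • v ∈ B) (h0 : ∀ w : ℂ, ‖w‖ = 1 → g (b + w • v) ≠ 0) {w0 : ℂ}
    (hw0 : ‖w0‖ ≤ 1) (hz : g (b + w0 • v) = 0) {U : Set ℂ} (hU : U ∈ 𝓝 w0) {p : E → Prop}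
    (hp : ∀ᶠ y in 𝓝 (b + w0 • v), p y) :
    ∀ᶠ b' in 𝓝 b, ∃ w' ∈ U, ‖w'‖ ≤ 1 ∧ g (b' + w' • v) = 0 ∧ p (b' + w' • v) := by
  have h1 := (M7_map b v w0).eventually hp
  rw [nhds_prod_eq] at h1
  obtain ⟨pa, hpa, pb, hpb, hab⟩ := Filter.eventually_prod_iff.1 h1
  filter_upwards [hpa, M7_persist hB hg hD h0 hw0 hz (Filter.inter_mem hU hpb)] with b' h2 h3
  obtain ⟨w', h4, h5, h6⟩ := h3
  exact ⟨w', h4.1, h5, h6, hab h2 h4.2⟩

/-- the number of zeros is at most the winding number -/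
theorem M7_card {g : E → ℂ} {b v : E} (hg : ∀ w : ℂ, ‖w‖ ≤ 1 → AnalyticAt ℂ g (b + w • v))
    {N : ℤ} (hN : Wd (fun θ => g (b + cis θ • v)) N) (S : Finset ℂ)
    (hS : ∀ w ∈ S, ‖w‖ ≤ 1 ∧ g (b + w • v) = 0) : (S.card : ℤ) ≤ N := by
  have h0 : ∀ w : ℂ, ‖w‖ = 1 → g (b + w • v) ≠ 0 := by
    intro w hw
    obtain ⟨θ, rfl⟩ := exists_cis hw
    exact hN.ne θ
  obtain ⟨Z, m, hZ, hm1, -, -, -, hsum⟩ := wd_zeros (h := fun w => g (b + w • v)) (fun w hw => M7_an (hg w hw)) h0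
  have h1 : N = ∑ w ∈ Z, (m w : ℤ) := hN.uniq hsum
  have h2 : S ⊆ Z := by
    intro w hw
    obtain ⟨h3, h4⟩ := hS w hw
    exact (hZ w).2 ⟨lt_of_le_of_ne h3 fun h => h0 w h h4, h4⟩
  have h3 : (S.card : ℤ) ≤ Z.card := by exact_mod_cast Finset.card_le_card h2
  have h4 : (Z.card : ℤ) ≤ ∑ w ∈ Z, (m w : ℤ) := by
    have : ∑ w ∈ Z, (1 : ℤ) ≤ ∑ w ∈ Z, (m w : ℤ) := by
      refine Finset.sum_le_sum fun w hw => ?_
      exact_mod_cast hm1 w hw
    simpa using this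
  omega

/-- simple zeros stay simple -/
theorem M7_simple [FiniteDimensional ℂ E] {g : E → ℂ} {B : Set E} (hg : ∀ y ∈ B, AnalyticAt ℂ g y) {b v : E}
    (hD : ∀ w : ℂ, ‖w‖ ≤ 1 → b + w • v ∈ B)
    (hs : ∀ w : ℂ, ‖w‖ ≤ 1 → g (b + w • v) = 0 → fderiv ℂ g (b + w • v) v ≠ 0) :
    ∀ᶠ b' in 𝓝 b, ∀ w ∈ Metric.closedBall (0:ℂ) 1, g (b' + w • v) = 0 → fderiv ℂ g (b' + w • v) v ≠ 0 := by
  have : CompleteSpace E := FiniteDimensional.complete ℂ E
  refine (isCompact_closedBall (0:ℂ) 1).eventually_forall_of_forall_eventually fun w hw => ?_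
  have hw' : ‖w‖ ≤ 1 := by simpa using hw
  refine (M7_map b v w).eventually (p := fun y => g y = 0 → fderiv ℂ g y v ≠ 0) ?_
  by_cases h : g (b + w • v) = 0
  · have h1 : ContinuousAt (fun y => fderiv ℂ g y v) (b + w • v) := by
      have := (hg _ (hD w hw')).fderiv.continuousAt
      exact this.clm_apply continuousAt_const
    filter_upwards [h1.eventually_ne (hs w hw' h)] with y hy _
    exact hy
  · filter_upwards [(hg _ (hD w hw')).continuousAt.eventually_ne h] with y hy h2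
    exact absurd h2 hy

variable [FiniteDimensional ℂ E]

theorem generic {f g : E → ℂ} {φ ψ : E → E} {B : Set E} (h : Pair f g φ ψ B) {x v : E}
    (hD : ∀ w : ℂ, ‖w‖ ≤ 1 → x + w • v ∈ B) (h0 : ∀ w : ℂ, ‖w‖ = 1 → g (x + w • v) ≠ 0) {ε : ℝ} (hε : 0 < ε) :
    ∃ a : E, ‖a‖ < ε ∧ (∀ w : ℂ, ‖w‖ ≤ 1 → x + a + w • v ∈ B) ∧ (∀ w : ℂ, ‖w‖ = 1 → g (x + a + w • v) ≠ 0) ∧
      ∀ w : ℂ, ‖w‖ ≤ 1 → g (x + a + w • v) = 0 → fderiv ℂ g (x + a + w • v) v ≠ 0 ∧
        fderiv ℂ f (ψ (x + a + w • v)) ≠ 0 := by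
  have : CompleteSpace E := FiniteDimensional.complete ℂ E
  obtain ⟨a0, ha0, hD0, hc0, hs0⟩ := generic_simple h.isOpen h.g_an h.g_red hD h0 (half_pos hε)
  have hcont : ∀ y ∈ B, ContinuousAt g y := fun y hy => (h.g_an y hy).continuousAt
  obtain ⟨N, hN⟩ := Wd.ex (c := fun θ => g (x + a0 + cis θ • v)) (by
      refine continuous_iff_continuousAt.2 fun θ => ?_
      have h1 : ContinuousAt (fun θ => x + a0 + cis θ • v) θ := by
        have h2 := cis_cont
        have : Continuous (fun θ => x + a0 + cis θ • v) := by fun_prop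
        exact this.continuousAt
      exact ContinuousAt.comp (f := fun θ => x + a0 + cis θ • v) (g := g) (hcont _ (hD0 _ (cis_norm θ).le)) h1)
    (fun θ => hc0 _ (cis_norm θ)) (fun θ => by simp only [cis_per])
  have hwd := M7_wd (G := g) (γ := cis) h.isOpen hcont cis_cont cis_per (isCompact_sphere (0:ℂ) 1)
    (fun θ => by simp [cis_norm]) (fun w hw => hD0 w (by simpa using (mem_sphere_zero_iff_norm.1 hw).le))
    (fun w hw => hc0 w (mem_sphere_zero_iff_norm.1 hw)) hN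
  have hin := M7_in h.isOpen (isCompact_closedBall (0:ℂ) 1) (b := x + a0) (v := v)
    (fun w hw => hD0 w (by simpa using hw))
  have hsi := M7_simple h.g_an hD0 hs0
  obtain ⟨δ, hδ, hall⟩ := Metric.eventually_nhds_iff_ball.1 (hwd.and (hin.and hsi))
  let P : ℕ → Prop := fun n => ∃ b ∈ Metric.ball (x + a0) (min δ (ε / 2)), ∃ S : Finset ℂ, S.card = n ∧
    ∀ w ∈ S, ‖w‖ ≤ 1 ∧ g (b + w • v) = 0 ∧ fderiv ℂ f (ψ (b + w • v)) ≠ 0
  have hP0 : P 0 := ⟨x + a0, Metric.mem_ball_self (lt_min hδ (half_pos hε)), ∅, rfl, by simp⟩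
  have hPN : ∀ n, P n → (n : ℤ) ≤ N := by
    rintro n ⟨b, hb, S, rfl, hS⟩
    obtain ⟨h1, h2, h3⟩ := hall b (Metric.ball_subset_ball (min_le_left _ _) hb)
    exact M7_card (fun w hw => h.g_an _ (h2 w (by simpa using hw))) h1 S (fun w hw => ⟨(hS w hw).1, (hS w hw).2.1⟩)
  obtain ⟨n, hn, hn1⟩ : ∃ n, P n ∧ ¬ P (n + 1) := by
    by_contra hcon
    push Not at hcon
    have h1 : ∀ n, P n := fun n => by
      induction n with
      | zero => exact hP0
      | succ n ih => exact hcon n ih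
    have h2 := hPN (N.toNat + 1) (h1 _)
    push_cast at h2
    omega
  obtain ⟨b, hb, S, hSc, hS⟩ := hn
  obtain ⟨hbN, hbB, hbs⟩ := hall b (Metric.ball_subset_ball (min_le_left _ _) hb)
  have hbD : ∀ w : ℂ, ‖w‖ ≤ 1 → b + w • v ∈ B := fun w hw => hbB w (by simpa using hw)
  have hb0 : ∀ w : ℂ, ‖w‖ = 1 → g (b + w • v) ≠ 0 := by
    intro w hw
    obtain ⟨θ, rfl⟩ := exists_cis hw
    exact hbN.ne θ
  refine ⟨b - x, ?_, ?_, ?_, ?_⟩
  · have h1 : b - x = (b - (x + a0)) + a0 := by abel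
    have h2 : ‖b - (x + a0)‖ < ε / 2 := by
      rw [← dist_eq_norm]
      exact lt_of_lt_of_le (Metric.mem_ball.1 hb) (min_le_right _ _)
    calc ‖b - x‖ = ‖(b - (x + a0)) + a0‖ := by rw [← h1]
      _ ≤ ‖b - (x + a0)‖ + ‖a0‖ := norm_add_le _ _
      _ < ε := by linarith
  · simpa only [add_sub_cancel] using hbD
  · simpa only [add_sub_cancel] using hb0
  · simp only [add_sub_cancel]
    intro w1 hw1 hz1
    refine ⟨hbs w1 (by simpa using hw1) hz1, fun hbad => hn1 ?_⟩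
    have hq1 := hbD w1 hw1
    have hw1S : w1 ∉ S := fun hw => (hS w1 hw).2.2 hbad
    obtain ⟨U, hU, hUd⟩ := (insert w1 S).finite_toSet.t2_separation
    have hgood : ∀ᶠ b' in 𝓝 b, ∀ w ∈ S, ∃ w' ∈ U w, ‖w'‖ ≤ 1 ∧ g (b' + w' • v) = 0 ∧
        fderiv ℂ f (ψ (b' + w' • v)) ≠ 0 := by
      rw [Filter.eventually_all_finset]
      intro w hw
      obtain ⟨h1, h2, h3⟩ := hS w hw
      refine M7_good h.isOpen h.g_an hbD hb0 h1 h2 ((hU w).2.mem_nhds (hU w).1)
        (p := fun y => fderiv ℂ f (ψ y) ≠ 0) ?_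
      have hyB := hbD w h1
      have h4 : ContinuousAt (fun y => fderiv ℂ f (ψ y)) (b + w • v) :=
        ContinuousAt.comp (f := ψ) (g := fderiv ℂ f) (h.f_an _ hyB).fderiv.continuousAt (h.ψ_cont _ hyB)
      exact h4.eventually_ne h3
    have hball : ∀ᶠ b' in 𝓝 b, b' ∈ Metric.ball (x + a0) (min δ (ε / 2)) := Metric.isOpen_ball.mem_nhds hb
    have hφ : Tendsto φ (𝓝 (ψ (b + w1 • v))) (𝓝 (b + w1 • v)) := by
      have := (h.φ_cont _ hq1).tendsto
      rwa [h.φψ _ hq1] at this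
    have hb' : Tendsto (fun p => b + (φ p - (b + w1 • v))) (𝓝 (ψ (b + w1 • v))) (𝓝 b) := by
      have := (hφ.sub_const (b + w1 • v)).const_add b
      rwa [sub_self, add_zero] at this
    have hfz : f (ψ (b + w1 • v)) = 0 := (h.zs _ hq1).2 hz1
    have hfreq := mem_closure_iff_frequently.1 (h.f_red _ hq1 hfz)
    obtain ⟨p, ⟨hp1, hp2⟩, hp3, hp4, hp5, hp6⟩ := (hfreq.and_eventually ((hb'.eventually hgood).and
      ((hb'.eventually hball).and ((hφ.eventually (h.isOpen.mem_nhds hq1)).and (h.ψφ _ hq1))))).exists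
    have hbp : b + (φ p - (b + w1 • v)) + w1 • v = φ p := by abel
    have hex : ∀ w ∈ insert w1 S, ∃ w' ∈ U w, ‖w'‖ ≤ 1 ∧ g (b + (φ p - (b + w1 • v)) + w' • v) = 0 ∧
        fderiv ℂ f (ψ (b + (φ p - (b + w1 • v)) + w' • v)) ≠ 0 := by
      intro w hw
      rcases Finset.mem_insert.1 hw with rfl | hw
      · refine ⟨w, (hU w).1, hw1, ?_, ?_⟩
        · rw [hbp]
          exact (h.zs _ hp5).1 (by rw [hp6]; exact hp1)
        · rw [hbp, hp6]
          exact hp2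
      · exact hp3 w hw
    choose! F hF using hex
    refine ⟨_, hp4, (insert w1 S).image F, ?_, ?_⟩
    · rw [Finset.card_image_of_injOn, Finset.card_insert_of_notMem hw1S, hSc]
      intro w hw w' hw' hww
      by_contra hne
      have hd := hUd hw hw' hne
      exact Set.disjoint_left.1 hd (hF w hw).1 (by
        have := (hF w' hw').1
        rwa [← hww] at this)
    · intro w hw
      obtain ⟨w', hw', rfl⟩ := Finset.mem_image.1 hw
      exact (hF w' hw').2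

theorem disc_le {f g : E → ℂ} {φ ψ : E → E} {B : Set E} (h : Pair f g φ ψ B) {x v : E}
    (hD : ∀ w : ℂ, ‖w‖ ≤ 1 → x + w • v ∈ B) (h0 : ∀ w : ℂ, ‖w‖ = 1 → g (x + w • v) ≠ 0) {N K : ℤ}
    (hN : Wd (fun θ => g (x + cis θ • v)) N) (hK : Wd (fun θ => f (ψ (x + cis θ • v))) K) : |K| ≤ N := by
  have hcont : ∀ y ∈ B, ContinuousAt g y := fun y hy => (h.g_an y hy).continuousAt
  have hcont' : ∀ y ∈ B, ContinuousAt (fun y => f (ψ y)) y := fun y hy =>
    ContinuousAt.comp (f := ψ) (g := f) (h.f_an y hy).continuousAt (h.ψ_cont y hy)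
  have hS : ∀ θ, cis θ ∈ Metric.sphere (0:ℂ) 1 := fun θ => by simp [cis_norm]
  have hSB : ∀ w ∈ Metric.sphere (0:ℂ) 1, x + w • v ∈ B := fun w hw =>
    hD w (by simpa using (mem_sphere_zero_iff_norm.1 hw).le)
  have hS0 : ∀ w ∈ Metric.sphere (0:ℂ) 1, g (x + w • v) ≠ 0 := fun w hw => h0 w (mem_sphere_zero_iff_norm.1 hw)
  have h1 := M7_wd (G := g) (γ := cis) h.isOpen hcont cis_cont cis_per (isCompact_sphere (0:ℂ) 1) hS hSB hS0 hN
  have h2 := M7_wd (G := fun y => f (ψ y)) (γ := cis) h.isOpen hcont' cis_cont cis_per (isCompact_sphere (0:ℂ) 1)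
    hS hSB (fun w hw => fun h3 => hS0 w hw ((h.zs _ (hSB w hw)).1 h3)) hK
  obtain ⟨δ, hδ, hall⟩ := Metric.eventually_nhds_iff_ball.1 (h1.and h2)
  obtain ⟨a, ha, hD', h0', hgen⟩ := generic h hD h0 hδ
  have hab : x + a ∈ Metric.ball x δ := by
    rw [Metric.mem_ball, dist_eq_norm, add_sub_cancel_left]
    exact ha
  obtain ⟨hN', hK'⟩ := hall (x + a) hab
  generalize x + a = b at hD' h0' hgen hN' hK'
  obtain ⟨Z, m, hZ, -, hm1, -, -, hsum⟩ := wd_zeros (h := fun w => g (b + w • v))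
    (fun w hw => M7_an (h.g_an _ (hD' w hw))) h0'
  have hZ' : ∀ w ∈ Z, ‖w‖ ≤ 1 ∧ g (b + w • v) = 0 := fun w hw => ⟨((hZ w).1 hw).1.le, ((hZ w).1 hw).2⟩
  have hNZ : N = Z.card := by
    have h3 : ∑ w ∈ Z, (m w : ℤ) = ∑ w ∈ Z, (1 : ℤ) := by
      refine Finset.sum_congr rfl fun w hw => ?_
      obtain ⟨h4, h5⟩ := hZ' w hw
      have h6 := hm1 w hw (by
        rw [M7_deriv (h.g_an _ (hD' w h4))]
        exact (hgen w h4 h5).1)
      rw [h6]
      rfl
    rw [hN'.uniq hsum, h3]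
    simp
  have hloc : ∀ w ∈ Z, ∃ e : ℤ, |e| ≤ 1 ∧
      ∀ᶠ ρ : ℝ in 𝓝[>] 0, Wd (fun θ => f (ψ (b + w • v + (ρ * cis θ) • v))) e := by
    intro w hw
    obtain ⟨h4, h5⟩ := hZ' w hw
    exact local_index h (hD' w h4) h5 (hgen w h4 h5).1 (hgen w h4 h5).2
  choose! e he using hloc
  have hKZ : K = ∑ w ∈ Z, e w := by
    refine hK'.uniq (wd_sum (F := fun w => f (ψ (b + w • v))) Z (fun w hw => ((hZ w).1 hw).1) ?_ ?_ e ?_)
    · intro w hw
      have hw1 : ‖w‖ ≤ 1 := by simpa using hw.1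
      have h3 : ContinuousAt (fun w : ℂ => b + w • v) w := by fun_prop
      exact (ContinuousAt.comp (f := fun w : ℂ => b + w • v) (g := fun y => f (ψ y)) (hcont' _ (hD' w hw1))
        h3).continuousWithinAt
    · intro w hw hwZ h3
      have hw1 : ‖w‖ ≤ 1 := by simpa using hw
      have h4 : g (b + w • v) = 0 := (h.zs _ (hD' w hw1)).1 h3
      exact hwZ ((hZ w).2 ⟨lt_of_le_of_ne hw1 fun h5 => h0' w h5 h4, h4⟩)
    · intro w hw
      filter_upwards [(he w hw).2] with ρ hρ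
      have h3 : (fun θ => f (ψ (b + (w + ρ * cis θ) • v))) = fun θ => f (ψ (b + w • v + (ρ * cis θ) • v)) := by
        funext θ
        rw [add_smul, add_assoc]
      rw [h3]
      exact hρ
  rw [hKZ, hNZ]
  calc |∑ w ∈ Z, e w| ≤ ∑ w ∈ Z, |e w| := Finset.abs_sum_le_sum_abs _ _
    _ ≤ ∑ w ∈ Z, (1 : ℤ) := Finset.sum_le_sum fun w hw => (he w hw).1
    _ = Z.card := by simp

end Zr
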