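import Pool.Agent.helper60.Zr.M3

set_option autoImplicit false

/-!
# Zr, module M8, first half: `torus_avoid`
-/

noncomputable section

namespace Zr

open Filter Topology Set

variable {E : Type*} [NormedAddCommGroup E] [NormedSpace ℂ E] [FiniteDimensional ℂ E]

omit [FiniteDimensional ℂ E] in
/-- `g (z • x)` is close to `z ^ m * Q x`, uniformly for `x` in a ball -/
theorem M8a_near {g : E → ℂ} {m : ℕ} {Q : E → ℂ} (h : Lead g m Q) {R : ℝ} (hR : 0 < R) :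
    ∃ (s1 C : ℝ), 0 < s1 ∧ 0 < C ∧ ∀ (z : ℂ) (x : E), ‖z‖ < s1 → ‖x‖ ≤ R →
      ‖g (z • x) - z ^ m * Q x‖ ≤ C * ‖z‖ ^ (m + 1) := by
  obtain ⟨C0, hC0, r, hr, ha⟩ := h.approx
  refine ⟨r / R, C0 * R ^ (m + 1), by positivity, by positivity, ?_⟩
  intro z x hz hx
  have h1 : ‖z • x‖ ≤ ‖z‖ * R := by
    rw [norm_smul]
    exact mul_le_mul_of_nonneg_left hx (norm_nonneg _)
  have h2 : ‖z‖ * R < r := by
    rwa [lt_div_iff₀ hR] at hz
  have h3 := ha (z • x) (lt_of_le_of_lt h1 h2)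
  rw [h.hom] at h3
  refine h3.trans ?_
  calc C0 * ‖z • x‖ ^ (m + 1) ≤ C0 * (‖z‖ * R) ^ (m + 1) := by gcongr
    _ = C0 * R ^ (m + 1) * ‖z‖ ^ (m + 1) := by ring

omit [FiniteDimensional ℂ E] in
theorem M8a_cont {g : E → ℂ} (hg : AnalyticAt ℂ g 0) : ∃ r2 : ℝ, 0 < r2 ∧ ∀ x : E, ‖x‖ < r2 → ContinuousAt g x := by
  have h1 := hg.eventually_continuousAt
  rw [Metric.eventually_nhds_iff] at h1
  obtain ⟨r2, hr2, h2⟩ := h1
  refine ⟨r2, hr2, fun x hx => h2 (by simpa using hx)⟩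

omit [FiniteDimensional ℂ E] in
/-- the case `Q u ≠ 0` -/
theorem M8a_caseA {g : E → ℂ} {m : ℕ} {Q : E → ℂ} (hg : AnalyticAt ℂ g 0) (h : Lead g m Q) {u : E} (hu : ‖u‖ ≤ 1)
    (hQ : Q u ≠ 0) : ∀ᶠ z in 𝓝 ((0 : ℝ), u), 0 < z.1 →
      (∀ w : ℂ, ‖w‖ = 1 → g ((w * z.1) • z.2) ≠ 0) ∧ Wd (fun θ => g ((z.1 * cis θ) • z.2)) m := by
  obtain ⟨s1, C, hs1, hC, hn⟩ := M8a_near h (R := 2) (by norm_num)
  obtain ⟨r2, hr2, hc⟩ := M8a_cont hg
  have hτ : 0 < ‖Q u‖ := norm_pos_iff.2 hQ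
  have hQc : Continuous Q := h.diff.continuous
  have e1 : ∀ᶠ v in 𝓝 u, ‖Q u‖ / 2 < ‖Q v‖ := by
    have : ContinuousAt (fun v => ‖Q v‖) u := hQc.norm.continuousAt
    exact this.eventually (lt_mem_nhds (by linarith))
  have e2 : ∀ᶠ v in 𝓝 u, ‖v‖ < 2 := by
    have : ContinuousAt (fun v : E => ‖v‖) u := continuous_norm.continuousAt
    exact this.eventually (gt_mem_nhds (by linarith))
  have e3 : ∀ᶠ s : ℝ in 𝓝 0, s < s1 := gt_mem_nhds hs1
  have e4 : ∀ᶠ s : ℝ in 𝓝 0, C * s < ‖Q u‖ / 2 := by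
    have : ContinuousAt (fun s : ℝ => C * s) 0 := by fun_prop
    exact this.eventually (gt_mem_nhds (by simpa using hτ))
  have e5 : ∀ᶠ s : ℝ in 𝓝 0, s * 2 < r2 := by
    have : ContinuousAt (fun s : ℝ => s * 2) 0 := by fun_prop
    exact this.eventually (gt_mem_nhds (by simpa using hr2))
  rw [nhds_prod_eq]
  filter_upwards [(e3.and (e4.and e5)).prod_mk (e1.and e2)] with z hz hs
  obtain ⟨⟨a3, a4, a5⟩, a1, a2⟩ := hz
  obtain ⟨s, v⟩ := z
  simp only at *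
  have key : ∀ w : ℂ, ‖w‖ = 1 → ‖g ((w * s) • v) - (w * s) ^ m * Q v‖ < ‖(w * s) ^ m * Q v‖ := by
    intro w hw
    have n1 : ‖w * (s : ℂ)‖ = s := by
      rw [norm_mul, hw, Complex.norm_real, Real.norm_eq_abs, abs_of_pos hs, one_mul]
    have b1 := hn (w * s) v (by rw [n1]; exact a3) a2.le
    rw [n1] at b1
    refine lt_of_le_of_lt b1 ?_
    rw [norm_mul, norm_pow, n1]
    calc C * s ^ (m + 1) = s ^ m * (C * s) := by ring
      _ < s ^ m * (‖Q u‖ / 2) := by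
          exact mul_lt_mul_of_pos_left a4 (by positivity)
      _ ≤ s ^ m * ‖Q v‖ := mul_le_mul_of_nonneg_left a1.le (by positivity)
  constructor
  · intro w hw h0
    have b := key w hw
    rw [h0, zero_sub, norm_neg] at b
    exact lt_irrefl _ b
  · have hv0 : Q v ≠ 0 := by
      rw [← norm_pos_iff]
      linarith
    have hs0 : (s : ℂ) ≠ 0 := by exact_mod_cast hs.ne'
    have w1 : Wd (fun θ => (cis θ * s) ^ m * Q v) m := by
      have w2 := (Wd.cis.zpow m).mul (Wd.const (a := (s : ℂ) ^ m * Q v) (by positivity))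
      have e : (fun θ => cis θ ^ ((m : ℕ) : ℤ) * ((s : ℂ) ^ m * Q v)) = fun θ => (cis θ * s) ^ m * Q v := by
        funext θ
        rw [zpow_natCast]
        ring
      rw [e] at w2
      simpa using w2
    refine w1.close ?_ ?_ ?_
    · rw [continuous_iff_continuousAt]
      intro θ
      have c1 : ContinuousAt g ((s * cis θ) • v) := by
        apply hc
        rw [norm_smul, norm_mul, cis_norm, mul_one, Complex.norm_real, Real.norm_eq_abs, abs_of_pos hs]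
        calc s * ‖v‖ ≤ s * 2 := mul_le_mul_of_nonneg_left a2.le hs.le
          _ < r2 := a5
      have c2 : ContinuousAt (fun θ => ((s : ℂ) * cis θ) • v) θ := by
        have := cis_cont
        fun_prop
      exact ContinuousAt.comp (g := g) (f := fun θ => ((s : ℂ) * cis θ) • v) c1 c2
    · intro θ
      rw [cis_per]
    · intro θ
      have b := key (cis θ) (cis_norm θ)
      rwa [mul_comm (s : ℂ)]

/-- the case `Q u = 0`: the ball condition fails -/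
theorem M8a_caseB {g : E → ℂ} {m : ℕ} {Q : E → ℂ} (hg : AnalyticAt ℂ g 0) (h : Lead g m Q) (hm : 1 ≤ m) {c : ℝ}
    (hc : 0 < c) {u : E} (hu : ‖u‖ ≤ 1) (hQ : Q u = 0) : ∀ᶠ z in 𝓝 ((0 : ℝ), u), 0 < z.1 →
      ¬ (∀ y, ‖y - z.1 • z.2‖ < c * z.1 → g y ≠ 0) := by
  obtain ⟨w, hw⟩ := h.ne
  have hQc : Continuous Q := h.diff.continuous
  set F : ℂ → ℂ := fun ζ => Q (u + ζ • w) with hF
  have hFd : Differentiable ℂ F := by
    have := h.diff
    intro ζ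
    have d1 : DifferentiableAt ℂ (fun ζ : ℂ => u + ζ • w) ζ := by fun_prop
    exact DifferentiableAt.comp ζ (this _) d1
  have hFa : ∀ ζ, AnalyticAt ℂ F ζ := fun ζ => hFd.analyticAt ζ
  have hne : ∀ᶠ ζ in 𝓝[≠] (0 : ℂ), F ζ ≠ 0 := by
    rcases (hFa 0).eventually_eq_zero_or_eventually_ne_zero with h1 | h1
    · exfalso
      have h2 : ∀ ζ, F ζ = 0 := by
        have a1 : AnalyticOnNhd ℂ F univ := fun ζ _ => hFa ζ
        have a2 := a1.eqOn_zero_of_preconnected_of_eventuallyEq_zero isPreconnected_univ (mem_univ 0) h1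
        exact fun ζ => a2 (mem_univ ζ)
      have h3 : ∀ᶠ ε in 𝓝[≠] (0 : ℂ), Q (w + ε • u) = 0 := by
        filter_upwards [self_mem_nhdsWithin] with ε hε
        have hε' : ε ≠ 0 := hε
        have e : w + ε • u = ε • (u + ε⁻¹ • w) := by
          rw [smul_add, smul_smul, mul_inv_cancel₀ hε', one_smul, add_comm]
        rw [e, h.hom]
        have := h2 ε⁻¹
        simp only [hF] at this
        rw [this, mul_zero]
      have h4 : Tendsto (fun ε : ℂ => Q (w + ε • u)) (𝓝[≠] 0) (𝓝 (Q w)) := by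
        have : ContinuousAt (fun ε : ℂ => Q (w + ε • u)) 0 := by fun_prop
        have h5 := this.tendsto
        simp only [zero_smul, add_zero] at h5
        exact h5.mono_left nhdsWithin_le_nhds
      have h5 : Tendsto (fun ε : ℂ => Q (w + ε • u)) (𝓝[≠] 0) (𝓝 0) :=
        (tendsto_congr' h3).2 tendsto_const_nhds
      exact hw (tendsto_nhds_unique h4 h5)
    · exact h1
  -- the radius
  rw [eventually_nhdsWithin_iff, Metric.eventually_nhds_iff] at hne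
  obtain ⟨ρ0, hρ0, hne⟩ := hne
  obtain ⟨ρ, hρ, hρ1, hρ2⟩ : ∃ ρ : ℝ, 0 < ρ ∧ ρ < ρ0 ∧ ρ * ‖w‖ < c := by
    refine ⟨min (ρ0 / 2) (c / (2 * (‖w‖ + 1))), by positivity, ?_, ?_⟩
    · exact lt_of_le_of_lt (min_le_left _ _) (by linarith)
    · have h1 : min (ρ0 / 2) (c / (2 * (‖w‖ + 1))) ≤ c / (2 * (‖w‖ + 1)) := min_le_right _ _
      calc min (ρ0 / 2) (c / (2 * (‖w‖ + 1))) * ‖w‖ ≤ c / (2 * (‖w‖ + 1)) * ‖w‖ :=
            mul_le_mul_of_nonneg_right h1 (norm_nonneg _)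
        _ < c := by
            rw [div_mul_eq_mul_div, div_lt_iff₀ (by positivity)]
            have := norm_nonneg w
            nlinarith
  set H : ℂ → ℂ := fun z => F (ρ * z) with hH
  have hHd : Differentiable ℂ H := by
    intro z
    have d1 : DifferentiableAt ℂ (fun z : ℂ => (ρ : ℂ) * z) z := by fun_prop
    exact DifferentiableAt.comp (g := F) (f := fun z : ℂ => (ρ : ℂ) * z) z (hFd _) d1
  have hH0 : ∀ z : ℂ, ‖z‖ = 1 → H z ≠ 0 := by
    intro z hz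
    have n1 : ‖(ρ : ℂ) * z‖ = ρ := by
      rw [norm_mul, hz, Complex.norm_real, Real.norm_eq_abs, abs_of_pos hρ, mul_one]
    refine hne (by rw [dist_zero_right, n1]; exact hρ1) ?_
    intro h0
    rw [mem_singleton_iff] at h0
    rw [h0, norm_zero] at n1
    exact hρ.ne n1
  obtain ⟨Z, μ, hZ, hμ, -, -, -, hWd⟩ := wd_zeros (h := H) (fun z _ => hHd.analyticAt z) hH0
  have hN : (1 : ℤ) ≤ ∑ z ∈ Z, (μ z : ℤ) := by
    have h0 : (0 : ℂ) ∈ Z := by
      rw [hZ]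
      refine ⟨by simp, ?_⟩
      simp only [hH, hF, mul_zero, zero_smul, add_zero]
      exact hQ
    have h1 : (μ 0 : ℤ) ≤ ∑ z ∈ Z, (μ z : ℤ) :=
      Finset.single_le_sum (f := fun z => (μ z : ℤ)) (fun z _ => by positivity) h0
    have h2 := hμ 0 h0
    have h3 : (1 : ℤ) ≤ (μ 0 : ℤ) := by exact_mod_cast h2
    linarith
  -- the minimum on the circle
  obtain ⟨δ, hδ, hδ'⟩ : ∃ δ : ℝ, 0 < δ ∧ ∀ z : ℂ, ‖z‖ = 1 → δ ≤ ‖H z‖ := by
    have hcomp : IsCompact (Metric.sphere (0 : ℂ) 1) := isCompact_sphere 0 1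
    have hne' : (Metric.sphere (0 : ℂ) 1).Nonempty := ⟨1, by simp⟩
    obtain ⟨z0, hz0, hmin⟩ := hcomp.exists_isMinOn hne' (f := fun z => ‖H z‖) hHd.continuous.norm.continuousOn
    refine ⟨‖H z0‖, norm_pos_iff.2 (hH0 z0 (by simpa using hz0)), ?_⟩
    intro z hz
    exact hmin (by simpa using hz)
  obtain ⟨s1, C, hs1, hC, hn⟩ := M8a_near h (R := 2 + ρ * ‖w‖) (by positivity)
  obtain ⟨r2, hr2, hcg⟩ := M8a_cont hg
  have e2 : ∀ᶠ v in 𝓝 u, ‖v‖ < 2 := by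
    have : ContinuousAt (fun v : E => ‖v‖) u := continuous_norm.continuousAt
    exact this.eventually (gt_mem_nhds (by linarith))
  have e1 : ∀ᶠ v in 𝓝 u, ∀ z ∈ Metric.sphere (0 : ℂ) 1,
      ‖Q (v + ((ρ : ℂ) * z) • w) - Q (u + ((ρ : ℂ) * z) • w)‖ < δ / 2 := by
    refine (isCompact_sphere (0 : ℂ) 1).eventually_forall_of_forall_eventually ?_
    intro z _
    have : ContinuousAt (fun p : E × ℂ => ‖Q (p.1 + ((ρ : ℂ) * p.2) • w) - Q (u + ((ρ : ℂ) * p.2) • w)‖) (u, z) := by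
      fun_prop
    exact this.eventually (gt_mem_nhds (by simpa using hδ))
  have e3 : ∀ᶠ s : ℝ in 𝓝 0, s < s1 := gt_mem_nhds hs1
  have e4 : ∀ᶠ s : ℝ in 𝓝 0, C * s < δ / 2 := by
    have : ContinuousAt (fun s : ℝ => C * s) 0 := by fun_prop
    exact this.eventually (gt_mem_nhds (by simpa using hδ))
  have e5 : ∀ᶠ s : ℝ in 𝓝 0, s * (2 + ρ * ‖w‖) < r2 := by
    have : ContinuousAt (fun s : ℝ => s * (2 + ρ * ‖w‖)) 0 := by fun_prop
    exact this.eventually (gt_mem_nhds (by simpa using hr2))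
  rw [nhds_prod_eq]
  filter_upwards [(e3.and (e4.and e5)).prod_mk (e1.and e2)] with z hz hs hball
  obtain ⟨⟨a3, a4, a5⟩, a1, a2⟩ := hz
  obtain ⟨s, v⟩ := z
  simp only at *
  have hs0 : (s : ℂ) ≠ 0 := by exact_mod_cast hs.ne'
  have ns : ‖(s : ℂ)‖ = s := by rw [Complex.norm_real, Real.norm_eq_abs, abs_of_pos hs]
  -- norms
  have hnorm : ∀ z : ℂ, ‖z‖ ≤ 1 → ‖((ρ : ℂ) * z) • w‖ ≤ ρ * ‖w‖ := by
    intro z hz
    rw [norm_smul, norm_mul, Complex.norm_real, Real.norm_eq_abs, abs_of_pos hρ]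
    calc ρ * ‖z‖ * ‖w‖ ≤ ρ * 1 * ‖w‖ := by gcongr
      _ = ρ * ‖w‖ := by ring
  have hnorm' : ∀ z : ℂ, ‖z‖ ≤ 1 → ‖v + ((ρ : ℂ) * z) • w‖ ≤ 2 + ρ * ‖w‖ := fun z hz =>
    (norm_add_le _ _).trans (add_le_add a2.le (hnorm z hz))
  have hG0 : ∀ z ∈ Metric.closedBall (0 : ℂ) 1, g ((s : ℂ) • (v + ((ρ : ℂ) * z) • w)) ≠ 0 := by
    intro z hz
    rw [mem_closedBall_zero_iff] at hz
    apply hball
    rw [smul_add]
    have e : (s : ℂ) • v + (s : ℂ) • ((ρ : ℂ) * z) • w - s • v = (s : ℂ) • ((ρ : ℂ) * z) • w := by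
      rw [Complex.coe_smul]
      abel
    rw [e, norm_smul, ns]
    calc s * ‖((ρ : ℂ) * z) • w‖ ≤ s * (ρ * ‖w‖) := mul_le_mul_of_nonneg_left (hnorm z hz) hs.le
      _ < s * c := mul_lt_mul_of_pos_left hρ2 hs
      _ = c * s := mul_comm _ _
  have hGc : ContinuousOn (fun z : ℂ => g ((s : ℂ) • (v + ((ρ : ℂ) * z) • w))) (Metric.closedBall 0 1) := by
    intro z hz
    rw [mem_closedBall_zero_iff] at hz
    apply ContinuousAt.continuousWithinAt
    have c1 : ContinuousAt g ((s : ℂ) • (v + ((ρ : ℂ) * z) • w)) := by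
      apply hcg
      rw [norm_smul, ns]
      exact lt_of_le_of_lt (mul_le_mul_of_nonneg_left (hnorm' z hz) hs.le) a5
    have c2 : ContinuousAt (fun z : ℂ => (s : ℂ) • (v + ((ρ : ℂ) * z) • w)) z := by fun_prop
    exact ContinuousAt.comp (g := g) (f := fun z : ℂ => (s : ℂ) • (v + ((ρ : ℂ) * z) • w)) c1 c2
  have w0 := Wd.disc (F := fun z : ℂ => g ((s : ℂ) • (v + ((ρ : ℂ) * z) • w))) hGc hG0
  have w1 := w0.mul (Wd.const (a := ((s : ℂ) ^ m)⁻¹) (inv_ne_zero (pow_ne_zero _ hs0)))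
  have w2 := hWd.close (c' := fun θ => g ((s : ℂ) • (v + ((ρ : ℂ) * cis θ) • w)) * ((s : ℂ) ^ m)⁻¹) w1.cont (by
    intro θ
    rw [cis_per]) (by
    intro θ
    have n1 := cis_norm θ
    refine lt_of_lt_of_le ?_ (hδ' (cis θ) n1)
    have b1 := hn (s : ℂ) (v + ((ρ : ℂ) * cis θ) • w) (by rw [ns]; exact a3) (hnorm' _ n1.le)
    have b2 := a1 (cis θ) (by simpa using n1)
    rw [ns] at b1
    have sm : (0 : ℝ) < s ^ m := by positivity
    have b3 : ‖g ((s : ℂ) • (v + ((ρ : ℂ) * cis θ) • w)) * ((s : ℂ) ^ m)⁻¹ - Q (v + ((ρ : ℂ) * cis θ) • w)‖ < δ / 2 := by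
      have e : g ((s : ℂ) • (v + ((ρ : ℂ) * cis θ) • w)) * ((s : ℂ) ^ m)⁻¹ - Q (v + ((ρ : ℂ) * cis θ) • w) =
          (g ((s : ℂ) • (v + ((ρ : ℂ) * cis θ) • w)) - (s : ℂ) ^ m * Q (v + ((ρ : ℂ) * cis θ) • w)) *
            ((s : ℂ) ^ m)⁻¹ := by
        have : (s : ℂ) ^ m ≠ 0 := pow_ne_zero _ hs0
        field_simp
      rw [e, norm_mul, norm_inv, norm_pow, ns]
      calc _ ≤ C * s ^ (m + 1) * (s ^ m)⁻¹ := mul_le_mul_of_nonneg_right b1 (by positivity)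
        _ = C * s := by
            rw [pow_succ]
            field_simp
        _ < δ / 2 := a4
    have e : g ((s : ℂ) • (v + ((ρ : ℂ) * cis θ) • w)) * ((s : ℂ) ^ m)⁻¹ - H (cis θ) =
        (g ((s : ℂ) • (v + ((ρ : ℂ) * cis θ) • w)) * ((s : ℂ) ^ m)⁻¹ - Q (v + ((ρ : ℂ) * cis θ) • w)) +
        (Q (v + ((ρ : ℂ) * cis θ) • w) - Q (u + ((ρ : ℂ) * cis θ) • w)) := by
      simp only [hH, hF]
      ring
    rw [e]
    refine lt_of_le_of_lt (norm_add_le _ _) ?_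
    linarith)
  have := w1.uniq w2
  omega

theorem torus_avoid {g : E → ℂ} {m : ℕ} {Q : E → ℂ} (hg : AnalyticAt ℂ g 0) (h : Lead g m Q) (hm : 1 ≤ m) {c : ℝ}
    (hc : 0 < c) : ∃ s0 : ℝ, 0 < s0 ∧ ∀ (s : ℝ) (u : E), 0 < s → s < s0 → ‖u‖ ≤ 1 →
      (∀ y, ‖y - s • u‖ < c * s → g y ≠ 0) →
      (∀ w : ℂ, ‖w‖ = 1 → g ((w * s) • u) ≠ 0) ∧ Wd (fun θ => g ((s * cis θ) • u)) m := by
  have hproper : ProperSpace E := FiniteDimensional.proper ℂ E
  have hK : IsCompact (Metric.closedBall (0 : E) 1) := isCompact_closedBall 0 1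
  have key := hK.eventually_forall_of_forall_eventually (x₀ := (0 : ℝ))
    (P := fun s u => 0 < s → (∀ y, ‖y - s • u‖ < c * s → g y ≠ 0) →
      (∀ w : ℂ, ‖w‖ = 1 → g ((w * s) • u) ≠ 0) ∧ Wd (fun θ => g ((s * cis θ) • u)) m) (by
    intro u hu
    rw [mem_closedBall_zero_iff] at hu
    by_cases hQ : Q u = 0
    · filter_upwards [M8a_caseB hg h hm hc hu hQ] with z hz hs hb
      exact absurd hb (hz hs)
    · filter_upwards [M8a_caseA hg h hu hQ] with z hz hs _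
      exact hz hs)
  rw [Metric.eventually_nhds_iff] at key
  obtain ⟨s0, hs0, h1⟩ := key
  refine ⟨s0, hs0, ?_⟩
  intro s u hs hss hu hb
  refine h1 ?_ u ?_ hs hb
  · rw [dist_zero_right, Real.norm_eq_abs, abs_of_pos hs]
    exact hss
  · rwa [mem_closedBall_zero_iff]

end Zr
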