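import Pool.Agent.helper60.Zr.M6
import Pool.Agent.helper60.Zr.M7
import Pool.Agent.helper60.Zr.M8a

set_option autoImplicit false

/-!
# Zr, module M8: one ellipse suffices (`core`; `torus_avoid` is in `M8a`)

Let `ρ = ‖a‖ + ‖b‖` and `β θ = cis θ • a + cis (-θ) • b`. Small `r`, `ρ`: `Wd (f ((r cis θ) • v)) k` (`lead_wd`), `ψ (φ x) = x` on the circle, so `f ∘ ψ` has winding number `k`
on the loop `φ ((r cis θ) • v)`, and on `β` by the homotopy of segments inside the balls (`zs`: `f (ψ y) ≠ 0` where `g y ≠ 0`). `torus_avoid` with `s = ρ`, `u = ρ⁻¹ • β θ`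
(and the same `c`): `g ≠ 0` on `cis s • β θ`, and `g (cis s • β 0)` has winding number `m`. Put `T θ s = f (ψ (cis s • β θ))`, `T' θ s = g (cis s • β θ)`, winding numbers
`(k, q)` resp. `(p, m)`. Since `b + cis (2 θ) • a = cis θ • β θ` and `a + cis (-2 θ) • b = cis (-θ) • β θ` (`Wd.torus` with `(1, 1)` and `(1, -1)`), the discs
`b + w • a` and `a + w • b` have winding numbers `H1, H2` (for `f ∘ ψ`) and `G1, G2` (for `g`) with `2 H1 = k + q`, `- 2 H2 = k - q`, `2 G1 = p + m`, `- 2 G2 = p - m`.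
`disc_le`: `|H1| ≤ G1`, `|H2| ≤ G2`. So `k = H1 - H2 ≤ G1 + G2 = m`.
-/

noncomputable section

namespace Zr

open Filter Topology Set

variable {E : Type*} [NormedAddCommGroup E] [NormedSpace ℂ E]

theorem M8_cis_zero : cis 0 = 1 := by
  unfold cis
  simp

/-- the doubled loop -/
theorem M8_double {F : ℂ → ℂ} {H : ℤ} (h : Wd (fun θ => F (cis θ)) H) (j : ℤ) :
    Wd (fun θ : ℝ => F (cis (j * θ))) (j * H) := by
  have hc := h.cont
  have h1 := Wd.torus (T := fun θ _ => F (cis θ)) (p := H) (q := 0)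
    (hc.comp continuous_fst) (fun θ _ => h.ne θ) (fun θ _ => h.per θ) (fun _ _ => rfl) h
    (Wd.const (h.ne 0)) j 0
  simpa using h1

theorem M8_norm (a b : E) (θ : ℝ) : ‖cis θ • a + cis (-θ) • b‖ ≤ ‖a‖ + ‖b‖ := by
  refine (norm_add_le _ _).trans ?_
  rw [norm_smul, norm_smul, cis_norm, cis_norm, one_mul, one_mul]

theorem M8_torus {F : E → ℂ} {a b : E} {δ : ℝ} (hF : ContinuousOn F (Metric.ball 0 δ))
    (hab : ‖a‖ + ‖b‖ < δ) (h0 : ∀ w : ℂ, ‖w‖ = 1 → ∀ θ, F (w • (cis θ • a + cis (-θ) • b)) ≠ 0)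
    {k q : ℤ} (hk : Wd (fun θ => F (cis θ • a + cis (-θ) • b)) k)
    (hq : Wd (fun s => F (cis s • (cis 0 • a + cis (-0) • b))) q) :
    ∃ H1 H2 : ℤ, Wd (fun θ => F (b + cis θ • a)) H1 ∧ Wd (fun θ => F (a + cis θ • b)) H2 ∧
      k + q = 2 * H1 ∧ k - q = -2 * H2 := by
  have hcis := cis_cont
  have hmem : ∀ x y : E, ‖x‖ + ‖y‖ < δ → ∀ θ : ℝ, x + cis θ • y ∈ Metric.ball (0 : E) δ := by
    intro x y hxy θ
    rw [mem_ball_zero_iff]
    refine lt_of_le_of_lt (norm_add_le _ _) ?_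
    rw [norm_smul, cis_norm, one_mul]
    exact hxy
  have e1 : ∀ θ : ℝ, cis θ • (cis θ • a + cis (-θ) • b) = b + cis (2 * θ) • a := by
    intro θ
    rw [smul_add, smul_smul, smul_smul, ← cis_add, ← cis_add, add_neg_cancel, M8_cis_zero,
      one_smul, add_comm, two_mul]
  have e2 : ∀ θ : ℝ, cis (-θ) • (cis θ • a + cis (-θ) • b) = a + cis (-2 * θ) • b := by
    intro θ
    rw [smul_add, smul_smul, smul_smul, ← cis_add, ← cis_add, neg_add_cancel, M8_cis_zero,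
      one_smul]
    congr 3
    ring
  have hc : ∀ x y : E, ‖x‖ + ‖y‖ < δ → Continuous (fun θ : ℝ => F (x + cis θ • y)) := by
    intro x y hxy
    exact hF.comp_continuous (by fun_prop) (hmem x y hxy)
  have hn1 : ∀ θ : ℝ, F (b + cis θ • a) ≠ 0 := by
    intro θ
    have h1 := h0 (cis (θ / 2)) (cis_norm _) (θ / 2)
    rw [e1] at h1
    rwa [show 2 * (θ / 2) = θ by ring] at h1
  have hn2 : ∀ θ : ℝ, F (a + cis θ • b) ≠ 0 := by
    intro θ
    have h1 := h0 (cis (-(-θ / 2))) (cis_norm _) (-θ / 2)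
    rw [e2] at h1
    rwa [show -2 * (-θ / 2) = θ by ring] at h1
  obtain ⟨H1, hH1⟩ := Wd.ex (hc b a (by linarith)) hn1 (fun θ => by rw [cis_per])
  obtain ⟨H2, hH2⟩ := Wd.ex (hc a b hab) hn2 (fun θ => by rw [cis_per])
  have hball : ∀ (θ s : ℝ), cis s • (cis θ • a + cis (-θ) • b) ∈ Metric.ball (0 : E) δ := by
    intro θ s
    rw [mem_ball_zero_iff, norm_smul, cis_norm, one_mul]
    exact lt_of_le_of_lt (M8_norm a b θ) hab
  have hT : Continuous (fun p : ℝ × ℝ => (fun θ s => F (cis s • (cis θ • a + cis (-θ) • b))) p.1 p.2) :=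
    hF.comp_continuous (f := fun p : ℝ × ℝ => cis p.2 • (cis p.1 • a + cis (-p.1) • b))
      (by fun_prop) (fun p => hball p.1 p.2)
  have hper : ∀ θ : ℝ, cis (-(θ + 2 * Real.pi)) = cis (-θ) := by
    intro θ
    rw [← cis_per (-(θ + 2 * Real.pi))]
    congr 1
    ring
  have hk' : Wd (fun θ => F (cis 0 • (cis θ • a + cis (-θ) • b))) k := by
    simp only [M8_cis_zero, one_smul]
    exact hk
  have t1 := Wd.torus hT (fun θ s => h0 (cis s) (cis_norm s) θ)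
    (fun θ s => by rw [cis_per, hper]) (fun θ s => by rw [cis_per]) hk' hq 1 1
  have t2 := Wd.torus hT (fun θ s => h0 (cis s) (cis_norm s) θ)
    (fun θ s => by rw [cis_per, hper]) (fun θ s => by rw [cis_per]) hk' hq 1 (-1)
  refine ⟨H1, H2, hH1, hH2, ?_, ?_⟩
  · have d1 := M8_double (F := fun w => F (b + w • a)) hH1 2
    have d2 : (fun θ : ℝ => F (cis (((1 : ℤ) : ℝ) * θ) •
        (cis (((1 : ℤ) : ℝ) * θ) • a + cis (-(((1 : ℤ) : ℝ) * θ)) • b))) =
        fun θ : ℝ => F (b + cis (((2 : ℤ) : ℝ) * θ) • a) := by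
      funext θ
      push_cast
      rw [one_mul, e1]
    rw [d2] at t1
    have := t1.uniq d1
    linarith
  · have d1 := M8_double (F := fun w => F (a + w • b)) hH2 (-2)
    have d2 : (fun θ : ℝ => F (cis (((-1 : ℤ) : ℝ) * θ) •
        (cis (((1 : ℤ) : ℝ) * θ) • a + cis (-(((1 : ℤ) : ℝ) * θ)) • b))) =
        fun θ : ℝ => F (a + cis (((-2 : ℤ) : ℝ) * θ) • b) := by
      funext θ
      push_cast
      rw [one_mul, show (-1 : ℝ) * θ = -θ by ring, e2]
    rw [d2] at t2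
    have := t2.uniq d1
    linarith

variable [FiniteDimensional ℂ E]

theorem core {f g : E → ℂ} {φ ψ : E → E} {B : Set E} (h : Pair f g φ ψ B) (hB : (0 : E) ∈ B) (hψ : ψ 0 = 0)
    {k m : ℕ} {P Q : E → ℂ} (hf : Lead f k P) (hg : Lead g m Q) (hm : 1 ≤ m) {v : E} (hv : P v ≠ 0) {c : ℝ}
    (hc : 0 < c) (H : ∀ ε : ℝ, 0 < ε → ∃ r : ℝ, 0 < r ∧ r < ε ∧ ∃ (a b : E) (d : ℝ), 0 < ‖a‖ + ‖b‖ ∧
      ‖a‖ + ‖b‖ < ε ∧ c * (‖a‖ + ‖b‖) ≤ d ∧
      (∀ θ : ℝ, ‖φ ((r * cis θ) • v) - (cis θ • a + cis (-θ) • b)‖ < d) ∧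
      ∀ (θ : ℝ) (y : E), ‖y - (cis θ • a + cis (-θ) • b)‖ < d → g y ≠ 0) : k ≤ m := by
  have hcis := cis_cont
  have hf0 : AnalyticAt ℂ f 0 := by
    have := h.f_an 0 hB
    rwa [hψ] at this
  have hg0 : AnalyticAt ℂ g 0 := h.g_an 0 hB
  obtain ⟨δ, hδ, hδB⟩ := Metric.isOpen_iff.1 h.isOpen 0 hB
  -- the leading form
  obtain ⟨r1, hr1, hr1'⟩ : ∃ r1 : ℝ, 0 < r1 ∧ ∀ r : ℝ, 0 < r → r < r1 →
      Wd (fun θ => f ((r * cis θ) • v)) k := by
    have h1 := lead_wd hf0 hf hv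
    rw [eventually_nhdsWithin_iff, Metric.eventually_nhds_iff] at h1
    obtain ⟨r1, hr1, h2⟩ := h1
    refine ⟨r1, hr1, fun r hr hrr => h2 ?_ hr⟩
    rw [Real.dist_eq, sub_zero, abs_of_pos hr]
    exact hrr
  -- near zero
  have hφ0 : φ 0 = 0 := by
    have := h.φψ 0 hB
    rwa [hψ] at this
  have hφc : ContinuousAt φ 0 := by
    have := h.φ_cont 0 hB
    rwa [hψ] at this
  obtain ⟨r2, hr2, hr2'⟩ : ∃ r2 : ℝ, 0 < r2 ∧ ∀ x : E, ‖x‖ < r2 → ‖φ x‖ < δ ∧ ψ (φ x) = x := by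
    have h1 : ∀ᶠ x in 𝓝 (0 : E), φ x ∈ Metric.ball (0 : E) δ := by
      apply hφc
      rw [hφ0]
      exact Metric.ball_mem_nhds 0 hδ
    have h2 : ∀ᶠ x in 𝓝 (0 : E), ψ (φ x) = x := by
      have := h.ψφ 0 hB
      rwa [hψ] at this
    have h3 := h1.and h2
    rw [Metric.eventually_nhds_iff] at h3
    obtain ⟨r2, hr2, h4⟩ := h3
    refine ⟨r2, hr2, fun x hx => ?_⟩
    have h5 := h4 (show dist x 0 < r2 by rwa [dist_zero_right])
    exact ⟨by simpa using h5.1, h5.2⟩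
  obtain ⟨s0, hs0, hav⟩ := torus_avoid hg0 hg hm hc
  -- the data
  set ε := min (min r1 (r2 / (‖v‖ + 1))) (min s0 δ) with hε
  have hv1 : 0 < ‖v‖ + 1 := by positivity
  have hεpos : 0 < ε := by
    refine lt_min (lt_min hr1 (div_pos hr2 hv1)) (lt_min hs0 hδ)
  obtain ⟨r, hr, hrε, a, b, d, hρ, hρε, hcd, hclose, hgne⟩ := H ε hεpos
  have hrr1 : r < r1 := lt_of_lt_of_le hrε ((min_le_left _ _).trans (min_le_left _ _))
  have hrr2 : r < r2 / (‖v‖ + 1) := lt_of_lt_of_le hrε ((min_le_left _ _).trans (min_le_right _ _))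
  have hρs0 : ‖a‖ + ‖b‖ < s0 := lt_of_lt_of_le hρε ((min_le_right _ _).trans (min_le_left _ _))
  have hρδ : ‖a‖ + ‖b‖ < δ := lt_of_lt_of_le hρε ((min_le_right _ _).trans (min_le_right _ _))
  set ρ := ‖a‖ + ‖b‖ with hρdef
  have hxn : ∀ θ : ℝ, ‖(r * cis θ) • v‖ < r2 := by
    intro θ
    rw [norm_smul, norm_mul, cis_norm, mul_one, Complex.norm_real, Real.norm_eq_abs, abs_of_pos hr]
    rw [lt_div_iff₀ hv1] at hrr2
    nlinarith [norm_nonneg v]
  have hβn : ∀ θ : ℝ, ‖cis θ • a + cis (-θ) • b‖ ≤ ρ := M8_norm a b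
  -- continuity of f ∘ ψ
  have hfψ : ContinuousOn (fun y => f (ψ y)) (Metric.ball (0 : E) δ) := by
    intro y hy
    have hyB := hδB hy
    exact (ContinuousAt.comp (f := ψ) (g := f) (h.f_an y hyB).continuousAt
      (h.ψ_cont y hyB)).continuousWithinAt
  have hgc : ContinuousOn g (Metric.ball (0 : E) δ) := fun y hy =>
    (h.g_an y (hδB hy)).continuousAt.continuousWithinAt
  have hzs : ∀ y ∈ Metric.ball (0 : E) δ, g y ≠ 0 → f (ψ y) ≠ 0 := fun y hy hgy hfy =>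
    hgy ((h.zs y (hδB hy)).1 hfy)
  -- the loop of the circle
  have hφx : Continuous (fun θ : ℝ => φ ((r * cis θ) • v)) := by
    rw [continuous_iff_continuousAt]
    intro θ
    have h1 := hr2' _ (hxn θ)
    have h2 : ContinuousAt φ ((r * cis θ) • v) := by
      have h3 := h.φ_cont (φ ((r * cis θ) • v)) (hδB (by simpa using h1.1))
      rwa [h1.2] at h3
    exact ContinuousAt.comp (f := fun θ : ℝ => (r * cis θ) • v) (g := φ) h2
      (by fun_prop)
  have hseg : ∀ t ∈ Icc (0 : ℝ) 1, ∀ θ : ℝ, (φ ((r * cis θ) • v) +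
      (t : ℂ) • ((cis θ • a + cis (-θ) • b) - φ ((r * cis θ) • v))) ∈ Metric.ball (0 : E) δ ∧
      g (φ ((r * cis θ) • v) +
      (t : ℂ) • ((cis θ • a + cis (-θ) • b) - φ ((r * cis θ) • v))) ≠ 0 := by
    intro t ht θ
    set y0 := φ ((r * cis θ) • v) with hy0
    set β := cis θ • a + cis (-θ) • b with hβ
    have h1 : ‖y0‖ < δ := (hr2' _ (hxn θ)).1
    have h2 : ‖β‖ < δ := lt_of_le_of_lt (hβn θ) hρδ
    have h3 : y0 + (t : ℂ) • (β - y0) = ((1 - t : ℝ) : ℂ) • y0 + (t : ℂ) • β := by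
      rw [smul_sub]
      push_cast
      rw [sub_smul, one_smul]
      abel
    refine ⟨?_, ?_⟩
    · rw [mem_ball_zero_iff, h3]
      refine lt_of_le_of_lt (norm_add_le _ _) ?_
      rw [norm_smul, norm_smul, Complex.norm_real, Complex.norm_real, Real.norm_eq_abs,
        Real.norm_eq_abs, abs_of_nonneg ht.1, abs_of_nonneg (by linarith [ht.2])]
      rcases eq_or_lt_of_le ht.1 with h4 | h4
      · rw [← h4]
        linarith
      · nlinarith [ht.2]
    · refine hgne θ _ ?_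
      rw [h3, ← hβ]
      have h4 : ((1 - t : ℝ) : ℂ) • y0 + (t : ℂ) • β - β = ((1 - t : ℝ) : ℂ) • (y0 - β) := by
        rw [smul_sub]
        push_cast
        rw [sub_smul, sub_smul, one_smul, one_smul]
        abel
      rw [h4, norm_smul, Complex.norm_real, Real.norm_eq_abs, abs_of_nonneg (by linarith [ht.2])]
      have h5 := hclose θ
      have h6 : 0 ≤ ‖y0 - β‖ := norm_nonneg _
      have h7 : (1 - t) * ‖y0 - β‖ ≤ 1 * ‖y0 - β‖ :=
        mul_le_mul_of_nonneg_right (by linarith [ht.1]) h6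
      linarith
  have hW1 : Wd (fun θ => f (ψ (cis θ • a + cis (-θ) • b))) k := by
    have h1 := Wd.htpy (H := fun θ t => f (ψ (φ ((r * cis θ) • v) +
      (t : ℂ) • ((cis θ • a + cis (-θ) • b) - φ ((r * cis θ) • v))))) (k := k) (by
        refine ContinuousOn.comp (g := fun y => f (ψ y)) (f := fun p : ℝ × ℝ => φ ((r * cis p.1) • v) +
          (p.2 : ℂ) • ((cis p.1 • a + cis (-p.1) • b) - φ ((r * cis p.1) • v))) hfψ ?_ ?_
        · have h2 : Continuous (fun p : ℝ × ℝ => φ ((r * cis p.1) • v)) := hφx.comp continuous_fst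
          exact Continuous.continuousOn (h2.add ((Complex.continuous_ofReal.comp
            continuous_snd).smul ((by fun_prop : Continuous (fun p : ℝ × ℝ =>
              cis p.1 • a + cis (-p.1) • b)).sub h2)))
        · intro p hp
          exact (hseg p.2 hp.2 p.1).1) (by
      intro t ht θ
      exact hzs _ (hseg t ht θ).1 (hseg t ht θ).2) (by
      intro t ht θ
      have hper : cis (-(θ + 2 * Real.pi)) = cis (-θ) := by
        rw [← cis_per (-(θ + 2 * Real.pi))]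
        congr 1
        ring
      rw [cis_per, hper]) (by
      have h2 : (fun θ : ℝ => f (ψ (φ ((r * cis θ) • v) +
          ((0 : ℝ) : ℂ) • ((cis θ • a + cis (-θ) • b) - φ ((r * cis θ) • v))))) =
          fun θ : ℝ => f ((r * cis θ) • v) := by
        funext θ
        rw [Complex.ofReal_zero, zero_smul, add_zero, (hr2' _ (hxn θ)).2]
      rw [h2]
      exact hr1' r hr hrr1)
    have h2 : (fun θ : ℝ => f (ψ (φ ((r * cis θ) • v) +
        ((1 : ℝ) : ℂ) • ((cis θ • a + cis (-θ) • b) - φ ((r * cis θ) • v))))) =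
        fun θ : ℝ => f (ψ (cis θ • a + cis (-θ) • b)) := by
      funext θ
      rw [Complex.ofReal_one, one_smul, add_sub_cancel]
    rw [← h2]
    exact h1
  -- the torus
  have hρC : (ρ : ℂ) ≠ 0 := by exact_mod_cast hρ.ne'
  have hu : ∀ θ : ℝ, ‖((ρ : ℂ)⁻¹) • (cis θ • a + cis (-θ) • b)‖ ≤ 1 := by
    intro θ
    rw [norm_smul, norm_inv, Complex.norm_real, Real.norm_eq_abs, abs_of_pos hρ, inv_mul_le_iff₀ hρ,
      mul_one]
    exact hβn θ
  have hsu : ∀ θ : ℝ, ρ • ((ρ : ℂ)⁻¹) • (cis θ • a + cis (-θ) • b) =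
      cis θ • a + cis (-θ) • b := by
    intro θ
    have h1 : ∀ z : E, ρ • z = (ρ : ℂ) • z := fun z => (Complex.coe_smul ρ z).symm
    rw [h1, smul_smul, mul_inv_cancel₀ hρC, one_smul]
  have hall : ∀ θ : ℝ, (∀ w : ℂ, ‖w‖ = 1 → g (w • (cis θ • a + cis (-θ) • b)) ≠ 0) ∧
      Wd (fun s => g (cis s • (cis θ • a + cis (-θ) • b))) m := by
    intro θ
    obtain ⟨h1, h2⟩ := hav ρ (((ρ : ℂ)⁻¹) • (cis θ • a + cis (-θ) • b)) hρ hρs0 (hu θ) (by
      intro y hy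
      rw [hsu θ] at hy
      exact hgne θ y (lt_of_lt_of_le hy hcd))
    refine ⟨fun w hw => ?_, ?_⟩
    · have h3 := h1 w hw
      rwa [smul_smul, mul_assoc, mul_inv_cancel₀ hρC, mul_one] at h3
    · have h3 : (fun s : ℝ => g (((ρ : ℂ) * cis s) • ((ρ : ℂ)⁻¹) •
          (cis θ • a + cis (-θ) • b))) = fun s => g (cis s • (cis θ • a + cis (-θ) • b)) := by
        funext s
        rw [smul_smul, mul_comm (ρ : ℂ), mul_assoc, mul_inv_cancel₀ hρC, mul_one]
      rw [← h3]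
      exact h2
  have hballw : ∀ w : ℂ, ‖w‖ = 1 → ∀ θ : ℝ, w • (cis θ • a + cis (-θ) • b) ∈
      Metric.ball (0 : E) δ := by
    intro w hw θ
    rw [mem_ball_zero_iff, norm_smul, hw, one_mul]
    exact lt_of_le_of_lt (hβn θ) hρδ
  have hg1 : ∀ w : ℂ, ‖w‖ = 1 → ∀ θ, g (w • (cis θ • a + cis (-θ) • b)) ≠ 0 :=
    fun w hw θ => (hall θ).1 w hw
  have hf1 : ∀ w : ℂ, ‖w‖ = 1 → ∀ θ, f (ψ (w • (cis θ • a + cis (-θ) • b))) ≠ 0 :=
    fun w hw θ => hzs _ (hballw w hw θ) (hg1 w hw θ)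
  have hper : ∀ θ : ℝ, cis (-(θ + 2 * Real.pi)) = cis (-θ) := by
    intro θ
    rw [← cis_per (-(θ + 2 * Real.pi))]
    congr 1
    ring
  obtain ⟨q, hq⟩ : ∃ q : ℤ, Wd (fun s => f (ψ (cis s • (cis 0 • a + cis (-0) • b)))) q := by
    refine Wd.ex ?_ (fun s => hf1 (cis s) (cis_norm s) 0) (fun s => by rw [cis_per])
    exact hfψ.comp_continuous (f := fun s : ℝ => cis s • (cis 0 • a + cis (-0) • b))
      (by fun_prop) (fun s => hballw _ (cis_norm s) 0)
  obtain ⟨p, hp⟩ : ∃ p : ℤ, Wd (fun θ => g (cis θ • a + cis (-θ) • b)) p := by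
    refine Wd.ex ?_ (fun θ => by
      have := hg1 1 (by simp) θ
      rwa [one_smul] at this) (fun θ => by rw [cis_per, hper])
    refine hgc.comp_continuous (f := fun θ : ℝ => cis θ • a + cis (-θ) • b)
      (by fun_prop) (fun θ => ?_)
    have := hballw 1 (by simp) θ
    rwa [one_smul] at this
  obtain ⟨H1, H2, hH1, hH2, e1, e2⟩ := M8_torus hfψ hρδ hf1 hW1 hq
  obtain ⟨G1, G2, hG1, hG2, e3, e4⟩ := M8_torus hgc hρδ hg1 hp (hall 0).2
  -- the discs
  have hdisc : ∀ x y : E, ‖x‖ + ‖y‖ < δ → ∀ w : ℂ, ‖w‖ ≤ 1 → x + w • y ∈ B := by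
    intro x y hxy w hw
    apply hδB
    rw [mem_ball_zero_iff]
    refine lt_of_le_of_lt (norm_add_le _ _) ?_
    rw [norm_smul]
    nlinarith [norm_nonneg y]
  have l1 : |H1| ≤ G1 := by
    refine disc_le h (x := b) (v := a) (hdisc b a (by rw [add_comm]; exact hρδ)) (fun w hw => ?_) hG1 hH1
    obtain ⟨θ, rfl⟩ := exists_cis hw
    exact hG1.ne θ
  have l2 : |H2| ≤ G2 := by
    refine disc_le h (x := a) (v := b) (hdisc a b hρδ) (fun w hw => ?_) hG2 hH2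
    obtain ⟨θ, rfl⟩ := exists_cis hw
    exact hG2.ne θ
  have a1 := abs_le.1 l1
  have a2 := abs_le.1 l2
  have : (k : ℤ) ≤ m := by linarith [a1.1, a1.2, a2.1, a2.2]
  exact_mod_cast this

end Zr
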