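import Pool.Agent.helper60.Zr.M6
import Pool.Agent.helper60.Zr.M8

set_option autoImplicit false

/-!
# Zr, module M9: almost linear blow-ups (written by helper60)
-/

noncomputable section

namespace Zr

open Filter Topology Set

variable {E : Type*} [NormedAddCommGroup E] [NormedSpace ℂ E]

/-- a reduced holomorphic germ `f` at `0` with `f 0 = 0`: `f` is holomorphic near `0` and near `0` the regular zeros are dense in the
zeros -/
def Red (f : E → ℂ) : Prop :=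
  AnalyticAt ℂ f 0 ∧ f 0 = 0 ∧ ∀ᶠ y in 𝓝 (0 : E), f y = 0 → y ∈ closure {q | f q = 0 ∧ fderiv ℂ f q ≠ 0}

/-- `φ : V → W` is a homeomorphism between neighbourhoods of `0` with inverse `ψ`, `φ 0 = 0`, and `φ` maps the zeros of `f` to the zeros of
`g` -/
structure Equ (f g : E → ℂ) (φ ψ : E → E) (V W : Set E) : Prop where
  hV : V ∈ 𝓝 (0 : E)
  hW : W ∈ 𝓝 (0 : E)
  mφ : MapsTo φ V W
  mψ : MapsTo ψ W V
  li : LeftInvOn ψ φ V
  ri : RightInvOn ψ φ W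
  cφ : ContinuousOn φ V
  cψ : ContinuousOn ψ W
  z0 : φ 0 = 0
  zs : ∀ z ∈ V, (f z = 0 ↔ g (φ z) = 0)

/-- `φ` is almost linear at arbitrarily small scales, with constants `Λ`, `δ` -/
def AlmLin (φ : E → E) (Λ δ : ℝ) : Prop :=
  ∀ ε : ℝ, 0 < ε → ∃ r σ : ℝ, 0 < r ∧ r < ε ∧ 0 < σ ∧ ∃ A : E ≃ₗ[ℝ] E,
    (∀ x, σ * ‖x‖ ≤ ‖A x‖ ∧ ‖A x‖ ≤ Λ * σ * ‖x‖) ∧ ∀ x, ‖x‖ ≤ (Λ + 2) * r → ‖φ x - A x‖ ≤ δ * σ * r

omit [NormedSpace ℂ E] in
theorem Equ.ψ0 {f g : E → ℂ} {φ ψ : E → E} {V W : Set E} (h : Equ f g φ ψ V W) : ψ 0 = 0 := by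
  have := h.li (mem_of_mem_nhds h.hV)
  rwa [h.z0] at this

omit [NormedSpace ℂ E] in
theorem Equ.symm {f g : E → ℂ} {φ ψ : E → E} {V W : Set E} (h : Equ f g φ ψ V W) : Equ g f ψ φ W V where
  hV := h.hW
  hW := h.hV
  mφ := h.mψ
  mψ := h.mφ
  li := h.ri
  ri := h.li
  cφ := h.cψ
  cψ := h.cφ
  z0 := h.ψ0
  zs := fun z hz => by
    rw [h.zs _ (h.mψ hz), h.ri hz]

theorem Equ.pair {f g : E → ℂ} {φ ψ : E → E} {V W : Set E} (hf : Red f) (hg : Red g) (h : Equ f g φ ψ V W) :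
    ∃ B : Set E, (0 : E) ∈ B ∧ Pair f g φ ψ B := by
  have h1 : {y | AnalyticAt ℂ g y ∧ (g y = 0 → y ∈ closure {q | g q = 0 ∧ fderiv ℂ g q ≠ 0})} ∈ 𝓝 (0 : E) :=
    hg.1.eventually_analyticAt.and hg.2.2
  have h2 : {y | AnalyticAt ℂ f y ∧ (f y = 0 → y ∈ closure {q | f q = 0 ∧ fderiv ℂ f q ≠ 0})} ∈ 𝓝 (0 : E) :=
    hf.1.eventually_analyticAt.and hf.2.2
  obtain ⟨G, hG1, hG2, hG3⟩ := mem_nhds_iff.1 h1
  obtain ⟨F, hF1, hF2, hF3⟩ := mem_nhds_iff.1 h2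
  have hi : IsOpen (interior W ∩ ψ ⁻¹' (interior V ∩ F)) :=
    (h.cψ.mono interior_subset).isOpen_inter_preimage isOpen_interior (isOpen_interior.inter hF2)
  refine ⟨G ∩ (interior W ∩ ψ ⁻¹' (interior V ∩ F)), ⟨hG3, mem_interior_iff_mem_nhds.2 h.hW, ?_, ?_⟩, ?_⟩
  · rw [h.ψ0]
    exact mem_interior_iff_mem_nhds.2 h.hV
  · rw [h.ψ0]
    exact hF3
  · refine ⟨hG2.inter hi, ?_, ?_, ?_, ?_, ?_, ?_, ?_, ?_, ?_⟩
    · intro y hy
      exact (hG1 hy.1).1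
    · intro y hy
      exact (hF1 hy.2.2.2).1
    · intro y hy
      exact h.cψ.continuousAt (mem_interior_iff_mem_nhds.1 hy.2.1)
    · intro y hy
      exact h.cφ.continuousAt (mem_interior_iff_mem_nhds.1 hy.2.2.1)
    · intro y hy
      exact h.ri (interior_subset hy.2.1)
    · intro y hy
      filter_upwards [mem_interior_iff_mem_nhds.1 hy.2.2.1] with x hx
      exact h.li hx
    · intro y hy
      rw [h.zs _ (interior_subset hy.2.2.1), h.ri (interior_subset hy.2.1)]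
    · intro y hy
      exact (hG1 hy.1).2
    · intro y hy
      exact (hF1 hy.2.2.2).2

theorem Lead.one_le {f : E → ℂ} {k : ℕ} {P : E → ℂ} (h : Lead f k P) (h0 : f 0 = 0) : 1 ≤ k := by
  by_contra hk
  have hk0 : k = 0 := by omega
  subst hk0
  obtain ⟨x, hx⟩ := h.ne
  obtain ⟨C, hC, r, hr, hap⟩ := h.approx
  have h1 := hap 0 (by simpa using hr)
  have h2 := h.hom 0 x
  simp only [zero_smul, pow_zero, one_mul] at h2
  rw [h2, h0] at h1
  simp only [norm_zero, zero_add, pow_one, mul_zero, zero_sub, norm_neg] at h1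
  exact hx (norm_le_zero_iff.1 h1)

/-- the ellipse of a real linear map on a circle of a complex line -/
theorem M9_ell (A : E →ₗ[ℝ] E) (v : E) (r : ℝ) (θ : ℝ) :
    cis θ • ((r / 2 : ℂ) • (A v - Complex.I • A (Complex.I • v))) +
      cis (-θ) • ((r / 2 : ℂ) • (A v + Complex.I • A (Complex.I • v))) = A ((r * cis θ) • v) := by
  have h1 : cis θ = (Real.cos θ : ℂ) + (Real.sin θ : ℂ) * Complex.I := by
    unfold cis
    rw [Complex.exp_mul_I]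
    push_cast
    rfl
  have h2 : cis (-θ) = (Real.cos θ : ℂ) - (Real.sin θ : ℂ) * Complex.I := by
    unfold cis
    rw [Complex.exp_mul_I]
    push_cast
    rw [Complex.cos_neg, Complex.sin_neg]
    ring
  have h3 : (r * cis θ) • v = (r * Real.cos θ : ℝ) • v + (r * Real.sin θ : ℝ) • (Complex.I • v) := by
    rw [← Complex.coe_smul, ← Complex.coe_smul, h1]
    push_cast
    module
  rw [h3, map_add, A.map_smul, A.map_smul, ← Complex.coe_smul, ← Complex.coe_smul, h1, h2]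
  have hI : Complex.I * Complex.I = -1 := Complex.I_mul_I
  generalize A v = X
  generalize A (Complex.I • v) = Y
  have e1 : ((Real.cos θ : ℂ) + (Real.sin θ : ℂ) * Complex.I) • ((r / 2 : ℂ) • (X - Complex.I • Y)) +
      ((Real.cos θ : ℂ) - (Real.sin θ : ℂ) * Complex.I) • ((r / 2 : ℂ) • (X + Complex.I • Y)) =
      ((r : ℂ) * Real.cos θ) • X + (-(Complex.I * Complex.I) * (r * Real.sin θ)) • Y := by
    module
  rw [hI] at e1
  simp only [neg_neg, one_mul] at e1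
  rw [e1]
  push_cast
  rfl

theorem M9_ell_norm (A : E →ₗ[ℝ] E) {v : E} (hv : ‖v‖ = 1) {r L l : ℝ} (hr : 0 < r) (hl : 0 < l)
    (hL : ∀ x, ‖A x‖ ≤ L * ‖x‖) (hl' : ∀ x, l * ‖x‖ ≤ ‖A x‖) :
    0 < ‖(r / 2 : ℂ) • (A v - Complex.I • A (Complex.I • v))‖ + ‖(r / 2 : ℂ) • (A v + Complex.I • A (Complex.I • v))‖ ∧
    ‖(r / 2 : ℂ) • (A v - Complex.I • A (Complex.I • v))‖ + ‖(r / 2 : ℂ) • (A v + Complex.I • A (Complex.I • v))‖ ≤
      2 * L * r := by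
  have n1 : ‖(r / 2 : ℂ)‖ = r / 2 := by
    rw [norm_div, Complex.norm_real, Real.norm_eq_abs, abs_of_pos hr]
    simp
  have hIv : ‖Complex.I • v‖ = 1 := by
    rw [norm_smul, Complex.norm_I, one_mul, hv]
  have a1 := hL v
  have a2 := hL (Complex.I • v)
  have b1 := hl' v
  rw [hv, mul_one] at a1 b1
  rw [hIv, mul_one] at a2
  have hIA : ‖Complex.I • A (Complex.I • v)‖ = ‖A (Complex.I • v)‖ := by
    rw [norm_smul, Complex.norm_I, one_mul]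
  rw [norm_smul, norm_smul, n1]
  have c1 := norm_sub_le (A v) (Complex.I • A (Complex.I • v))
  have c2 := norm_add_le (A v) (Complex.I • A (Complex.I • v))
  have c3 : 2 * ‖A v‖ ≤ ‖A v - Complex.I • A (Complex.I • v)‖ + ‖A v + Complex.I • A (Complex.I • v)‖ := by
    have : (2 : ℝ) • A v = (A v - Complex.I • A (Complex.I • v)) + (A v + Complex.I • A (Complex.I • v)) := by
      module
    calc 2 * ‖A v‖ = ‖(2 : ℝ) • A v‖ := by rw [norm_smul]; simp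
      _ ≤ _ := by
        rw [this]
        exact norm_add_le _ _
  rw [hIA] at c1 c2
  constructor
  · have : 0 < r / 2 * (‖A v - Complex.I • A (Complex.I • v)‖ + ‖A v + Complex.I • A (Complex.I • v)‖) := by
      apply mul_pos (by linarith)
      linarith
    linarith
  · have h5 : r / 2 * (‖A v - Complex.I • A (Complex.I • v)‖ + ‖A v + Complex.I • A (Complex.I • v)‖) ≤
        r / 2 * (4 * L) := by
      apply mul_le_mul_of_nonneg_left _ (by linarith)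
      linarith
    linarith

theorem M9_ivt {φ ψ : E → E} {W : Set E} {R1 R2 : ℝ} (hR2 : 0 ≤ R2) (hψ : ContinuousOn ψ W)
    (hW : Metric.closedBall (0 : E) R1 ⊆ W) (h0 : ψ 0 = 0) (hi : ∀ y ∈ W, φ (ψ y) = y)
    (h : ∀ x, ‖x‖ = R2 → R1 < ‖φ x‖) {y : E} (hy : ‖y‖ ≤ R1) : ‖ψ y‖ ≤ R2 := by
  by_contra hcon
  rw [not_le] at hcon
  have hm : ∀ t ∈ Icc (0:ℝ) 1, t • y ∈ W := by
    intro t ht
    apply hW
    rw [mem_closedBall_zero_iff, norm_smul, Real.norm_eq_abs, abs_of_nonneg ht.1]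
    calc t * ‖y‖ ≤ 1 * ‖y‖ := mul_le_mul_of_nonneg_right ht.2 (norm_nonneg _)
      _ ≤ R1 := by linarith
  have hc : ContinuousOn (fun t : ℝ => ‖ψ (t • y)‖) (Icc 0 1) := by
    apply ContinuousOn.norm
    exact hψ.comp (by fun_prop) hm
  have := intermediate_value_Icc zero_le_one hc
  have hmem : R2 ∈ Icc ((fun t : ℝ => ‖ψ (t • y)‖) 0) ((fun t : ℝ => ‖ψ (t • y)‖) 1) := by
    simp only [zero_smul, one_smul, h0, norm_zero]
    exact ⟨hR2, hcon.le⟩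
  obtain ⟨t, ht, ht2⟩ := this hmem
  simp only at ht2
  have h3 := h _ ht2
  rw [hi _ (hm t ht), norm_smul, Real.norm_eq_abs, abs_of_nonneg ht.1] at h3
  have h4 : t * ‖y‖ ≤ 1 * ‖y‖ := mul_le_mul_of_nonneg_right ht.2 (norm_nonneg _)
  linarith

/-- small scales -/
theorem AlmLin.small {φ : E → E} {Λ δ : ℝ} (hA : AlmLin φ Λ δ) (hΛ : 1 ≤ Λ) (hδ : δ < 1) (hc : ContinuousAt φ 0)
    (h0 : φ 0 = 0) {v : E} (hv : ‖v‖ = 1) {ε : ℝ} (hε : 0 < ε) :
    ∃ r σ : ℝ, 0 < r ∧ r < ε ∧ 0 < σ ∧ σ * r < ε ∧ ∃ A : E ≃ₗ[ℝ] E,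
      (∀ x, σ * ‖x‖ ≤ ‖A x‖ ∧ ‖A x‖ ≤ Λ * σ * ‖x‖) ∧ ∀ x, ‖x‖ ≤ (Λ + 2) * r → ‖φ x - A x‖ ≤ δ * σ * r := by
  have h1 : 0 < (1 - δ) * ε := mul_pos (by linarith) hε
  obtain ⟨η, hη, hη'⟩ := Metric.continuousAt_iff.1 hc _ h1
  obtain ⟨r, σ, hr, hr2, hσ, A, hA1, hA2⟩ := hA (min ε η) (lt_min hε hη)
  refine ⟨r, σ, hr, lt_of_lt_of_le hr2 (min_le_left _ _), hσ, ?_, A, hA1, hA2⟩
  have hn : ‖r • v‖ = r := by
    rw [norm_smul, Real.norm_eq_abs, abs_of_pos hr, hv, mul_one]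
  have h2 := hη' (x := r • v) (by
    rw [dist_zero_right, hn]
    exact lt_of_lt_of_le hr2 (min_le_right _ _))
  rw [h0, dist_zero_right] at h2
  have h3 := hA2 (r • v) (by
    rw [hn]
    nlinarith)
  have h4 := (hA1 (r • v)).1
  rw [hn] at h4
  have h5 : ‖A (r • v)‖ ≤ ‖φ (r • v)‖ + ‖φ (r • v) - A (r • v)‖ := by
    have : A (r • v) = φ (r • v) - (φ (r • v) - A (r • v)) := by abel
    calc ‖A (r • v)‖ = ‖φ (r • v) - (φ (r • v) - A (r • v))‖ := by rw [← this]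
      _ ≤ _ := norm_sub_le _ _
  have h6 : (1 - δ) * (σ * r) < (1 - δ) * ε := by nlinarith
  exact lt_of_mul_lt_mul_left h6 (by linarith)

variable [FiniteDimensional ℂ E]

theorem alm_half1 {f g : E → ℂ} {φ ψ : E → E} {V W : Set E} (hf : Red f) (hg : Red g) (h : Equ f g φ ψ V W) {k m : ℕ}
    {P Q : E → ℂ} (hk : Lead f k P) (hm : Lead g m Q) {Λ δ : ℝ} (hΛ : 1 ≤ Λ) (hδ : 0 ≤ δ) (h1 : 8 * δ * k < 1)
    (hA : AlmLin φ Λ δ) : k ≤ m := by
  have hk1 : 1 ≤ k := hk.one_le hf.2.1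
  have hm1 : 1 ≤ m := hm.one_le hg.2.1
  have hk1' : (1 : ℝ) ≤ k := by exact_mod_cast hk1
  obtain ⟨v, hv, hPv, hkap⟩ := kappa hk hk1
  have hδk : δ * 1 ≤ δ * k := mul_le_mul_of_nonneg_left hk1' hδ
  have hδ1 : δ < 1 / 8 := by linarith
  set κ : ℝ := (2 * δ + 1 / (4 * k)) / 2 with hκ
  have hk4 : 0 < 1 / (4 * (k : ℝ)) := by positivity
  have hk5 : 2 * δ < 1 / (4 * (k : ℝ)) := by
    rw [lt_div_iff₀ (by positivity)]
    linarith
  have hκ1 : 2 * δ < κ := by rw [hκ]; linarith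
  have hκ2 : κ < 1 / (4 * (k : ℝ)) := by rw [hκ]; linarith
  have hκ0 : 0 < κ := by linarith
  have hκ3 : 4 * k * κ < 1 := by
    rw [lt_div_iff₀ (by positivity)] at hκ2
    linarith
  have hκk : κ * 1 ≤ κ * k := mul_le_mul_of_nonneg_left hk1' hκ0.le
  have hκ4 : κ < 1 := by linarith
  obtain ⟨r0, hr0, hne⟩ := hkap κ hκ0 hκ3
  obtain ⟨B, hB0, hB⟩ := h.pair hf hg
  obtain ⟨RW, hRW, hRW'⟩ := Metric.nhds_basis_closedBall.mem_iff.1 h.hW
  obtain ⟨RV, hRV, hRV'⟩ := Metric.nhds_basis_closedBall.mem_iff.1 h.hV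
  have hΛ0 : 0 < Λ := by linarith
  refine core hB hB0 h.ψ0 hk hm hm1 hPv (c := (κ - δ) / (2 * Λ)) (by
    apply div_pos <;> linarith) ?_
  intro ε hε
  set ε' : ℝ := min (min (ε / (2 * Λ)) (RW / (Λ + 1))) (min (RV / (Λ + 2)) (min r0 ε)) with hε'
  have hε'0 : 0 < ε' := by
    rw [hε']
    refine lt_min (lt_min ?_ ?_) (lt_min ?_ (lt_min hr0 hε)) <;> positivity
  obtain ⟨r, σ, hr, hrε, hσ, hσr, A, hA1, hA2⟩ := hA.small hΛ (by linarith) (h.cφ.continuousAt h.hV) h.z0 hv hε'0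
  have e1 : σ * r < ε / (2 * Λ) := lt_of_lt_of_le hσr ((min_le_left _ _).trans (min_le_left _ _))
  have e2 : σ * r < RW / (Λ + 1) := lt_of_lt_of_le hσr ((min_le_left _ _).trans (min_le_right _ _))
  have e3 : r < RV / (Λ + 2) := lt_of_lt_of_le hrε ((min_le_right _ _).trans (min_le_left _ _))
  have e4 : r < r0 := lt_of_lt_of_le hrε ((min_le_right _ _).trans ((min_le_right _ _).trans (min_le_left _ _)))
  have e5 : r < ε := lt_of_lt_of_le hrε ((min_le_right _ _).trans ((min_le_right _ _).trans (min_le_right _ _)))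
  rw [lt_div_iff₀ (by linarith)] at e1 e2 e3
  have hσr0 : 0 < σ * r := mul_pos hσ hr
  have p1 : 2 * δ * (σ * r) < κ * (σ * r) := mul_lt_mul_of_pos_right hκ1 hσr0
  have p2 : κ * (σ * r) < 1 * (σ * r) := mul_lt_mul_of_pos_right hκ4 hσr0
  have p3 : 0 ≤ δ * (σ * r) := mul_nonneg hδ hσr0.le
  have p4 : 0 < Λ * r := mul_pos hΛ0 hr
  obtain ⟨n1, n2⟩ := M9_ell_norm (A : E →ₗ[ℝ] E) hv hr hσ (L := Λ * σ) (fun x => (hA1 x).2) (fun x => (hA1 x).1)
  have hell := M9_ell (A : E →ₗ[ℝ] E) v r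
  have hzn : ∀ θ : ℝ, ‖(r * cis θ : ℂ)‖ = r := by
    intro θ
    rw [norm_mul, cis_norm, mul_one, Complex.norm_real, Real.norm_eq_abs, abs_of_pos hr]
  have hzv : ∀ θ : ℝ, ‖(r * cis θ : ℂ) • v‖ = r := by
    intro θ
    rw [norm_smul, hzn, hv, mul_one]
  refine ⟨r, hr, e5, _, _, (κ - δ) * (σ * r), n1, ?_, ?_, ?_, ?_⟩
  · refine lt_of_le_of_lt n2 ?_
    linarith
  · have h7 : (κ - δ) / (2 * Λ) * (2 * (Λ * σ) * r) = (κ - δ) * (σ * r) := by
      field_simp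
    rw [← h7]
    apply mul_le_mul_of_nonneg_left n2
    apply div_nonneg <;> linarith
  · intro θ
    rw [hell θ]
    have h8 := hA2 ((r * cis θ : ℂ) • v) (by
      rw [hzv]
      linarith)
    refine lt_of_le_of_lt h8 ?_
    linarith
  · intro θ y hy
    rw [hell θ] at hy
    have hy' : ‖y - A ((r * cis θ : ℂ) • v)‖ < (κ - δ) * (σ * r) := hy
    have h9 := (hA1 ((r * cis θ : ℂ) • v)).2
    rw [hzv] at h9
    have hyn : ‖y‖ ≤ (Λ + 1) * (σ * r) := by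
      have : y = (y - A ((r * cis θ : ℂ) • v)) + A ((r * cis θ : ℂ) • v) := by abel
      calc ‖y‖ = ‖(y - A ((r * cis θ : ℂ) • v)) + A ((r * cis θ : ℂ) • v)‖ := by rw [← this]
        _ ≤ ‖y - A ((r * cis θ : ℂ) • v)‖ + ‖A ((r * cis θ : ℂ) • v)‖ := norm_add_le _ _
        _ ≤ (Λ + 1) * (σ * r) := by linarith
    have hWc : Metric.closedBall (0 : E) ((Λ + 1) * (σ * r)) ⊆ W := by
      refine subset_trans (Metric.closedBall_subset_closedBall ?_) hRW'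
      linarith
    have hψy : ‖ψ y‖ ≤ (Λ + 2) * r := by
      refine M9_ivt (φ := φ) (by positivity) h.cψ hWc h.ψ0 (fun y hy => h.ri hy) ?_ hyn
      intro x hx
      have a1 := hA2 x hx.le
      have a2 := (hA1 x).1
      rw [hx] at a2
      have a3 : ‖A x‖ ≤ ‖φ x‖ + ‖φ x - A x‖ := by
        have : A x = φ x - (φ x - A x) := by abel
        calc ‖A x‖ = ‖φ x - (φ x - A x)‖ := by rw [← this]
          _ ≤ _ := norm_sub_le _ _
      linarith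
    have hyW : y ∈ W := hWc (mem_closedBall_zero_iff.2 hyn)
    have hφψ : φ (ψ y) = y := h.ri hyW
    have b1 := hA2 (ψ y) hψy
    rw [hφψ] at b1
    have b2 := (hA1 (ψ y - (r * cis θ : ℂ) • v)).1
    have b3 : ‖A (ψ y - (r * cis θ : ℂ) • v)‖ ≤ ‖y - A (ψ y)‖ + ‖y - A ((r * cis θ : ℂ) • v)‖ := by
      rw [map_sub]
      have : A (ψ y) - A ((r * cis θ : ℂ) • v) = (y - A ((r * cis θ : ℂ) • v)) - (y - A (ψ y)) := by abel
      rw [this, add_comm]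
      exact norm_sub_le _ _
    have b4 : σ * ‖ψ y - (r * cis θ : ℂ) • v‖ ≤ σ * (κ * r) := by linarith
    have b5 : ‖ψ y - (r * cis θ : ℂ) • v‖ ≤ κ * r := le_of_mul_le_mul_left b4 hσ
    have b6 := hne (r * cis θ) (ψ y) (by rw [hzn]; exact hr) (by rw [hzn]; exact e4) (by rw [hzn]; exact b5)
    intro hgy
    apply b6
    rw [h.zs _ (h.mψ hyW), hφψ]
    exact hgy

theorem alm_half2 {f g : E → ℂ} {φ ψ : E → E} {V W : Set E} (hf : Red f) (hg : Red g) (h : Equ f g φ ψ V W) {k m : ℕ}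
    {P Q : E → ℂ} (hk : Lead f k P) (hm : Lead g m Q) {Λ δ : ℝ} (hΛ : 1 ≤ Λ) (hδ : 0 ≤ δ) (h1 : 8 * Λ * δ * m < 1)
    (hA : AlmLin φ Λ δ) : m ≤ k := by
  have hk1 : 1 ≤ k := hk.one_le hf.2.1
  have hm1 : 1 ≤ m := hm.one_le hg.2.1
  have hm1' : (1 : ℝ) ≤ m := by exact_mod_cast hm1
  obtain ⟨v, hv, hPv, hkap⟩ := kappa hm hm1
  have hΛ0 : 0 < Λ := by linarith
  have hΛδ : 0 ≤ Λ * δ := by positivity
  have hδk : Λ * δ * 1 ≤ Λ * δ * m := mul_le_mul_of_nonneg_left hm1' hΛδ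
  have hδ1 : Λ * δ < 1 / 8 := by linarith
  have hδ2 : 1 * δ ≤ Λ * δ := mul_le_mul_of_nonneg_right hΛ hδ
  rw [one_mul] at hδ2
  set κ : ℝ := (2 * (Λ * δ) + 1 / (4 * m)) / 2 with hκ
  have hk4 : 0 < 1 / (4 * (m : ℝ)) := by positivity
  have hk5 : 2 * (Λ * δ) < 1 / (4 * (m : ℝ)) := by
    rw [lt_div_iff₀ (by positivity)]
    linarith
  have hκ1 : 2 * (Λ * δ) < κ := by rw [hκ]; linarith
  have hκ2 : κ < 1 / (4 * (m : ℝ)) := by rw [hκ]; linarith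
  have hκ0 : 0 < κ := by linarith
  have hκ3 : 4 * m * κ < 1 := by
    rw [lt_div_iff₀ (by positivity)] at hκ2
    linarith
  have hκk : κ * 1 ≤ κ * m := mul_le_mul_of_nonneg_left hm1' hκ0.le
  have hκ4 : κ < 1 := by linarith
  obtain ⟨r0, hr0, hne⟩ := hkap κ hκ0 hκ3
  obtain ⟨B, hB0, hB⟩ := h.symm.pair hg hf
  obtain ⟨RW, hRW, hRW'⟩ := Metric.nhds_basis_closedBall.mem_iff.1 h.hW
  obtain ⟨RV, hRV, hRV'⟩ := Metric.nhds_basis_closedBall.mem_iff.1 h.hV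
  refine core hB hB0 h.z0 hm hk hk1 hPv (c := (κ - δ) / (2 * Λ)) (by
    apply div_pos <;> linarith) ?_
  intro ε hε
  set ε' : ℝ := min (min (ε / 2) RW) (min (RV / 2) (min r0 ε)) with hε'
  have hε'0 : 0 < ε' := by
    rw [hε']
    refine lt_min (lt_min ?_ hRW) (lt_min ?_ (lt_min hr0 hε)) <;> positivity
  obtain ⟨r, σ, hr, hrε, hσ, hσr, A, hA1, hA2⟩ := hA.small hΛ (by linarith) (h.cφ.continuousAt h.hV) h.z0 hv hε'0
  have e1 : r < ε / 2 := lt_of_lt_of_le hrε ((min_le_left _ _).trans (min_le_left _ _))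
  have e2 : σ * r < RW := lt_of_lt_of_le hσr ((min_le_left _ _).trans (min_le_right _ _))
  have e3 : r < RV / 2 := lt_of_lt_of_le hrε ((min_le_right _ _).trans (min_le_left _ _))
  have e4 : σ * r < r0 := lt_of_lt_of_le hσr ((min_le_right _ _).trans ((min_le_right _ _).trans (min_le_left _ _)))
  have e5 : σ * r < ε := lt_of_lt_of_le hσr ((min_le_right _ _).trans ((min_le_right _ _).trans (min_le_right _ _)))
  have hσr0 : 0 < σ * r := mul_pos hσ hr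
  have p0 : δ < κ := by linarith
  have p1 : δ * (σ * r) < κ * (σ * r) := mul_lt_mul_of_pos_right p0 hσr0
  have p2 : κ * (σ * r) < 1 * (σ * r) := mul_lt_mul_of_pos_right hκ4 hσr0
  have p3 : 0 ≤ δ * (σ * r) := mul_nonneg hδ hσr0.le
  have p4 : 0 < Λ * r := mul_pos hΛ0 hr
  have p5 : 2 * (Λ * δ) * r < κ * r := mul_lt_mul_of_pos_right hκ1 hr
  have p6 : κ * r < 1 * r := mul_lt_mul_of_pos_right hκ4 hr
  have p7 : 0 ≤ δ * r := mul_nonneg hδ hr.le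
  have p8 : 1 * r ≤ Λ * r := mul_le_mul_of_nonneg_right hΛ hr.le
  have p9 : 1 * (δ * r) ≤ Λ * (δ * r) := mul_le_mul_of_nonneg_right hΛ p7
  have hs1 : ∀ y, ‖A.symm y‖ ≤ σ⁻¹ * ‖y‖ := by
    intro y
    have := (hA1 (A.symm y)).1
    rw [LinearEquiv.apply_symm_apply] at this
    rw [inv_mul_eq_div, le_div_iff₀ hσ]
    linarith
  have hs2 : ∀ y, (Λ * σ)⁻¹ * ‖y‖ ≤ ‖A.symm y‖ := by
    intro y
    have := (hA1 (A.symm y)).2
    rw [LinearEquiv.apply_symm_apply] at this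
    rw [inv_mul_eq_div, div_le_iff₀ (by positivity)]
    linarith
  obtain ⟨n1, n2⟩ := M9_ell_norm (A.symm : E →ₗ[ℝ] E) hv hσr0 (l := (Λ * σ)⁻¹) (by positivity) (L := σ⁻¹) hs1 hs2
  have hell := M9_ell (A.symm : E →ₗ[ℝ] E) v (σ * r)
  have hzn : ∀ θ : ℝ, ‖(((σ * r : ℝ) : ℂ) * cis θ : ℂ)‖ = σ * r := by
    intro θ
    rw [norm_mul, cis_norm, mul_one, Complex.norm_real, Real.norm_eq_abs, abs_of_pos hσr0]
  have hzv : ∀ θ : ℝ, ‖(((σ * r : ℝ) : ℂ) * cis θ : ℂ) • v‖ = σ * r := by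
    intro θ
    rw [norm_smul, hzn, hv, mul_one]
  have hn2 : 2 * σ⁻¹ * (σ * r) = 2 * r := by
    field_simp
  rw [hn2] at n2
  refine ⟨σ * r, hσr0, e5, _, _, (κ - δ) * r / Λ, n1, ?_, ?_, ?_, ?_⟩
  · refine lt_of_le_of_lt n2 ?_
    linarith
  · have h7 : (κ - δ) / (2 * Λ) * (2 * r) = (κ - δ) * r / Λ := by
      field_simp
    rw [← h7]
    apply mul_le_mul_of_nonneg_left n2
    apply div_nonneg <;> linarith
  · intro θ
    rw [hell θ]
    set y : E := (((σ * r : ℝ) : ℂ) * cis θ : ℂ) • v with hy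
    have hyn : ‖y‖ ≤ σ * r := (hzv θ).le
    have hWc : Metric.closedBall (0 : E) (σ * r) ⊆ W :=
      subset_trans (Metric.closedBall_subset_closedBall e2.le) hRW'
    have hψy : ‖ψ y‖ ≤ 2 * r := by
      refine M9_ivt (φ := φ) (by positivity) h.cψ hWc h.ψ0 (fun y hy => h.ri hy) ?_ hyn
      intro x hx
      have a1 := hA2 x (by rw [hx]; linarith)
      have a2 := (hA1 x).1
      rw [hx] at a2
      have a3 : ‖A x‖ ≤ ‖φ x‖ + ‖φ x - A x‖ := by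
        have : A x = φ x - (φ x - A x) := by abel
        calc ‖A x‖ = ‖φ x - (φ x - A x)‖ := by rw [← this]
          _ ≤ _ := norm_sub_le _ _
      linarith
    have hyW : y ∈ W := hWc (mem_closedBall_zero_iff.2 hyn)
    have hφψ : φ (ψ y) = y := h.ri hyW
    have b1 := hA2 (ψ y) (by linarith)
    rw [hφψ] at b1
    have b2 := (hA1 (ψ y - A.symm y)).1
    rw [map_sub, LinearEquiv.apply_symm_apply, norm_sub_rev (A (ψ y)) y] at b2
    have b4 : σ * ‖ψ y - A.symm y‖ ≤ σ * (δ * r) := by linarith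
    have b5 : ‖ψ y - A.symm y‖ ≤ δ * r := le_of_mul_le_mul_left b4 hσ
    have b6 : ‖ψ y - (A.symm : E →ₗ[ℝ] E) y‖ ≤ δ * r := b5
    refine lt_of_le_of_lt b6 ?_
    rw [lt_div_iff₀ hΛ0]
    linarith
  · intro θ x hx
    rw [hell θ] at hx
    set y : E := (((σ * r : ℝ) : ℂ) * cis θ : ℂ) • v with hy
    have hx' : ‖x - A.symm y‖ < (κ - δ) * r / Λ := hx
    have hyn : ‖y‖ = σ * r := hzv θ
    have b1 := hs1 y
    rw [hyn] at b1
    have b2 : σ⁻¹ * (σ * r) = r := by field_simp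
    rw [b2] at b1
    have b3 : (κ - δ) * r / Λ ≤ r := by
      rw [div_le_iff₀ hΛ0]
      linarith
    have hxn : ‖x‖ ≤ 2 * r := by
      have : x = (x - A.symm y) + A.symm y := by abel
      calc ‖x‖ = ‖(x - A.symm y) + A.symm y‖ := by rw [← this]
        _ ≤ ‖x - A.symm y‖ + ‖A.symm y‖ := norm_add_le _ _
        _ ≤ 2 * r := by linarith
    have hxV : x ∈ V := hRV' (mem_closedBall_zero_iff.2 (by linarith))
    have c1 := hA2 x (by linarith)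
    have c2 := (hA1 (x - A.symm y)).2
    rw [map_sub, LinearEquiv.apply_symm_apply] at c2
    have c3 : ‖φ x - y‖ ≤ ‖φ x - A x‖ + ‖A x - y‖ := by
      have : φ x - y = (φ x - A x) + (A x - y) := by abel
      rw [this]
      exact norm_add_le _ _
    have c4 : Λ * σ * ‖x - A.symm y‖ ≤ Λ * σ * ((κ - δ) * r / Λ) :=
      mul_le_mul_of_nonneg_left hx'.le (by positivity)
    have c5 : Λ * σ * ((κ - δ) * r / Λ) = (κ - δ) * (σ * r) := by
      field_simp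
    have c6 : ‖φ x - y‖ ≤ κ * (σ * r) := by linarith
    have c7 := hne (((σ * r : ℝ) : ℂ) * cis θ) (φ x) (by rw [hzn]; exact hσr0) (by rw [hzn]; exact e4)
      (by rw [hzn]; exact c6)
    intro hfx
    apply c7
    rw [← h.zs _ hxV]
    exact hfx

theorem alm_lin_eq {f g : E → ℂ} {φ ψ : E → E} {V W : Set E} (hf : Red f) (hg : Red g) (h : Equ f g φ ψ V W) {k m : ℕ}
    {P Q : E → ℂ} (hk : Lead f k P) (hm : Lead g m Q) {Λ δ : ℝ} (hΛ : 1 ≤ Λ) (hδ : 0 ≤ δ) (h1 : 8 * Λ * δ * k < 1)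
    (h2 : 8 * Λ * δ * m < 1) (hA : AlmLin φ Λ δ) : k = m := by
  refine le_antisymm (alm_half1 hf hg h hk hm hΛ hδ ?_ hA) (alm_half2 hf hg h hk hm hΛ hδ h2 hA)
  have : (0:ℝ) ≤ k := Nat.cast_nonneg k
  have h3 : δ * k ≤ Λ * (δ * k) := by nlinarith [mul_nonneg hδ this]
  nlinarith

end Zr
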