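import Mathlib

set_option autoImplicit false

/-!
# Zr, module RA1: derivatives of complex differentiable functions of several variables are differentiable

`RA_fderiv_diff`: let `x0 ∈ U`, `closedBall x0 (3 R) ⊆ U`, `‖f‖ ≤ M` there (continuity, finite dimension). Cauchy estimate along complex lines: `‖fderiv ℂ f y‖ ≤ M / R` for
`y ∈ closedBall x0 (2 R)`. For `v` with `0 < ‖v‖`, `ρ = R / ‖v‖`: `fderiv ℂ f x v = (2 π i)⁻¹ ∮ ζ in C(0, ρ), f (x + ζ • v) / ζ ^ 2` for `x ∈ ball x0 R`. Differentiate under the integral sign.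
`RA_cauchy`: the Cauchy estimate for maps into a complete complex space.
-/

noncomputable section

namespace Zr

open Filter Topology Set

variable {E : Type*} [NormedAddCommGroup E] [NormedSpace ℂ E]

/-- the derivative along a complex line -/
theorem RA_line {F : Type*} [NormedAddCommGroup F] [NormedSpace ℂ F] {f : E → F} {x v : E}
    (hf : DifferentiableAt ℂ f x) : HasDerivAt (fun ζ : ℂ => f (x + ζ • v)) (fderiv ℂ f x v) 0 := by
  have h1 : HasDerivAt (fun ζ : ℂ => x + ζ • v) v 0 := by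
    simpa using ((hasDerivAt_id (0 : ℂ)).smul_const v).const_add x
  have h2 : HasFDerivAt f (fderiv ℂ f x) (x + (0 : ℂ) • v) := by
    simpa using hf.hasFDerivAt
  exact h2.comp_hasDerivAt (0 : ℂ) h1

theorem RA_cauchy {F : Type*} [NormedAddCommGroup F] [NormedSpace ℂ F] [CompleteSpace F] {f : E → F} {x : E} {r M : ℝ} (hr : 0 < r)
    (hf : ∀ y ∈ Metric.closedBall x r, DifferentiableAt ℂ f y) (hM : ∀ y ∈ Metric.closedBall x r, ‖f y‖ ≤ M) :
    ‖fderiv ℂ f x‖ ≤ M / r := by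
  have hM0 : 0 ≤ M := (norm_nonneg _).trans (hM x (Metric.mem_closedBall_self hr.le))
  refine ContinuousLinearMap.opNorm_le_bound _ (by positivity) fun v => ?_
  rcases eq_or_ne v 0 with rfl | hv
  · simp
  have hv0 : 0 < ‖v‖ := norm_pos_iff.2 hv
  have hmem : ∀ ζ : ℂ, ζ ∈ Metric.closedBall (0 : ℂ) (r / ‖v‖) → x + ζ • v ∈ Metric.closedBall x r := by
    intro ζ hζ
    rw [mem_closedBall_zero_iff] at hζ
    rw [mem_closedBall_iff_norm, add_sub_cancel_left, norm_smul]
    calc ‖ζ‖ * ‖v‖ ≤ r / ‖v‖ * ‖v‖ := by gcongr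
      _ = r := div_mul_cancel₀ _ hv0.ne'
  have hd : ∀ ζ ∈ Metric.closedBall (0 : ℂ) (r / ‖v‖), DifferentiableAt ℂ (fun ζ : ℂ => f (x + ζ • v)) ζ := by
    intro ζ hζ
    have h1 : DifferentiableAt ℂ (fun ζ : ℂ => x + ζ • v) ζ := by fun_prop
    exact (hf _ (hmem ζ hζ)).comp ζ h1
  have hR : 0 < r / ‖v‖ := by positivity
  have h1 : DiffContOnCl ℂ (fun ζ : ℂ => f (x + ζ • v)) (Metric.ball (0 : ℂ) (r / ‖v‖)) := by
    refine ⟨fun ζ hζ => (hd ζ (Metric.ball_subset_closedBall hζ)).differentiableWithinAt, ?_⟩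
    rw [closure_ball _ hR.ne']
    exact fun ζ hζ => (hd ζ hζ).continuousAt.continuousWithinAt
  have h2 := Complex.norm_deriv_le_of_forall_mem_sphere_norm_le hR h1
    (fun ζ hζ => hM _ (hmem ζ (Metric.sphere_subset_closedBall hζ)))
  rw [(RA_line (hf x (Metric.mem_closedBall_self hr.le))).deriv] at h2
  calc ‖fderiv ℂ f x v‖ ≤ M / (r / ‖v‖) := h2
    _ = M / r * ‖v‖ := by field_simp

variable [FiniteDimensional ℂ E]

theorem RA_fderiv_diff {U : Set E} (hU : IsOpen U) {f : E → ℂ} (hf : DifferentiableOn ℂ f U) (v : E) :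
    DifferentiableOn ℂ (fun x => fderiv ℂ f x v) U := by
  intro x0 hx0
  refine DifferentiableAt.differentiableWithinAt ?_
  rcases eq_or_ne v 0 with rfl | hv
  · simp
  have hv0 : 0 < ‖v‖ := norm_pos_iff.2 hv
  have : ProperSpace E := FiniteDimensional.proper ℂ E
  have hdf : ∀ y ∈ U, DifferentiableAt ℂ f y := fun y hy => hf.differentiableAt (hU.mem_nhds hy)
  obtain ⟨R, hR, hRU⟩ : ∃ R : ℝ, 0 < R ∧ Metric.closedBall x0 (3 * R) ⊆ U := by
    obtain ⟨ε, hε, h⟩ := Metric.isOpen_iff.1 hU x0 hx0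
    refine ⟨ε / 6, by positivity, fun y hy => h ?_⟩
    rw [Metric.mem_closedBall] at hy
    rw [Metric.mem_ball]
    linarith
  obtain ⟨M, hM⟩ : ∃ M : ℝ, ∀ y ∈ Metric.closedBall x0 (3 * R), ‖f y‖ ≤ M :=
    (isCompact_closedBall x0 (3 * R)).exists_bound_of_continuousOn (hf.continuousOn.mono hRU)
  have hM0 : 0 ≤ M := (norm_nonneg _).trans (hM x0 (Metric.mem_closedBall_self (by positivity)))
  -- Cauchy estimate
  have hC : ∀ y ∈ Metric.closedBall x0 (2 * R), ‖fderiv ℂ f y‖ ≤ M / R := by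
    intro y hy
    have hsub : Metric.closedBall y R ⊆ Metric.closedBall x0 (3 * R) := by
      refine Metric.closedBall_subset_closedBall' ?_
      rw [Metric.mem_closedBall] at hy
      linarith
    exact RA_cauchy hR (fun z hz => hdf z (hRU (hsub hz))) (fun z hz => hM z (hsub hz))
  set ρ : ℝ := R / ‖v‖ with hρdef
  have hρ : 0 < ρ := by positivity
  have hρv : ρ * ‖v‖ = R := div_mul_cancel₀ _ hv0.ne'
  have hmem : ∀ x ∈ Metric.ball x0 R, ∀ ζ : ℂ, ‖ζ‖ ≤ ρ → x + ζ • v ∈ Metric.closedBall x0 (2 * R) := by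
    intro x hx ζ hζ
    rw [mem_ball_iff_norm] at hx
    rw [mem_closedBall_iff_norm]
    have h1 : ‖ζ • v‖ ≤ R := by
      rw [norm_smul, ← hρv]
      gcongr
    calc ‖x + ζ • v - x0‖ = ‖(x - x0) + ζ • v‖ := by congr 1; abel
      _ ≤ ‖x - x0‖ + ‖ζ • v‖ := norm_add_le _ _
      _ ≤ 2 * R := by linarith
  have h23 : Metric.closedBall x0 (2 * R) ⊆ Metric.closedBall x0 (3 * R) :=
    Metric.closedBall_subset_closedBall (by linarith)
  have hmemU : ∀ x ∈ Metric.ball x0 R, ∀ ζ : ℂ, ‖ζ‖ ≤ ρ → x + ζ • v ∈ U :=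
    fun x hx ζ hζ => hRU (h23 (hmem x hx ζ hζ))
  -- Cauchy's formula
  have hform : ∀ x ∈ Metric.ball x0 R, fderiv ℂ f x v =
      (2 * Real.pi * Complex.I : ℂ)⁻¹ • ∮ z in C(0, ρ), ((z - 0) ^ 2)⁻¹ • f (x + z • v) := by
    intro x hx
    have hxU : x ∈ U := by simpa using hmemU x hx 0 (by simpa using hρ.le)
    have hc : Continuous fun ζ : ℂ => x + ζ • v := by fun_prop
    have h1 := Complex.two_pi_I_inv_smul_circleIntegral_sub_sq_inv_smul_of_differentiable
      (U := (fun ζ : ℂ => x + ζ • v) ⁻¹' U) (hU.preimage hc) (c := 0) (w₀ := 0) (R := ρ)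
      (f := fun ζ : ℂ => f (x + ζ • v))
      (fun ζ hζ => hmemU x hx ζ (by simpa using hζ))
      (fun ζ hζ => ((hdf _ hζ).comp ζ (by fun_prop : DifferentiableAt ℂ (fun ζ : ℂ => x + ζ • v) ζ)).differentiableWithinAt)
      (Metric.mem_ball_self hρ)
    rw [h1, (RA_line (hdf x hxU)).deriv]
  have hev : (fun x => fderiv ℂ f x v) =ᶠ[𝓝 x0]
      fun x => (2 * Real.pi * Complex.I : ℂ)⁻¹ • ∮ z in C(0, ρ), ((z - 0) ^ 2)⁻¹ • f (x + z • v) := by
    filter_upwards [Metric.ball_mem_nhds x0 hR] with x hx using hform x hx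
  suffices hgoal : DifferentiableAt ℂ (fun x : E => ∮ z in C(0, ρ), ((z - 0) ^ 2)⁻¹ • f (x + z • v)) x0 from
    (hgoal.const_smul (2 * Real.pi * Complex.I : ℂ)⁻¹).congr_of_eventuallyEq hev
  -- differentiation under the integral sign
  have hcm : ∀ θ : ℝ, ‖circleMap 0 ρ θ‖ = ρ := fun θ => by
    rw [norm_circleMap_zero, abs_of_pos hρ]
  have hcm0 : ∀ θ : ℝ, circleMap 0 ρ θ ≠ 0 := fun θ => by
    rw [← norm_pos_iff, hcm]; exact hρ
  set c : ℝ → ℂ := fun θ => deriv (circleMap 0 ρ) θ * ((circleMap 0 ρ θ - 0) ^ 2)⁻¹ with hcdef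
  have hccont : Continuous c := by
    have h1 : Continuous (circleMap (0 : ℂ) ρ) := continuous_circleMap 0 ρ
    have h2 : Continuous fun θ : ℝ => circleMap (0 : ℂ) ρ θ * Complex.I := by fun_prop
    have h3 : Continuous fun θ : ℝ => ((circleMap (0 : ℂ) ρ θ - 0) ^ 2)⁻¹ := by
      refine Continuous.inv₀ (by fun_prop) fun θ => ?_
      rw [sub_zero]
      exact pow_ne_zero 2 (hcm0 θ)
    refine (h2.mul h3).congr fun θ => ?_
    rw [hcdef]
    simp only [deriv_circleMap]
    rfl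
  have hcnorm : ∀ θ, ‖c θ‖ = 1 / ρ := by
    intro θ
    rw [hcdef]
    simp only [deriv_circleMap, norm_mul, norm_inv, norm_pow, sub_zero, hcm, Complex.norm_I]
    field_simp
  have hint : (fun x : E => ∮ z in C(0, ρ), ((z - 0) ^ 2)⁻¹ • f (x + z • v)) =
      fun x => ∫ θ in (0 : ℝ)..(2 * Real.pi), c θ • f (x + circleMap 0 ρ θ • v) := by
    funext x
    rw [circleIntegral]
    refine intervalIntegral.integral_congr fun θ _ => ?_
    simp only [hcdef, smul_eq_mul, mul_assoc]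
  rw [hint]
  borelize E
  have : ProperSpace (E →L[ℂ] ℂ) := FiniteDimensional.proper ℂ _
  have hFc : ∀ x ∈ Metric.ball x0 R, Continuous fun θ : ℝ => c θ • f (x + circleMap 0 ρ θ • v) := by
    intro x hx
    refine hccont.smul ?_
    rw [continuous_iff_continuousAt]
    intro θ
    have h1 : ContinuousAt (fun θ : ℝ => x + circleMap 0 ρ θ • v) θ := by
      have : Continuous (circleMap (0 : ℂ) ρ) := continuous_circleMap 0 ρ
      fun_prop
    exact ContinuousAt.comp (f := fun θ : ℝ => x + circleMap 0 ρ θ • v)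
      (hdf _ (hmemU x hx _ (hcm θ).le)).continuousAt h1
  have key := intervalIntegral.hasFDerivAt_integral_of_dominated_of_fderiv_le (𝕜 := ℂ) (μ := MeasureTheory.volume)
    (a := 0) (b := 2 * Real.pi) (x₀ := x0)
    (F := fun x θ => c θ • f (x + circleMap 0 ρ θ • v))
    (F' := fun x θ => c θ • fderiv ℂ f (x + circleMap 0 ρ θ • v)) (bound := fun _ => 1 / ρ * (M / R))
    (Metric.ball_mem_nhds x0 hR) ?_ ?_ ?_ ?_ ?_ ?_
  · exact key.differentiableAt
  · filter_upwards [Metric.ball_mem_nhds x0 hR] with x hx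
    exact (hFc x hx).aestronglyMeasurable
  · exact (hFc x0 (Metric.mem_ball_self hR)).intervalIntegrable _ _
  · have h1 : Measurable fun θ : ℝ => fderiv ℂ f (x0 + circleMap 0 ρ θ • v) := by
      have h2 : Continuous fun θ : ℝ => x0 + circleMap 0 ρ θ • v := by
        have : Continuous (circleMap (0 : ℂ) ρ) := continuous_circleMap 0 ρ
        fun_prop
      exact (measurable_fderiv ℂ f).comp h2.measurable
    exact (hccont.measurable.smul h1).aestronglyMeasurable
  · refine Eventually.of_forall fun θ _ x hx => ?_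
    rw [norm_smul, hcnorm]
    gcongr
    exact hC _ (hmem x hx _ (hcm θ).le)
  · exact intervalIntegrable_const
  · refine Eventually.of_forall fun θ _ x hx => ?_
    have h1 : HasFDerivAt f (fderiv ℂ f (x + circleMap 0 ρ θ • v)) (x + circleMap 0 ρ θ • v) :=
      (hdf _ (hmemU x hx _ (hcm θ).le)).hasFDerivAt
    have h3 : HasFDerivAt (fun x : E => x + circleMap 0 ρ θ • v) (ContinuousLinearMap.id ℂ E) x :=
      (hasFDerivAt_id (𝕜 := ℂ) x).add_const (circleMap 0 ρ θ • v)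
    have h2 : HasFDerivAt (fun x => f (x + circleMap 0 ρ θ • v)) (fderiv ℂ f (x + circleMap 0 ρ θ • v)) x := by
      have h4 := HasFDerivAt.comp (f := fun x : E => x + circleMap 0 ρ θ • v) x h1 h3
      rw [ContinuousLinearMap.comp_id] at h4
      exact h4
    exact h2.const_smul (c θ)

end Zr
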