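import Pool.Agent.helper60.Zr.RA1

set_option autoImplicit false

/-!
# Zr, module RA2: complex differentiable functions of several variables are analytic

`diff_an`. (1) `ContDiffOn ℂ n f U` for every natural number `n`: induction; `fderiv ℂ f` is differentiable on `U` as a map into `E →L[ℂ] ℂ`, because all `fderiv ℂ f · v` are (`RA_fderiv_diff`) and `E` is finite dimensional (choose a basis, or
`contDiffOn_clm_apply`, `contDiffOn_succ_iff_fderiv_of_isOpen`; prove the induction for all `f` at once: `fderiv ℂ f · v` is again differentiable on `U`).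
(2) Let `closedBall x (2 r) ⊆ U`, `‖f‖ ≤ M` there. Iterated Cauchy estimate (`RA_cauchy` for `iteratedFDeriv ℂ j f`, radius `r / n`, `j < n`): `‖iteratedFDeriv ℂ n f x‖ ≤ M * (n / r) ^ n`, so
`‖(n !)⁻¹ • iteratedFDeriv ℂ n f x‖ ≤ M * (e / r) ^ n` (`n ^ n ≤ e ^ n * n !`: `Real.pow_le_exp...` or `Real.add_pow_le_pow_mul_pow_of_add_eq...`; from `n ^ n / n ! ≤ exp n`, one term of the exponential series: `Real.pow_div_factorial_le_exp`).
(3) For `‖h‖ < r / e` the function `t ↦ f (x + t • h)` is holomorphic for `‖t‖ < r / ‖h‖`, so its Taylor series (`Complex.hasSum_taylorSeries_on_ball`) at `t = 1` gives `f (x + h) = ∑ (n !)⁻¹ • iteratedFDeriv ℂ n f x (fun _ => h)`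
(`iteratedDeriv` of `t ↦ f (x + t • h)` at `0` is `iteratedFDeriv ℂ n f x (fun _ => h)`: induction on `n`, or `iteratedDeriv_comp...`).
So `HasFPowerSeriesOnBall` with `p n = (n !)⁻¹ • iteratedFDeriv ℂ n f x`.
-/

noncomputable section

namespace Zr

open Filter Topology Set

variable {E : Type*} [NormedAddCommGroup E] [NormedSpace ℂ E] [FiniteDimensional ℂ E]

theorem RA2_contDiffOn {U : Set E} (hU : IsOpen U) (n : ℕ) : ∀ {f : E → ℂ}, DifferentiableOn ℂ f U → ContDiffOn ℂ n f U := by
  induction n with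
  | zero =>
    intro f hf
    have h := contDiffOn_zero (𝕜 := ℂ) (s := U) (f := f)
    exact_mod_cast h.2 hf.continuousOn
  | succ n ih =>
    intro f hf
    have h : ContDiffOn ℂ ((n : WithTop ℕ∞) + 1) f U := by
      rw [contDiffOn_succ_iff_fderiv_of_isOpen hU]
      refine ⟨hf, fun h => ?_, ?_⟩
      · exact absurd h (by simp)
      · rw [contDiffOn_clm_apply]
        intro y
        exact ih (RA_fderiv_diff hU hf y)
    exact_mod_cast h

theorem RA2_diff_iter {U : Set E} (hU : IsOpen U) {f : E → ℂ} (hf : DifferentiableOn ℂ f U) (n : ℕ) {x : E} (hx : x ∈ U) :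
    DifferentiableAt ℂ (iteratedFDeriv ℂ n f) x := by
  have h1 : ContDiffAt ℂ ((n + 1 : ℕ) : WithTop ℕ∞) f x := (RA2_contDiffOn hU (n + 1) hf).contDiffAt (hU.mem_nhds hx)
  refine h1.differentiableAt_iteratedFDeriv ?_
  exact_mod_cast Nat.lt_succ_self n

theorem RA2_iter_bound {U : Set E} (hU : IsOpen U) {f : E → ℂ} (hf : DifferentiableOn ℂ f U) {x : E} {r M : ℝ} (hr : 0 < r)
    (hB : Metric.closedBall x r ⊆ U) (hM : ∀ y ∈ Metric.closedBall x r, ‖f y‖ ≤ M) {n : ℕ} (hn : 0 < n) (j : ℕ) (hj : j ≤ n) :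
    ∀ y ∈ Metric.closedBall x ((n - j : ℝ) * (r / n)), ‖iteratedFDeriv ℂ j f y‖ ≤ M * (n / r) ^ j := by
  have hn' : (0 : ℝ) < n := by exact_mod_cast hn
  have hδ : 0 < r / n := div_pos hr hn'
  induction j with
  | zero =>
    intro y hy
    have hy' : y ∈ Metric.closedBall x r := by
      have e : ((n : ℝ) - ((0 : ℕ) : ℝ)) * (r / n) = r := by
        push_cast
        field_simp
        ring
      rwa [e] at hy
    simpa using hM y hy'
  | succ j ih =>
    intro y hy
    have hj' : j ≤ n := by omega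
    have ih' := ih hj'
    have hsub : ∀ z ∈ Metric.closedBall y (r / n), z ∈ Metric.closedBall x ((n - j : ℝ) * (r / n)) := by
      intro z hz
      rw [Metric.mem_closedBall] at hz hy ⊢
      have h1 : dist z x ≤ dist z y + dist y x := dist_triangle _ _ _
      have h2 : ((n : ℝ) - ((j + 1 : ℕ) : ℝ)) * (r / n) = ((n : ℝ) - j) * (r / n) - r / n := by
        push_cast
        ring
      rw [h2] at hy
      linarith
    have hsubr : ∀ z ∈ Metric.closedBall x ((n - j : ℝ) * (r / n)), z ∈ Metric.closedBall x r := by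
      intro z hz
      rw [Metric.mem_closedBall] at hz ⊢
      refine hz.trans ?_
      have h1 : ((n : ℝ) - j) * (r / n) ≤ n * (r / n) := by
        refine mul_le_mul_of_nonneg_right ?_ hδ.le
        have : (0 : ℝ) ≤ j := Nat.cast_nonneg j
        linarith
      have h2 : (n : ℝ) * (r / n) = r := by field_simp
      linarith
    have h3 := RA_cauchy (f := iteratedFDeriv ℂ j f) (x := y) (r := r / n) (M := M * (n / r) ^ j) hδ
      (fun z hz => RA2_diff_iter hU hf j (hB (hsubr z (hsub z hz)))) (fun z hz => ih' z (hsub z hz))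
    rw [norm_fderiv_iteratedFDeriv] at h3
    refine h3.trans (le_of_eq ?_)
    rw [pow_succ]
    field_simp

theorem RA2_iteratedDeriv {U : Set E} (hU : IsOpen U) {f : E → ℂ} (hf : DifferentiableOn ℂ f U) (x h : E) (n : ℕ) :
    ∀ t : ℂ, x + t • h ∈ U → iteratedDeriv n (fun t : ℂ => f (x + t • h)) t = iteratedFDeriv ℂ n f (x + t • h) (fun _ => h) := by
  induction n with
  | zero =>
    intro t ht
    simp
  | succ n ih =>
    intro t ht
    have hopen : IsOpen {s : ℂ | x + s • h ∈ U} := hU.preimage (by fun_prop)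
    have hev : (iteratedDeriv n (fun t : ℂ => f (x + t • h))) =ᶠ[𝓝 t] fun s => iteratedFDeriv ℂ n f (x + s • h) (fun _ => h) := by
      filter_upwards [hopen.mem_nhds ht] with s hs
      exact ih s hs
    rw [iteratedDeriv_succ, hev.deriv_eq]
    have h1 : HasFDerivAt (iteratedFDeriv ℂ n f) (fderiv ℂ (iteratedFDeriv ℂ n f) (x + t • h)) (x + t • h) :=
      (RA2_diff_iter hU hf n ht).hasFDerivAt
    have h2 : HasDerivAt (fun s : ℂ => x + s • h) h t := by
      simpa using ((hasDerivAt_id t).smul_const h).const_add x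
    have h3 : HasDerivAt (fun s : ℂ => iteratedFDeriv ℂ n f (x + s • h)) (fderiv ℂ (iteratedFDeriv ℂ n f) (x + t • h) h) t :=
      h1.comp_hasDerivAt t h2
    have h4 : HasDerivAt (fun s : ℂ => iteratedFDeriv ℂ n f (x + s • h) (fun _ => h)) ((fderiv ℂ (iteratedFDeriv ℂ n f) (x + t • h) h) (fun _ => h)) t :=
      (ContinuousMultilinearMap.apply ℂ (fun _ : Fin n => E) ℂ (fun _ => h)).hasFDerivAt.comp_hasDerivAt t h3
    rw [h4.deriv, iteratedFDeriv_succ_apply_left]
    rfl

theorem RA2_point {U : Set E} (hU : IsOpen U) {f : E → ℂ} (hf : DifferentiableOn ℂ f U) {x : E} {r M : ℝ} (hr : 0 < r)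
    (hB : Metric.closedBall x r ⊆ U) (hM : ∀ y ∈ Metric.closedBall x r, ‖f y‖ ≤ M) : AnalyticAt ℂ f x := by
  set p : FormalMultilinearSeries ℂ E ℂ := fun n => ((n.factorial : ℂ))⁻¹ • iteratedFDeriv ℂ n f x with hp
  have hM0 : 0 ≤ M := (norm_nonneg _).trans (hM x (Metric.mem_closedBall_self hr.le))
  have hρ : 0 < r / Real.exp 1 := div_pos hr (Real.exp_pos 1)
  set ρ : NNReal := ⟨r / Real.exp 1, hρ.le⟩ with hρd
  have hρr : (ρ : ℝ) = r / Real.exp 1 := rfl
  have hrad : (ρ : ENNReal) ≤ p.radius := by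
    refine p.le_radius_of_bound M ?_
    intro n
    rcases Nat.eq_zero_or_pos n with hn | hn
    · subst hn
      have h1 : ‖p 0‖ ≤ M := by
        simp only [hp, Nat.factorial_zero, Nat.cast_one, inv_one, one_smul, norm_iteratedFDeriv_zero]
        exact hM x (Metric.mem_closedBall_self hr.le)
      simpa using h1
    · have hn' : (0 : ℝ) < n := by exact_mod_cast hn
      have h1 := RA2_iter_bound hU hf hr hB hM hn n le_rfl x (by
        rw [sub_self, zero_mul]
        exact Metric.mem_closedBall_self le_rfl)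
      have hfac : (0 : ℝ) < (n.factorial : ℝ) := by exact_mod_cast n.factorial_pos
      have h2 : ‖p n‖ = ((n.factorial : ℝ))⁻¹ * ‖iteratedFDeriv ℂ n f x‖ := by
        simp only [hp]
        rw [norm_smul, norm_inv, Complex.norm_natCast]
      have h3 : (n : ℝ) ^ n / (n.factorial : ℝ) ≤ Real.exp n := Real.pow_div_factorial_le_exp n hn'.le n
      have h4 : Real.exp n = Real.exp 1 ^ n := by
        rw [← Real.exp_nat_mul, mul_one]
      rw [h2, hρr]
      calc ((n.factorial : ℝ))⁻¹ * ‖iteratedFDeriv ℂ n f x‖ * (r / Real.exp 1) ^ n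
          ≤ ((n.factorial : ℝ))⁻¹ * (M * (n / r) ^ n) * (r / Real.exp 1) ^ n := by
            gcongr
        _ = M * ((n : ℝ) ^ n / (n.factorial : ℝ)) / Real.exp 1 ^ n := by
            rw [div_pow, div_pow]
            field_simp
        _ ≤ M * Real.exp 1 ^ n / Real.exp 1 ^ n := by
            rw [h4] at h3
            gcongr
        _ = M := by
            have : Real.exp 1 ^ n ≠ 0 := (pow_pos (Real.exp_pos 1) n).ne'
            field_simp
  have hball : HasFPowerSeriesOnBall f p x (ρ : ENNReal) := by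
    refine ⟨hrad, ?_, ?_⟩
    · have : (0 : NNReal) < ρ := hρ
      exact_mod_cast this
    · intro y hy
      have hy' : ‖y‖ < r / Real.exp 1 := by
        rw [Metric.eball_coe, mem_ball_zero_iff] at hy
        exact hy
      have he2 : (2 : ℝ) < Real.exp 1 := by
        have := Real.exp_one_gt_d9
        linarith
      have hy2 : 2 * ‖y‖ ≤ r := by
        have h1 : r / Real.exp 1 ≤ r / 2 := by gcongr
        linarith
      have hg : ∀ t : ℂ, t ∈ Metric.ball (0 : ℂ) 2 → x + t • y ∈ U := by
        intro t ht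
        refine hB ?_
        rw [mem_ball_zero_iff] at ht
        rw [Metric.mem_closedBall, dist_eq_norm, add_sub_cancel_left, norm_smul]
        refine le_trans ?_ hy2
        gcongr
      have hdiff : DifferentiableOn ℂ (fun t : ℂ => f (x + t • y)) (Metric.ball (0 : ℂ) 2) := by
        intro t ht
        have h1 : DifferentiableAt ℂ f (x + t • y) := hf.differentiableAt (hU.mem_nhds (hg t ht))
        have h2 : DifferentiableAt ℂ (fun s : ℂ => x + s • y) t := by fun_prop
        exact (DifferentiableAt.comp t h1 h2).differentiableWithinAt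
      have hsum := Complex.hasSum_taylorSeries_on_ball hdiff (z := 1) (by simp)
      have hU0 : x + (0 : ℂ) • y ∈ U := hg 0 (by simp)
      convert hsum using 2 with n
      · rw [RA2_iteratedDeriv hU hf x y n 0 hU0]
        simp [hp]
      · simp
  exact hball.analyticAt

theorem diff_an {U : Set E} (hU : IsOpen U) {f : E → ℂ} (hf : DifferentiableOn ℂ f U) : AnalyticOnNhd ℂ f U := by
  intro x hx
  obtain ⟨r, hr, hrU⟩ := Metric.isOpen_iff.1 hU x hx
  have hr2 : 0 < r / 2 := by positivity
  have hsub : Metric.closedBall x (r / 2) ⊆ U := (Metric.closedBall_subset_ball (by linarith)).trans hrU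
  have : ProperSpace E := FiniteDimensional.proper ℂ E
  have hcomp : IsCompact (Metric.closedBall x (r / 2)) := isCompact_closedBall x (r / 2)
  obtain ⟨M, hM⟩ := hcomp.exists_bound_of_continuousOn (hf.continuousOn.mono hsub)
  exact RA2_point hU hf hr2 hsub hM

end Zr
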